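import Pool.Agent.Work.MP_a98e4e_ag.Core.Defs

/-!
# The symmetry and the associativity of the tensor product of complexes
-/

set_option autoImplicit false
set_option linter.unusedSectionVars false

open Matrix Kronecker

namespace LicciCx

namespace Cx

variable {R : Type*} [CommRing R] {J J' J'' A : Type*} [Fintype J] [Fintype J'] [Fintype J'']
  [Fintype A] [DecidableEq J] [DecidableEq J'] [DecidableEq J''] [DecidableEq A]

/-- the symmetry `K ⊗ L → L ⊗ K`, with the Koszul sign -/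
def sw (K : Cx R J) (L : Cx R J') : Matrix (J' × J) (J × J') R := fun x y =>
  if x = (y.2, y.1) then ((sg (K.deg y.1 * L.deg y.2) : ℤ) : R) else 0

/-- the associativity `(K ⊗ L) ⊗ M → K ⊗ (L ⊗ M)` -/
def asc (R : Type*) [CommRing R] (J J' J'' : Type*) [DecidableEq J] [DecidableEq J']
    [DecidableEq J''] : Matrix (J × (J' × J'')) ((J × J') × J'') R := fun x y =>
  if x = (y.1.1, (y.1.2, y.2)) then 1 else 0

/-- the inverse associativity -/
def asi (R : Type*) [CommRing R] (J J' J'' : Type*) [DecidableEq J] [DecidableEq J']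
    [DecidableEq J''] : Matrix ((J × J') × J'') (J × (J' × J'')) R := fun x y =>
  if x = ((y.1, y.2.1), y.2.2) then 1 else 0

theorem mul_sw (K : Cx R J) (L : Cx R J') (M : Matrix A (J' × J) R) (a : A) (i : J) (j : J') :
    (M * sw K L) a (i, j) = ((sg (K.deg i * L.deg j) : ℤ) : R) * M a (j, i) := by
  rw [Matrix.mul_apply, Finset.sum_eq_single (j, i)]
  · simp [sw, mul_comm]
  · intro b _ hb; simp [sw, hb]
  · simp

theorem sw_mul (K : Cx R J) (L : Cx R J') (M : Matrix (J × J') A R) (a : A) (i : J) (j : J') :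
    (sw K L * M) (j, i) a = ((sg (K.deg i * L.deg j) : ℤ) : R) * M (i, j) a := by
  rw [Matrix.mul_apply, Finset.sum_eq_single (i, j)]
  · simp [sw]
  · rintro ⟨b, b'⟩ _ hb
    have : ¬ ((j, i) = (b', b)) := by
      intro h; apply hb; rw [Prod.mk.injEq] at h ⊢; exact ⟨h.2.symm, h.1.symm⟩
    simp [sw, this]
  · simp

theorem mul_asc (M : Matrix A (J × (J' × J'')) R) (a : A) (i : J) (j : J') (l : J'') :
    (M * asc R J J' J'') a ((i, j), l) = M a (i, (j, l)) := by
  rw [Matrix.mul_apply, Finset.sum_eq_single (i, (j, l))]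
  · simp [asc]
  · intro b _ hb; simp [asc, hb]
  · simp

theorem asc_mul (M : Matrix ((J × J') × J'') A R) (a : A) (i : J) (j : J') (l : J'') :
    (asc R J J' J'' * M) (i, (j, l)) a = M ((i, j), l) a := by
  rw [Matrix.mul_apply, Finset.sum_eq_single ((i, j), l)]
  · simp [asc]
  · rintro ⟨⟨b, b'⟩, b''⟩ _ hb
    have : ¬ ((i, (j, l)) = (b, (b', b''))) := by
      intro h; apply hb
      simp only [Prod.mk.injEq] at h ⊢
      exact ⟨⟨h.1.symm, h.2.1.symm⟩, h.2.2.symm⟩
    simp only [asc, this, if_false, zero_mul]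
  · simp

theorem mul_asi (M : Matrix A ((J × J') × J'') R) (a : A) (i : J) (j : J') (l : J'') :
    (M * asi R J J' J'') a (i, (j, l)) = M a ((i, j), l) := by
  rw [Matrix.mul_apply, Finset.sum_eq_single ((i, j), l)]
  · simp [asi]
  · intro b _ hb; simp [asi, hb]
  · simp

theorem asi_mul (M : Matrix (J × (J' × J'')) A R) (a : A) (i : J) (j : J') (l : J'') :
    (asi R J J' J'' * M) ((i, j), l) a = M (i, (j, l)) a := by
  rw [Matrix.mul_apply, Finset.sum_eq_single (i, (j, l))]
  · simp [asi]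
  · rintro ⟨b, ⟨b', b''⟩⟩ _ hb
    have : ¬ (((i, j), l) = ((b, b'), b'')) := by
      intro h; apply hb
      simp only [Prod.mk.injEq] at h ⊢
      exact ⟨h.1.1.symm, h.1.2.symm, h.2.symm⟩
    simp only [asi, this, if_false, zero_mul]
  · simp

/-- the product of `f ⊗ 1` -/
theorem mul_kron_one {B : Type*} [Fintype B] (M : Matrix A (J × J') R) (f : Matrix J B R)
    (a : A) (b : B) (j : J') :
    (M * (f ⊗ₖ (1 : Matrix J' J' R))) a (b, j) = ∑ i, M a (i, j) * f i b := by
  rw [Matrix.mul_apply, Fintype.sum_prod_type]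
  refine Finset.sum_congr rfl fun i _ => ?_
  rw [Finset.sum_eq_single j]
  · simp [Matrix.kroneckerMap_apply]
  · intro b' _ hb; simp [Matrix.kroneckerMap_apply, Matrix.one_apply_ne hb]
  · simp

theorem mul_one_kron {B : Type*} [Fintype B] (M : Matrix A (J × J') R) (f : Matrix J' B R)
    (a : A) (b : B) (i : J) :
    (M * ((1 : Matrix J J R) ⊗ₖ f)) a (i, b) = ∑ j, M a (i, j) * f j b := by
  rw [Matrix.mul_apply, Fintype.sum_prod_type, Finset.sum_eq_single i]
  · refine Finset.sum_congr rfl fun j _ => ?_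
    simp [Matrix.kroneckerMap_apply]
  · intro b' _ hb
    refine Finset.sum_eq_zero fun j _ => ?_
    simp [Matrix.kroneckerMap_apply, Matrix.one_apply_ne hb]
  · simp

theorem sg_mul_comm_add_one (m n : ℤ) : sg ((m + 1) * n) = sg n * sg (m * n) := by
  rw [← sg_add]; congr 1; ring

theorem sg_mul_add_one (m n : ℤ) : sg (m * (n + 1)) = sg m * sg (m * n) := by
  rw [← sg_add]; congr 1; ring

theorem tensor_d_apply (K : Cx R J) (L : Cx R J') (i i' : J) (j j' : J') :
    (K.tensor L).d (i, j) (i', j') = K.d i i' * (if j = j' then 1 else 0) +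
      (if i = i' then ((sg (K.deg i) : ℤ) : R) else 0) * L.d j j' := by
  rw [tensor_d, Matrix.add_apply, Matrix.kroneckerMap_apply, Matrix.kroneckerMap_apply,
    Matrix.one_apply, e, ep, Matrix.diagonal_apply]

theorem cl_sw (K : Cx R J) (L : Cx R J') : Cl (K.tensor L) (L.tensor K) 0 (sw K L) := by
  refine Cl.mk0 ?_ ?_
  · rintro ⟨x, y⟩ ⟨i, j⟩ h
    simp only [sw, Prod.mk.injEq]
    rw [if_neg]
    rintro ⟨rfl, rfl⟩
    apply h
    show L.deg x + K.deg y = K.deg y + L.deg x + 0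
    ring
  · ext ⟨x, y⟩ ⟨i, j⟩
    rw [mul_sw, sw_mul, tensor_d_apply, tensor_d_apply]
    have e1 : ∀ m : ℤ, (((sg m : ℤ) : R)) * ((sg m : ℤ) : R) = 1 := fun m => by
      rw [← Int.cast_mul, sg_mul_self, Int.cast_one]
    by_cases h1 : L.deg x = L.deg j + 1
    · by_cases h2 : K.deg y = K.deg i + 1
      · have hx : x ≠ j := by rintro rfl; omega
        have hy : y ≠ i := by rintro rfl; omega
        simp [hx, hy]
      · rw [K.hmg y i h2]
        by_cases hy : y = i
        · subst hy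
          rw [h1, sg_mul_add_one]
          push_cast
          simp only [if_true, mul_one, mul_zero, zero_mul, add_zero, zero_add]
          linear_combination (-(((sg (K.deg y * L.deg j) : ℤ) : R)) * L.d x j) * e1 (K.deg y)
        · simp [hy]
    · rw [L.hmg x j h1]
      by_cases h2 : K.deg y = K.deg i + 1
      · by_cases hx : x = j
        · subst hx
          rw [h2, sg_mul_comm_add_one]
          push_cast
          simp only [if_true, mul_one, mul_zero, zero_mul, add_zero, zero_add]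
          ring
        · simp [hx]
      · rw [K.hmg y i h2]; simp

theorem cl_asc (K : Cx R J) (L : Cx R J') (M : Cx R J'') :
    Cl ((K.tensor L).tensor M) (K.tensor (L.tensor M)) 0 (asc R J J' J'') := by
  refine Cl.mk0 ?_ ?_
  · rintro ⟨x, y, z⟩ ⟨⟨i, j⟩, l⟩ h
    simp only [asc, Prod.mk.injEq]
    rw [if_neg]
    rintro ⟨rfl, rfl, rfl⟩
    apply h
    show K.deg x + (L.deg y + M.deg z) = K.deg x + L.deg y + M.deg z + 0
    ring
  · ext ⟨x, y, z⟩ ⟨⟨i, j⟩, l⟩
    rw [mul_asc, asc_mul, tensor_d_apply, tensor_d_apply, tensor_d_apply, tensor_d_apply]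
    simp only [Prod.mk.injEq]
    have h1 : sg ((K.tensor L).deg (x, y)) = sg (K.deg x) * sg (L.deg y) := by
      rw [tensor_deg, sg_add]
    rw [h1]
    by_cases hx : x = i <;> by_cases hy : y = j <;> by_cases hz : z = l <;>
      simp [hx, hy, hz] <;> ring

theorem cl_asi (K : Cx R J) (L : Cx R J') (M : Cx R J'') :
    Cl (K.tensor (L.tensor M)) ((K.tensor L).tensor M) 0 (asi R J J' J'') := by
  refine Cl.mk0 ?_ ?_
  · rintro ⟨⟨x, y⟩, z⟩ ⟨i, j, l⟩ h
    simp only [asi, Prod.mk.injEq]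
    rw [if_neg]
    rintro ⟨⟨rfl, rfl⟩, rfl⟩
    apply h
    show K.deg x + L.deg y + M.deg z = K.deg x + (L.deg y + M.deg z) + 0
    ring
  · ext ⟨⟨x, y⟩, z⟩ ⟨i, j, l⟩
    rw [mul_asi, asi_mul, tensor_d_apply, tensor_d_apply, tensor_d_apply, tensor_d_apply]
    simp only [Prod.mk.injEq]
    have h1 : sg ((K.tensor L).deg (x, y)) = sg (K.deg x) * sg (L.deg y) := by
      rw [tensor_deg, sg_add]
    rw [h1]
    by_cases hx : x = i <;> by_cases hy : y = j <;> by_cases hz : z = l <;>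
      simp [hx, hy, hz] <;> ring

/-! ### action on decomposable vectors -/

theorem kron_vk {B B' : Type*} [Fintype B] [Fintype B'] (f : Matrix B J R) (g : Matrix B' J' R)
    (x : J → R) (y : J' → R) : (f ⊗ₖ g) *ᵥ vk x y = vk (f *ᵥ x) (g *ᵥ y) :=
  kron_mulVec_tv f g x y

theorem sw_vk (K : Cx R J) (L : Cx R J') {x : J → R} {y : J' → R} (hx : x ∈ K.Z0)
    (hy : y ∈ L.Z0) : sw K L *ᵥ vk x y = vk y x := by
  ext ⟨b, b'⟩
  rw [Matrix.mulVec, dotProduct, Finset.sum_eq_single (b', b)]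
  · simp only [sw, vk, tv, if_true]
    by_cases h1 : K.deg b' = 0
    · by_cases h2 : L.deg b = 0
      · rw [h1, zero_mul, sg_zero, Int.cast_one, one_mul, mul_comm]
      · rw [hy.1 b h2]; simp
    · rw [hx.1 b' h1]; simp
  · rintro ⟨i, j⟩ _ hb
    have : ¬ ((b, b') = (j, i)) := by
      intro h; apply hb; rw [Prod.mk.injEq] at h ⊢; exact ⟨h.2.symm, h.1.symm⟩
    simp [sw, this]
  · simp

theorem asc_vk (x : J → R) (y : J' → R) (z : J'' → R) :
    asc R J J' J'' *ᵥ vk (vk x y) z = vk x (vk y z) := by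
  ext ⟨i, j, l⟩
  rw [Matrix.mulVec, dotProduct, Finset.sum_eq_single ((i, j), l)]
  · simp [asc, vk, tv, mul_assoc]
  · rintro ⟨⟨b, b'⟩, b''⟩ _ hb
    have : ¬ ((i, (j, l)) = (b, (b', b''))) := by
      intro h; apply hb
      simp only [Prod.mk.injEq] at h ⊢
      exact ⟨⟨h.1.symm, h.2.1.symm⟩, h.2.2.symm⟩
    simp only [asc, this, if_false, zero_mul]
  · simp

theorem asi_vk (x : J → R) (y : J' → R) (z : J'' → R) :
    asi R J J' J'' *ᵥ vk x (vk y z) = vk (vk x y) z := by
  ext ⟨⟨i, j⟩, l⟩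
  rw [Matrix.mulVec, dotProduct, Finset.sum_eq_single (i, (j, l))]
  · simp [asi, vk, tv, mul_assoc]
  · rintro ⟨b, ⟨b', b''⟩⟩ _ hb
    have : ¬ (((i, j), l) = ((b, b'), b'')) := by
      intro h; apply hb
      simp only [Prod.mk.injEq] at h ⊢
      exact ⟨h.1.1.symm, h.1.2.symm, h.2.symm⟩
    simp only [asi, this, if_false, zero_mul]
  · simp

theorem vk_mem (K : Cx R J) (L : Cx R J') {x : J → R} {y : J' → R} (hx : x ∈ K.Z0)
    (hy : y ∈ L.Z0) : vk x y ∈ (K.tensor L).Z0 := by
  refine ⟨?_, ?_⟩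
  · rintro ⟨i, j⟩ h
    by_cases h1 : K.deg i = 0
    · have h2 : L.deg j ≠ 0 := by
        intro h2; apply h; show K.deg i + L.deg j = 0; rw [h1, h2, add_zero]
      simp [vk, tv, hy.1 j h2]
    · simp [vk, tv, hx.1 i h1]
  · rw [tensor_d, Matrix.add_mulVec, kron_vk, kron_vk, hx.2, hy.2]
    ext ⟨i, j⟩; simp [vk, tv]

end Cx

end LicciCx
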