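import Pool.Agent.Work.MP_a98e4e_ag.Core.MapsAl
import Pool.Agent.Work.MP_a98e4e_ag.Core.Braid
import Pool.Agent.Work.MP_a98e4e_ag.E.KForm

/-!
# The Casimir identity on the complex `G`: `(L + 12) (L + 28)` is null-homotopic
-/

set_option autoImplicit false
set_option linter.unusedSectionVars false

open Matrix Kronecker RingTheory.Sequence

namespace LicciCx

namespace Cx

universe u v

section cur

variable {R : Type u} [CommRing R] {J JG : Type*} [Fintype J] [Fintype JG] [DecidableEq J]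
  [DecidableEq JG]

theorem e_same (K : Cx R J) (j : J) : K.e j j = ((sg (K.deg j) : ℤ) : R) :=
  Matrix.diagonal_apply_eq _ _

theorem e_ne (K : Cx R J) {i j : J} (h : i ≠ j) : K.e i j = 0 :=
  Matrix.diagonal_apply_ne _ h

/-- currying -/
def cur (al : Matrix J (JG × J) R) : Matrix (J × J) JG R :=
  Matrix.of fun x g => al x.1 (g, x.2)

/-- the value of a bilinear map at the first argument -/
def mt (al : Matrix J (JG × J) R) (z : JG → R) : Matrix J J R :=
  Matrix.of fun m m' => ∑ g, al m (g, m') * z g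

theorem cur_mulVec (al : Matrix J (JG × J) R) (z : JG → R) : cur al *ᵥ z = vec (mt al z) := by
  ext ⟨m, m'⟩
  rfl

theorem mt_mulVec (al : Matrix J (JG × J) R) (z : JG → R) (v : J → R) :
    mt al z *ᵥ v = al *ᵥ vk z v := by
  ext m
  simp only [mt, Matrix.mulVec, dotProduct, Matrix.of_apply, vk, tv, Fintype.sum_prod_type]
  rw [Finset.sum_comm]
  refine Finset.sum_congr rfl fun m' _ => ?_
  rw [Finset.sum_mul]
  refine Finset.sum_congr rfl fun g _ => ?_
  ring

theorem cl_cur {X : Cx R J} {G : Cx R JG} {al : Matrix J (JG × J) R}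
    (hal : Cl (G.tensor X) X 0 al) : Cl G (Hom X X) 0 (cur al) := by
  refine Cl.mk0 ?_ ?_
  · rintro ⟨m, m'⟩ g h
    refine hal.hmg m (g, m') ?_
    rw [tensor_deg]
    intro h2
    apply h
    rw [Hom_deg]
    simp only at h2 ⊢
    omega
  · ext ⟨m, m'⟩ g
    have h1 := congrFun (congrFun hal.comm0 m) (g, m')
    simp only [Matrix.mul_apply, Fintype.sum_prod_type, tensor_d, Matrix.add_apply,
      Matrix.kroneckerMap_apply] at h1
    simp only [Matrix.mul_apply, Fintype.sum_prod_type, Hom, tensor_d, dual_d, Matrix.add_apply,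
      Matrix.kroneckerMap_apply, cur, Matrix.of_apply, Matrix.neg_apply, Matrix.transpose_apply]
    have e1 : ∀ x : J, ∑ y, (X.d m x * (1 : Matrix J J R) m' y +
        X.e m x * -(∑ j, X.e y j * X.d j m')) * al x (g, y) =
        X.d m x * al x (g, m') - X.e m x * ∑ y, (∑ j, X.e y j * X.d j m') * al x (g, y) := by
      intro x
      have e2 : ∀ y : J, (X.d m x * (1 : Matrix J J R) m' y +
          X.e m x * -(∑ j, X.e y j * X.d j m')) * al x (g, y) =
          X.d m x * ((1 : Matrix J J R) m' y * al x (g, y)) -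
            X.e m x * ((∑ j, X.e y j * X.d j m') * al x (g, y)) := by
        intro y; ring
      rw [Finset.sum_congr rfl fun y _ => e2 y, Finset.sum_sub_distrib, ← Finset.mul_sum,
        ← Finset.mul_sum]
      congr 2
      rw [Finset.sum_eq_single m']
      · rw [Matrix.one_apply_eq, one_mul]
      · intro y _ hy
        rw [Matrix.one_apply_ne hy.symm, zero_mul]
      · intro h; exact absurd (Finset.mem_univ _) h
    rw [Finset.sum_congr rfl fun x _ => e1 x, Finset.sum_sub_distrib, h1]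
    have e3 : ∀ x : JG, ∑ y, al m (x, y) * (G.d x g * (1 : Matrix J J R) y m' +
        G.e x g * X.d y m') = al m (x, m') * G.d x g + G.e x g * ∑ y, al m (x, y) * X.d y m' := by
      intro x
      have e2 : ∀ y : J, al m (x, y) * (G.d x g * (1 : Matrix J J R) y m' + G.e x g * X.d y m') =
          al m (x, y) * (1 : Matrix J J R) y m' * G.d x g +
            G.e x g * (al m (x, y) * X.d y m') := by
        intro y; ring
      rw [Finset.sum_congr rfl fun y _ => e2 y, Finset.sum_add_distrib, ← Finset.sum_mul,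
        ← Finset.mul_sum]
      congr 2
      rw [Finset.sum_eq_single m']
      · rw [Matrix.one_apply_eq, mul_one]
      · intro y _ hy
        rw [Matrix.one_apply_ne hy, mul_zero]
      · intro h; exact absurd (Finset.mem_univ _) h
    rw [Finset.sum_congr rfl fun x _ => e3 x, Finset.sum_add_distrib, add_sub_assoc]
    have e4 : ∑ x, G.e x g * ∑ y, al m (x, y) * X.d y m' =
        ((sg (G.deg g) : ℤ) : R) * ∑ y, al m (g, y) * X.d y m' := by
      rw [Finset.sum_eq_single g]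
      · rw [e_same]
      · intro x _ hx
        rw [e_ne _ hx, zero_mul]
      · intro h; exact absurd (Finset.mem_univ _) h
    have e5 : ∑ x, X.e m x * ∑ y, (∑ j, X.e y j * X.d j m') * al x (g, y) =
        ((sg (X.deg m) : ℤ) : R) * ∑ y, ((sg (X.deg y) : ℤ) : R) * X.d y m' * al m (g, y) := by
      rw [Finset.sum_eq_single m]
      · rw [e_same]
        congr 1
        refine Finset.sum_congr rfl fun y _ => ?_
        congr 1
        rw [Finset.sum_eq_single y]
        · rw [e_same]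
        · intro j _ hj
          rw [e_ne _ hj.symm, zero_mul]
        · intro h; exact absurd (Finset.mem_univ _) h
      · intro x _ hx
        rw [e_ne _ hx.symm, zero_mul]
      · intro h; exact absurd (Finset.mem_univ _) h
    rw [e4, e5]
    have e6 : ((sg (G.deg g) : ℤ) : R) * ∑ y, al m (g, y) * X.d y m' =
        ((sg (X.deg m) : ℤ) : R) * ∑ y, ((sg (X.deg y) : ℤ) : R) * X.d y m' * al m (g, y) := by
      rw [Finset.mul_sum, Finset.mul_sum]
      refine Finset.sum_congr rfl fun y _ => ?_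
      by_cases h : X.deg m = G.deg g + X.deg y
      · have h2 : ((sg (X.deg m) : ℤ) : R) * ((sg (X.deg y) : ℤ) : R) =
            ((sg (G.deg g) : ℤ) : R) := by
          rw [h, sg_add]
          push_cast
          rw [mul_assoc, ← Int.cast_mul (sg (X.deg y)), sg_mul_self, Int.cast_one, mul_one]
        rw [← h2]; ring
      · have h3 : al m (g, y) = 0 := hal.hmg m (g, y) (by
          rw [tensor_deg]; intro h4; apply h; simp only at h4; omega)
        rw [h3]; ring
    rw [e6, sub_self, add_zero]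

theorem Z0_map {X : Cx R J} {G : Cx R JG} {f : Matrix JG J R} (hf : Cl X G 0 f) {z : J → R}
    (hz : z ∈ X.Z0) : f *ᵥ z ∈ G.Z0 := by
  refine ⟨?_, ?_⟩
  · have h1 : Vh X 0 z := hz.1
    exact (Vh.mulVec hf.hmg h1)
  · rw [Matrix.mulVec_mulVec, hf.comm0, ← Matrix.mulVec_mulVec, hz.2, Matrix.mulVec_zero]

theorem B0_map {X : Cx R J} {G : Cx R JG} {f : Matrix JG J R} (hf : Cl X G 0 f) {z : J → R}
    (hz : z ∈ X.B0) : f *ᵥ z ∈ G.B0 := by
  obtain ⟨w, hw, rfl⟩ := hz
  refine ⟨f *ᵥ w, ?_, ?_⟩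
  · have h1 : Vh X (-1) w := hw
    exact (Vh.mulVec hf.hmg h1)
  · rw [Matrix.mulVec_mulVec, hf.comm0, ← Matrix.mulVec_mulVec]

theorem BT_map [IsDomain R] {X : Cx R J} {G : Cx R JG} {f : Matrix JG J R} (hf : Cl X G 0 f)
    {z : J → R} (hz : z ∈ X.BT) : f *ᵥ z ∈ G.BT := by
  obtain ⟨c, hc, h⟩ := hz
  refine ⟨c, hc, ?_⟩
  rw [← Matrix.mulVec_smul]
  exact B0_map hf h

end cur

end Cx

end LicciCx

namespace LicciCore

open LicciCx Cx Pool.Agent.Licci

universe u

theorem F1_sub' {R : Type*} [CommRing R] {p x y : E8 R} (hx : x ∈ F1 p) (hy : y ∈ F1 p) :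
    x - y ∈ F1 p := by
  intro w hw
  rw [kf_sub_left, hx w hw, hy w hw, sub_zero]

/-- eigenvalues and the form -/
theorem kf_h {R : Type*} [CommRing R] {p e v : E8 R} {χ : R} (hv : br v p = χ • p) :
    kf (br p e) v = χ * kf p e := by
  rw [Pool.Agent.Licci.kf_symm, ← Pool.Agent.Licci.kf_inv, hv, kf_smul_left]

namespace CoreData

variable {R : Type u} [CommRing R] [IsDomain R] [IsLocalRing R] {p : Fin 248 → R}
  {a : Fin 6 → R} {J : Type} [Fintype J] [DecidableEq J] (D : CoreData R p a J)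

/-- `L g = ∑ Dh (e_i^*, al (g, e_i))` -/
noncomputable def Lc (S : Setup R p a) : Matrix ((Fin 248 ⊕ (Unit ⊕ J)) ⊕ (Unit ⊕ J))
    ((Fin 248 ⊕ (Unit ⊕ J)) ⊕ (Unit ⊕ J)) R :=
  Matrix.of fun g' g => ∑ i, ∑ j,
    ((sg (D.X.deg i * D.X.deg j) : ℤ) : R) * D.Dh S g' (i, j) * D.al S j (g, i)

theorem Lc_eq (S : Setup R p a) : D.Lc S = D.Dh S * (sw D.X D.X.dual * cur (D.al S)) := by
  ext g' g
  rw [← Matrix.mul_assoc, Matrix.mul_apply]
  simp only [Lc, Matrix.of_apply, Fintype.sum_prod_type, mul_sw, cur, dual_deg]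
  rw [Finset.sum_comm]
  refine Finset.sum_congr rfl fun i _ => Finset.sum_congr rfl fun j _ => ?_
  have h : sg (D.X.deg i * -D.X.deg j) = sg (D.X.deg j * D.X.deg i) := by
    rw [mul_neg, sg_neg, mul_comm]
  rw [h]

theorem cl_cur_al (S : Setup R p a) : Cl (D.G S) (Hom D.X D.X) 0 (cur (D.al S)) :=
  cl_cur (D.exists_al S).choose_spec.1

theorem cl_Dh_sw (S : Setup R p a) :
    Cl (Hom D.X D.X) (D.G S) 0 (D.Dh S * sw D.X D.X.dual) :=
  ((D.exists_Dh S).choose_spec.1.mul (cl_sw D.X D.X.dual)).cast (by ring)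

theorem cl_Lc (S : Setup R p a) : Cl (D.G S) (D.G S) 0 (D.Lc S) := by
  rw [Lc_eq, ← Matrix.mul_assoc]
  exact ((D.cl_Dh_sw S).mul (D.cl_cur_al S)).cast (by ring)

/-- the linear form `z ↦ (w, aa z)` -/
def lw (w : Fin 248 → R) : J → R := fun j => kf w (fun i => D.aa i j)

theorem kf_aa (w : Fin 248 → R) (z : J → R) : kf w (D.aa *ᵥ z) = D.lw w ⬝ᵥ z := by
  have h : D.aa *ᵥ z = ∑ j, z j • (fun i => D.aa i j) := by
    ext i
    simp only [Matrix.mulVec, dotProduct, Finset.sum_apply, Pi.smul_apply, smul_eq_mul]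
    exact Finset.sum_congr rfl fun j _ => mul_comm _ _
  rw [h, kf_sum_right, dotProduct]
  refine Finset.sum_congr rfl fun j _ => ?_
  rw [kf_smul_right, lw, mul_comm]

theorem lw_d {w : Fin 248 → R} (hw : kf p w = 0) : D.lw w ᵥ* D.X.d = 0 := by
  ext j
  have h1 : (D.lw w ᵥ* D.X.d) j = kf w (D.aa *ᵥ (fun k => D.X.d k j)) := by
    rw [kf_aa]; rfl
  have h2 : D.aa *ᵥ (fun k => D.X.d k j) = (-(D.ph () j)) • p := by
    ext i
    have := congrFun (congrFun D.aa_d i) j
    rw [Matrix.mul_apply] at this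
    simp only [Matrix.mulVec, dotProduct, this, Matrix.neg_apply, Matrix.mul_apply,
      Finset.univ_unique, Finset.sum_singleton, pcol, Matrix.of_apply, Pi.smul_apply, smul_eq_mul]
    show -(p i * D.ph () j) = -D.ph () j * p i
    ring
  rw [h1, h2, kf_smul_right, Pool.Agent.Licci.kf_symm, hw, mul_zero]
  rfl

theorem lw_deg (w : Fin 248 → R) (j : J) (h : D.X.deg j ≠ 0) : D.lw w j = 0 := by
  have : (fun i => D.aa i j) = (0 : E8 R) := by
    ext i; exact D.aa_deg i j h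
  rw [lw, this]
  have := kf_smul_right (0 : R) w (0 : E8 R)
  simp only [smul_zero, zero_mul] at this
  exact this

theorem lw_mem {w : Fin 248 → R} (hw : kf p w = 0) : D.lw w ∈ D.X.dual.Z0 := by
  refine ⟨fun j hj => D.lw_deg w j (by intro h; apply hj; rw [dual_deg, h]; rfl), ?_⟩
  rw [dual_d]
  ext j
  have h1 : (-(D.X.e * D.X.d)ᵀ *ᵥ D.lw w) j = -((D.lw w ᵥ* (D.X.e * D.X.d)) j) := by
    rw [Matrix.neg_mulVec, Matrix.mulVec_transpose]; rfl
  have h2 : D.lw w ᵥ* D.X.e = D.lw w := by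
    ext k
    show (D.lw w ᵥ* Matrix.diagonal (fun j => ((sg (D.X.deg j) : ℤ) : R))) k = _
    rw [Matrix.vecMul_diagonal]
    by_cases hk : D.X.deg k = 0
    · rw [hk, sg_zero]; simp
    · rw [D.lw_deg w k hk, zero_mul]
  rw [h1, ← Matrix.vecMul_vecMul, h2, D.lw_d hw]
  simp

/-- the vector of a rank one matrix -/
theorem vec_vecMulVec (x y : J → R) : Cx.vec (Matrix.vecMulVec x y) = tv x y := rfl

theorem vmv_mulVec (x l y : J → R) : Matrix.vecMulVec x l *ᵥ y = (l ⬝ᵥ y) • x := by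
  ext j
  simp only [Matrix.mulVec, dotProduct, Matrix.vecMulVec_apply, Pi.smul_apply, smul_eq_mul,
    Finset.sum_mul]
  refine Finset.sum_congr rfl fun j' _ => ?_
  ring

/-- The Casimir expression of the class of `L z`. -/
theorem Lc_ev (S : Setup R p a) {z : (Fin 248 ⊕ (Unit ⊕ J)) ⊕ (Unit ⊕ J) → R}
    (hz : z ∈ (D.G S).Z0) {χ : R} (hχ : br (D.ev S *ᵥ z) p = χ • p) {v : E8 R} {χ' : R}
    (hv : br v p = χ' • p) :
    kf (D.ev S *ᵥ (D.Lc S *ᵥ z)) v = -(12 * kf (D.ev S *ᵥ z) v + 8 * χ * χ') := by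
  have := S.char0
  have hp0 : p ≠ 0 := by
    obtain ⟨q, hq⟩ := S.top
    intro h; apply hq; rw [h]; rfl
  obtain ⟨x, w, c, F⟩ := exists_dualFam S.cone S.top
  have hvF0 : v ∈ F0 p := mem_F0_of_eigen hv
  have hal := D.cl_cur_al S
  set u : E8 R := D.ev S *ᵥ z with hu
  set M : Matrix J J R := mt (D.al S) z with hM
  have hMv : cur (D.al S) *ᵥ z = Cx.vec M := cur_mulVec _ _
  have hMcl : Cl D.X D.X 0 M := by
    have h1 : cur (D.al S) *ᵥ z ∈ (Hom D.X D.X).Z0 := Z0_map hal hz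
    rw [hMv] at h1
    exact cl_iff.2 h1
  choose ζ hζ r hr using fun i => D.surj (x i) (F.x_mem i)
  set l : Fin 56 → J → R := fun i => D.lw (w i) with hl
  -- the rank decomposition
  set N : Matrix J J R := c • M - ∑ i, Matrix.vecMulVec (M *ᵥ ζ i) (l i) with hN
  have hrk : ∀ i, Cl D.X D.X 0 (Matrix.vecMulVec (M *ᵥ ζ i) (l i)) := by
    intro i
    have hz1 := Z0_map hMcl (hζ i)
    refine Cl.mk0 ?_ ?_
    · intro j j' h
      rw [Matrix.vecMulVec_apply]
      by_cases h1 : D.X.deg j = 0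
      · have h2 : D.X.deg j' ≠ 0 := by
          intro h2; apply h; rw [h1, h2]; rfl
        show _ * D.lw (w i) j' = 0
        rw [D.lw_deg _ _ h2, mul_zero]
      · rw [hz1.1 j h1, zero_mul]
    · rw [Matrix.mul_vecMulVec, hz1.2, Matrix.vecMulVec_mul, D.lw_d (F.w_perp i)]
      ext j j'
      simp [Matrix.vecMulVec_apply]
  have hNcl : Cl D.X D.X 0 N := by
    refine (hMcl.smul c).sub ?_
    refine Finset.sum_induction _ (fun f => Cl D.X D.X 0 f) (fun _ _ h1 h2 => h1.add h2) Cl.zero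
      (fun i _ => hrk i)
  have hNb : Bd D.X D.X 0 N := by
    refine uniq1 a S.reg S.ne D.ue D.ue ?_ hNcl ?_
    · intro i j
      have := D.le_deg i
      have := D.deg_le j
      omega
    · intro y hy
      have h1 : N *ᵥ y = M *ᵥ (c • y - ∑ i, (l i ⬝ᵥ y) • ζ i) := by
        rw [hN, Matrix.sub_mulVec, Matrix.smul_mulVec, Matrix.mulVec_sub, Matrix.mulVec_smul,
          Matrix.sum_mulVec, Matrix.mulVec_sum]
        congr 1
        refine Finset.sum_congr rfl fun i _ => ?_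
        rw [Matrix.mulVec_smul, vmv_mulVec]
      rw [h1]
      refine BT_map hMcl ?_
      have h2 : c • y - ∑ i, (l i ⬝ᵥ y) • ζ i ∈ D.X.Z0 :=
        sub_mem (D.X.Z0.smul_mem _ hy) (sum_mem fun i _ => D.X.Z0.smul_mem _ (hζ i))
      obtain ⟨s, hs⟩ := F.span _ (D.mem y hy)
      have h3 : D.aa *ᵥ (c • y - ∑ i, (l i ⬝ᵥ y) • ζ i) +
          (-(s + ∑ i, (l i ⬝ᵥ y) * r i)) • p = 0 := by
        have h4 : ∀ i, D.aa *ᵥ ζ i = x i - r i • p := by
          intro i
          rw [eq_sub_iff_add_eq]; exact (hr i).symm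
        rw [Matrix.mulVec_sub, Matrix.mulVec_smul, hs, Matrix.mulVec_sum]
        simp only [Matrix.mulVec_smul, h4, D.kf_aa, smul_sub, Finset.sum_sub_distrib, smul_smul,
          neg_smul, add_smul, Finset.sum_smul]
        abel
      obtain ⟨w', hw', hzw, -⟩ := D.ker _ h2 _ h3
      refine ⟨1, one_ne_zero, w', hw', ?_⟩
      rw [one_smul, hzw]
  -- the vector of `N` is a boundary
  have hvN : Cx.vec N ∈ (Hom D.X D.X).B0 := by
    obtain ⟨y, hy1, hy2⟩ := bd_iff.1 hNb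
    exact ⟨y, hy1, hy2⟩
  have hvec : Cx.vec N = c • (cur (D.al S) *ᵥ z) - ∑ i, tv (M *ᵥ ζ i) (l i) := by
    rw [hMv]
    ext ⟨j, j'⟩
    simp only [Cx.vec, hN, Matrix.sub_apply, Matrix.smul_apply, Matrix.sum_apply,
      Matrix.vecMulVec_apply, Pi.sub_apply, Pi.smul_apply, Finset.sum_apply, tv]
  have h5 := B0_map (D.cl_Dh_sw S) hvN
  have h6 : (D.Dh S * sw D.X D.X.dual) *ᵥ Cx.vec N =
      c • (D.Lc S *ᵥ z) - ∑ i, D.Dh S *ᵥ tv (l i) (M *ᵥ ζ i) := by
    rw [hvec, Matrix.mulVec_sub, Matrix.mulVec_smul, Matrix.mulVec_sum, Lc_eq,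
      ← Matrix.mul_assoc, Matrix.mulVec_mulVec]
    congr 1
    refine Finset.sum_congr rfl fun i _ => ?_
    rw [← Matrix.mulVec_mulVec]
    congr 1
    exact sw_vk D.X D.X.dual (Z0_map hMcl (hζ i)) (D.lw_mem (F.w_perp i))
  rw [h6] at h5
  have h7 : (D.ev S) *ᵥ (c • (D.Lc S *ᵥ z) - ∑ i, D.Dh S *ᵥ tv (l i) (M *ᵥ ζ i)) ∈ F1 p :=
    (D.exists_ev S).choose_spec.2.choose_spec.2.2 _ ⟨1, one_ne_zero, by rw [one_smul]; exact h5⟩
  have h8 := h7 v hvF0
  rw [Matrix.mulVec_sub, Matrix.mulVec_smul, Matrix.mulVec_sum, kf_sub_left, kf_smul_left,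
    kf_sum_left, sub_eq_zero] at h8
  -- the terms
  have h9 : ∀ i, kf (D.ev S *ᵥ (D.Dh S *ᵥ tv (l i) (M *ᵥ ζ i))) v =
      -kf (w i) (br v (br u (x i))) := by
    intro i
    have hz1 := Z0_map hMcl (hζ i)
    have g1 := (D.exists_Dh S).choose_spec.2 (l i) (D.lw_mem (F.w_perp i)) (M *ᵥ ζ i) hz1 (w i) 1
      (F.w_perp i) (fun z' _ => by rw [D.kf_aa, one_mul])
    have g2 := g1 v hvF0
    rw [one_smul, kf_sub_left, sub_eq_zero] at g2
    obtain ⟨s, hs⟩ := (D.exists_al S).choose_spec.2 z hz (ζ i) (hζ i)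
    have g3 : D.c0 S • D.aa *ᵥ (M *ᵥ ζ i) = br u (x i) + (s - r i * χ) • p := by
      have e1 : M *ᵥ ζ i = D.al S *ᵥ tv z (ζ i) := mt_mulVec _ _ _
      have e2 : D.c0 S • D.aa *ᵥ (D.al S *ᵥ tv z (ζ i)) = br u (D.aa *ᵥ ζ i) + s • p := hs
      have e3 : D.aa *ᵥ ζ i = x i - r i • p := by
        rw [eq_sub_iff_add_eq]; exact (hr i).symm
      rw [e1, e2, e3, br_sub_right, br_smul_right, hχ, smul_smul, sub_smul]
      abel
    have g4 : kf (D.ev S *ᵥ (D.Dh S *ᵥ tv (l i) (M *ᵥ ζ i))) v =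
        kf (br (w i) (D.c0 S • D.aa *ᵥ (M *ᵥ ζ i))) v := by
      rw [br_smul_right]; exact g2
    have g5 : kf (br (w i) p) v = 0 := by
      rw [br_skew, kf_neg_left, kf_h hv, F.w_perp i, mul_zero, neg_zero]
    rw [g4, g3, br_add_right, br_smul_right, kf_add_left, kf_smul_left, g5, mul_zero, add_zero,
      Pool.Agent.Licci.kf_inv, br_skew, kf_neg_right]
  rw [Finset.sum_congr rfl fun i _ => h9 i, Finset.sum_neg_distrib,
    trace_id S.cone S.top F hχ hv, ← mul_neg] at h8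
  exact mul_left_cancel₀ F.ne h8

theorem Lc_sq (S : Setup R p a) :
    Bd (D.G S) (D.G S) 0 ((D.Lc S + (12 : R) • 1) * (D.Lc S + (28 : R) • 1)) := by
  have hp0 : p ≠ 0 := by
    obtain ⟨q, hq⟩ := S.top
    intro h; apply hq; rw [h]; rfl
  have hcl1 : Cl (D.G S) (D.G S) 0 (D.Lc S + (12 : R) • 1) := (D.cl_Lc S).add (Cl.one.smul _)
  have hcl2 : Cl (D.G S) (D.G S) 0 (D.Lc S + (28 : R) • 1) := (D.cl_Lc S).add (Cl.one.smul _)
  refine uniq1 a S.reg S.ne (D.ue_G S) (D.ue_G S) ?_ ((hcl1.mul hcl2).cast (by ring)) ?_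
  · have hX2 : ∀ k : Unit ⊕ J, -1 ≤ D.X2.deg k ∧ D.X2.deg k ≤ 1 := by
      rintro (k | k)
      · have : D.X2.deg (Sum.inl k) = 0 := rfl
        rw [this]; norm_num
      · have : D.X2.deg (Sum.inr k) = D.X.deg k := rfl
        rw [this]; exact ⟨D.le_deg k, D.deg_le k⟩
    have hG : ∀ k, -2 ≤ (D.G S).deg k ∧ (D.G S).deg k ≤ 2 := by
      rintro ((k | k) | k)
      · have : (D.G S).deg (Sum.inl (Sum.inl k)) = 0 := rfl
        rw [this]; norm_num
      · have : (D.G S).deg (Sum.inl (Sum.inr k)) = D.X2.deg k + (-1) := rfl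
        rw [this]; have := hX2 k; omega
      · have : (D.G S).deg (Sum.inr k) = -D.X2.deg k + 1 := rfl
        rw [this]; have := hX2 k; omega
    intro i j
    have := hG i
    have := hG j
    omega
  · intro z hz
    have := S.char0
    have evF0 : ∀ y ∈ (D.G S).Z0, D.ev S *ᵥ y ∈ F0 p := (D.exists_ev S).choose_spec.2.choose_spec.1
    set z1 := (D.Lc S + (28 : R) • 1) *ᵥ z with hz1
    have hz1m : z1 ∈ (D.G S).Z0 := Z0_map hcl2 hz
    have hy : (D.Lc S + (12 : R) • 1) *ᵥ z1 ∈ (D.G S).Z0 := Z0_map hcl1 hz1m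
    rw [← Matrix.mulVec_mulVec]
    refine (D.exists_ev S).choose_spec.2.choose_spec.2.1 _ hy ?_
    obtain ⟨χ, hχ⟩ := F0_eigen S.sat hp0 (evF0 z hz)
    obtain ⟨χ1, hχ1⟩ := F0_eigen S.sat hp0 (evF0 z1 hz1m)
    have e1 : ∀ (v : E8 R) (χ' : R), br v p = χ' • p →
        kf (D.ev S *ᵥ z1) v = 16 * kf (D.ev S *ᵥ z) v - 8 * χ * χ' := by
      intro v χ' hv
      have := D.Lc_ev S hz hχ hv
      rw [hz1, Matrix.add_mulVec, Matrix.smul_mulVec, Matrix.one_mulVec, Matrix.mulVec_add,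
        Matrix.mulVec_smul, kf_add_left, kf_smul_left, this]
      ring
    -- `χ1 = 0`
    have e2 : χ1 = 0 := by
      obtain ⟨n, e, he⟩ := S.pmem 0
      have hg : kf p e ≠ 0 := by rw [he]; exact pow_ne_zero _ (S.ne 0)
      have hh : br (br p e) p = (2 * kf p e) • p := by
        rw [br_skew, S.cone e, neg_smul, neg_neg]
      have f1 := e1 _ _ hh
      rw [Pool.Agent.Licci.kf_symm, kf_h hχ1, Pool.Agent.Licci.kf_symm (D.ev S *ᵥ z), kf_h hχ] at f1
      have f2 : χ1 * kf p e = 0 := by rw [f1]; ring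
      rcases mul_eq_zero.1 f2 with h | h
      · exact h
      · exact absurd h hg
    intro v hv
    obtain ⟨χ', hχ'⟩ := F0_eigen S.sat hp0 hv
    have := D.Lc_ev S hz1m hχ1 hχ'
    show kf (D.ev S *ᵥ ((D.Lc S + (12 : R) • 1) *ᵥ z1)) v = 0
    rw [Matrix.add_mulVec, Matrix.smul_mulVec, Matrix.one_mulVec, Matrix.mulVec_add,
        Matrix.mulVec_smul, kf_add_left, kf_smul_left, this, e2]
    ring

end CoreData

end LicciCore
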