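import Pool.Agent.Work.MP_a98e4e_ag.Cx.UE

/-!
# Cocycles and boundaries of degree zero, free complexes
-/

set_option autoImplicit false

open Matrix Kronecker

namespace LicciCx

namespace Cx

variable {R : Type*} [CommRing R] {J J' J'' : Type*} [Fintype J] [Fintype J'] [Fintype J'']

/-- cocycles of degree `0` -/
def Z0 (K : Cx R J) : Submodule R (J → R) where
  carrier := {z | (∀ j, K.deg j ≠ 0 → z j = 0) ∧ K.d *ᵥ z = 0}
  add_mem' := by
    rintro a b ⟨h1, h2⟩ ⟨h3, h4⟩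
    exact ⟨fun j hj => by simp [h1 j hj, h3 j hj], by rw [Matrix.mulVec_add, h2, h4, add_zero]⟩
  zero_mem' := ⟨fun _ _ => rfl, Matrix.mulVec_zero _⟩
  smul_mem' := by
    rintro c a ⟨h1, h2⟩
    exact ⟨fun j hj => by simp [h1 j hj], by rw [Matrix.mulVec_smul, h2, smul_zero]⟩

/-- boundaries of degree `0` -/
def B0 (K : Cx R J) : Submodule R (J → R) where
  carrier := {z | ∃ w : J → R, (∀ j, K.deg j ≠ -1 → w j = 0) ∧ K.d *ᵥ w = z}
  add_mem' := by
    rintro a b ⟨w, h1, h2⟩ ⟨v, h3, h4⟩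
    exact ⟨w + v, fun j hj => by simp [h1 j hj, h3 j hj], by rw [Matrix.mulVec_add, h2, h4]⟩
  zero_mem' := ⟨0, fun _ _ => rfl, Matrix.mulVec_zero _⟩
  smul_mem' := by
    rintro c a ⟨w, h1, h2⟩
    exact ⟨c • w, fun j hj => by simp [h1 j hj], by rw [Matrix.mulVec_smul, h2]⟩

/-- vectors a nonzero multiple of which is a boundary of degree `0` -/
def BT [IsDomain R] (K : Cx R J) : Submodule R (J → R) where
  carrier := {z | ∃ c : R, c ≠ 0 ∧ c • z ∈ K.B0}
  add_mem' := by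
    rintro a b ⟨c, hc, h1⟩ ⟨c', hc', h2⟩
    refine ⟨c' * c, mul_ne_zero hc' hc, ?_⟩
    rw [smul_add]
    refine add_mem ?_ ?_
    · rw [mul_smul]; exact K.B0.smul_mem _ h1
    · rw [mul_comm, mul_smul]; exact K.B0.smul_mem _ h2
  zero_mem' := ⟨1, one_ne_zero, by rw [smul_zero]; exact zero_mem _⟩
  smul_mem' := by
    rintro c a ⟨c', hc', h⟩
    exact ⟨c', hc', by rw [smul_comm]; exact K.B0.smul_mem _ h⟩

/-- decomposable vectors -/
abbrev vk {A B : Type*} (x : A → R) (y : B → R) : A × B → R := tv x y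

end Cx

end LicciCx
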