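import Pool.Agent.Work.MP_a98e4e_ag.Core.ResK

/-!
# The dimensions of the closed fibre
-/

set_option autoImplicit false
set_option linter.unusedSectionVars false

open Matrix Kronecker RingTheory.Sequence IsLocalRing

namespace LicciCore

open LicciCx Cx Pool.Agent.Licci

universe u

/-- a matrix exchanging the degrees `n` and `-n` with nonzero determinant -/
theorem card_of_det {k : Type*} [CommRing k] {J : Type*} [Fintype J]
    [DecidableEq J] {deg : J → ℤ} {M : Matrix J J k}
    (hM : ∀ i j, deg i + deg j ≠ 0 → M i j = 0) (hd : M.det ≠ 0) (n : ℤ) :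
    Fintype.card {j // deg j = n} = Fintype.card {j // deg j = -n} := by
  rw [Matrix.det_apply] at hd
  obtain ⟨σ, -, hσ⟩ := Finset.exists_ne_zero_of_sum_ne_zero hd
  have h1 : ∀ j, deg (σ j) + deg j = 0 := by
    intro j
    by_contra h
    apply hσ
    have h2 : ∏ i, M (σ i) i = 0 := Finset.prod_eq_zero (Finset.mem_univ j) (hM (σ j) j h)
    rw [h2, smul_zero]
  refine Fintype.card_congr (σ.subtypeEquiv fun j => ?_)
  have := h1 j
  omega

theorem finrank_ker {R M N : Type*} [CommRing R] [IsDomain R] [AddCommGroup M] [Module R M]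
    [AddCommGroup N] [Module R N] (f : M →ₗ[R] N) (hM : Module.rank R M < Cardinal.aleph0) :
    Module.finrank R (LinearMap.range f) + Module.finrank R (LinearMap.ker f) =
      Module.finrank R M := by
  have h := f.lift_rank_range_add_rank_ker
  have h1 := congrArg Cardinal.toNat h
  have h2 := Cardinal.lift_lt_aleph0.2 hM
  rw [← h, Cardinal.add_lt_aleph0_iff] at h2
  rw [Cardinal.toNat_add h2.1 h2.2, Cardinal.toNat_lift, Cardinal.toNat_lift,
    Cardinal.toNat_lift] at h1
  exact h1

theorem finrank_mono' {R M : Type*} [CommRing R] [IsDomain R] [AddCommGroup M] [Module R M]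
    [Module.Finite R M] {s t : Submodule R M} (h : s ≤ t) :
    Module.finrank R s ≤ Module.finrank R t :=
  Cardinal.toNat_le_toNat (Submodule.rank_mono h)
    ((Submodule.rank_le t).trans_lt (Module.rank_lt_aleph0 _ _))

theorem extz_inj {R : Type*} [CommRing R] {J : Type*} [Fintype J] (deg : J → ℤ) (n : ℤ) :
    Function.Injective (extz deg n : ({j // deg j = n} → R) →ₗ[R] (J → R)) := by
  intro v w h
  have h1 := congrArg (resz deg n) h
  rwa [resz_extz, resz_extz] at h1

theorem extz_vh {R : Type*} [CommRing R] {J : Type*} [Fintype J] {K : Cx R J} {n : ℤ}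
    (v : {j // K.deg j = n} → R) : Vh K n (extz K.deg n v) := by
  intro j hj
  simp [extz, hj]

theorem exists_extz {R : Type*} [CommRing R] {J : Type*} [Fintype J] {K : Cx R J} {n : ℤ}
    {z : J → R} (hz : Vh K n z) : ∃ v : {j // K.deg j = n} → R, extz K.deg n v = z := by
  refine ⟨resz K.deg n z, ?_⟩
  rw [extz_resz]
  funext j
  by_cases h : K.deg j = n
  · simp [Pool.Agent.Licci.part, h]
  · simp [Pool.Agent.Licci.part, h, hz j h]

theorem sup0_mulVec {R : Type*} [CommRing R] {J : Type*} [Fintype J] {deg : J → ℤ}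
    {M : Matrix J J R} (hM : Sup0 deg deg M) {v : J → R} (hv : ∀ j, deg j = 0 → v j = 0) :
    M *ᵥ v = 0 := by
  funext i
  rw [Matrix.mulVec, dotProduct]
  refine Finset.sum_eq_zero fun j _ => ?_
  by_cases h : deg j = 0
  · rw [hv j h, mul_zero]
  · rw [hM i j fun h1 => h h1.2, zero_mul]

namespace CoreData

variable {R : Type u} [CommRing R] [IsDomain R] [IsLocalRing R] {p : Fin 248 → R}
  {a : Fin 6 → R} {J : Type} [Fintype J] [DecidableEq J] (D : CoreData R p a J)

/-- the Euler characteristic -/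
theorem rank_count (S : Setup R p a) : Fintype.card {j // D.X.deg j = 0} =
    56 + Fintype.card {j // D.X.deg j = -1} + Fintype.card {j // D.X.deg j = 1} := by
  have := S.char0
  obtain ⟨x, w, c, hF⟩ := exists_dualFam (R := R) S.cone S.top
  obtain ⟨N, h, hh⟩ := D.ue 0
  have hb : a 0 ^ N ≠ 0 := pow_ne_zero _ (S.ne 0)
  set b := a 0 ^ N with hbdef
  -- vectors of degree `2` and `-2` vanish
  have hz2 : ∀ v : J → R, Vh D.X 2 v → v = 0 := by
    intro v hv
    funext j
    exact hv j (by have := D.deg_le j; omega)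
  have hz2' : ∀ v : J → R, Vh D.X (-2) v → v = 0 := by
    intro v hv
    funext j
    exact hv j (by have := D.le_deg j; omega)
  -- the contraction in the degrees `1`, `-1`
  have hsup : ∀ v : J → R, (∀ j, D.X.deg j = 0 → v j = 0) →
      b • v = D.X.d *ᵥ (h *ᵥ v) + h *ᵥ (D.X.d *ᵥ v) := by
    intro v hv
    have h1 := sup0_mulVec hh.sup hv
    rw [Matrix.sub_mulVec, Matrix.smul_mulVec, Matrix.one_mulVec, Matrix.add_mulVec,
      ← Matrix.mulVec_mulVec, ← Matrix.mulVec_mulVec, sub_eq_zero] at h1
    exact h1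
  have h1 : ∀ v : {j // D.X.deg j = 1} → R,
      D.X.d *ᵥ (h *ᵥ extz D.X.deg 1 v) = b • extz D.X.deg 1 v := by
    intro v
    have hv := extz_vh (K := D.X) v
    rw [hsup _ fun j hj => hv j (by omega)]
    have h2 : D.X.d *ᵥ extz D.X.deg 1 v = 0 := hz2 _ (Vh.mulVec D.X.hmg hv)
    rw [h2, Matrix.mulVec_zero, add_zero]
  have hm : ∀ v : {j // D.X.deg j = -1} → R,
      h *ᵥ (D.X.d *ᵥ extz D.X.deg (-1) v) = b • extz D.X.deg (-1) v := by
    intro v
    have hv := extz_vh (K := D.X) v
    rw [hsup _ fun j hj => hv j (by omega)]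
    have h2 : h *ᵥ extz D.X.deg (-1) v = 0 := hz2' _ (Vh.mulVec hh.hmg hv)
    rw [h2, Matrix.mulVec_zero, zero_add]
  -- the differential on degree `0`
  let f : ({j // D.X.deg j = 0} → R) →ₗ[R] (J → R) := D.X.d.mulVecLin ∘ₗ extz D.X.deg 0
  have hf : ∀ v, f v = D.X.d *ᵥ extz D.X.deg 0 v := fun v => rfl
  have e1 := finrank_ker f (Module.rank_lt_aleph0 _ _)
  rw [Module.finrank_fintype_fun_eq_card] at e1
  have e2 : Module.finrank R (LinearMap.range f) = Fintype.card {j // D.X.deg j = 1} := by
    apply le_antisymm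
    · have h2 : LinearMap.range f ≤ LinearMap.range (extz (S := R) D.X.deg 1) := by
        rintro _ ⟨v, rfl⟩
        obtain ⟨v', hv'⟩ := exists_extz (K := D.X) (Vh.mulVec D.X.hmg (extz_vh (K := D.X) v))
        exact ⟨v', hv'⟩
      refine (finrank_mono' h2).trans ?_
      rw [LinearMap.finrank_range_of_inj (extz_inj _ _), Module.finrank_fintype_fun_eq_card]
    · have h2 : LinearMap.range (b • extz (S := R) D.X.deg 1) ≤ LinearMap.range f := by
        rintro _ ⟨v, rfl⟩
        have h3 : Vh D.X 0 (h *ᵥ extz D.X.deg 1 v) :=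
          Vh.mulVec hh.hmg (extz_vh (K := D.X) v)
        obtain ⟨v', hv'⟩ := exists_extz h3
        refine ⟨v', ?_⟩
        rw [hf, hv', h1]
        rfl
      have hg : Function.Injective (b • extz (S := R) D.X.deg 1) := by
        intro v v' hvv
        apply extz_inj D.X.deg 1
        have h3 : b • extz D.X.deg 1 v = b • extz D.X.deg 1 v' := hvv
        exact smul_right_injective _ hb h3
      refine le_trans ?_ (finrank_mono' h2)
      rw [LinearMap.finrank_range_of_inj hg, Module.finrank_fintype_fun_eq_card]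
  -- cocycles
  have hker : ∀ v, v ∈ LinearMap.ker f ↔ extz D.X.deg 0 v ∈ D.X.Z0 := by
    intro v
    rw [LinearMap.mem_ker, hf]
    exact ⟨fun h => ⟨extz_vh v, h⟩, fun h => h.2⟩
  let θ : LinearMap.ker f →ₗ[R] (Fin 56 → R) :=
    LinearMap.pi fun i => kfL (w i) ∘ₗ D.aa.mulVecLin ∘ₗ extz D.X.deg 0 ∘ₗ
      (LinearMap.ker f).subtype
  have hθ : ∀ v i, θ v i = kf (w i) (D.aa *ᵥ extz D.X.deg 0 v.1) := fun v i => rfl
  have e3 := finrank_ker θ
    ((Submodule.rank_le (LinearMap.ker f)).trans_lt (Module.rank_lt_aleph0 _ _))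
  have hwp : ∀ i, kf (w i) p = 0 := fun i => by rw [kf_comm]; exact hF.w_perp i
  have e4 : Module.finrank R (LinearMap.range θ) = 56 := by
    apply le_antisymm
    · have := (LinearMap.range θ).finrank_le
      rwa [Module.finrank_fintype_fun_eq_card, Fintype.card_fin] at this
    · have hy : ∀ v : Fin 56 → R, c • v ∈ LinearMap.range θ := by
        intro v
        choose z hz r hr using fun i => D.surj (x i) (hF.x_mem i)
        choose t ht using fun i => exists_extz (K := D.X) (hz i).1
        have h2 : ∑ i, v i • t i ∈ LinearMap.ker f :=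
          Submodule.sum_mem _ fun i _ => Submodule.smul_mem _ _ (by rw [hker, ht]; exact hz i)
        refine ⟨⟨_, h2⟩, ?_⟩
        funext j
        rw [hθ]
        have h3 : D.aa *ᵥ extz D.X.deg 0 (∑ i, v i • t i) =
            ∑ i, v i • (x i - r i • p) := by
          rw [map_sum, Matrix.mulVec_sum]
          refine Finset.sum_congr rfl fun i _ => ?_
          rw [map_smul, ht, Matrix.mulVec_smul, hr i, add_sub_cancel_right]
        rw [h3, kf_sum_right]
        rw [Finset.sum_eq_single j]
        · rw [kf_smul_right, kf_sub_right, kf_smul_right, hwp, hF.pair, if_pos rfl, mul_zero,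
            sub_zero, Pi.smul_apply, smul_eq_mul, mul_comm]
        · intro i _ hi
          rw [kf_smul_right, kf_sub_right, kf_smul_right, hwp, hF.pair, if_neg (Ne.symm hi),
            mul_zero, sub_zero, mul_zero]
        · simp
      have h2 : LinearMap.range (c • (LinearMap.id : (Fin 56 → R) →ₗ[R] (Fin 56 → R))) ≤
          LinearMap.range θ := by
        rintro _ ⟨v, rfl⟩
        exact hy v
      have hg : Function.Injective (c • (LinearMap.id : (Fin 56 → R) →ₗ[R] (Fin 56 → R))) := by
        intro v v' hvv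
        exact smul_right_injective _ hF.ne hvv
      refine le_trans ?_ (finrank_mono' h2)
      rw [LinearMap.finrank_range_of_inj hg, Module.finrank_fintype_fun_eq_card, Fintype.card_fin]
  -- boundaries
  have e5 : Module.finrank R (LinearMap.ker θ) = Fintype.card {j // D.X.deg j = -1} := by
    let ι : LinearMap.ker θ →ₗ[R] (J → R) :=
      extz D.X.deg 0 ∘ₗ (LinearMap.ker f).subtype ∘ₗ (LinearMap.ker θ).subtype
    have hι : Function.Injective ι := by
      intro v v' hvv
      exact Subtype.ext (Subtype.ext (extz_inj D.X.deg 0 hvv))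
    let g : ({j // D.X.deg j = -1} → R) →ₗ[R] (J → R) := D.X.d.mulVecLin ∘ₗ extz D.X.deg (-1)
    have hg : Function.Injective g := by
      rw [← LinearMap.ker_eq_bot, LinearMap.ker_eq_bot']
      intro v hv
      have h2 : D.X.d *ᵥ extz D.X.deg (-1) v = 0 := hv
      have h3 := hm v
      rw [h2, Matrix.mulVec_zero] at h3
      apply extz_inj D.X.deg (-1)
      rw [map_zero]
      exact (smul_eq_zero.1 h3.symm).resolve_left hb
    have hr : LinearMap.range ι = LinearMap.range g := by
      apply le_antisymm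
      · rintro _ ⟨⟨⟨v, hv⟩, hv'⟩, rfl⟩
        have h2 : extz D.X.deg 0 v ∈ D.X.Z0 := (hker v).1 hv
        have h3 : ∀ i, kf (w i) (D.aa *ᵥ extz D.X.deg 0 v) = 0 := fun i => congrFun hv' i
        obtain ⟨r, hr⟩ := hF.span _ (D.mem _ h2)
        have h4 : c • (D.aa *ᵥ extz D.X.deg 0 v) = r • p := by
          rw [hr]
          simp [h3]
        obtain ⟨r', hr'⟩ := S.sat c hF.ne _ _ h4
        obtain ⟨w', hw', hw1⟩ := D.mem_B0_of_aa h2 hr'
        obtain ⟨v', hv''⟩ := exists_extz (K := D.X) (n := -1) hw'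
        refine ⟨v', ?_⟩
        show D.X.d *ᵥ extz D.X.deg (-1) v' = _
        rw [hv'', hw1]
        rfl
      · rintro _ ⟨v, rfl⟩
        have h2 : Vh D.X 0 (D.X.d *ᵥ extz D.X.deg (-1) v) :=
          Vh.mulVec D.X.hmg (extz_vh (K := D.X) v)
        have h3 : D.X.d *ᵥ extz D.X.deg (-1) v ∈ D.X.Z0 :=
          ⟨h2, by rw [Matrix.mulVec_mulVec, D.X.sq, Matrix.zero_mulVec]⟩
        obtain ⟨v', hv'⟩ := exists_extz (K := D.X) h2
        have h4 : v' ∈ LinearMap.ker f := by rw [hker, hv']; exact h3
        refine ⟨⟨⟨v', h4⟩, ?_⟩, ?_⟩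
        · rw [LinearMap.mem_ker]
          funext i
          rw [hθ]
          show kf (w i) (D.aa *ᵥ extz D.X.deg 0 v') = 0
          rw [hv', D.aa_d_mulVec, kf_neg_right, kf_smul_right, hwp, mul_zero, neg_zero]
        · exact hv'
    rw [← LinearMap.finrank_range_of_inj hι, hr, LinearMap.finrank_range_of_inj hg,
      Module.finrank_fintype_fun_eq_card]
  omega

/-- `#{deg 0} = 56 + 2 #{deg 1}` -/
theorem dim_of_unit (S : Setup R p a) (hu : IsUnit (D.omk S).det) :
    Fintype.card {j // D.X.deg j = 0} = 56 + 2 * Fintype.card {j // D.X.deg j = 1} := by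
  have h1 := card_of_det (M := D.omk S) (deg := D.X.deg) (D.omk_deg S) hu.ne_zero 1
  have h2 := D.rank_count S
  omega

end CoreData

end LicciCore
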