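import Pool.Agent.Work.MP_a98e4e_ag.Core.MapsDh
import Pool.Agent.Work.MP_a98e4e_ag.Core.GSp
import Pool.Agent.Work.MP_a98e4e_ag.X.Key

/-!
# The key relation for the maps of the core

`key_bd`: `Dh (φ ⊗ pr ·) - iP (prᵀ Om pr ·)` is null-homotopic as a map `X'' → G` of degree one.
-/

set_option autoImplicit false
set_option linter.unusedSectionVars false

open Matrix Kronecker RingTheory.Sequence IsLocalRing

namespace LicciCore

open LicciCx Cx Pool.Agent.Licci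

universe u

namespace CoreData

variable {R : Type u} [CommRing R] [IsDomain R] [IsLocalRing R] {p : Fin 248 → R}
  {a : Fin 6 → R} {J : Type} [Fintype J] [DecidableEq J] (D : CoreData R p a J)

/-- the matrix of `ad y` -/
noncomputable def adM (R : Type*) [CommRing R] :
    (Fin 248 → R) →ₗ[R] Matrix (Fin 248) (Fin 248) R :=
  (LinearMap.toMatrix' : _ ≃ₗ[R] _).toLinearMap ∘ₗ (brL : E8 R →ₗ[R] E8 R →ₗ[R] E8 R)

theorem adM_mulVec {R : Type*} [CommRing R] (y x : Fin 248 → R) : adM R y *ᵥ x = br y x := by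
  have h : LinearMap.toMatrix' (brL (A := R) y) *ᵥ x = brL (A := R) y x :=
    LinearMap.toMatrix'_mulVec _ _
  exact h

/-- `kf · y` is linear -/
noncomputable def kfL {R : Type*} [CommRing R] (p : Fin 248 → R) : (Fin 248 → R) →ₗ[R] R where
  toFun y := kf p y
  map_add' x y := by rw [kf_eq, kf_eq, kf_eq, Matrix.mulVec_add, dotProduct_add]
  map_smul' c x := by
    rw [kf_eq, kf_eq, Matrix.mulVec_smul, dotProduct_smul, RingHom.id_apply]

/-- `y ↦ kf y (aa ·)` -/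
noncomputable def kpL : (Fin 248 → R) →ₗ[R] (J → R) := (D.aaᵀ * kM R).mulVecLin

theorem kpL_apply (y : Fin 248 → R) : D.kpL y = (D.aaᵀ * kM R) *ᵥ y := by
  rw [kpL, Matrix.mulVecLin_apply]

theorem kpL_dot (y : Fin 248 → R) (z : J → R) : D.kpL y ⬝ᵥ z = kf y (D.aa *ᵥ z) := by
  rw [kf_comm, kf_eq, kpL_apply, ← Matrix.mulVec_mulVec, Matrix.mulVec_transpose,
    ← Matrix.dotProduct_mulVec, dotProduct_comm]

/-- the vector of `ph` -/
def phv : J → R := fun j => D.ph () j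

theorem vh_kpL (y : Fin 248 → R) : Vh D.X.dual 0 (D.kpL y) := by
  intro j hj
  rw [dual_deg] at hj
  have h0 : D.X.deg j ≠ 0 := by intro h; apply hj; rw [h]; rfl
  rw [kpL_apply, ← Matrix.mulVec_mulVec, Matrix.mulVec, dotProduct]
  refine Finset.sum_eq_zero fun i _ => ?_
  rw [Matrix.transpose_apply, D.aa_deg i j h0, zero_mul]

theorem aa_e : D.aa * D.X.e = D.aa := by
  ext i j
  show (D.aa * Matrix.diagonal fun j => ((sg (D.X.deg j) : ℤ) : R)) i j = _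
  rw [Matrix.mul_diagonal]
  by_cases h : D.X.deg j = 0
  · rw [h, sg_zero]; simp
  · rw [D.aa_deg i j h, zero_mul]

theorem d_kpL (y : Fin 248 → R) : D.X.dual.d *ᵥ D.kpL y = kf p y • D.phv := by
  have h1 : D.X.dual.d * (D.aaᵀ * kM R) = (pcol p * D.ph)ᵀ * kM R := by
    rw [← Matrix.mul_assoc, dual_d, Matrix.neg_mul, ← Matrix.transpose_mul, ← Matrix.mul_assoc,
      D.aa_e, D.aa_d, Matrix.transpose_neg, neg_neg]
  rw [kpL_apply, Matrix.mulVec_mulVec, h1, Matrix.transpose_mul, ← Matrix.mulVec_mulVec,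
    ← Matrix.mulVec_mulVec]
  have h2 : (pcol p)ᵀ *ᵥ (kM R *ᵥ y) = fun _ => kf p y := by
    funext i
    rw [kf_eq]; rfl
  rw [h2]
  funext j
  simp [Matrix.mulVec, dotProduct, phv, mul_comm]

/-- `τ = - prᵀ Om pr` -/
noncomputable def tau (S : Setup R p a) : Matrix (Unit ⊕ J) (Unit ⊕ J) R :=
  -((prX R J)ᵀ * D.Om S * prX R J)

theorem cl_tau (S : Setup R p a) : Cl D.X2 D.X2.dual 0 (D.tau S) :=
  (((D.cl_prX.transpose.mul (D.exists_Om S).choose_spec.1).mul D.cl_prX).cast (by ring)).neg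

theorem prX_mem {y : Unit ⊕ J → R} (hy : y ∈ D.X2.Z0) : prX R J *ᵥ y ∈ D.X.Z0 := by
  rw [prX_mulVec]; exact D.mem_Z0_X2.1 hy

theorem u_mulVec' (y : Unit ⊕ J → R) :
    D.u *ᵥ y = D.aa *ᵥ (prX R J *ᵥ y) + y (Sum.inl ()) • p := by
  rw [prX_mulVec]
  ext i
  simp [u, pcol, Matrix.mulVec, dotProduct, Matrix.fromCols, mul_comm, add_comm]

theorem mem_Z0_free (y : Fin 248 → R) : y ∈ (free R (Fin 248) 0).Z0 :=
  ⟨fun j hj => absurd rfl hj, by rw [free_d, Matrix.zero_mulVec]⟩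

theorem ut_dot (y : Fin 248 → R) (z : Unit ⊕ J → R) :
    ((D.uᵀ * kM R) *ᵥ y) ⬝ᵥ z = kf y (D.u *ᵥ z) := by
  rw [kf_comm, kf_eq, ← Matrix.mulVec_mulVec, Matrix.mulVec_transpose,
    ← Matrix.dotProduct_mulVec, dotProduct_comm]

/-- the bracket of two elements of `F¹` -/
theorem br_u_u (S : Setup R p a) {x y : Unit ⊕ J → R} (hx : x ∈ D.X2.Z0) (hy : y ∈ D.X2.Z0) :
    br (D.u *ᵥ x) (D.u *ᵥ y) =
      ((prX R J *ᵥ y) ⬝ᵥ (D.Om S *ᵥ (prX R J *ᵥ x))) • p := by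
  have := S.char0
  have h1 := (D.exists_Om S).choose_spec.2 _ (D.prX_mem hx) _ (D.prX_mem hy)
  have hpp : br p p = 0 := br_p_F1 S.cone (p_mem S.cone)
  have hpy : br p (D.aa *ᵥ (prX R J *ᵥ y)) = 0 :=
    br_p_F1 S.cone (D.mem _ (D.prX_mem hy))
  have hpx : br (D.aa *ᵥ (prX R J *ᵥ x)) p = 0 := by
    rw [br_skew, br_p_F1 S.cone (D.mem _ (D.prX_mem hx)), neg_zero]
  rw [D.u_mulVec' x, D.u_mulVec' y, br_add_left, br_add_right, br_add_right, br_smul_left,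
    br_smul_left, br_smul_right, br_smul_right, hpp, hpy, hpx]
  simp only [smul_zero, add_zero]
  exact h1

theorem tau_dot (S : Setup R p a) (x y : Unit ⊕ J → R) :
    (D.tau S *ᵥ x) ⬝ᵥ y = -((prX R J *ᵥ y) ⬝ᵥ (D.Om S *ᵥ (prX R J *ᵥ x))) := by
  rw [tau, Matrix.neg_mulVec, neg_dotProduct, ← Matrix.mulVec_mulVec, ← Matrix.mulVec_mulVec,
    Matrix.mulVec_transpose, ← Matrix.dotProduct_mulVec, dotProduct_comm]

/-- condition (C) of the key homotopy -/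
theorem keyC (S : Setup R p a) (y : Fin 248 → R) {x : Unit ⊕ J → R} (hx : x ∈ D.X2.Z0) :
    (D.uᵀ * kM R) *ᵥ br y (D.u *ᵥ x) + kf p y • (D.tau S *ᵥ x) ∈ D.X2.dual.BT := by
  refine mem_BT_dual (S.ne 0) (D.ue_X2 0) ?_ ?_
  · exact add_mem (Cl.mem_Z0 D.cl_ut (mem_Z0_free _))
      (Submodule.smul_mem _ _ (Cl.mem_Z0 (D.cl_tau S) hx))
  · intro z hz
    rw [add_dotProduct, smul_dotProduct, D.ut_dot, D.tau_dot, kf_inv, D.br_u_u S hx hz, kf_eq,
      Matrix.mulVec_smul, dotProduct_smul, ← kf_eq, kf_comm y p]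
    simp only [smul_eq_mul]
    ring

/-- condition (D) of the key homotopy -/
theorem keyD (S : Setup R p a) {y : Fin 248 → R} (hy : kf p y = 0) {x : Unit ⊕ J → R}
    (hx : x ∈ D.X2.Z0) : ∃ s : R, s ≠ 0 ∧ ∃ e g,
      s • (D.Dh S *ᵥ tv (D.kpL y) (prX R J *ᵥ x)) =
        s • (iW R J *ᵥ br y (D.u *ᵥ x)) + iP R J *ᵥ e + (D.G S).d *ᵥ g := by
  have := S.char0
  have hux : D.u *ᵥ x ∈ F1 p := D.u_mem S hx
  set v := br y (D.u *ᵥ x) with hv
  have hvF : v ∈ F0 p := br_perp_F1 S.cone S.p_ne hy hux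
  -- the correction
  obtain ⟨s, hs, e, he, hde⟩ : (D.uᵀ * kM R) *ᵥ v ∈ D.X2.dual.BT := by
    refine mem_BT_dual (S.ne 0) (D.ue_X2 0) (Cl.mem_Z0 D.cl_ut (mem_Z0_free _)) ?_
    intro z hz
    rw [D.ut_dot]
    exact (F0_iff S.cone S.p_ne).1 hvF _ (D.u_mem S hz)
  have hk : D.kpL y ∈ D.X.dual.Z0 := ⟨D.vh_kpL y, by rw [D.d_kpL, hy, zero_smul]⟩
  have hz := D.prX_mem hx
  have hDh := (D.exists_Dh S).choose_spec
  have h1 := hDh.2 _ hk _ hz y 1 hy (fun z' _ => by rw [← D.kpL_dot, one_mul])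
  change (1 : R) • (D.ev S *ᵥ (D.Dh S *ᵥ tv (D.kpL y) (prX R J *ᵥ x))) -
    D.c0 S • br y (D.aa *ᵥ (prX R J *ᵥ x)) ∈ F1 p at h1
  rw [one_smul] at h1
  -- the cocycle
  set g₀ : ((Fin 248 ⊕ (Unit ⊕ J)) ⊕ (Unit ⊕ J)) → R := s • (iW R J *ᵥ v) + iP R J *ᵥ e with hg₀
  have hg₀Z : g₀ ∈ (D.G S).Z0 := by
    constructor
    · have a1 : Vh (D.G S) 0 (iW R J *ᵥ v) := by
        have := Vh.mulVec (D.iW_hmg S) (mem_Z0_free v).1
        simpa using this
      have a2 : Vh (D.G S) 0 (iP R J *ᵥ e) := by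
        have := Vh.mulVec (D.iP_cl S).hmg he
        simpa using this
      intro j hj
      rw [hg₀, Pi.add_apply, Pi.smul_apply, a1 j hj, a2 j hj, smul_zero, add_zero]
    · rw [hg₀, Matrix.mulVec_add, Matrix.mulVec_smul, Matrix.mulVec_mulVec, D.G_d_iW,
        Matrix.mulVec_mulVec, (D.iP_cl S).comm1, Matrix.neg_mulVec,
        ← Matrix.mulVec_mulVec v (iP R J), ← Matrix.mulVec_mulVec e (iP R J), hde,
        Matrix.mulVec_smul, add_neg_cancel]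
  have hev : D.ev S *ᵥ g₀ = (s * D.c0 S) • v := by
    have e1 : D.ev S * iW R J = D.c0 S • (1 : Matrix (Fin 248) (Fin 248) R) := by
      rw [ev, iW, Matrix.fromCols_mul_fromRows, Matrix.fromCols_mul_fromRows]; simp
    have e2 : D.ev S * iP R J = 0 := by
      rw [ev, iP, Matrix.fromCols_mul_fromRows]; simp
    rw [hg₀, Matrix.mulVec_add, Matrix.mulVec_smul, Matrix.mulVec_mulVec, e1,
      Matrix.mulVec_mulVec, e2, Matrix.zero_mulVec, add_zero, Matrix.smul_mulVec,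
      Matrix.one_mulVec, smul_smul]
  -- the difference
  have hDZ : D.Dh S *ᵥ tv (D.kpL y) (prX R J *ᵥ x) ∈ (D.G S).Z0 :=
    Cl.mem_Z0 hDh.1 (vk_mem_Z0 hk hz)
  have hdiff : s • (D.Dh S *ᵥ tv (D.kpL y) (prX R J *ᵥ x)) - g₀ ∈ (D.G S).BT := by
    refine (D.exists_ev S).choose_spec.2.choose_spec.2.1 _
      (sub_mem (Submodule.smul_mem _ _ hDZ) hg₀Z) ?_
    change D.ev S *ᵥ _ ∈ F1 p
    rw [Matrix.mulVec_sub, Matrix.mulVec_smul, hev]
    have h2 : v = br y (D.aa *ᵥ (prX R J *ᵥ x)) + x (Sum.inl ()) • br y p := by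
      rw [hv, D.u_mulVec', br_add_right, br_smul_right]
    have h3 : s • (D.ev S *ᵥ (D.Dh S *ᵥ tv (D.kpL y) (prX R J *ᵥ x))) - (s * D.c0 S) • v =
        s • (D.ev S *ᵥ (D.Dh S *ᵥ tv (D.kpL y) (prX R J *ᵥ x)) -
          D.c0 S • br y (D.aa *ᵥ (prX R J *ᵥ x))) +
          (s * D.c0 S * x (Sum.inl ())) • br p y := by
      rw [h2, br_skew p y]
      module
    rw [h3]
    exact F1_add (F1_smul _ h1) (F1_smul _ (br_p_perp S.cone S.p_ne hy))
  obtain ⟨s', hs', g, -, hg⟩ := hdiff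
  refine ⟨s' * s, mul_ne_zero hs' hs, s' • e, g, ?_⟩
  rw [hg, Matrix.mulVec_smul, hg₀]
  module

/-- **the key relation** -/
theorem key_bd (S : Setup R p a) : Bd D.X2 (D.G S) 1
    (D.Dh S * ins J D.phv * prX R J + iP R J * D.tau S) := by
  have hDh := (D.exists_Dh S).choose_spec
  refine key a S.reg (by norm_num) D.X.dual D.X D.X2 D.X2.dual (D.G S) D.X2_deg_le ?_
    (D.le_G S) D.ue_X2 (fun i => (D.ue_X2 i).dual) (D.ue_G S) D.u D.cl_u (D.uᵀ * kM R)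
    D.cl_ut (prX R J) D.cl_prX (D.tau S) (D.cl_tau S) (iW R J) (D.iW_hmg S) (iP R J) (D.iP_cl S)
    (D.G_d_iW S) ?_ ?_ (D.Dh S) hDh.1 (adM R) (kfL p) D.kpL D.vh_kpL D.phv D.d_kpL ?_ ?_ ?_
  · intro j
    have := D.X2_deg_le j
    rw [dual_deg]; omega
  · intro v hv
    ext j
    have := congrFun hv (Sum.inr j)
    simpa [iP, Matrix.fromRows_mulVec] using this
  · intro v hv hdv
    obtain ⟨N, h, hh⟩ := (D.ue_X2 0).dual
    have h1 := hh.vec_bd (by norm_num) hv hdv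
    have h2 : h *ᵥ v = 0 := by
      funext j
      refine Vh.hmg_mulVec hh.hmg hv j ?_
      have := D.X2_deg_le j
      rw [dual_deg]; omega
    rw [h2, Matrix.mulVec_zero] at h1
    exact (smul_eq_zero.1 h1).resolve_left (pow_ne_zero _ (S.ne 0))
  · intro i
    obtain ⟨n, e, he⟩ := S.pmem i
    exact ⟨n, e, he⟩
  · intro y x hx hdx
    obtain ⟨s, hs, e, -, he⟩ := D.keyC S y (x := x) ⟨hx, hdx⟩
    refine ⟨s, hs, e, ?_⟩
    rw [adM_mulVec]
    exact he.symm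
  · intro y x hy hx hdx
    rw [adM_mulVec]
    exact D.keyD S hy ⟨hx, hdx⟩

end CoreData

end LicciCore
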