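import Pool.Agent.Work.MP_a98e4e_ag.Cx.Tensor

/-!
# The closed fibre in index form

`J` is the index set of a basis of `X = X_{-1} + X_0 + X_1`, `om i j = ω(e_i, e_j)`,
`D i j l m` is the coefficient of `e_m` in `D(e_i, e_j) e_l`, `de` is the leading form of the
differential and `ε` is the class in `X_1`.
-/

set_option autoImplicit false

namespace LicciCore

open LicciCx Matrix

/-- The sign `(-1) ^ (m n)` in `k`. -/
def kz (k : Type*) [CommRing k] (m n : ℤ) : k := ((sg (m * n) : ℤ) : k)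

variable {k : Type*} [Field k] {J : Type*} [Fintype J] [DecidableEq J]

/-- The value of the trilinear map `D` on vectors. -/
def app3 (D : J → J → J → J → k) (x y z : J → k) : J → k :=
  fun m => ∑ i, ∑ j, ∑ l, x i * y j * z l * D i j l m

/-- the super Freudenthal data on the closed fibre -/
structure Sfts (deg : J → ℤ) (om : Matrix J J k) (D : J → J → J → J → k) : Prop where
  deg_le : ∀ j, deg j ≤ 1
  le_deg : ∀ j, -1 ≤ deg j
  om_deg : ∀ i j, deg i + deg j ≠ 0 → om i j = 0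
  om_symm : ∀ i j, om i j = -(kz k (deg i) (deg j) * om j i)
  om_unit : IsUnit om.det
  dim : Fintype.card {j // deg j = 0} = 56 + 2 * Fintype.card {j // deg j = 1}
  D_deg : ∀ i j l m, deg m ≠ deg i + deg j + deg l → D i j l m = 0
  D_symm : ∀ i j l m, D i j l m = kz k (deg i) (deg j) * D j i l m
  cross : ∀ i j l m, D i j l m - kz k (deg j) (deg l) * D i l j m =
    2 * om j l * (if i = m then 1 else 0) - om i j * (if l = m then 1 else 0) +
      kz k (deg j) (deg l) * om i l * (if j = m then 1 else 0)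
  sp : ∀ i j l r, ∑ m, D i j l m * om m r +
    kz k (deg l) (deg i + deg j) * ∑ m, om l m * D i j r m = 0
  sq : ∀ i j l r, ∑ a, ∑ b, ∑ m, om⁻¹ a b * D i j a m * D m b l r = 24 * D i j l r

/-- the class `ε` -/
structure SEps (deg : J → ℤ) (D : J → J → J → J → k) (ε : J → k) : Prop where
  deg_one : ∀ j, deg j ≠ 1 → ε j = 0
  ne : ε ≠ 0
  e1 : ∀ x : J → k, (∀ j, deg j ≠ 1 → x j = 0) → (∀ z, app3 D ε x z = 0) → ∃ c : k, x = c • ε
  e2 : ∀ x y : J → k, (∀ j, deg j ≠ 1 → x j = 0) → (∀ j, deg j ≠ 1 → y j = 0) →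
    ∃ w : J → k, (∀ j, deg j ≠ 1 → w j = 0) ∧ ∀ z, app3 D x y z = app3 D ε w z
  e3 : ∀ x u : J → k, (∀ j, deg j ≠ 1 → x j = 0) → (∀ j, deg j ≠ 0 → u j = 0) →
    ∃ w : J → k, (∀ j, deg j ≠ 0 → w j = 0) ∧ ∀ z, app3 D x u z = app3 D ε w z

/-- the leading form of the differential: `d e_j = ∑ i, de i j e_i` -/
structure SDer (deg : J → ℤ) (om : Matrix J J k) (D : J → J → J → J → k) (de : Matrix J J k) :
    Prop where
  deg_one : ∀ i j, deg i ≠ deg j + 1 → de i j = 0
  ne : de ≠ 0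
  sq : de * de = 0
  om_d : ∀ i j, ∑ s, om s j * de s i + kz k (deg i) 1 * ∑ s, om i s * de s j = 0
  D_d : ∀ i j l m, ∑ s, de m s * D i j l s = ∑ s, D s j l m * de s i +
    kz k (deg i) 1 * ∑ s, D i s l m * de s j + kz k (deg i + deg j) 1 * ∑ s, D i j s m * de s l

end LicciCore
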