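import Pool.Agent.Work.MP_a98e4e_ag.Cx.Maps
import Pool.Agent.Work.MP_a98e4e_ag.Core.SftsDefs
import Pool.Agent.Work.MP_a98e4e_ag.X.Key

/-!
# Reading off the closed fibre

Over the residue field `k`: `X = (E | B | C)` with zero differential, `phi` a functional on `E`,
`XD = X''^∨ = k ⊕ X^∨` with `d 1 = -phi`, `inc : XD → G` of degree one, injective on the degree `1`
part and onto in degrees `≥ 1`; `fl : X → X^∨` the (perfect) form; `Dh : X^∨ ⊗ X → G`,
`al : G ⊗ X → X`; the key relation `s Dh (phi, z) + inc (fl z) ∈ d G`;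
`L : G → G` with `(L + 12) (L + 28) ≃ 0` and `L g = 0` if `al (g, ·) = 0`.

With `D' (x, y) z = al (Dh (fl x, y), z)` and `eps = fl ^ -1 phi` we get: `eps ≠ 0` if `C ≠ 0`;
`D' (eps, z) = 0` implies `z ∈ k eps` for `z` of degree one; every `D' v`, `v` of positive degree,
is `D' (eps, z)`; if `C = 0` then `inc 1` is a boundary.
-/

set_option autoImplicit false
set_option linter.unusedSectionVars false

open Matrix Kronecker

namespace LicciCore

open LicciCx LicciCx.Cx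

/-- the vector `(0, x)` -/
def jr {R : Type*} [CommRing R] {J : Type*} (x : J → R) : Unit ⊕ J → R := Sum.elim 0 x

/-- the first basis vector -/
def j1 (R : Type*) [CommRing R] (J : Type*) : Unit ⊕ J → R := Sum.elim 1 0

theorem prX_jr {R : Type*} [CommRing R] {J : Type*} [DecidableEq J] [Fintype J] (z : J → R) :
    (Matrix.fromCols (0 : Matrix J Unit R) (1 : Matrix J J R)) *ᵥ jr z = z := by
  ext i
  simp [Matrix.fromCols, Matrix.mulVec, dotProduct, jr, Matrix.one_apply]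

theorem vh_jr {R : Type*} [CommRing R] {J : Type*} [Fintype J] {K : Cx R (Unit ⊕ J)} {n : ℤ}
    {z : J → R} (h : ∀ j, K.deg (Sum.inr j) ≠ n → z j = 0) : Vh K n (jr z) := by
  rintro (j | j) hj
  · rfl
  · exact h j hj

/-- The closed fibre data. -/
structure ReadData {k : Type*} [Field k] {J JG : Type*} [Fintype J] [DecidableEq J]
    [Fintype JG] [DecidableEq JG] (X : Cx k J) (XD : Cx k (Unit ⊕ J))
    (G : Cx k JG) (phi : J → k) (fl : Matrix J J k)
    (inc : Matrix JG (Unit ⊕ J) k) (Dh : Matrix JG (J × J) k) (al : Matrix J (JG × J) k)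
    (L : Matrix JG JG k) (s : k) : Prop where
  X_d : X.d = 0
  XD_deg : ∀ j, XD.deg (Sum.inr j) = -X.deg j
  XD_deg' : ∀ j, XD.deg (Sum.inl j) = 0
  XD_d : ∀ w, XD.d *ᵥ w = -(w (Sum.inl ()) • jr phi)
  phi_deg : ∀ j, X.deg j ≠ -1 → phi j = 0
  inc_cl : Cl XD G 1 inc
  inc_surj : ∀ n v, 1 ≤ n → Vh G n v → ∃ w, Vh XD (n - 1) w ∧ inc *ᵥ w = v
  inc_inj : ∀ w, Vh XD 1 w → inc *ᵥ w = 0 → w = 0
  fl_cl : Cl X X.dual 0 fl
  fl_inj : ∀ z, fl *ᵥ z = 0 → z = 0
  Dh_cl : Cl (X.dual.tensor X) G 0 Dh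
  al_cl : Cl (G.tensor X) X 0 al
  L_ker : ∀ g, (∀ z, al *ᵥ tv g z = 0) → L *ᵥ g = 0
  c_ne : (12 * 28 : k) ≠ 0
  L_rel : Bd G G 0 ((L + (12 : k) • 1) * (L + (28 : k) • 1))
  s_ne : s ≠ 0
  key : ∀ z, (∀ j, X.deg j < 0 → z j = 0) →
    ∃ g, s • (Dh *ᵥ tv phi z) + inc *ᵥ jr (fl *ᵥ z) = G.d *ᵥ g

namespace ReadData

variable {k : Type*} [Field k] {J JG : Type*} [Fintype J] [DecidableEq J]
    [Fintype JG] [DecidableEq JG] {X : Cx k J} {XD : Cx k (Unit ⊕ J)}
    {G : Cx k JG} {phi : J → k} {fl : Matrix J J k}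
    {inc : Matrix JG (Unit ⊕ J) k} {Dh : Matrix JG (J × J) k} {al : Matrix J (JG × J) k}
    {L : Matrix JG JG k} {s : k}

/-- `al` kills boundaries of `G` -/
theorem al_d (h : ReadData X XD G phi fl inc Dh al L s) (y : JG → k) (z : J → k) :
    al *ᵥ tv (G.d *ᵥ y) z = 0 := by
  have h1 : (G.tensor X).d *ᵥ tv y z = tv (G.d *ᵥ y) z := by
    rw [tensor_d, h.X_d, kron_zero, add_zero, kron_mulVec_tv, Matrix.one_mulVec]
  rw [← h1, Matrix.mulVec_mulVec, ← h.al_cl.comm0, h.X_d, Matrix.zero_mul, Matrix.zero_mulVec]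

theorem G_d_inc (h : ReadData X XD G phi fl inc Dh al L s) (w : Unit ⊕ J → k) :
    G.d *ᵥ (inc *ᵥ w) = w (Sum.inl ()) • (inc *ᵥ jr phi) := by
  rw [Matrix.mulVec_mulVec, h.inc_cl.comm1, Matrix.neg_mulVec, ← Matrix.mulVec_mulVec,
    h.XD_d, Matrix.mulVec_neg, Matrix.mulVec_smul, neg_neg]

/-- The key identity `al (inc (fl z), y) = -s al (Dh (φ, z), y)`. -/
theorem al_inc (h : ReadData X XD G phi fl inc Dh al L s) {z : J → k}
    (hz : ∀ j, X.deg j < 0 → z j = 0) (y : J → k) :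
    al *ᵥ tv (inc *ᵥ jr (fl *ᵥ z)) y = -(s • (al *ᵥ tv (Dh *ᵥ tv phi z) y)) := by
  obtain ⟨g, hg⟩ := h.key z hz
  have h3 := congrArg (fun v => al *ᵥ tv v y) hg
  simp only [add_tv, Matrix.mulVec_add, smul_tv, Matrix.mulVec_smul] at h3
  rw [h.al_d] at h3
  exact eq_neg_of_add_eq_zero_right h3

theorem vh_fl (h : ReadData X XD G phi fl inc Dh al L s) {n : ℤ} {z : J → k}
    (hz : Vh X n z) : Vh XD n (jr (fl *ᵥ z)) := by
  have h1 := Vh.mulVec h.fl_cl.hmg hz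
  rw [add_zero] at h1
  refine vh_jr fun j hj => h1 j ?_
  rw [h.XD_deg] at hj
  exact hj

/-- `336 g` is a boundary if `al (g, ·) = 0` and `d g = 0` -/
theorem bd_of_al (h : ReadData X XD G phi fl inc Dh al L s) {n : ℤ} {g : JG → k}
    (hg : Vh G n g) (hd : G.d *ᵥ g = 0) (h0 : ∀ z, al *ᵥ tv g z = 0) :
    ∃ y, Vh G (n - 1) y ∧ G.d *ᵥ y = (12 * 28 : k) • g := by
  obtain ⟨s, hs1, hs⟩ := h.L_rel
  have hL := h.L_ker g h0
  refine ⟨s *ᵥ g, ?_, ?_⟩
  · have := Vh.mulVec hs1 hg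
    rwa [zero_sub, ← sub_eq_add_neg] at this
  · have h1 := congrArg (fun f => f *ᵥ g) hs
    simp only [sg_zero, Int.cast_one, one_smul, Matrix.add_mulVec] at h1
    rw [← Matrix.mulVec_mulVec, ← Matrix.mulVec_mulVec, ← Matrix.mulVec_mulVec, hd,
      Matrix.mulVec_zero, add_zero] at h1
    rw [← h1]
    simp only [Matrix.add_mulVec, Matrix.smul_mulVec, Matrix.one_mulVec, hL,
      Matrix.mulVec_smul, zero_add, smul_smul, mul_comm]

theorem e1' (h : ReadData X XD G phi fl inc Dh al L s) {z : J → k} (hz : Vh X 1 z)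
    (h0 : ∀ y, al *ᵥ tv (Dh *ᵥ tv phi z) y = 0) : ∃ t : k, fl *ᵥ z = t • phi := by
  have hz0 : ∀ j, X.deg j < 0 → z j = 0 := fun j hj => hz j (by omega)
  have h1 : ∀ y, al *ᵥ tv (inc *ᵥ jr (fl *ᵥ z)) y = 0 := by
    intro y
    rw [h.al_inc hz0, h0, smul_zero, neg_zero]
  have hv2 : Vh G (1 + 1) (inc *ᵥ jr (fl *ᵥ z)) := Vh.mulVec h.inc_cl.hmg (h.vh_fl hz)
  have hd : G.d *ᵥ (inc *ᵥ jr (fl *ᵥ z)) = 0 := by
    rw [h.G_d_inc]; simp [jr]
  obtain ⟨y, hy1, hy⟩ := h.bd_of_al hv2 hd h1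
  obtain ⟨w, hw1, hw⟩ := h.inc_surj 1 y le_rfl (by simpa using hy1)
  rw [← hw, h.G_d_inc] at hy
  have h3 : inc *ᵥ ((12 * 28 : k) • jr (fl *ᵥ z) - w (Sum.inl ()) • jr phi) = 0 := by
    rw [Matrix.mulVec_sub, Matrix.mulVec_smul, Matrix.mulVec_smul, hy, sub_self]
  have h4 := h.inc_inj _ (by
    have h5 := h.vh_fl hz
    rintro (j | j) hj
    · simp [jr]
    · have h6 := h5 (Sum.inr j) hj
      have h7 : phi j = 0 := h.phi_deg j (by intro h8; apply hj; rw [h.XD_deg, h8]; rfl)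
      simp only [Pi.sub_apply, Pi.smul_apply, h6, smul_zero, zero_sub, neg_eq_zero]
      simp [jr, h7]) h3
  refine ⟨(12 * 28 : k)⁻¹ * w (Sum.inl ()), ?_⟩
  ext j
  have h5 := congrFun h4 (Sum.inr j)
  simp only [jr, Pi.sub_apply, Pi.smul_apply, Sum.elim_inr, smul_eq_mul, Pi.zero_apply,
    sub_eq_zero] at h5 ⊢
  rw [mul_assoc, ← h5, ← mul_assoc, inv_mul_cancel₀ h.c_ne, one_mul]

theorem phi_ne (h : ReadData X XD G phi fl inc Dh al L s) {j : J}
    (hj : X.deg j = 1) : phi ≠ 0 := by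
  intro h0
  have hz : Vh X 1 (Pi.single j 1 : J → k) := by
    intro i hi
    rw [Pi.single_apply, if_neg]
    rintro rfl; exact hi hj
  obtain ⟨t, ht⟩ := h.e1' hz (by
    intro y
    rw [h0, zero_tv, Matrix.mulVec_zero, zero_tv, Matrix.mulVec_zero])
  rw [h0, smul_zero] at ht
  have := congrFun (h.fl_inj _ ht) j
  simp at this

/-- `fl` is surjective in every degree -/
theorem fl_surj (h : ReadData X XD G phi fl inc Dh al L s) (v : J → k) :
    ∃ z, fl *ᵥ z = v := by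
  have hinj : Function.Injective (Matrix.mulVecLin fl) := by
    rw [← LinearMap.ker_eq_bot, LinearMap.ker_eq_bot']
    intro z hz
    exact h.fl_inj z hz
  exact LinearMap.surjective_of_injective hinj v

theorem fl_surj' (h : ReadData X XD G phi fl inc Dh al L s) {n : ℤ} {v : J → k}
    (hv : Vh X.dual n v) : ∃ z, Vh X n z ∧ fl *ᵥ z = v := by
  obtain ⟨z, hz⟩ := h.fl_surj v
  refine ⟨fun j => if X.deg j = n then z j else 0, fun j hj => by simp [hj], ?_⟩
  ext i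
  by_cases hi : X.dual.deg i = n
  · rw [← hz]
    simp only [Matrix.mulVec, dotProduct]
    refine Finset.sum_congr rfl fun j _ => ?_
    by_cases hj : X.deg j = n
    · simp [hj]
    · have : fl i j = 0 := h.fl_cl.hmg i j (by rw [hi, add_zero]; exact fun h => hj h.symm)
      simp [this]
  · rw [hv i hi]
    simp only [Matrix.mulVec, dotProduct]
    refine Finset.sum_eq_zero fun j _ => ?_
    by_cases hj : X.deg j = n
    · have : fl i j = 0 := h.fl_cl.hmg i j (by rw [hj, add_zero]; exact hi)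
      simp [this]
    · simp [hj]

/-- Every value of `D'` in positive degrees is a value of `D' (eps, ·)`. -/
theorem e2' (h : ReadData X XD G phi fl inc Dh al L s) (he : phi ≠ 0) {n : ℤ}
    (hn : 1 ≤ n) {v : J × J → k} (hv : Vh (X.dual.tensor X) n v) :
    ∃ z, Vh X (n - 1) z ∧ ∀ y, al *ᵥ tv (Dh *ᵥ v) y = al *ᵥ tv (Dh *ᵥ tv phi z) y := by
  obtain ⟨w, hw1, hw⟩ := h.inc_surj n (Dh *ᵥ v) hn (by
    have := Vh.mulVec h.Dh_cl.hmg hv
    rwa [add_zero] at this)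
  have hXd : X.dual.d = 0 := by rw [dual_d, h.X_d]; simp
  have hd : G.d *ᵥ (Dh *ᵥ v) = 0 := by
    rw [Matrix.mulVec_mulVec, h.Dh_cl.comm0, tensor_d, h.X_d, hXd, zero_kron, kron_zero]
    simp
  have hr : w (Sum.inl ()) = 0 := by
    by_contra hne
    rw [← hw, h.G_d_inc] at hd
    have h1 : inc *ᵥ jr phi = 0 := by
      rcases smul_eq_zero.mp hd with h | h
      · exact absurd h hne
      · exact h
    have h2 := h.inc_inj _ (vh_jr fun j hj =>
      h.phi_deg j (by intro h8; apply hj; rw [h.XD_deg, h8]; rfl)) h1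
    apply he
    ext j
    exact congrFun h2 (Sum.inr j)
  let z' : J → k := fun j => w (Sum.inr j)
  have hwz : w = jr z' := by
    ext (j | j)
    · exact hr
    · rfl
  obtain ⟨z, hz1, hz⟩ := h.fl_surj' (n := n - 1) (v := z') (by
    intro j hj
    exact hw1 (Sum.inr j) (by rw [h.XD_deg]; exact hj))
  refine ⟨(-s) • z, ?_, fun y => ?_⟩
  · intro j hj
    simp [hz1 j hj]
  · rw [tv_smul, Matrix.mulVec_smul, smul_tv, Matrix.mulVec_smul, neg_smul,
      ← h.al_inc (fun j hj => hz1 j (by omega)), hz, ← hwz, hw]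

/-- the case `C = 0` -/
theorem inc_one (h : ReadData X XD G phi fl inc Dh al L s) (h0 : ∀ j, X.deg j = 0) :
    ∃ y, Vh G 0 y ∧ G.d *ᵥ y = inc *ᵥ j1 k J := by
  have hir : Vh XD 0 (j1 k J) := by
    rintro (j | j) hj
    · exact absurd (h.XD_deg' j) hj
    · rfl
  have hg : Vh G 1 (inc *ᵥ j1 k J) := by
    have := Vh.mulVec h.inc_cl.hmg hir
    simpa using this
  have hphi : phi = 0 := by
    ext j
    exact h.phi_deg j (by rw [h0]; norm_num)
  have hd : G.d *ᵥ (inc *ᵥ j1 k J) = 0 := by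
    rw [h.G_d_inc, hphi]
    have : jr (0 : J → k) = 0 := by
      ext (j | j) <;> rfl
    rw [this]; simp
  obtain ⟨y, hy1, hy⟩ := h.bd_of_al hg hd (by
    intro z
    have hz : Vh X 0 z := fun j hj => absurd (h0 j) hj
    have h1 := Vh.mulVec h.al_cl.hmg (Vh.tv hg hz)
    ext j
    exact h1 j (by rw [h0]; norm_num))
  refine ⟨(12 * 28 : k)⁻¹ • y, ?_, ?_⟩
  · intro j hj
    simp [hy1 j (by simpa using hj)]
  · rw [Matrix.mulVec_smul, hy, smul_smul, inv_mul_cancel₀ h.c_ne, one_smul]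

end ReadData

/-! ### the key relation from a homotopy of degree one -/

/-- `Dh * ins phi * prX + inc * tau` null-homotopic gives the field `key`. -/
theorem key_of_bd {k : Type*} [Field k] {J JG : Type*} [Fintype J] [DecidableEq J]
    [Fintype JG] [DecidableEq JG] {X : Cx k J} {X2 : Cx k (Unit ⊕ J)}
    {G : Cx k JG} {xi phi : J → k} {fl : Matrix J J k}
    {inc : Matrix JG (Unit ⊕ J) k} {Dh : Matrix JG (J × J) k}
    {tau : Matrix (Unit ⊕ J) (Unit ⊕ J) k} {c s : k} (hc : c ≠ 0)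
    (hb : Bd X2 G 1 (Dh * ins J xi * (Matrix.fromCols (0 : Matrix J Unit k) (1 : Matrix J J k)) +
      inc * tau))
    (hX2 : ∀ z, (∀ j, X.deg j < 0 → z j = 0) → X2.d *ᵥ jr z = 0)
    (htau : ∀ z, tau *ᵥ jr z = c • jr (fl *ᵥ z)) (hxi : xi = (c * s) • phi) :
    ∀ z, (∀ j, X.deg j < 0 → z j = 0) →
      ∃ g, s • (Dh *ᵥ tv phi z) + inc *ᵥ jr (fl *ᵥ z) = G.d *ᵥ g := by
  intro z hz
  obtain ⟨t, -, ht⟩ := hb
  have h1 := congrArg (fun f => f *ᵥ jr z) ht
  simp only [sg_one, Int.cast_neg, Int.cast_one, neg_smul, one_smul, Matrix.add_mulVec,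
    Matrix.neg_mulVec] at h1
  rw [← Matrix.mulVec_mulVec, ← Matrix.mulVec_mulVec, prX_jr, ins_mulVec,
    ← Matrix.mulVec_mulVec _ inc tau, htau, ← Matrix.mulVec_mulVec _ t X2.d, hX2 z hz,
    Matrix.mulVec_zero, neg_zero, add_zero, ← Matrix.mulVec_mulVec, hxi, smul_tv,
    Matrix.mulVec_smul, Matrix.mulVec_smul] at h1
  refine ⟨c⁻¹ • (t *ᵥ jr z), ?_⟩
  rw [Matrix.mulVec_smul, ← h1, smul_add, smul_smul, smul_smul, inv_mul_cancel₀ hc, one_smul,
    ← mul_assoc, inv_mul_cancel₀ hc, one_mul]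

/-- `De - Dh * (A ⊗ prX)` null-homotopic gives the field `key`. -/
theorem key_of_delta {k : Type*} [Field k] {J JG I : Type*} [Fintype J] [DecidableEq J]
    [Fintype JG] [DecidableEq JG] [Fintype I] [DecidableEq I] {X : Cx k J} {V : Cx k I}
    {X2 : Cx k (Unit ⊕ J)}
    {G : Cx k JG} {phi : J → k} {fl : Matrix J J k}
    {inc : Matrix JG (Unit ⊕ J) k} {Dh : Matrix JG (J × J) k}
    {De : Matrix JG (I × (Unit ⊕ J)) k} {A : Matrix J I k} {v : I → k} {c s : k} (hc : c ≠ 0)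
    (hb : Bd (V.tensor X2) G 0
      (De - Dh * (A ⊗ₖ (Matrix.fromCols (0 : Matrix J Unit k) (1 : Matrix J J k)))))
    (hX2 : ∀ z, (∀ j, X.deg j < 0 → z j = 0) → X2.d *ᵥ jr z = 0)
    (hV : V.d = 0) (hDe : ∀ z, De *ᵥ tv v (jr z) = c • (inc *ᵥ jr (fl *ᵥ z)))
    (hA : A *ᵥ v = -((c * s) • phi)) :
    ∀ z, (∀ j, X.deg j < 0 → z j = 0) →
      ∃ g, s • (Dh *ᵥ tv phi z) + inc *ᵥ jr (fl *ᵥ z) = G.d *ᵥ g := by
  intro z hz
  obtain ⟨t, -, ht⟩ := hb
  have h1 := congrArg (fun f => f *ᵥ tv v (jr z)) ht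
  simp only [sg_zero, Int.cast_one, one_smul, Matrix.add_mulVec, Matrix.sub_mulVec] at h1
  rw [← Matrix.mulVec_mulVec _ Dh, kron_mulVec_tv, prX_jr, hA, neg_tv, smul_tv,
    Matrix.mulVec_neg, Matrix.mulVec_smul, sub_neg_eq_add, hDe,
    ← Matrix.mulVec_mulVec _ t, tensor_d, Matrix.add_mulVec, kron_mulVec_tv, kron_mulVec_tv,
    hV, Matrix.zero_mulVec, zero_tv, hX2 z hz, tv_zero, add_zero, Matrix.mulVec_zero, add_zero,
    ← Matrix.mulVec_mulVec] at h1
  refine ⟨c⁻¹ • (t *ᵥ tv v (jr z)), ?_⟩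
  rw [Matrix.mulVec_smul, ← h1, smul_add, smul_smul, smul_smul, inv_mul_cancel₀ hc, one_smul,
    ← mul_assoc, inv_mul_cancel₀ hc, one_mul, add_comm]

/-! ### the output in index form -/

section index

variable {k : Type*} [Field k] {J JG : Type*} [Fintype J] [DecidableEq J]
    [Fintype JG] [DecidableEq JG]

/-- `Dp i j l m` is the coefficient of `e_m` in `al (Dh (fl e_i, e_j), e_l)`. -/
def Dp (fl : Matrix J J k) (Dh : Matrix JG (J × J) k) (al : Matrix J (JG × J) k)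
    (i j l m : J) : k :=
  (al *ᵥ tv (Dh *ᵥ tv (fl *ᵥ Pi.single i 1) (Pi.single j 1)) (Pi.single l 1)) m

theorem tv_sum_left {A B ι : Type*} [Fintype ι] (x : ι → A → k) (y : B → k) :
    tv (∑ i, x i) y = ∑ i, tv (x i) y := by
  ext a; simp [tv, Finset.sum_mul]

theorem tv_sum_right {A B ι : Type*} [Fintype ι] (x : A → k) (y : ι → B → k) :
    tv x (∑ i, y i) = ∑ i, tv x (y i) := by
  ext a; simp [tv, Finset.mul_sum]

theorem app3_Dp (fl : Matrix J J k) (Dh : Matrix JG (J × J) k) (al : Matrix J (JG × J) k)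
    (x y z : J → k) :
    app3 (Dp fl Dh al) x y z = al *ᵥ tv (Dh *ᵥ tv (fl *ᵥ x) y) z := by
  have hs : ∀ v : J → k, v = ∑ i, v i • Pi.single i (1 : k) := fun v => by
    ext j; simp [Finset.sum_apply, Pi.single_apply]
  conv_rhs => rw [hs x, hs y, hs z]
  simp only [Matrix.mulVec_sum, tv_sum_left, tv_sum_right, Matrix.mulVec_smul, smul_tv, tv_smul]
  ext m
  simp only [app3, Dp, Finset.sum_apply, Pi.smul_apply, smul_eq_mul]
  simp only [Finset.mul_sum]
  conv_lhs => rw [Finset.sum_comm]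
  conv_rhs => rw [Finset.sum_comm]
  refine Finset.sum_congr rfl fun j _ => ?_
  rw [Finset.sum_comm]
  refine Finset.sum_congr rfl fun l _ => Finset.sum_congr rfl fun i _ => ?_
  ring

/-- the `om` term vanishes in positive degrees -/
theorem app3_eq {X : Cx k J} {om : Matrix J J k} {D D' : J → J → J → J → k} {c c' : k}
    (hom : ∀ i j, X.deg i + X.deg j ≠ 0 → om i j = 0)
    (hD : ∀ i j l m, D i j l m = c * D' i j l m + c' * om i j * (if l = m then 1 else 0))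
    {n m : ℤ} (hnm : n + m ≠ 0) {x y : J → k} (hx : ∀ j, X.deg j ≠ n → x j = 0)
    (hy : ∀ j, X.deg j ≠ m → y j = 0) (z : J → k) :
    app3 D x y z = c • app3 D' x y z := by
  ext l
  simp only [app3, Pi.smul_apply, smul_eq_mul, Finset.mul_sum]
  refine Finset.sum_congr rfl fun i _ => Finset.sum_congr rfl fun j _ =>
    Finset.sum_congr rfl fun p _ => ?_
  rw [hD]
  by_cases hi : X.deg i = n
  · by_cases hj : X.deg j = m
    · rw [hom i j (by rw [hi, hj]; exact hnm)]; ring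
    · rw [hy j hj]; ring
  · rw [hx i hi]; ring

/-- The class `ε` on the closed fibre. -/
theorem ReadData.sEps {X : Cx k J} {XD : Cx k (Unit ⊕ J)}
    {G : Cx k JG} {phi : J → k} {fl : Matrix J J k}
    {inc : Matrix JG (Unit ⊕ J) k} {Dh : Matrix JG (J × J) k} {al : Matrix J (JG × J) k}
    {L : Matrix JG JG k} {s : k} (h : ReadData X XD G phi fl inc Dh al L s)
    {om : Matrix J J k} {D : J → J → J → J → k} {c c' : k} (hc : c ≠ 0)
    (hom : ∀ i j, X.deg i + X.deg j ≠ 0 → om i j = 0)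
    (hD : ∀ i j l m, D i j l m = c * Dp fl Dh al i j l m +
      c' * om i j * (if l = m then 1 else 0))
    {eps : J → k} (heps : fl *ᵥ eps = phi) (hex : ∃ j, X.deg j = 1) : SEps X.deg D eps := by
  obtain ⟨j₀, hj₀⟩ := hex
  have hphi := h.phi_ne hj₀
  have hdeg : ∀ j, X.deg j ≠ 1 → eps j = 0 := by
    obtain ⟨z, hz1, hz⟩ := h.fl_surj' (n := 1) (v := phi) (by
      intro j hj
      exact h.phi_deg j (by intro h1; apply hj; rw [dual_deg, h1]; rfl))
    have h1 : fl *ᵥ (z - eps) = 0 := by rw [Matrix.mulVec_sub, hz, heps, sub_self]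
    have h2 := h.fl_inj _ h1
    rw [sub_eq_zero] at h2
    rw [← h2]; exact hz1
  refine ⟨hdeg, ?_, ?_, ?_, ?_⟩
  · rintro rfl
    apply hphi
    rw [← heps, Matrix.mulVec_zero]
  · intro x hx h0
    obtain ⟨t, ht⟩ := h.e1' (z := x) hx (by
      intro y
      have h1 := h0 y
      rw [app3_eq hom hD (by norm_num : (1 : ℤ) + 1 ≠ 0) hdeg hx, app3_Dp, heps] at h1
      exact (smul_eq_zero.mp h1).resolve_left hc)
    refine ⟨t, ?_⟩
    have h1 : fl *ᵥ (x - t • eps) = 0 := by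
      rw [Matrix.mulVec_sub, ht, Matrix.mulVec_smul, heps, sub_self]
    exact sub_eq_zero.mp (h.fl_inj _ h1)
  · intro x y hx hy
    have h1 := Vh.mulVec h.fl_cl.hmg (show Vh X 1 x from hx)
    obtain ⟨w, hw1, hw⟩ := h.e2' hphi (n := 1 + 0 + 1) (by norm_num) (Vh.tv h1 (show Vh X 1 y from hy))
    refine ⟨w, fun j hj => hw1 j (by norm_num; exact hj), fun z => ?_⟩
    rw [app3_eq hom hD (by norm_num : (1 : ℤ) + 1 ≠ 0) hx hy, app3_Dp, hw z,
      app3_eq hom hD (by norm_num : (1 : ℤ) + 1 ≠ 0) hdeg (fun j hj => hw1 j (by norm_num; exact hj)),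
      app3_Dp, heps]
  · intro x u hx hu
    have h1 := Vh.mulVec h.fl_cl.hmg (show Vh X 1 x from hx)
    obtain ⟨w, hw1, hw⟩ := h.e2' hphi (n := 1 + 0 + 0) (by norm_num) (Vh.tv h1 (show Vh X 0 u from hu))
    refine ⟨w, fun j hj => hw1 j (by norm_num; exact hj), fun z => ?_⟩
    rw [app3_eq hom hD (by norm_num : (1 : ℤ) + 0 ≠ 0) hx hu, app3_Dp, hw z,
      app3_eq hom hD (by norm_num : (1 : ℤ) + 0 ≠ 0) hdeg (fun j hj => hw1 j (by norm_num; exact hj)),
      app3_Dp, heps]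

end index

end LicciCore
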