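import Pool.Agent.Work.MP_a98e4e_ag.Core.ResK
import Pool.Agent.Work.MP_a98e4e_ag.Core.Cas
import Pool.Agent.Work.MP_a98e4e_ag.Core.Read

/-!
# The closed fibre of the core objects

`Om_psi`, `isUnit_omk`; the data of `ReadData` from the key homotopy and from
`(L + 12) (L + 28) ≃ 0`; `sEps`, `exists_isUnit`.
-/

set_option autoImplicit false
set_option linter.unusedSectionVars false

open Matrix Kronecker RingTheory.Sequence IsLocalRing

namespace LicciCore

open LicciCx Cx Pool.Agent.Licci

universe u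

namespace CoreData

variable {R : Type u} [CommRing R] [IsDomain R] [IsLocalRing R] {p : Fin 248 → R}
  {a : Fin 6 → R} {J : Type} [Fintype J] [DecidableEq J] (D : CoreData R p a J)

theorem cl_Dh' (S : Setup R p a) : Cl (D.X.dual.tensor D.X) (D.G S) 0 (D.Dh S) :=
  (D.exists_Dh S).choose_spec.1

theorem cl_al' (S : Setup R p a) : Cl ((D.G S).tensor D.X) D.X 0 (D.al S) :=
  (D.exists_al S).choose_spec.1

/-- a closed map of degree `0` maps cocycles to cocycles -/
theorem Z0_mulVec' {J₁ J₂ : Type*} [Fintype J₁] [Fintype J₂] [DecidableEq J₁] [DecidableEq J₂]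
    {K : Cx R J₁} {L : Cx R J₂} {f : Matrix J₂ J₁ R} (hf : Cl K L 0 f) {z : J₁ → R}
    (hz : z ∈ K.Z0) : f *ᵥ z ∈ L.Z0 := by
  refine ⟨?_, ?_⟩
  · have := Vh.mulVec hf.hmg (show Vh K 0 z from hz.1)
    rwa [add_zero] at this
  · rw [Matrix.mulVec_mulVec, hf.comm0, ← Matrix.mulVec_mulVec, hz.2, Matrix.mulVec_zero]

theorem Om_psi (S : Setup R p a) : Bd D.X.dual D.X.dual 0 (D.Om S * D.psi S - 1) := by
  have hcl : Cl D.X.dual D.X.dual 0 (D.Om S * D.psi S - 1) :=
    (((D.cl_Om S).mul (D.cl_psi S)).cast (by ring)).sub Cl.one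
  refine uniq1 a S.reg S.ne (fun i => (D.ue i).dual) (fun i => (D.ue i).dual) ?_ hcl ?_
  · intro i j
    have h1 := D.deg_le i
    have h2 := D.le_deg j
    rw [dual_deg, dual_deg]
    omega
  · intro l hl
    refine mem_BT_dual (S.ne 0) (D.ue 0) (Z0_mulVec' hcl hl) ?_
    intro z hz
    have h := (D.exists_psi S).choose_spec.2 l hl z hz
    rw [Matrix.sub_mulVec, Matrix.one_mulVec, sub_dotProduct, ← Matrix.mulVec_mulVec,
      sub_eq_zero, ← h, dotProduct_comm]
    rfl

theorem OmK_psi (S : Setup R p a) :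
    (D.Om S).map (residue R) * (D.psi S).map (residue R) = 1 := by
  have h := (D.Om_psi S).map_eq_zero (residue R) (dual_d_map_eq_zero _ D.X_d_map)
    (dual_d_map_eq_zero _ D.X_d_map)
  rw [Cx.map_sub', Matrix.map_mul, one_map, sub_eq_zero] at h
  exact h

theorem psi_OmK (S : Setup R p a) :
    (D.psi S).map (residue R) * (D.Om S).map (residue R) = 1 :=
  mul_eq_one_comm.1 (D.OmK_psi S)

theorem omk_tr (S : Setup R p a) : D.omk S = ((D.Om S).map (residue R))ᵀ := rfl

theorem isUnit_omk (S : Setup R p a) : IsUnit (D.omk S).det := by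
  rw [omk_tr, Matrix.det_transpose]
  refine IsUnit.of_mul_eq_one ((D.psi S).map (residue R)).det ?_
  rw [← Matrix.det_mul, D.OmK_psi, Matrix.det_one]

theorem OmK_inj (S : Setup R p a) {z : J → ResidueField R}
    (hz : (D.Om S).map (residue R) *ᵥ z = 0) : z = 0 := by
  have h := congrArg (fun v => (D.psi S).map (residue R) *ᵥ v) hz
  simp only [Matrix.mulVec_mulVec, D.psi_OmK, Matrix.one_mulVec, Matrix.mulVec_zero] at h
  exact h

theorem Dp_mulVec (S : Setup R p a) (x y z : J → R) :
    D.Dp S *ᵥ tv (tv x y) z = D.al S *ᵥ tv (D.Dh S *ᵥ tv (D.Om S *ᵥ x) y) z := by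
  rw [CoreData.Dp, ← Matrix.mulVec_mulVec, kron_mulVec_tv, ← Matrix.mulVec_mulVec, kron_mulVec_tv,
    Matrix.one_mulVec, Matrix.one_mulVec]

theorem tv_single {A B : Type*} [DecidableEq A] [DecidableEq B] {S : Type*} [CommRing S]
    (i : A) (j : B) : tv (Pi.single i (1 : S)) (Pi.single j (1 : S)) = Pi.single (i, j) 1 := by
  ext ⟨i', j'⟩
  by_cases h1 : i' = i
  · by_cases h2 : j' = j
    · subst h1; subst h2; simp [tv]
    · simp [tv, h2]
  · simp [tv, h1]

theorem map_mulVec_apply {A B : Type*} [Fintype B] {R' : Type*} [CommRing R']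
    (φ : R →+* R') (f : Matrix A B R) (v : B → R) :
    (f.map φ) *ᵥ (fun b => φ (v b)) = fun a => φ ((f *ᵥ v) a) := by
  ext a
  exact (RingHom.map_mulVec φ f v a).symm

theorem map_tv {A B : Type*} {R' : Type*} [CommRing R'] (φ : R →+* R') (x : A → R) (y : B → R) :
    (fun i => φ (tv x y i)) = tv (fun i => φ (x i)) (fun i => φ (y i)) := by
  ext i; simp [tv]

theorem Dp_map (S : Setup R p a) (i j l m : J) :
    residue R (D.Dp S m ((i, j), l)) =
      LicciCore.Dp ((D.Om S).map (residue R)) ((D.Dh S).map (residue R))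
        ((D.al S).map (residue R)) i j l m := by
  have hs : ∀ i : J, (Pi.single i (1 : ResidueField R) : J → ResidueField R) =
      fun b => residue R ((Pi.single i (1 : R) : J → R) b) := by
    intro i; ext b
    by_cases h : b = i
    · subst h; simp
    · simp [h]
  have h1 : D.Dp S m ((i, j), l) =
      (D.Dp S *ᵥ tv (tv (Pi.single i (1 : R)) (Pi.single j (1 : R))) (Pi.single l 1)) m := by
    rw [tv_single, tv_single, Matrix.mulVec_single_one]
    rfl
  rw [h1, D.Dp_mulVec, LicciCore.Dp, hs i, hs j, hs l, map_mulVec_apply, ← map_tv,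
    map_mulVec_apply, ← map_tv, map_mulVec_apply]

theorem Dk_eq (S : Setup R p a) (i j l m : J) : D.Dk S i j l m =
    -2 * LicciCore.Dp ((D.Om S).map (residue R)) ((D.Dh S).map (residue R))
      ((D.al S).map (residue R)) i j l m + (-1) * D.omk S i j * (if l = m then 1 else 0) := by
  rw [Dk, Dpk, D.Dp_map]; ring

/-! ### the data of `ReadData` -/

/-- `X''^∨ → G` -/
def inG (R : Type*) [CommRing R] (J : Type*) [DecidableEq J] :
    Matrix ((Fin 248 ⊕ (Unit ⊕ J)) ⊕ (Unit ⊕ J)) (Unit ⊕ J) R := Matrix.fromRows 0 1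

theorem inG_map : (inG R J).map (residue R) = inG (ResidueField R) J := by
  ext (i | i) j
  · simp [inG]
  · by_cases h : i = j
    · subst h; simp [inG]
    · simp [inG, h]

theorem inG_mulVec {k : Type*} [CommRing k] (w : Unit ⊕ J → k) :
    inG k J *ᵥ w = Sum.elim (0 : Fin 248 ⊕ (Unit ⊕ J) → k) w := by
  rw [inG, Matrix.fromRows_mulVec, Matrix.zero_mulVec, Matrix.one_mulVec]

theorem XD_d (w : Unit ⊕ J → ResidueField R) :
    (D.X2.dual.map (residue R)).d *ᵥ w =
      -(w (Sum.inl ()) • jr fun j => residue R (D.ph () j)) := by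
  have hd : D.X2.d = Matrix.fromBlocks 0 D.ph 0 D.X.d := rfl
  have h0 : D.X2.deg (Sum.inl ()) = 0 := rfl
  have hmin : ∀ i j, residue R (D.X.d i j) = 0 := fun i j => by
    rw [residue_eq_zero_iff]; exact D.min i j
  ext (i | i)
  · rw [Matrix.mulVec, dotProduct, Fintype.sum_sum_type]
    simp only [map_d, dual_d, ep, hd, Matrix.map_apply, Matrix.neg_apply, Matrix.transpose_apply,
      Matrix.diagonal_mul, Matrix.fromBlocks_apply₁₁, Matrix.fromBlocks_apply₂₁]
    simp [jr]
  · rw [Matrix.mulVec, dotProduct, Fintype.sum_sum_type]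
    simp only [map_d, dual_d, ep, hd, Matrix.map_apply, Matrix.neg_apply, Matrix.transpose_apply,
      Matrix.diagonal_mul, Matrix.fromBlocks_apply₁₂, Matrix.fromBlocks_apply₂₂]
    simp [jr, h0, sg_zero, hmin, mul_comm]

theorem X2_d_jr (z : J → ResidueField R) (hz : ∀ j, D.X.deg j < 0 → z j = 0) :
    (D.X2.map (residue R)).d *ᵥ jr z = 0 := by
  have hd : D.X2.d = Matrix.fromBlocks 0 D.ph 0 D.X.d := rfl
  have hmin : ∀ i j, residue R (D.X.d i j) = 0 := fun i j => by
    rw [residue_eq_zero_iff]; exact D.min i j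
  ext (i | i)
  · rw [Matrix.mulVec, dotProduct, Fintype.sum_sum_type]
    simp only [map_d, hd, Matrix.map_apply, Matrix.fromBlocks_apply₁₂, jr, Sum.elim_inl,
      Sum.elim_inr, Pi.zero_apply, mul_zero, Finset.sum_const_zero, zero_add]
    refine Finset.sum_eq_zero fun j _ => ?_
    by_cases hj : D.X.deg j = -1
    · rw [hz j (by omega), mul_zero]
    · rw [D.ph_deg i j hj, map_zero, zero_mul]
  · rw [Matrix.mulVec, dotProduct, Fintype.sum_sum_type]
    simp [map_d, hd, jr, hmin]

theorem tau_jr (S : Setup R p a) (c : R) (z : J → ResidueField R) :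
    (c • ((prX R J)ᵀ * D.Om S * prX R J)).map (residue R) *ᵥ jr z =
      residue R c • jr ((D.Om S).map (residue R) *ᵥ z) := by
  rw [Cx.map_smul', Matrix.map_mul, Matrix.map_mul, Matrix.smul_mulVec, ← Matrix.mulVec_mulVec,
    ← Matrix.mulVec_mulVec]
  have h1 : (prX R J).map (residue R) = prX (ResidueField R) J := by
    ext i (j | j)
    · simp [prX]
    · by_cases h : i = j
      · subst h; simp [prX]
      · simp [prX, h]
  have h2 : ((prX R J)ᵀ).map (residue R) = (prX (ResidueField R) J)ᵀ := by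
    rw [← h1]; rfl
  rw [h1, h2]
  have h3 : prX (ResidueField R) J *ᵥ jr z = z := prX_jr z
  rw [h3]
  congr 1
  ext (i | i)
  · simp [prX, Matrix.mulVec, dotProduct, jr]
  · simp [prX, Matrix.mulVec, dotProduct, jr, Matrix.one_apply]

/-- `Lc g = 0` if `al (g, ·) = 0` -/
theorem Lc_ker (S : Setup R p a) (g : (Fin 248 ⊕ (Unit ⊕ J)) ⊕ (Unit ⊕ J) → ResidueField R)
    (h : ∀ z, (D.al S).map (residue R) *ᵥ tv g z = 0) : (D.Lc S).map (residue R) *ᵥ g = 0 := by
  have h1 : ∀ i j, ∑ x, residue R (D.al S j (x, i)) * g x = 0 := by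
    intro i j
    have h2 := congrFun (h (Pi.single i 1)) j
    rw [Matrix.mulVec, dotProduct, Fintype.sum_prod_type] at h2
    rw [Pi.zero_apply] at h2
    rw [← h2]
    refine Finset.sum_congr rfl fun x _ => ?_
    rw [Finset.sum_eq_single i]
    · simp [tv]
    · intro b _ hb; simp [tv, hb]
    · intro h3; exact absurd (Finset.mem_univ _) h3
  ext g'
  rw [Matrix.mulVec, dotProduct, Pi.zero_apply]
  simp only [Lc, Matrix.map_apply, Matrix.of_apply, map_sum, map_mul, Finset.sum_mul]
  rw [Finset.sum_comm]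
  refine Finset.sum_eq_zero fun i _ => ?_
  rw [Finset.sum_comm]
  refine Finset.sum_eq_zero fun j _ => ?_
  have h2 := h1 i j
  have h3 : ∀ x, residue R ((sg (D.X.deg i * D.X.deg j) : ℤ) : R) * residue R (D.Dh S g' (i, j)) *
      residue R (D.al S j (x, i)) * g x =
      residue R ((sg (D.X.deg i * D.X.deg j) : ℤ) : R) * residue R (D.Dh S g' (i, j)) *
      (residue R (D.al S j (x, i)) * g x) := fun x => by ring
  rw [Finset.sum_congr rfl fun x _ => h3 x, ← Finset.mul_sum, h2, mul_zero]

/-- The data of `ReadData` for the core objects. -/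
theorem readData (S : Setup R p a)
    {c₁ c₂ : R} (hc₁ : IsUnit c₁) (hc₂ : IsUnit c₂)
    (hkey : Bd D.X2 (D.G S) 1 (D.Dh S * ins J (fun j => c₁ * D.ph () j) * prX R J +
      inG R J * (c₂ • ((prX R J)ᵀ * D.Om S * prX R J)))) :
    ReadData (D.X.map (residue R)) (D.X2.dual.map (residue R)) ((D.G S).map (residue R))
      (fun j => residue R (D.ph () j)) ((D.Om S).map (residue R)) (inG (ResidueField R) J)
      ((D.Dh S).map (residue R)) ((D.al S).map (residue R)) ((D.Lc S).map (residue R))
      (residue R c₁ * (residue R c₂)⁻¹) where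
  X_d := D.X_d_map
  XD_deg j := rfl
  XD_deg' j := by show -(0 : ℤ) = 0; simp
  XD_d w := D.XD_d w
  phi_deg j hj := by rw [D.ph_deg () j hj, map_zero]
  inc_cl := by
    rw [← inG_map]
    exact (fib_inr (D.cl_jj S)).map (residue R)
  inc_surj n v hn hv := by
    refine ⟨fun i => v (Sum.inr i), ?_, ?_⟩
    · intro i hi
      refine hv (Sum.inr i) ?_
      intro h1
      apply hi
      have h2 : D.X2.dual.deg i + 1 = n := h1
      show D.X2.dual.deg i = n - 1
      omega
    · rw [inG_mulVec]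
      ext (i | i)
      · symm
        refine hv (Sum.inl i) ?_
        intro h1
        rcases i with i | i
        · have h2 : (0 : ℤ) = n := h1
          omega
        · have h2 : D.X2.deg i + (-1) = n := h1
          rcases i with i | i
          · have h3 : D.X2.deg (Sum.inl i) = 0 := rfl
            omega
          · have h3 : D.X2.deg (Sum.inr i) = D.X.deg i := rfl
            have := D.deg_le i
            omega
      · rfl
  inc_inj w _ hw := by
    rw [inG_mulVec] at hw
    ext i
    exact congrFun hw (Sum.inr i)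
  fl_cl := by
    have h := (D.cl_Om S).map (residue R)
    rwa [map_dual] at h
  fl_inj z hz := D.OmK_inj S hz
  Dh_cl := by
    have h := (D.cl_Dh' S).map (residue R)
    rwa [map_tensor, map_dual] at h
  al_cl := by
    have h := (D.cl_al' S).map (residue R)
    rwa [map_tensor] at h
  L_ker := D.Lc_ker S
  c_ne := by
    obtain ⟨hA⟩ := S.rat
    intro h0
    have h1 : residue R (12 * 28 : R) = 0 := by
      rw [map_mul, map_ofNat, map_ofNat]; exact h0
    rw [residue_eq_zero_iff] at h1
    have h2 : IsUnit (12 * 28 : R) := by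
      have h3 : (12 * 28 : R) = algebraMap ℚ R (12 * 28) := by
        rw [map_mul, map_ofNat, map_ofNat]
      rw [h3]
      exact (IsUnit.mk0 (12 * 28 : ℚ) (by norm_num)).map _
    exact (mem_maximalIdeal _).1 h1 h2
  L_rel := by
    have h := (D.Lc_sq S).map (residue R)
    rw [Matrix.map_mul, Cx.map_add', Cx.map_add', Cx.map_smul', Cx.map_smul', one_map, map_ofNat,
      map_ofNat] at h
    exact h
  s_ne := by
    refine mul_ne_zero ?_ (inv_ne_zero ?_)
    · exact (hc₁.map _).ne_zero
    · exact (hc₂.map _).ne_zero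
  key := by
    have h := hkey.map (residue R)
    rw [Cx.map_add', Matrix.map_mul, Matrix.map_mul, Matrix.map_mul, inG_map] at h
    have h1 : (prX R J).map (residue R) =
        Matrix.fromCols (0 : Matrix J Unit (ResidueField R)) (1 : Matrix J J (ResidueField R)) := by
      ext i (j | j)
      · simp [prX]
      · by_cases h : i = j
        · subst h; simp [prX]
        · simp [prX, h]
    have h2 : (ins J fun j => c₁ * D.ph () j).map (residue R) =
        ins J (fun j => residue R c₁ * residue R (D.ph () j)) := by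
      ext ⟨i, j⟩ l
      by_cases h : j = l <;> simp [ins, h]
    rw [h1, h2] at h
    refine key_of_bd (c := residue R c₂) (hc₂.map _).ne_zero h ?_ (D.tau_jr S c₂) ?_
    · intro z hz
      exact D.X2_d_jr z hz
    · ext j
      show residue R c₁ * residue R (D.ph () j) =
        residue R c₂ * (residue R c₁ * (residue R c₂)⁻¹) * residue R (D.ph () j)
      have h3 : residue R c₂ ≠ 0 := (hc₂.map _).ne_zero
      field_simp

/-- the class `ε` of the closed fibre -/
noncomputable def epsK (S : Setup R p a) : J → ResidueField R :=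
  (D.psi S).map (residue R) *ᵥ fun j => residue R (D.ph () j)

theorem sEps (S : Setup R p a)
    {c₁ c₂ : R} (hc₁ : IsUnit c₁) (hc₂ : IsUnit c₂)
    (hkey : Bd D.X2 (D.G S) 1 (D.Dh S * ins J (fun j => c₁ * D.ph () j) * prX R J +
      inG R J * (c₂ • ((prX R J)ᵀ * D.Om S * prX R J))))
    (hex : ∃ j, D.X.deg j = 1) : SEps D.X.deg (D.Dk S) (D.epsK S) := by
  have h := D.readData S hc₁ hc₂ hkey
  have h2 : (-2 : ResidueField R) ≠ 0 := by
    have h12 := h.c_ne
    intro h0
    apply h12
    have : (12 * 28 : ResidueField R) = (-2) * (-168) := by ring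
    rw [this, h0, zero_mul]
  refine h.sEps (om := D.omk S) h2 (fun i j hij => D.omk_deg S i j hij)
    (fun i j l m => D.Dk_eq S i j l m) ?_ hex
  rw [epsK, Matrix.mulVec_mulVec, D.OmK_psi, Matrix.one_mulVec]

theorem exists_isUnit (S : Setup R p a)
    {c₁ c₂ : R} (hc₁ : IsUnit c₁) (hc₂ : IsUnit c₂)
    (hkey : Bd D.X2 (D.G S) 1 (D.Dh S * ins J (fun j => c₁ * D.ph () j) * prX R J +
      inG R J * (c₂ • ((prX R J)ᵀ * D.Om S * prX R J))))
    (h0 : ∀ j, D.X.deg j = 0) : ∃ j, IsUnit (p j) := by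
  have h := D.readData S hc₁ hc₂ hkey
  obtain ⟨y, hy1, hy⟩ := h.inc_one h0
  by_contra hp
  push Not at hp
  have hpm : ∀ j, residue R (p j) = 0 := fun j => by
    rw [residue_eq_zero_iff]; exact hp j
  have h1 := congrFun hy (Sum.inr (Sum.inl ()))
  rw [inG_mulVec] at h1
  have hd : ((D.G S).map (residue R)).d =
      (Matrix.fromBlocks (D.JJ).d 0 (D.jj S) (-D.X2.dual.d)).map (residue R) := rfl
  have hjj : D.jj S = Matrix.fromCols (D.uᵀ * kM R) (D.kap S) := rfl
  rw [hd, Matrix.mulVec, dotProduct, Fintype.sum_sum_type, Fintype.sum_sum_type] at h1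
  have e1 : ∀ i, (Matrix.fromBlocks (D.JJ).d 0 (D.jj S) (-D.X2.dual.d)).map (residue R)
      (Sum.inr (Sum.inl ())) (Sum.inl (Sum.inl i)) = 0 := by
    intro i
    rw [Matrix.map_apply, Matrix.fromBlocks_apply₂₁, hjj, Matrix.fromCols_apply_inl,
      Matrix.mul_apply, map_sum]
    refine Finset.sum_eq_zero fun j _ => ?_
    rw [map_mul]
    have : D.uᵀ (Sum.inl ()) j = p j := rfl
    rw [this, hpm, zero_mul]
  have e2 : ∀ i, y (Sum.inl (Sum.inr i)) = 0 := by
    intro i
    refine hy1 _ ?_
    rcases i with i | i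
    · show (0 : ℤ) + (-1) ≠ 0; norm_num
    · show D.X.deg i + (-1) ≠ 0; rw [h0]; norm_num
  have e3 : ∀ i, y (Sum.inr i) = 0 := by
    intro i
    refine hy1 _ ?_
    rcases i with i | i
    · show -(0 : ℤ) + 1 ≠ 0; norm_num
    · show -D.X.deg i + 1 ≠ 0; rw [h0]; norm_num
  simp only [e1, e2, e3, zero_mul, mul_zero, Finset.sum_const_zero, add_zero] at h1
  simp [j1] at h1

end CoreData

end LicciCore
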