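import Pool.Agent.Work.MP_a98e4e_ag.Core.SftsDer
import Pool.Agent.Work.MP_a98e4e_ag.CF.Main

/-!
# The closed fibre in index form gives a closed fibre package, II: there is no closed fibre
-/

set_option autoImplicit false
set_option linter.unusedSectionVars false

open Finset Matrix LicciCx Module

namespace LicciCore

namespace Sfts

variable {k : Type*} [Field k] [CharZero k] {J : Type} [Fintype J] [DecidableEq J] {deg : J → ℤ}
  {om : Matrix J J k} {D : J → J → J → J → k}

/-- the array of components -/
noncomputable def arr (h : Sfts deg om D) :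
    LicciCF.Arr k {j // deg j = 1} {j // deg j = 0} where
  om p q := om p q
  sg i j p q := h.E i j p q
  S i j l m := ∑ a, om⁻¹ (l : J) a * D i j a m
  q0 s u v w := h.Dl s u v w - om u v * om s w - om u w * om s v

variable (h : Sfts deg om D)
include h

lemma arr_Rr (i j : {j // deg j = 1}) (p q : {j // deg j = 0}) :
    h.arr.Rr i j p q = ∑ a, om⁻¹ (j : J) a * D i p a q := by
  rw [h.R_eq q i.2 j.2 p.2, LicciCF.Arr.Rr]
  simp only [← Subtype.ext_iff]
  rfl

lemma arr_Tt (i j l m : {j // deg j = 1}) : h.arr.Tt i j l m = h.E i j l m := by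
  rw [h.E_apply, h.T_eq m i.2 j.2 l.2, LicciCF.Arr.Tt]
  simp only [← Subtype.ext_iff]
  rfl

theorem isPkg : h.arr.IsPkg where
  alt p := by
    have h1 := h.om_symm p p
    rw [p.2, kz_zero_left, one_mul] at h1
    have h2 : (2 : k) * om p p = 0 := by linear_combination h1
    exact (mul_eq_zero.1 h2).resolve_left two_ne_zero
  anti p q := by
    have h1 := h.om_symm p q
    rw [p.2, kz_zero_left, one_mul] at h1
    exact h1
  nondeg u hu := by
    have h1 : ∀ q : J, ∑ p : {j // deg j = 0}, u p * om p q = 0 := by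
      intro q
      by_cases hq : deg q = 0
      · exact hu ⟨q, hq⟩
      · refine sum_eq_zero fun p _ => ?_
        rw [h.om_deg p q (by rw [p.2]; omega), mul_zero]
    ext p'
    calc u p' = ∑ p : {j // deg j = 0}, u p * (if (p : J) = p' then 1 else 0) := by
          simp [← Subtype.ext_iff]
      _ = ∑ p : {j // deg j = 0}, ∑ q : J, u p * om p q * om⁻¹ q p' := by
          refine sum_congr rfl fun p _ => ?_
          rw [← h.om_rho p p', mul_sum]
          exact sum_congr rfl fun q _ => by ring
      _ = ∑ q : J, (∑ p : {j // deg j = 0}, u p * om p q) * om⁻¹ q p' := by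
          rw [sum_comm]
          exact sum_congr rfl fun q _ => by rw [sum_mul]
      _ = 0 := by simp [h1]
  sp i j p q := by
    have h1 := h.E_skew i.2 j.2 p q
    have h2 : ∑ m, h.E i j p m * om m q = ∑ m : {j // deg j = 0}, h.E i j p m * om m q :=
      sum_deg 0 _ (fun m hm => by rw [h.om_deg m q (by rw [q.2]; omega), mul_zero])
    have h3 : ∑ m, om p m * h.E i j q m = ∑ m : {j // deg j = 0}, om p m * h.E i j q m :=
      sum_deg 0 _ (fun m hm => by rw [h.om_deg p m (by rw [p.2]; omega), zero_mul])
    rw [h2, h3] at h1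
    rw [← h1]
    congr 1
    exact sum_congr rfl fun m _ => mul_comm _ _
  S_alt i l m := by
    refine sum_eq_zero fun a _ => ?_
    have h1 := h.D_symm i i a m
    rw [i.2, kz_pp] at h1
    have h2 : (2 : k) * D i i a m = 0 := by linear_combination h1
    rw [(mul_eq_zero.1 h2).resolve_left two_ne_zero, mul_zero]
  S_anti i j l m := by
    change ∑ a, _ = -∑ a, _
    rw [← sum_neg_distrib]
    refine sum_congr rfl fun a _ => ?_
    rw [h.D_symm i j a m, i.2, j.2, kz_pp]; ring
  S_skew i j l m := by
    have h1 := h.U_symm i j l m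
    rw [l.2, m.2, kz_pp] at h1
    have h2 : ∀ l m : {j // deg j = 1}, ∑ a, om⁻¹ (l : J) a * D i j a m = ∑ a, om⁻¹ a (l : J) * D i j a m := by
      intro l m
      refine sum_congr rfl fun a _ => ?_
      by_cases ha : deg a = -1
      · rw [h.rho_symm a l, ha, l.2, kz_mp]; ring
      · rw [h.rho_deg l a (by rw [l.2]; omega), h.rho_deg a l (by rw [l.2]; omega)]
    change ∑ a, _ + ∑ a, _ = 0
    rw [h2, h2, h1]; ring
  dim := h.dim
  d1 i j p q := by
    have h1 := h.d1 (i := i) (j := j) (p := p) q i.2 p.2
    simp only [arr_Rr]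
    linear_combination (1 / 2 : k) * h1
  d2 i j l m := h.d2 l m i.2 j.2
  d0 i j i' j' := by
    have h1 := h.d0 i.2 j.2 i'.2 j'.2
    simp only [arr_Tt]
    have h2 : ∑ l : {j // deg j = 1}, ∑ m : {j // deg j = 1}, h.E i' j' l m * h.E i j m l =
        ∑ a : {j // deg j = 1}, ∑ m : {j // deg j = 1}, h.E i j a m * h.E i' j' m a := by
      rw [sum_comm]
      exact sum_congr rfl fun a _ => sum_congr rfl fun m _ => mul_comm _ _
    have h3 : ∑ p : {j // deg j = 0}, ∑ q : {j // deg j = 0}, h.arr.sg i' j' p q * h.arr.sg i j q p =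
        ∑ a : {j // deg j = 0}, ∑ m : {j // deg j = 0}, h.E i j a m * h.E i' j' m a := by
      rw [sum_comm]
      exact sum_congr rfl fun a _ => sum_congr rfl fun m _ => mul_comm _ _
    rw [h2, h3]
    linear_combination (1 / 2 : k) * h1

section der

variable {de : Matrix J J k} (hd : SDer deg om D de)
include hd

theorem isDer : h.arr.IsDer (fun i p => h.dl hd i p) (fun p i => de i p) where
  adj i p := by
    rw [← h.dl_om hd i.2 p]
    exact sum_deg 0 _ (fun q hq => by rw [h.dl_deg hd i.2 hq, zero_mul])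
  sq i j := by
    have h1 := sum_deg (deg := deg) 0 (fun p => h.dl hd i p * de j p)
      (fun q hq => by rw [h.dl_deg hd i.2 hq, zero_mul])
    rw [h.dl_sq hd i j] at h1
    exact h1.symm
  dq i j l p := by
    have h1 := h.dq hd i j l p i.2 j.2 l.2 p.2
    have h2 : ∑ m, de m p * ∑ a, om⁻¹ (j : J) a * D i m a l =
        ∑ m : {j // deg j = 1}, de m p * ∑ a, om⁻¹ (j : J) a * D i m a l :=
      sum_deg 1 _ (fun m hm => by rw [hd.deg_one m p (by rw [p.2]; omega), zero_mul])
    have h3 : ∀ j l : {j // deg j = 1}, ∑ q, ∑ r, h.dl hd l q * h.E i j q r * om r p =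
        ∑ q : {j // deg j = 0}, ∑ r : {j // deg j = 0}, h.dl hd l q * h.E i j q r * om r p := by
      intro j l
      rw [sum_deg 0 _ (fun q hq => sum_eq_zero fun r _ => by rw [h.dl_deg hd l.2 hq]; ring)]
      refine sum_congr rfl fun q _ => ?_
      exact sum_deg 0 _ (fun r hr => by rw [h.om_deg r p (by rw [p.2]; omega), mul_zero])
    rw [h2, h3, h3] at h1
    simp only [← Subtype.ext_iff] at h1
    exact h1
  dq2 j u v w := by
    have h1 := h.dq2 hd j.2 u.2 v.2 w.2
    have h2 : ∑ q, h.dl hd j q * (h.Dl q u v w - om u v * om q w - om u w * om q v) =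
        ∑ q : {j // deg j = 0}, h.dl hd j q * (h.Dl q u v w - om u v * om q w - om u w * om q v) :=
      sum_deg 0 _ (fun q hq => by rw [h.dl_deg hd j.2 hq, zero_mul])
    have h3 : ∀ u v w : {j // deg j = 0}, ∑ m, de m u * h.Y hd j m v w =
        ∑ m : {j // deg j = 1}, ∑ r : {j // deg j = 0}, de m u * h.E m j v r * om r w := by
      intro u v w
      rw [sum_deg (deg := deg) 1 (fun m => de m u * h.Y hd j m v w)
        (fun m hm => by rw [hd.deg_one m u (by rw [u.2]; omega), zero_mul])]
      refine sum_congr rfl fun m _ => ?_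
      rw [h.Y_eq hd, mul_sum]
      rw [sum_deg (deg := deg) 0 (fun r => de m u * (h.E m j v r * om r w))
        (fun r hr => by rw [h.om_deg r w (by rw [w.2]; omega), mul_zero, mul_zero])]
      exact sum_congr rfl fun r _ => by ring
    rw [h2, h3, h3, h3] at h1
    exact h1

lemma exists_dl : ∃ (i : {j // deg j = 1}) (p : {j // deg j = 0}), h.dl hd i p ≠ 0 := by
  by_contra hcon
  push Not at hcon
  have h1 : ∀ i, deg i = 1 → ∀ p, h.dl hd i p = 0 := by
    intro i hi p
    by_cases hp : deg p = 0
    · exact hcon ⟨i, hi⟩ ⟨p, hp⟩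
    · exact h.dl_deg hd hi hp
  apply hd.ne
  ext a b
  rw [Matrix.zero_apply]
  rcases h.cases3 b with hb | hb | hb
  · -- `b` of degree `-1`
    have h2 : de a b = ∑ i, om b i * h.dl hd i a := by
      symm
      calc ∑ i, om b i * h.dl hd i a = ∑ i, ∑ c, om b i * om⁻¹ i c * de a c := by
            refine sum_congr rfl fun i _ => ?_
            rw [dl, mul_sum]
            exact sum_congr rfl fun c _ => by ring
        _ = ∑ c, ∑ i, om b i * om⁻¹ i c * de a c := sum_comm
        _ = ∑ c, (if b = c then 1 else 0) * de a c := by simp only [← sum_mul, h.om_rho]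
        _ = _ := by simp
    rw [h2]
    refine sum_eq_zero fun i _ => ?_
    by_cases hi : deg i = 1
    · rw [h1 i hi a, mul_zero]
    · rw [h.om_deg b i (by omega), zero_mul]
  · by_cases ha : deg a = 1
    · rw [← h.dl_om hd ha b]
      exact sum_eq_zero fun q _ => by rw [h1 a ha q, zero_mul]
    · exact hd.deg_one a b (by omega)
  · exact hd.deg_one a b (by have := h.deg_le a; omega)

end der

section eps

omit h [CharZero k] [Fintype J] [DecidableEq J] in
/-- extension by zero -/
def xt (n : ℤ) (x : {j // deg j = n} → k) : J → k := fun j => if hj : deg j = n then x ⟨j, hj⟩ else 0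

omit h [CharZero k] [Fintype J] [DecidableEq J] in
lemma xt_coe (n : ℤ) (x : {j // deg j = n} → k) (i : {j // deg j = n}) : xt n x i = x i := by
  rw [xt, dif_pos i.2]

omit h [CharZero k] [Fintype J] [DecidableEq J] in
lemma xt_ne (n : ℤ) (x : {j // deg j = n} → k) {j : J} (hj : deg j ≠ n) : xt n x j = 0 := by
  rw [xt, dif_neg hj]

omit h [CharZero k] [Fintype J] [DecidableEq J] in
lemma xt_res (n : ℤ) (x : J → k) (hx : ∀ j, deg j ≠ n → x j = 0) :
    xt n (fun i : {j // deg j = n} => x i) = x := by
  ext j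
  by_cases hj : deg j = n
  · rw [xt, dif_pos hj]
  · rw [xt_ne n _ hj, hx j hj]

/-- the element of `X_{-1}` of a linear form on `X_1` -/
noncomputable def up (_ : Sfts deg om D) (ξ : Dual k ({j // deg j = 1} → k)) : J → k :=
  fun a => ∑ l : {j // deg j = 1}, ξ (Pi.single l 1) * om⁻¹ (l : J) a

lemma S_app (x y : {j // deg j = 1} → k) (ξ : Dual k ({j // deg j = 1} → k)) (m : {j // deg j = 1}) :
    h.arr.toDat.S x y ξ m = app3 D (xt 1 x) (xt 1 y) (h.up ξ) m := by
  rw [LicciCF.Arr.toDat_S, app3]
  rw [sum_deg 1 _ (fun i hi => sum_eq_zero fun j _ => sum_eq_zero fun l _ => by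
    rw [xt_ne 1 x hi]; ring)]
  calc ∑ l, (∑ i, ∑ j, x i * y j * h.arr.S i j l m) * ξ (Pi.single l 1)
      = ∑ l, ∑ i, ∑ j, x i * y j * h.arr.S i j l m * ξ (Pi.single l 1) := by
        simp only [sum_mul]
    _ = ∑ i, ∑ l, ∑ j, x i * y j * h.arr.S i j l m * ξ (Pi.single l 1) := sum_comm
    _ = ∑ i, ∑ j, ∑ l, x i * y j * h.arr.S i j l m * ξ (Pi.single l 1) :=
        sum_congr rfl fun i _ => sum_comm
    _ = _ := by
        refine sum_congr rfl fun i _ => ?_
        rw [sum_deg 1 (fun j => ∑ l, xt 1 x i * xt 1 y j * h.up ξ l * D i j l m)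
          (fun j hj => sum_eq_zero fun l _ => by rw [xt_ne 1 y hj]; ring)]
        refine sum_congr rfl fun j _ => ?_
        rw [xt_coe, xt_coe]
        calc ∑ l, x i * y j * h.arr.S i j l m * ξ (Pi.single l 1)
            = ∑ l : {j // deg j = 1}, ∑ a, x i * y j * (ξ (Pi.single l 1) * om⁻¹ (l : J) a) *
                D i j a m := by
              refine sum_congr rfl fun l _ => ?_
              change x i * y j * (∑ a, om⁻¹ (l : J) a * D i j a m) * ξ (Pi.single l 1) = _
              rw [mul_sum, sum_mul]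
              exact sum_congr rfl fun a _ => by ring
          _ = ∑ a, ∑ l : {j // deg j = 1}, x i * y j * (ξ (Pi.single l 1) * om⁻¹ (l : J) a) *
                D i j a m := sum_comm
          _ = _ := by
              refine sum_congr rfl fun a _ => ?_
              rw [up, mul_sum, sum_mul]

omit h [CharZero k] [Fintype J] in
lemma dual_apply [Fintype {j // deg j = 1}] (ξ : Dual k ({j // deg j = 1} → k))
    (x : {j // deg j = 1} → k) : ξ x = ∑ i, x i * ξ (Pi.single i 1) := by
  have hx : x = ∑ i, x i • (Pi.single i 1 : {j // deg j = 1} → k) := by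
    ext j
    simp [Finset.sum_apply, Pi.single_apply]
  conv_lhs => rw [hx]
  simp only [map_sum, map_smul, smul_eq_mul]

lemma R_app (x : {j // deg j = 1} → k) (ξ : Dual k ({j // deg j = 1} → k))
    (u : {j // deg j = 0} → k) (q : {j // deg j = 0}) :
    h.arr.toDat.R x ξ u q = app3 D (xt 1 x) (xt 0 u) (h.up ξ) q := by
  have h1 : h.arr.toDat.R x ξ u q = ∑ i, ∑ p, ∑ j, x i * u p * ξ (Pi.single j 1) *
      h.arr.Rr i j p q := by
    rw [LicciCF.Dat.R, LinearMap.add_apply, LinearMap.smul_apply, LinearMap.id_apply, Pi.add_apply,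
      Pi.smul_apply, LicciCF.Arr.toDat_σ, dual_apply ξ x, smul_eq_mul]
    simp only [LicciCF.Arr.Rr, mul_add, sum_add_distrib]
    congr 1
    · rw [sum_mul]
      refine sum_congr rfl fun i _ => ?_
      rw [sum_comm]
      simp
      ring
    · calc ∑ p, (∑ i, ∑ j, x i * ξ (Pi.single j 1) * h.arr.sg i j p q) * u p
          = ∑ p, ∑ i, ∑ j, x i * u p * ξ (Pi.single j 1) * h.arr.sg i j p q := by
            refine sum_congr rfl fun p _ => ?_
            rw [sum_mul]
            refine sum_congr rfl fun i _ => ?_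
            rw [sum_mul]
            exact sum_congr rfl fun j _ => by ring
        _ = _ := sum_comm
  rw [h1, app3]
  rw [sum_deg 1 (fun i => ∑ j, ∑ l, xt 1 x i * xt 0 u j * h.up ξ l * D i j l q)
    (fun i hi => sum_eq_zero fun j _ => sum_eq_zero fun l _ => by rw [xt_ne 1 x hi]; ring)]
  refine sum_congr rfl fun i _ => ?_
  rw [sum_deg 0 (fun j => ∑ l, xt 1 x i * xt 0 u j * h.up ξ l * D i j l q)
    (fun j hj => sum_eq_zero fun l _ => by rw [xt_ne 0 u hj]; ring)]
  refine sum_congr rfl fun p _ => ?_
  rw [xt_coe, xt_coe]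
  calc ∑ j, x i * u p * ξ (Pi.single j 1) * h.arr.Rr i j p q
      = ∑ l : {j // deg j = 1}, ∑ a, x i * u p * (ξ (Pi.single l 1) * om⁻¹ (l : J) a) *
          D i p a q := by
        refine sum_congr rfl fun l _ => ?_
        rw [arr_Rr, mul_sum]
        exact sum_congr rfl fun a _ => by ring
    _ = ∑ a, ∑ l : {j // deg j = 1}, x i * u p * (ξ (Pi.single l 1) * om⁻¹ (l : J) a) *
          D i p a q := sum_comm
    _ = _ := by
        refine sum_congr rfl fun a _ => ?_
        rw [up, mul_sum, sum_mul]

theorem isEps {ε : J → k} (he : SEps deg D ε) : h.arr.toDat.IsEps (fun i => ε i) where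
  ne h0 := by
    apply he.ne
    ext j
    by_cases hj : deg j = 1
    · exact congrFun h0 ⟨j, hj⟩
    · exact he.deg_one j hj
  e1 x hx := by
    have hε := xt_res 1 ε he.deg_one
    have hG : ∀ b m, ∑ i, ∑ j, ε i * xt 1 x j * D i j b m = 0 := by
      intro b m
      -- contraction with `ρ`
      have h1 : ∀ l : J, ∑ a, om⁻¹ l a * ∑ i, ∑ j, ε i * xt 1 x j * D i j a m = 0 := by
        intro l
        by_cases hl : deg l = 1
        · by_cases hm : deg m = 1
          · have h2 := congrFun (congrArg (fun f => f (LinearMap.proj ⟨l, hl⟩)) hx) ⟨m, hm⟩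
            simp only [LinearMap.zero_apply, Pi.zero_apply] at h2
            rw [S_app, hε] at h2
            have h3 : h.up (LinearMap.proj ⟨l, hl⟩) = fun a => om⁻¹ l a := by
              ext a
              rw [up]
              simp [Pi.single_apply]
            rw [h3, app3] at h2
            rw [← h2]
            simp only [mul_sum]
            rw [sum_comm]
            refine sum_congr rfl fun i _ => ?_
            rw [sum_comm]
            exact sum_congr rfl fun j _ => sum_congr rfl fun a _ => by ring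
          · refine sum_eq_zero fun a _ => ?_
            by_cases ha : deg a = -1
            · rw [sum_eq_zero fun i _ => sum_eq_zero fun j _ => ?_, mul_zero]
              by_cases hi : deg i = 1
              · by_cases hj : deg j = 1
                · rw [h.D_deg i j a m (by omega), mul_zero]
                · rw [xt_ne 1 x hj]; ring
              · rw [he.deg_one i hi]; ring
            · rw [h.rho_deg l a (by omega), zero_mul]
        · refine sum_eq_zero fun a _ => ?_
          by_cases ha : deg a + deg l = 0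
          · rw [sum_eq_zero fun i _ => sum_eq_zero fun j _ => ?_, mul_zero]
            by_cases hi : deg i = 1
            · by_cases hj : deg j = 1
              · rw [h.D_deg i j a m (by have := h.deg_le m; have := h.deg_le l; omega), mul_zero]
              · rw [xt_ne 1 x hj]; ring
            · rw [he.deg_one i hi]; ring
          · rw [h.rho_deg l a (by omega), zero_mul]
      have h4 : ∑ l, om b l * ∑ a, om⁻¹ l a * ∑ i, ∑ j, ε i * xt 1 x j * D i j a m =
          ∑ i, ∑ j, ε i * xt 1 x j * D i j b m := by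
        generalize hF : (fun a => ∑ i, ∑ j, ε i * xt 1 x j * D i j a m) = F
        have hF' : ∀ a, ∑ i, ∑ j, ε i * xt 1 x j * D i j a m = F a := fun a => congrFun hF a
        simp only [hF']
        calc ∑ l, om b l * ∑ a, om⁻¹ l a * F a = ∑ l, ∑ a, om b l * om⁻¹ l a * F a := by
              simp only [mul_sum, mul_assoc]
          _ = ∑ a, ∑ l, om b l * om⁻¹ l a * F a := sum_comm
          _ = ∑ a, (if b = a then 1 else 0) * F a := by simp only [← sum_mul, h.om_rho]
          _ = _ := by simp
      rw [← h4]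
      exact sum_eq_zero fun l _ => by rw [h1 l, mul_zero]
    obtain ⟨c, hc⟩ := he.e1 (xt 1 x) (fun j hj => xt_ne 1 x hj) (by
      intro z
      ext m
      rw [app3, Pi.zero_apply]
      calc ∑ i, ∑ j, ∑ l, ε i * xt 1 x j * z l * D i j l m
          = ∑ i, ∑ l, ∑ j, ε i * xt 1 x j * z l * D i j l m := sum_congr rfl fun i _ => sum_comm
        _ = ∑ l, ∑ i, ∑ j, ε i * xt 1 x j * z l * D i j l m := sum_comm
        _ = ∑ l, z l * ∑ i, ∑ j, ε i * xt 1 x j * D i j l m := by
            refine sum_congr rfl fun l _ => ?_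
            simp only [mul_sum]
            exact sum_congr rfl fun i _ => sum_congr rfl fun j _ => by ring
        _ = 0 := sum_eq_zero fun l _ => by rw [hG, mul_zero])
    refine ⟨c, ?_⟩
    ext i
    have h1 := congrFun hc i
    rw [xt_coe] at h1
    exact h1
  e2 x y := by
    obtain ⟨w, hw0, hw⟩ := he.e2 (xt 1 x) (xt 1 y) (fun j hj => xt_ne 1 x hj)
      (fun j hj => xt_ne 1 y hj)
    refine ⟨fun i => w i, ?_⟩
    ext1 ξ
    ext m
    rw [S_app, S_app, xt_res 1 w hw0, xt_res 1 ε he.deg_one, hw]
  e3 x u := by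
    obtain ⟨w, hw0, hw⟩ := he.e3 (xt 1 x) (xt 0 u) (fun j hj => xt_ne 1 x hj)
      (fun j hj => xt_ne 0 u hj)
    refine ⟨fun i => w i, fun ξ => ?_⟩
    ext q
    rw [R_app, R_app, xt_res 0 w hw0, xt_res 1 ε he.deg_one, hw]

end eps

end Sfts

theorem sfts_false {k : Type*} [Field k] [CharZero k] {J : Type} [Fintype J] [DecidableEq J]
    {deg : J → ℤ} {om : Matrix J J k} {D : J → J → J → J → k} {ε : J → k} {de : Matrix J J k}
    (h : Sfts deg om D) (he : SEps deg D ε) (hd : SDer deg om D de) : False := by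
  obtain ⟨i, p, hip⟩ := h.exists_dl hd
  exact LicciCF.no_closed_fibre (h.isPkg.toDat) (h.isEps he) ((h.isDer hd).toDat)
    (LicciCF.Arr.toDat_δ_ne (i := i) (p := p) hip)

end LicciCore
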