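import Pool.Agent.Work.MP_a98e4e_ag.Core.ResK

/-!
# The pairing on the closed fibre is nondegenerate
-/

set_option autoImplicit false
set_option linter.unusedSectionVars false

open Matrix IsLocalRing

namespace LicciCore

open LicciCx Cx Pool.Agent.Licci

universe u

namespace CoreData

variable {R : Type u} [CommRing R] [IsDomain R] [IsLocalRing R] {p : Fin 248 → R}
  {a : Fin 6 → R} {J : Type} [Fintype J] [DecidableEq J] (D : CoreData R p a J)

theorem omk_unit (S : Setup R p a) : IsUnit (D.omk S).det := by
  have h : D.omk S = ((D.Om S).map (residue R))ᵀ := rfl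
  rw [h, Matrix.det_transpose]
  exact D.Om_unit S

end CoreData

end LicciCore
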