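import Pool.Agent.Work.MP_a98e4e_ag.Core.Defs

/-!
# Lifting and uniqueness

If `K` is contractible outside degree `0` up to the scalar `c ≠ 0`, the projector `pr` has columns in
`Z0`. A closed map `f` is, up to the scalar `c ^ 2`, homotopic to `f pr pr`, so it is a boundary up to a
scalar if `f` maps the columns of `pr` into `BT`; the scalar is removed by `depth_torsion`. For the lifting
theorem take `t i = Φ i * pr i` and apply `depth_extend`.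
-/

set_option autoImplicit false
set_option linter.unusedSectionVars false

open Matrix Kronecker RingTheory.Sequence

namespace LicciCx

namespace Cx

universe u

variable {R : Type u} [CommRing R] [IsDomain R] {J J₁ J₂ J₃ J₄ J' : Type}
  [Fintype J] [Fintype J₁] [Fintype J₂] [Fintype J₃] [Fintype J₄] [Fintype J']
  [DecidableEq J] [DecidableEq J₁] [DecidableEq J₂] [DecidableEq J₃] [DecidableEq J₄] [DecidableEq J']

/-! ## Generalities -/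

theorem B0_le_BT (K : Cx R J) : K.B0 ≤ K.BT := fun z hz => ⟨1, one_ne_zero, by rwa [one_smul]⟩

theorem B0_le_Z0 (K : Cx R J) : K.B0 ≤ K.Z0 := by
  rintro z ⟨w, hw, rfl⟩
  refine ⟨fun j hj => ?_, by rw [Matrix.mulVec_mulVec, K.sq, Matrix.zero_mulVec]⟩
  rw [Matrix.mulVec, dotProduct]
  refine Finset.sum_eq_zero fun k _ => ?_
  by_cases hk : K.deg k = -1
  · rw [K.hmg j k (by rw [hk]; simpa using hj), zero_mul]
  · rw [hw k hk, mul_zero]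

theorem BT_sat {K : Cx R J} {c : R} (hc : c ≠ 0) {v : J → R} (h : c • v ∈ K.BT) : v ∈ K.BT := by
  obtain ⟨c', hc', h'⟩ := h
  exact ⟨c' * c, mul_ne_zero hc' hc, by rwa [mul_smul]⟩

theorem pr_col (K : Cx R J) {c : R} {h : Matrix J J R} (hh : IsCon K c h) (j : J) :
    (fun i => K.pr c h i j) ∈ K.Z0 := by
  refine ⟨fun i hi => hh.sup i j (by rintro ⟨h1, -⟩; exact hi h1), ?_⟩
  have h1 := hh.d_pr
  ext i
  have := congrFun (congrFun h1 i) j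
  rwa [Matrix.mul_apply] at this

theorem mulVec_pr (K : Cx R J) (c : R) (h : Matrix J J R) {z : J → R} (hz : z ∈ K.Z0) :
    K.pr c h *ᵥ z = c • z - K.d *ᵥ (h *ᵥ z) := by
  rw [pr, Matrix.sub_mulVec, Matrix.add_mulVec, Matrix.smul_mulVec, Matrix.one_mulVec,
    ← Matrix.mulVec_mulVec, ← Matrix.mulVec_mulVec, hz.2, Matrix.mulVec_zero, add_zero]

theorem dh_mem (K : Cx R J) {c : R} {h : Matrix J J R} (hh : IsCon K c h) {z : J → R}
    (hz : z ∈ K.Z0) : K.d *ᵥ (h *ᵥ z) ∈ K.B0 := by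
  refine ⟨h *ᵥ z, fun j hj => ?_, rfl⟩
  rw [Matrix.mulVec, dotProduct]
  refine Finset.sum_eq_zero fun k _ => ?_
  by_cases hk : K.deg k = 0
  · rw [hh.hmg j k (by rw [hk]; simpa using hj), zero_mul]
  · rw [hz.1 k hk, mul_zero]

theorem cl_mulVec_BT {K : Cx R J} {L : Cx R J'} {f : Matrix J' J R} (hf : Cl K L 0 f)
    {v : J → R} (hv : v ∈ K.BT) : f *ᵥ v ∈ L.BT := by
  obtain ⟨c, hc, w, hw, h⟩ := hv
  refine ⟨c, hc, f *ᵥ w, fun j hj => ?_, ?_⟩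
  · rw [Matrix.mulVec, dotProduct]
    refine Finset.sum_eq_zero fun k _ => ?_
    by_cases hk : K.deg k = -1
    · rw [hf.hmg j k (by rw [hk]; simpa using hj), zero_mul]
    · rw [hw k hk, mul_zero]
  · rw [Matrix.mulVec_mulVec, hf.comm0, ← Matrix.mulVec_mulVec, h, Matrix.mulVec_smul]

theorem bd_mulVec_BT {K : Cx R J} {L : Cx R J'} {f : Matrix J' J R} (hf : Bd K L 0 f)
    {v : J → R} (hv : v ∈ K.Z0) : f *ᵥ v ∈ L.BT := by
  obtain ⟨s, hs, rfl⟩ := hf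
  refine B0_le_BT L ⟨s *ᵥ v, fun j hj => ?_, ?_⟩
  · rw [Matrix.mulVec, dotProduct]
    refine Finset.sum_eq_zero fun k _ => ?_
    by_cases hk : K.deg k = 0
    · rw [hs j k (by rw [hk]; simpa using hj), zero_mul]
    · rw [hv.1 k hk, mul_zero]
  · rw [Matrix.add_mulVec, Matrix.smul_mulVec, ← Matrix.mulVec_mulVec, ← Matrix.mulVec_mulVec,
      hv.2, Matrix.mulVec_zero, smul_zero, add_zero]

theorem hom_hd (K : Cx R J) : ∀ i j, K.d i j ≠ 0 → K.deg i = K.deg j + 1 := by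
  intro i j h
  by_contra h1
  exact h (K.hmg i j h1)

/-- a closed map a multiple of which is a boundary is a boundary -/
theorem bd_of_smul (a : Fin 6 → R) (ha : IsWeaklyRegular R (List.ofFn a))
    {K : Cx R J} {L : Cx R J'} (hK : ∀ i, UE K (a i)) (hL : ∀ i, UE L (a i))
    (hdeg : ∀ i j, -5 ≤ L.deg i - K.deg j) {f : Matrix J' J R} (hf : IsHmg K L 0 f) {s : R}
    (hs : s ≠ 0) (h : Bd K L 0 (s • f)) : Bd K L 0 f := by
  obtain ⟨v, hv, hv2⟩ := bd_iff.1 h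
  have hvec : vec (s • f) = s • vec f := rfl
  obtain ⟨w, hw, hw2⟩ := Pool.Agent.Licci.depth_torsion a ha (hom_hd (Hom K L)) (Hom K L).sq
    (fun i => (UE.iff_licci _ _).1 (UE.hom (hK i) (hL i))) 5
    (by
      rintro ⟨i, j⟩
      have := hdeg i j
      rw [Hom_deg]
      simpa using this) (by norm_num) (vec f)
    (by
      intro x hx
      by_contra h1
      exact hx (vec_hmg.2 hf x h1)) s (mem_nonZeroDivisors_of_ne_zero hs) v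
    (by rw [hv2, hvec])
  refine bd_iff.2 ⟨w, ?_, hw2.symm⟩
  intro x hx
  by_contra h1
  exact hx (by simpa using hw x h1)

/-- the key lemma: a closed map which maps the columns of the projector into `BT` is a boundary -/
theorem uniq_core (a : Fin 6 → R) (ha : IsWeaklyRegular R (List.ofFn a))
    {K : Cx R J} {L : Cx R J'} (hK : ∀ i, UE K (a i)) (hL : ∀ i, UE L (a i))
    (hdeg : ∀ i j, -5 ≤ L.deg i - K.deg j) {f : Matrix J' J R} (hf : Cl K L 0 f) {c : R}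
    (hc : c ≠ 0) {h : Matrix J J R} (hh : IsCon K c h)
    (hcol : ∀ j, f *ᵥ (fun i => K.pr c h i j) ∈ L.BT) : Bd K L 0 f := by
  choose C hC w hw hw2 using hcol
  set P := K.pr c h with hP
  set s : Matrix J' J R := Matrix.of fun i j =>
    if K.deg j = 0 then (∏ k ∈ Finset.univ.erase j, C k) * w j i else 0 with hs
  set T := ∏ k, C k with hT
  have hT0 : T ≠ 0 := Finset.prod_ne_zero_iff.2 fun k _ => hC k
  have hshmg : IsHmg K L (-1) s := by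
    intro i j hij
    rw [hs, Matrix.of_apply]
    by_cases hj : K.deg j = 0
    · rw [if_pos hj, hw j i (by intro h1; apply hij; rw [h1, hj]; rfl), mul_zero]
    · rw [if_neg hj]
  have hds : L.d * s = T • (f * P) := by
    ext i j
    rw [Matrix.mul_apply, Matrix.smul_apply, Matrix.mul_apply, smul_eq_mul]
    by_cases hj : K.deg j = 0
    · have h1 := congrFun (hw2 j) i
      rw [Matrix.mulVec, dotProduct, Pi.smul_apply, Matrix.mulVec, dotProduct, smul_eq_mul] at h1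
      have h2 : T = (∏ k ∈ Finset.univ.erase j, C k) * C j := by
        rw [hT, Finset.prod_erase_mul _ _ (Finset.mem_univ j)]
      rw [h2, mul_assoc, ← h1, Finset.mul_sum]
      refine Finset.sum_congr rfl fun k _ => ?_
      rw [hs, Matrix.of_apply, if_pos hj]
      ring
    · have h3 : ∀ k, P k j = 0 := fun k => hh.sup k j (by rintro ⟨-, h4⟩; exact hj h4)
      rw [Finset.sum_eq_zero, Finset.sum_eq_zero, mul_zero]
      · intro k _; rw [h3, mul_zero]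
      · intro k _; rw [hs, Matrix.of_apply, if_neg hj, mul_zero]
  have hid : c • (1 : Matrix J J R) = P + (K.d * h + h * K.d) := by
    rw [hP, pr]; abel
  have hPd : P * K.d = 0 := hh.pr_d
  have hdP : K.d * P = 0 := hh.d_pr
  have h1 : c • f = f * P + (L.d * (f * h) + f * h * K.d) := by
    calc c • f = f * (c • (1 : Matrix J J R)) := by rw [Matrix.mul_smul, Matrix.mul_one]
      _ = _ := by
        rw [hid, Matrix.mul_add, Matrix.mul_add, ← Matrix.mul_assoc f K.d h, ← hf.comm0,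
          Matrix.mul_assoc L.d, ← Matrix.mul_assoc f h]
  have h2 : c • (f * P) = f * P * P + f * P * h * K.d := by
    calc c • (f * P) = f * P * (c • (1 : Matrix J J R)) := by rw [Matrix.mul_smul, Matrix.mul_one]
      _ = _ := by
        rw [hid, Matrix.mul_add, Matrix.mul_add, ← Matrix.mul_assoc (f * P) K.d h,
          Matrix.mul_assoc f P K.d, hPd, Matrix.mul_zero, Matrix.zero_mul, zero_add,
          ← Matrix.mul_assoc (f * P) h]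
  have hfP : IsHmg K L 0 (f * P) := hf.hmg.mul' (hh.sup.hmg : IsHmg K K 0 P) (by norm_num)
  refine bd_of_smul a ha hK hL hdeg hf.hmg (s := T * (c * c)) (mul_ne_zero hT0 (mul_ne_zero hc hc)) ?_
  refine ⟨s * P + (T • (f * P * h) + (T * c) • (f * h)), ?_, ?_⟩
  · have e1 : IsHmg K L (0 - 1) (s * P) := hshmg.mul' (hh.sup.hmg : IsHmg K K 0 P) (by norm_num)
    have e2 : IsHmg K L (0 - 1) (f * P * h) := hfP.mul' hh.hmg (by norm_num)
    have e3 : IsHmg K L (0 - 1) (f * h) := hf.hmg.mul' hh.hmg (by norm_num)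
    exact e1.add ((e2.smul T).add (e3.smul (T * c)))
  · have e1 : L.d * (s * P) = T • (f * P * P) := by
      rw [← Matrix.mul_assoc, hds, Matrix.smul_mul]
    have e2 : s * P * K.d = 0 := by rw [Matrix.mul_assoc, hPd, Matrix.mul_zero]
    have e3 : L.d * (f * P * h) = 0 := by
      rw [← Matrix.mul_assoc, ← Matrix.mul_assoc, hf.comm0, Matrix.mul_assoc f, hdP,
        Matrix.mul_zero, Matrix.zero_mul]
    rw [Matrix.mul_add, Matrix.mul_add, Matrix.add_mul, Matrix.add_mul, e1, e2, Matrix.mul_smul,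
      Matrix.mul_smul, e3, Matrix.smul_mul, Matrix.smul_mul, sg_zero, Int.cast_one, one_smul, smul_zero,
      mul_smul, mul_smul, h1, smul_add, h2]
    module

/-- the projector of a tensor product -/
theorem pr_tensor {K : Cx R J} {L : Cx R J'} {c c' : R} {h : Matrix J J R} {h' : Matrix J' J' R}
    (hh : IsCon K c h) (_hh' : IsCon L c' h') :
    (K.tensor L).pr (c * c') (c' • (h ⊗ₖ (1 : Matrix J' J' R)) + K.pr c h ⊗ₖ h') =
      K.pr c h ⊗ₖ L.pr c' h' := by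
  have hp : K.e * K.pr c h = K.pr c h := by
    ext i j
    simp only [ep, Matrix.diagonal_mul]
    by_cases h0 : K.deg i = 0 ∧ K.deg j = 0
    · rw [h0.1, sg_zero]; simp
    · rw [show K.pr c h i j = 0 from hh.sup i j h0, mul_zero]
  have hp' : K.pr c h * K.e = K.pr c h := by
    ext i j
    simp only [ep, Matrix.mul_diagonal]
    by_cases h0 : K.deg i = 0 ∧ K.deg j = 0
    · rw [h0.2, sg_zero]; simp
    · rw [show K.pr c h i j = 0 from hh.sup i j h0, zero_mul]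
  have heh : K.e * h = -(h * K.e) := ep_mul_odd' hh.hmg
  have h1 : K.d * h + h * K.d = c • (1 : Matrix J J R) - K.pr c h := by
    rw [pr]; abel
  have h2 : L.d * h' + h' * L.d = c' • (1 : Matrix J' J' R) - L.pr c' h' := by
    rw [pr]; abel
  have e1 : (K.tensor L).d * (h ⊗ₖ (1 : Matrix J' J' R)) + (h ⊗ₖ (1 : Matrix J' J' R)) * (K.tensor L).d
      = (c • (1 : Matrix J J R) - K.pr c h) ⊗ₖ (1 : Matrix J' J' R) := by
    rw [tensor_d, Matrix.add_mul, Matrix.mul_add, ← Matrix.mul_kronecker_mul,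
      ← Matrix.mul_kronecker_mul, ← Matrix.mul_kronecker_mul, ← Matrix.mul_kronecker_mul,
      heh, ← h1, add_kron, neg_kron]
    simp only [Matrix.mul_one, Matrix.one_mul]
    abel
  have e2 : (K.tensor L).d * (K.pr c h ⊗ₖ h') + (K.pr c h ⊗ₖ h') * (K.tensor L).d
      = K.pr c h ⊗ₖ (c' • (1 : Matrix J' J' R) - L.pr c' h') := by
    rw [tensor_d, Matrix.add_mul, Matrix.mul_add, ← Matrix.mul_kronecker_mul,
      ← Matrix.mul_kronecker_mul, ← Matrix.mul_kronecker_mul, ← Matrix.mul_kronecker_mul,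
      hh.d_pr, hh.pr_d, hp, hp', zero_kron, zero_kron, zero_add, zero_add, ← h2, kron_add]
  have e3 : (K.tensor L).d * (c' • (h ⊗ₖ (1 : Matrix J' J' R)) + K.pr c h ⊗ₖ h') +
      (c' • (h ⊗ₖ (1 : Matrix J' J' R)) + K.pr c h ⊗ₖ h') * (K.tensor L).d =
      c' • ((K.tensor L).d * (h ⊗ₖ (1 : Matrix J' J' R)) + (h ⊗ₖ (1 : Matrix J' J' R)) * (K.tensor L).d)
      + ((K.tensor L).d * (K.pr c h ⊗ₖ h') + (K.pr c h ⊗ₖ h') * (K.tensor L).d) := by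
    rw [Matrix.mul_add, Matrix.add_mul, Matrix.mul_smul, Matrix.smul_mul, smul_add]
    abel
  have e0 : (K.tensor L).pr (c * c') (c' • (h ⊗ₖ (1 : Matrix J' J' R)) + K.pr c h ⊗ₖ h') =
      (c * c') • (1 : Matrix (J × J') (J × J') R) -
        ((K.tensor L).d * (c' • (h ⊗ₖ (1 : Matrix J' J' R)) + K.pr c h ⊗ₖ h') +
          (c' • (h ⊗ₖ (1 : Matrix J' J' R)) + K.pr c h ⊗ₖ h') * (K.tensor L).d) := rfl
  rw [e0, e3, e1, e2, sub_kron, kron_sub, smul_kron, kron_smul, Matrix.one_kronecker_one,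
    smul_sub, smul_smul, mul_comm c' c]
  abel

/-- the decomposable vectors of two cocycles are cocycles -/
theorem vk_mem_Z0 {K : Cx R J} {L : Cx R J'} {z : J → R} {z' : J' → R} (hz : z ∈ K.Z0)
    (hz' : z' ∈ L.Z0) : vk z z' ∈ (K.tensor L).Z0 := by
  refine ⟨fun x hx => ?_, ?_⟩
  · rw [tensor_deg] at hx
    show z x.1 * z' x.2 = 0
    by_cases h : K.deg x.1 = 0
    · have h' : L.deg x.2 ≠ 0 := by
        intro h'; apply hx; rw [h, h']; rfl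
      rw [hz'.1 _ h', mul_zero]
    · rw [hz.1 _ h, zero_mul]
  · rw [tensor_d, Matrix.add_mulVec, kron_mulVec_tv, kron_mulVec_tv, hz.2, hz'.2, zero_tv, tv_zero,
      add_zero]

theorem tensor_pr_col {K : Cx R J} {L : Cx R J'} {c c' : R} {h : Matrix J J R}
    {h' : Matrix J' J' R} (hh : IsCon K c h) (hh' : IsCon L c' h') (x : J × J') :
    (fun i => (K.tensor L).pr (c * c') (c' • (h ⊗ₖ (1 : Matrix J' J' R)) + K.pr c h ⊗ₖ h') i x) =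
      vk (fun i => K.pr c h i x.1) (fun i => L.pr c' h' i x.2) := by
  rw [pr_tensor hh hh']
  rfl

/-! ## The criterion for the dual -/

/-- the pairing criterion for the dual -/
theorem mem_BT_dual {K : Cx R J} {a : R} (ha : a ≠ 0) (hK : UE K a) {l : J → R}
    (hl : l ∈ K.dual.Z0) (h : ∀ z ∈ K.Z0, l ⬝ᵥ z = 0) : l ∈ K.dual.BT := by
  obtain ⟨N, k, hk⟩ := hK
  set c := a ^ N with hc
  have hc0 : c ≠ 0 := pow_ne_zero N ha
  have hl0 : ∀ j, K.deg j ≠ 0 → l j = 0 := by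
    intro j hj
    exact hl.1 j (by rw [dual_deg]; simpa using hj)
  have hle : l ᵥ* K.e = l := by
    funext j
    show (l ᵥ* Matrix.diagonal fun j => ((sg (K.deg j) : ℤ) : R)) j = l j
    rw [Matrix.vecMul_diagonal]
    by_cases hj : K.deg j = 0
    · rw [hj, sg_zero]; simp
    · rw [hl0 j hj, zero_mul]
  have hld : l ᵥ* K.d = 0 := by
    have h1 := hl.2
    rw [dual_d, Matrix.neg_mulVec, Matrix.mulVec_transpose, ← Matrix.vecMul_vecMul, hle,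
      neg_eq_zero] at h1
    exact h1
  have hlp : l ᵥ* K.pr c k = 0 := by
    funext j
    exact h _ (pr_col K hk j)
  have hcl : c • l = (l ᵥ* k) ᵥ* K.d := by
    have h2 : l ᵥ* (c • (1 : Matrix J J R)) = l ᵥ* (K.pr c k + (K.d * k + k * K.d)) := by
      rw [pr]; congr 1; abel
    rw [Matrix.vecMul_smul, Matrix.vecMul_one, Matrix.vecMul_add, Matrix.vecMul_add, hlp, zero_add,
      ← Matrix.vecMul_vecMul, hld, Matrix.zero_vecMul, zero_add, ← Matrix.vecMul_vecMul] at h2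
    exact h2
  refine ⟨c, hc0, -((l ᵥ* k) ᵥ* K.e), ?_, ?_⟩
  · intro j hj
    rw [dual_deg] at hj
    show -((l ᵥ* k) ᵥ* Matrix.diagonal fun j => ((sg (K.deg j) : ℤ) : R)) j = 0
    rw [Matrix.vecMul_diagonal]
    have h3 : (l ᵥ* k) j = 0 := by
      rw [Matrix.vecMul, dotProduct]
      refine Finset.sum_eq_zero fun i _ => ?_
      by_cases hi : K.deg i = 0
      · rw [hk.hmg i j (by rw [hi]; intro h4; apply hj; omega), mul_zero]
      · rw [hl0 i hi, zero_mul]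
    rw [h3, zero_mul, neg_zero]
  · rw [dual_d, Matrix.neg_mulVec, Matrix.mulVec_neg, neg_neg, Matrix.mulVec_transpose,
      ← Matrix.vecMul_vecMul, Matrix.vecMul_vecMul (l ᵥ* k) K.e K.e, e_mul_self, Matrix.vecMul_one, hcl]

/-! ## Uniqueness -/

/-- uniqueness, one factor -/
theorem uniq1 (a : Fin 6 → R) (ha : IsWeaklyRegular R (List.ofFn a)) (ha0 : ∀ i, a i ≠ 0)
    {K : Cx R J} {L : Cx R J'} (hK : ∀ i, UE K (a i)) (hL : ∀ i, UE L (a i))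
    (hdeg : ∀ i j, -5 ≤ L.deg i - K.deg j) {f : Matrix J' J R} (hf : Cl K L 0 f)
    (h : ∀ z ∈ K.Z0, f *ᵥ z ∈ L.BT) : Bd K L 0 f := by
  obtain ⟨N, k, hk⟩ := hK 0
  exact uniq_core a ha hK hL hdeg hf (pow_ne_zero N (ha0 0)) hk fun j => h _ (pr_col K hk j)

/-- uniqueness, two factors -/
theorem uniq2 (a : Fin 6 → R) (ha : IsWeaklyRegular R (List.ofFn a)) (ha0 : ∀ i, a i ≠ 0)
    {K₁ : Cx R J₁} {K₂ : Cx R J₂} {L : Cx R J'} (hK₁ : ∀ i, UE K₁ (a i))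
    (hK₂ : ∀ i, UE K₂ (a i)) (hL : ∀ i, UE L (a i))
    (hdeg : ∀ i j k, -5 ≤ L.deg i - (K₁.deg j + K₂.deg k))
    {f : Matrix J' (J₁ × J₂) R} (hf : Cl (K₁.tensor K₂) L 0 f)
    (h : ∀ z₁ ∈ K₁.Z0, ∀ z₂ ∈ K₂.Z0, f *ᵥ vk z₁ z₂ ∈ L.BT) : Bd (K₁.tensor K₂) L 0 f := by
  obtain ⟨N₁, k₁, hk₁⟩ := hK₁ 0
  obtain ⟨N₂, k₂, hk₂⟩ := hK₂ 0
  refine uniq_core a ha (fun i => (hK₁ i).tensor (hK₂ i)) hL (fun i x => hdeg i x.1 x.2) hf
    (mul_ne_zero (pow_ne_zero N₁ (ha0 0)) (pow_ne_zero N₂ (ha0 0))) (hk₁.tensor hk₂) fun x => ?_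
  rw [tensor_pr_col hk₁ hk₂]
  exact h _ (pr_col K₁ hk₁ _) _ (pr_col K₂ hk₂ _)

/-- uniqueness, three factors -/
theorem uniq3 (a : Fin 6 → R) (ha : IsWeaklyRegular R (List.ofFn a)) (ha0 : ∀ i, a i ≠ 0)
    {K₁ : Cx R J₁} {K₂ : Cx R J₂} {K₃ : Cx R J₃} {L : Cx R J'} (hK₁ : ∀ i, UE K₁ (a i))
    (hK₂ : ∀ i, UE K₂ (a i)) (hK₃ : ∀ i, UE K₃ (a i)) (hL : ∀ i, UE L (a i))
    (hdeg : ∀ i j k l, -5 ≤ L.deg i - (K₁.deg j + K₂.deg k + K₃.deg l))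
    {f : Matrix J' ((J₁ × J₂) × J₃) R} (hf : Cl ((K₁.tensor K₂).tensor K₃) L 0 f)
    (h : ∀ z₁ ∈ K₁.Z0, ∀ z₂ ∈ K₂.Z0, ∀ z₃ ∈ K₃.Z0, f *ᵥ vk (vk z₁ z₂) z₃ ∈ L.BT) :
    Bd ((K₁.tensor K₂).tensor K₃) L 0 f := by
  obtain ⟨N₁, k₁, hk₁⟩ := hK₁ 0
  obtain ⟨N₂, k₂, hk₂⟩ := hK₂ 0
  obtain ⟨N₃, k₃, hk₃⟩ := hK₃ 0
  refine uniq_core a ha (fun i => ((hK₁ i).tensor (hK₂ i)).tensor (hK₃ i)) hL
    (fun i x => hdeg i x.1.1 x.1.2 x.2) hf
    (mul_ne_zero (mul_ne_zero (pow_ne_zero N₁ (ha0 0)) (pow_ne_zero N₂ (ha0 0)))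
      (pow_ne_zero N₃ (ha0 0))) ((hk₁.tensor hk₂).tensor hk₃) fun x => ?_
  rw [tensor_pr_col (hk₁.tensor hk₂) hk₃, tensor_pr_col hk₁ hk₂]
  exact h _ (pr_col K₁ hk₁ _) _ (pr_col K₂ hk₂ _) _ (pr_col K₃ hk₃ _)

/-- uniqueness, four factors -/
theorem uniq4 (a : Fin 6 → R) (ha : IsWeaklyRegular R (List.ofFn a)) (ha0 : ∀ i, a i ≠ 0)
    {K₁ : Cx R J₁} {K₂ : Cx R J₂} {K₃ : Cx R J₃} {K₄ : Cx R J₄} {L : Cx R J'}
    (hK₁ : ∀ i, UE K₁ (a i)) (hK₂ : ∀ i, UE K₂ (a i)) (hK₃ : ∀ i, UE K₃ (a i))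
    (hK₄ : ∀ i, UE K₄ (a i)) (hL : ∀ i, UE L (a i))
    (hdeg : ∀ i j k l m, -5 ≤ L.deg i - (K₁.deg j + K₂.deg k + K₃.deg l + K₄.deg m))
    {f : Matrix J' (((J₁ × J₂) × J₃) × J₄) R}
    (hf : Cl (((K₁.tensor K₂).tensor K₃).tensor K₄) L 0 f)
    (h : ∀ z₁ ∈ K₁.Z0, ∀ z₂ ∈ K₂.Z0, ∀ z₃ ∈ K₃.Z0, ∀ z₄ ∈ K₄.Z0,
      f *ᵥ vk (vk (vk z₁ z₂) z₃) z₄ ∈ L.BT) :
    Bd (((K₁.tensor K₂).tensor K₃).tensor K₄) L 0 f := by
  obtain ⟨N₁, k₁, hk₁⟩ := hK₁ 0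
  obtain ⟨N₂, k₂, hk₂⟩ := hK₂ 0
  obtain ⟨N₃, k₃, hk₃⟩ := hK₃ 0
  obtain ⟨N₄, k₄, hk₄⟩ := hK₄ 0
  refine uniq_core a ha (fun i => (((hK₁ i).tensor (hK₂ i)).tensor (hK₃ i)).tensor (hK₄ i)) hL
    (fun i x => hdeg i x.1.1.1 x.1.1.2 x.1.2 x.2) hf
    (mul_ne_zero (mul_ne_zero (mul_ne_zero (pow_ne_zero N₁ (ha0 0)) (pow_ne_zero N₂ (ha0 0)))
      (pow_ne_zero N₃ (ha0 0))) (pow_ne_zero N₄ (ha0 0)))
    (((hk₁.tensor hk₂).tensor hk₃).tensor hk₄) fun x => ?_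
  rw [tensor_pr_col ((hk₁.tensor hk₂).tensor hk₃) hk₄, tensor_pr_col (hk₁.tensor hk₂) hk₃,
    tensor_pr_col hk₁ hk₂]
  exact h _ (pr_col K₁ hk₁ _) _ (pr_col K₂ hk₂ _) _ (pr_col K₃ hk₃ _) _ (pr_col K₄ hk₄ _)

/-! ## Lifting -/

/-- compatible closed maps glue -/
theorem lift_core (a : Fin 6 → R) (ha : IsWeaklyRegular R (List.ofFn a)) (ha0 : ∀ i, a i ≠ 0)
    {K : Cx R J} {L : Cx R J'} (hK : ∀ i, UE K (a i)) (hL : ∀ i, UE L (a i))
    (hdeg : ∀ i j, -4 ≤ L.deg i - K.deg j) (N : Fin 6 → ℕ) (t : Fin 6 → Matrix J' J R)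
    (ht : ∀ i, Cl K L 0 (t i)) (hk : ∀ i j, Bd K L 0 (a j ^ N j • t i - a i ^ N i • t j)) :
    ∃ f : Matrix J' J R, Cl K L 0 f ∧ ∀ i, Bd K L 0 (a i ^ N i • f - t i) := by
  obtain ⟨t₀, ht₀, h₀⟩ := Pool.Agent.Licci.depth_extend a ha (hom_hd (Hom K L)) (Hom K L).sq
    (fun i => (UE.iff_licci _ _).1 (UE.hom (hK i) (hL i))) 4
    (by
      rintro ⟨i, j⟩
      have := hdeg i j
      rw [Hom_deg]
      simpa using this) (by norm_num) N (fun i => vec (t i))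
    (by
      intro i x hx
      by_contra h1
      exact hx (vec_hmg.2 (ht i).hmg x h1))
    (by
      intro i j
      obtain ⟨v, hv, hv2⟩ := bd_iff.1 (hk i j)
      exact ⟨v, hv2.symm⟩)
  have hbd : ∀ i, Bd K L 0 (a i ^ N i • (Matrix.of fun i j => t₀ (i, j)) - t i) := by
    intro i
    obtain ⟨w, hw, hw2⟩ := h₀ i
    refine bd_iff.2 ⟨w, ?_, hw2.symm⟩
    intro x hx
    by_contra h1
    exact hx (by simpa using hw x h1)
  refine ⟨Matrix.of fun i j => t₀ (i, j), ?_, hbd⟩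
  have h1 : Cl K L 0 (a 0 ^ N 0 • (Matrix.of fun i j => t₀ (i, j) : Matrix J' J R)) := by
    have := (hbd 0).cl.add (ht 0)
    rwa [sub_add_cancel] at this
  have hc : a 0 ^ N 0 ≠ 0 := pow_ne_zero _ (ha0 0)
  have hmg : IsHmg K L 0 (Matrix.of fun i j => t₀ (i, j) : Matrix J' J R) := by
    refine vec_hmg.1 ?_
    rw [vec_of]
    intro x hx
    by_contra h2
    exact hx (ht₀ x h2)
  refine Cl.mk0 hmg ?_
  have h2 := h1.comm0
  rw [Matrix.mul_smul, Matrix.smul_mul] at h2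
  ext i j
  have h3 := congrFun (congrFun h2 i) j
  rw [Matrix.smul_apply, Matrix.smul_apply, smul_eq_mul, smul_eq_mul] at h3
  exact mul_left_cancel₀ hc h3

/-- lifting, with a set `Z` of test vectors which contains the columns of the projectors -/
theorem lift_gen (a : Fin 6 → R) (ha : IsWeaklyRegular R (List.ofFn a)) (ha0 : ∀ i, a i ≠ 0)
    {K : Cx R J} {L : Cx R J'} (hK : ∀ i, UE K (a i)) (hL : ∀ i, UE L (a i))
    (hdeg : ∀ i j, -4 ≤ L.deg i - K.deg j) (Z : Set (J → R)) (hZ : ∀ z ∈ Z, z ∈ K.Z0)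
    (M : Fin 6 → ℕ) (h : Fin 6 → Matrix J J R) (c : Fin 6 → R) (hcM : ∀ i, c i = a i ^ M i)
    (hh : ∀ i, IsCon K (c i) (h i)) (hcol : ∀ i j, (fun k => K.pr (c i) (h i) k j) ∈ Z)
    (N : Fin 6 → ℕ) (Φ : Fin 6 → Matrix J' J R)
    (h1 : ∀ i, ∀ z ∈ Z, Φ i *ᵥ z ∈ L.Z0)
    (h2 : ∀ i, ∀ z ∈ Z, c i • Φ i *ᵥ z - Φ i *ᵥ (K.pr (c i) (h i) *ᵥ z) ∈ L.BT)
    (h3 : ∀ i j, ∀ z ∈ Z, a j ^ N j • Φ i *ᵥ z - a i ^ N i • Φ j *ᵥ z ∈ L.BT) :
    ∃ f : Matrix J' J R, Cl K L 0 f ∧ ∀ i, ∀ z ∈ Z, a i ^ N i • f *ᵥ z - Φ i *ᵥ z ∈ L.BT := by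
  have hc0 : ∀ i, c i ≠ 0 := fun i => by rw [hcM]; exact pow_ne_zero _ (ha0 i)
  have hcolt : ∀ i j, (fun k => (Φ i * K.pr (c i) (h i)) k j) =
      Φ i *ᵥ (fun k => K.pr (c i) (h i) k j) := by
    intro i j
    funext k
    rw [Matrix.mul_apply, Matrix.mulVec, dotProduct]
  have ht : ∀ i, Cl K L 0 (Φ i * K.pr (c i) (h i)) := by
    intro i
    refine Cl.mk0 ?_ ?_
    · intro k j hkj
      have e1 : (Φ i * K.pr (c i) (h i)) k j = (Φ i *ᵥ (fun k => K.pr (c i) (h i) k j)) k :=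
        congrFun (hcolt i j) k
      rw [e1]
      by_cases hj : K.deg j = 0
      · exact (h1 i _ (hcol i j)).1 k (by intro h4; apply hkj; rw [h4, hj]; rfl)
      · have e2 : (fun k => K.pr (c i) (h i) k j) = 0 := by
          funext k
          exact (hh i).sup k j (by rintro ⟨-, h4⟩; exact hj h4)
        rw [e2, Matrix.mulVec_zero, Pi.zero_apply]
    · rw [Matrix.mul_assoc, (hh i).pr_d, Matrix.mul_zero]
      ext k j
      have e3 := congrFun (h1 i _ (hcol i j)).2 k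
      rw [← hcolt i j, Matrix.mulVec, dotProduct] at e3
      rw [Matrix.mul_apply]
      exact e3
  have hBT : ∀ i, ∀ z ∈ Z, c i • Φ i *ᵥ z - (Φ i * K.pr (c i) (h i)) *ᵥ z ∈ L.BT := by
    intro i z hz
    rw [← Matrix.mulVec_mulVec]
    exact h2 i z hz
  have hpow : ∀ i, a i ^ (N i + M i) = c i * a i ^ N i := by
    intro i; rw [pow_add, hcM, mul_comm]
  have hk : ∀ i j, Bd K L 0 (a j ^ (N j + M j) • (Φ i * K.pr (c i) (h i)) -
      a i ^ (N i + M i) • (Φ j * K.pr (c j) (h j))) := by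
    intro i j
    refine uniq_core a ha hK hL (fun i j => le_trans (by norm_num) (hdeg i j))
      (((ht i).smul _).sub ((ht j).smul _)) (hc0 0) (hh 0) fun l => ?_
    have hz := hcol 0 l
    generalize (fun k => K.pr (c 0) (h 0) k l) = z at hz
    have e1 := L.BT.smul_mem (a j ^ (N j + M j)) (hBT i z hz)
    have e2 := L.BT.smul_mem (a i ^ (N i + M i)) (hBT j z hz)
    have e3 := L.BT.smul_mem (c i * c j) (h3 i j z hz)
    have e4 := L.BT.add_mem (L.BT.sub_mem e3 e1) e2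
    have e5 : (a j ^ (N j + M j) • (Φ i * K.pr (c i) (h i)) -
      a i ^ (N i + M i) • (Φ j * K.pr (c j) (h j))) *ᵥ z =
        (c i * c j) • (a j ^ N j • Φ i *ᵥ z - a i ^ N i • Φ j *ᵥ z) -
        a j ^ (N j + M j) • (c i • Φ i *ᵥ z - (Φ i * K.pr (c i) (h i)) *ᵥ z) +
        a i ^ (N i + M i) • (c j • Φ j *ᵥ z - (Φ j * K.pr (c j) (h j)) *ᵥ z) := by
      rw [Matrix.sub_mulVec, Matrix.smul_mulVec, Matrix.smul_mulVec, hpow, hpow]
      module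
    rw [e5]
    exact e4
  obtain ⟨f, hf, hf2⟩ := lift_core a ha ha0 hK hL hdeg (fun i => N i + M i) _ ht hk
  refine ⟨f, hf, fun i z hz => BT_sat (hc0 i) ?_⟩
  have e1 := bd_mulVec_BT (hf2 i) (hZ z hz)
  have e2 := hBT i z hz
  have e3 := L.BT.sub_mem e1 e2
  have e4 : c i • (a i ^ N i • f *ᵥ z - Φ i *ᵥ z) =
      (a i ^ (N i + M i) • f - Φ i * K.pr (c i) (h i)) *ᵥ z -
        (c i • Φ i *ᵥ z - (Φ i * K.pr (c i) (h i)) *ᵥ z) := by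
    rw [Matrix.sub_mulVec, Matrix.smul_mulVec, hpow]
    module
  rw [e4]
  exact e3

/-- lifting, one factor; `Φ i` represents `(a i) ^ (N i)` times the map -/
theorem lift1 (a : Fin 6 → R) (ha : IsWeaklyRegular R (List.ofFn a)) (ha0 : ∀ i, a i ≠ 0)
    {K : Cx R J} {L : Cx R J'} (hK : ∀ i, UE K (a i)) (hL : ∀ i, UE L (a i))
    (hdeg : ∀ i j, -4 ≤ L.deg i - K.deg j) (N : Fin 6 → ℕ) (Φ : Fin 6 → Matrix J' J R)
    (h1 : ∀ i, ∀ z ∈ K.Z0, Φ i *ᵥ z ∈ L.Z0) (h2 : ∀ i, ∀ z ∈ K.B0, Φ i *ᵥ z ∈ L.BT)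
    (h3 : ∀ i j, ∀ z ∈ K.Z0, a j ^ N j • Φ i *ᵥ z - a i ^ N i • Φ j *ᵥ z ∈ L.BT) :
    ∃ f : Matrix J' J R, Cl K L 0 f ∧ ∀ i, ∀ z ∈ K.Z0, a i ^ N i • f *ᵥ z - Φ i *ᵥ z ∈ L.BT := by
  choose M k hk using hK
  refine lift_gen a ha ha0 (fun i => ⟨M i, k i, hk i⟩) hL hdeg (K.Z0 : Set (J → R)) (fun z hz => hz)
    M k (fun i => a i ^ M i) (fun _ => rfl) hk (fun i j => pr_col K (hk i) j) N Φ h1 ?_ h3
  intro i z hz
  rw [mulVec_pr K _ _ hz, Matrix.mulVec_sub, Matrix.mulVec_smul, sub_sub_cancel]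
  exact h2 i _ (dh_mem K (hk i) hz)

/-- lifting, two factors -/
theorem lift2 (a : Fin 6 → R) (ha : IsWeaklyRegular R (List.ofFn a)) (ha0 : ∀ i, a i ≠ 0)
    {K₁ : Cx R J₁} {K₂ : Cx R J₂} {L : Cx R J'} (hK₁ : ∀ i, UE K₁ (a i))
    (hK₂ : ∀ i, UE K₂ (a i)) (hL : ∀ i, UE L (a i))
    (hdeg : ∀ i j k, -4 ≤ L.deg i - (K₁.deg j + K₂.deg k)) (N : Fin 6 → ℕ)
    (Φ : Fin 6 → Matrix J' (J₁ × J₂) R)
    (h1 : ∀ i, ∀ z₁ ∈ K₁.Z0, ∀ z₂ ∈ K₂.Z0, Φ i *ᵥ vk z₁ z₂ ∈ L.Z0)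
    (h2 : ∀ i, ∀ z₁ ∈ K₁.B0, ∀ z₂ ∈ K₂.Z0, Φ i *ᵥ vk z₁ z₂ ∈ L.BT)
    (h2' : ∀ i, ∀ z₁ ∈ K₁.Z0, ∀ z₂ ∈ K₂.B0, Φ i *ᵥ vk z₁ z₂ ∈ L.BT)
    (h3 : ∀ i j, ∀ z₁ ∈ K₁.Z0, ∀ z₂ ∈ K₂.Z0,
      a j ^ N j • Φ i *ᵥ vk z₁ z₂ - a i ^ N i • Φ j *ᵥ vk z₁ z₂ ∈ L.BT) :
    ∃ f : Matrix J' (J₁ × J₂) R, Cl (K₁.tensor K₂) L 0 f ∧
      ∀ i, ∀ z₁ ∈ K₁.Z0, ∀ z₂ ∈ K₂.Z0,
        a i ^ N i • f *ᵥ vk z₁ z₂ - Φ i *ᵥ vk z₁ z₂ ∈ L.BT := by
  have hUE : ∀ i, UE (K₁.tensor K₂) (a i) := fun i => (hK₁ i).tensor (hK₂ i)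
  choose M₁ k₁ hk₁ using hK₁
  choose M₂ k₂ hk₂ using hK₂
  obtain ⟨f, hf, hf2⟩ := lift_gen a ha ha0 hUE hL
    (fun i x => hdeg i x.1 x.2) {v | ∃ z₁ ∈ K₁.Z0, ∃ z₂ ∈ K₂.Z0, v = vk z₁ z₂}
    (by rintro v ⟨z₁, h₁, z₂, h₂, rfl⟩; exact vk_mem_Z0 h₁ h₂)
    (fun i => M₁ i + M₂ i) _ (fun i => a i ^ M₁ i * a i ^ M₂ i) (fun i => (pow_add _ _ _).symm)
    (fun i => (hk₁ i).tensor (hk₂ i))
    (fun i x => ⟨_, pr_col K₁ (hk₁ i) x.1, _, pr_col K₂ (hk₂ i) x.2,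
      tensor_pr_col (hk₁ i) (hk₂ i) x⟩) N Φ
    (by rintro i v ⟨z₁, h₁, z₂, h₂, rfl⟩; exact h1 i z₁ h₁ z₂ h₂)
    (by
      rintro i v ⟨z₁, h₁, z₂, h₂, rfl⟩
      rw [pr_tensor (hk₁ i) (hk₂ i), kron_mulVec_tv]
      have e1 : K₁.pr (a i ^ M₁ i) (k₁ i) *ᵥ z₁ = a i ^ M₁ i • z₁ - K₁.d *ᵥ (k₁ i *ᵥ z₁) :=
        mulVec_pr K₁ _ _ h₁
      have e2 : K₂.pr (a i ^ M₂ i) (k₂ i) *ᵥ z₂ = a i ^ M₂ i • z₂ - K₂.d *ᵥ (k₂ i *ᵥ z₂) :=
        mulVec_pr K₂ _ _ h₂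
      have hb₁ := dh_mem K₁ (hk₁ i) h₁
      have hb₂ := dh_mem K₂ (hk₂ i) h₂
      rw [e1, e2]
      set b₁ := K₁.d *ᵥ (k₁ i *ᵥ z₁)
      set b₂ := K₂.d *ᵥ (k₂ i *ᵥ z₂)
      have hm₂ : a i ^ M₂ i • z₂ - b₂ ∈ K₂.Z0 :=
        K₂.Z0.sub_mem (K₂.Z0.smul_mem _ h₂) (B0_le_Z0 K₂ hb₂)
      have e3 : tv (a i ^ M₁ i • z₁ - b₁) (a i ^ M₂ i • z₂ - b₂) =
          (a i ^ M₁ i * a i ^ M₂ i) • vk z₁ z₂ - a i ^ M₁ i • vk z₁ b₂ -
            vk b₁ (a i ^ M₂ i • z₂ - b₂) := by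
        funext x
        simp only [tv, Pi.sub_apply, Pi.smul_apply, smul_eq_mul]
        ring
      rw [e3, Matrix.mulVec_sub, Matrix.mulVec_sub, Matrix.mulVec_smul, Matrix.mulVec_smul]
      have e4 := L.BT.add_mem (L.BT.smul_mem (a i ^ M₁ i) (h2' i z₁ h₁ b₂ hb₂))
        (h2 i b₁ hb₁ _ hm₂)
      convert e4 using 1
      abel)
    (by rintro i j v ⟨z₁, h₁, z₂, h₂, rfl⟩; exact h3 i j z₁ h₁ z₂ h₂)
  exact ⟨f, hf, fun i z₁ h₁ z₂ h₂ => hf2 i _ ⟨z₁, h₁, z₂, h₂, rfl⟩⟩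

end Cx

end LicciCx
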