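import Pool.Agent.Work.MP_a98e4e_ag.Core.Uniq
import Pool.Agent.Work.MP_a98e4e_ag.Core.Lift

/-!
# Symmetry, crossing, invariance over the residue field
-/

set_option autoImplicit false
set_option linter.unusedSectionVars false

open Matrix Kronecker RingTheory.Sequence IsLocalRing

namespace LicciCore

open LicciCx Cx Pool.Agent.Licci

universe u

namespace CoreData

variable {R : Type u} [CommRing R] [IsDomain R] [IsLocalRing R] {p : Fin 248 → R}
  {a : Fin 6 → R} {J : Type} [Fintype J] [DecidableEq J] (D : CoreData R p a J)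

theorem residue_sg (n : ℤ) : residue R ((sg n : ℤ) : R) = ((sg n : ℤ) : ResidueField R) :=
  map_intCast _ _

theorem residue_ite (P : Prop) [Decidable P] : residue R (if P then 1 else 0) =
    (if P then 1 else 0) := by
  split_ifs <;> simp

theorem sf0_bd (S : Setup R p a) : Bd (D.X.tensor D.X) (free R Unit 0) 0
    (D.om S + D.om S * sw D.X D.X) := by
  refine uniq2 a S.reg S.ne D.ue D.ue (fun i => UE.free _) ?_ ?_ ?_
  · intro i j k
    have h1 := D.deg_le j
    have h2 := D.deg_le k
    rw [free_deg]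
    omega
  · exact (D.cl_om S).add (((D.cl_om S).mul (cl_sw D.X D.X)).cast (by ring))
  · intro z₁ h1 z₂ h2
    rw [Matrix.add_mulVec, ← Matrix.mulVec_mulVec, sw_vk D.X D.X h1 h2, om_vk, om_vk]
    have : ((fun _ => D.w S z₁ z₂) + fun _ => D.w S z₂ z₁ : Unit → R) = 0 := by
      ext ⟨⟩
      exact w_skew S h1 h2
    rw [this]
    exact zero_mem _

theorem sf1_bd (S : Setup R p a) : Bd ((D.X.tensor D.X).tensor D.X) D.X 0
    (sf1 D.X (D.om S) (D.Dp S)) := by
  refine uniq3 a S.reg S.ne D.ue D.ue D.ue D.ue ?_ (cl_sf1 (D.cl_om S) (D.cl_Dp S)) ?_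
  · intro i j k l
    have h0 := D.le_deg i
    have h1 := D.deg_le j
    have h2 := D.deg_le k
    have h3 := D.deg_le l
    omega
  · intro x hx y hy z hz
    have h := s1 S hx hy hz
    rw [sf1, Matrix.add_mulVec, Matrix.sub_mulVec, ← Matrix.mulVec_mulVec,
      ← Matrix.mulVec_mulVec, kron_vk, kron_vk, Matrix.one_mulVec, sw_vk D.X D.X hx hy, om_vk,
      lun_vk]
    exact h

theorem sf2_bd (S : Setup R p a) : Bd ((D.X.tensor D.X).tensor D.X) D.X 0
    (sf2 D.X (D.om S) (D.Dp S)) := by
  refine uniq3 a S.reg S.ne D.ue D.ue D.ue D.ue ?_ (cl_sf2 (D.cl_om S) (D.cl_Dp S)) ?_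
  · intro i j k l
    have h0 := D.le_deg i
    have h1 := D.deg_le j
    have h2 := D.deg_le k
    have h3 := D.deg_le l
    omega
  · intro x hx y hy z hz
    have h := s2 S hx hy hz
    rw [sf2, Matrix.add_mulVec, Matrix.sub_mulVec, ← Matrix.mulVec_mulVec,
      ← Matrix.mulVec_mulVec, ← Matrix.mulVec_mulVec, ← Matrix.mulVec_mulVec,
      ← Matrix.mulVec_mulVec, asc_vk, kron_vk, kron_vk, Matrix.one_mulVec,
      sw_vk D.X D.X hy hz, om_vk, rn_vk, asi_vk]
    exact h

theorem sf3_bd (S : Setup R p a) : Bd (((D.X.tensor D.X).tensor D.X).tensor D.X) (free R Unit 0) 0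
    (sf3 D.X (D.om S) (D.Dp S)) := by
  refine uniq4 a S.reg S.ne D.ue D.ue D.ue D.ue (fun i => UE.free _) ?_
    (cl_sf3 (D.cl_om S) (D.cl_Dp S)) ?_
  · intro i j k l m
    have h0 := D.deg_le m
    have h1 := D.deg_le j
    have h2 := D.deg_le k
    have h3 := D.deg_le l
    rw [free_deg]
    omega
  · intro x hx y hy z hz v hv
    have h := s3 S hx hy hz hv
    have h1 : sf3 D.X (D.om S) (D.Dp S) *ᵥ vk (vk (vk x y) z) v = 0 := by
      rw [sf3, Matrix.add_mulVec, Matrix.add_mulVec, ← Matrix.mulVec_mulVec,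
        ← Matrix.mulVec_mulVec, ← Matrix.mulVec_mulVec, ← Matrix.mulVec_mulVec,
        ← Matrix.mulVec_mulVec, kron_vk, kron_vk, kron_vk, Matrix.one_mulVec,
        sw_vk (D.X.tensor D.X) D.X (vk_mem D.X D.X hx hy) hz, asc_vk, kron_vk, Matrix.one_mulVec,
        om_vk, om_vk, ← Matrix.mulVec_mulVec, kron_vk, Matrix.one_mulVec, om_vk, lun_vk, om_vk]
      ext ⟨⟩
      have h2 : D.w S (D.w S x y • z) v = D.w S x y * D.w S z v := by
        rw [w, Matrix.mulVec_smul, dotProduct_smul, smul_eq_mul]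
        rfl
      show D.w S (D.Dp S *ᵥ vk (vk x y) z) v + D.w S z (D.Dp S *ᵥ vk (vk x y) v) +
        D.w S (D.w S x y • z) v = 0
      rw [h2]
      exact h
    rw [h1]
    exact zero_mem _

theorem XX_d_map : (D.X.tensor D.X).d.map (residue R) = 0 :=
  tensor_d_map_eq_zero _ D.X_d_map D.X_d_map

theorem XXX_d_map : ((D.X.tensor D.X).tensor D.X).d.map (residue R) = 0 :=
  tensor_d_map_eq_zero _ D.XX_d_map D.X_d_map

theorem XXXX_d_map : (((D.X.tensor D.X).tensor D.X).tensor D.X).d.map (residue R) = 0 :=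
  tensor_d_map_eq_zero _ D.XXX_d_map D.X_d_map

theorem free_d_map : (free R Unit 0).d.map (residue R) = 0 := by
  ext i j
  simp

theorem omk_eq (S : Setup R p a) (i j : J) : residue R (D.om S () (i, j)) = D.omk S i j := rfl

theorem omk_symm (S : Setup R p a) (i j : J) :
    D.omk S i j = -(kz (ResidueField R) (D.X.deg i) (D.X.deg j) * D.omk S j i) := by
  have h := congrFun (congrFun ((D.sf0_bd S).map_eq_zero _ D.XX_d_map free_d_map) ()) (i, j)
  rw [Matrix.map_apply, Matrix.add_apply, mul_sw, map_add, map_mul, residue_sg, omk_eq, omk_eq,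
    Matrix.zero_apply] at h
  exact eq_neg_of_add_eq_zero_left h

theorem Dpk_symm (S : Setup R p a) (i j l m : J) : D.Dpk S i j l m -
    kz (ResidueField R) (D.X.deg i) (D.X.deg j) * D.Dpk S j i l m +
      D.omk S i j * (if l = m then 1 else 0) = 0 := by
  have h := congrFun (congrFun ((D.sf1_bd S).map_eq_zero _ D.XXX_d_map D.X_d_map) m) ((i, j), l)
  rw [Matrix.map_apply, sf1_apply, map_add, map_sub, map_mul, map_mul, residue_sg, omk_eq,
    Matrix.zero_apply, residue_ite] at h
  exact h

theorem Dpk_cross (S : Setup R p a) (i j l m : J) : D.Dpk S i j l m -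
    kz (ResidueField R) (D.X.deg j) (D.X.deg l) * D.Dpk S i l j m +
      D.omk S j l * (if i = m then 1 else 0) = 0 := by
  have h := congrFun (congrFun ((D.sf2_bd S).map_eq_zero _ D.XXX_d_map D.X_d_map) m) ((i, j), l)
  rw [Matrix.map_apply, sf2_apply, map_add, map_sub, map_mul, map_mul, residue_sg, omk_eq,
    Matrix.zero_apply, residue_ite] at h
  exact h

theorem Dpk_sp (S : Setup R p a) (i j l r : J) : ∑ m, D.Dpk S i j l m * D.omk S m r +
    kz (ResidueField R) (D.X.deg l) (D.X.deg i + D.X.deg j) *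
      ∑ m, D.omk S l m * D.Dpk S i j r m + D.omk S i j * D.omk S l r = 0 := by
  have h := congrFun (congrFun ((D.sf3_bd S).map_eq_zero _ D.XXXX_d_map free_d_map) ())
    (((i, j), l), r)
  rw [Matrix.map_apply, sf3_apply, map_add, map_add, map_mul, map_mul, residue_sg, omk_eq, omk_eq,
    Matrix.zero_apply, map_sum, map_sum, mul_comm (D.X.deg i + D.X.deg j)] at h
  simp only [map_mul, omk_eq] at h
  rw [← h]
  congr 2
  exact Finset.sum_congr rfl fun m _ => mul_comm _ _

theorem kz_mul_self (m n : ℤ) : kz (ResidueField R) m n * kz (ResidueField R) m n = 1 := by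
  rw [kz, ← Int.cast_mul, sg_mul_self, Int.cast_one]

theorem Dk_symm (S : Setup R p a) (i j l m : J) : D.Dk S i j l m =
    kz (ResidueField R) (D.X.deg i) (D.X.deg j) * D.Dk S j i l m := by
  have h1 := D.Dpk_symm S i j l m
  have h2 := D.omk_symm S i j
  rw [Dk, Dk]
  linear_combination (-2) * h1 + (if l = m then (1 : ResidueField R) else 0) * h2

theorem Dk_cross (S : Setup R p a) (i j l m : J) :
    D.Dk S i j l m - kz (ResidueField R) (D.X.deg j) (D.X.deg l) * D.Dk S i l j m =
    2 * D.omk S j l * (if i = m then 1 else 0) - D.omk S i j * (if l = m then 1 else 0) +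
      kz (ResidueField R) (D.X.deg j) (D.X.deg l) * D.omk S i l * (if j = m then 1 else 0) := by
  have h1 := D.Dpk_cross S i j l m
  rw [Dk, Dk]
  linear_combination (-2) * h1

theorem Dk_sp (S : Setup R p a) (i j l r : J) : ∑ m, D.Dk S i j l m * D.omk S m r +
    kz (ResidueField R) (D.X.deg l) (D.X.deg i + D.X.deg j) *
      ∑ m, D.omk S l m * D.Dk S i j r m = 0 := by
  have h1 := D.Dpk_sp S i j l r
  have h2 : ∑ m, D.Dk S i j l m * D.omk S m r =
      -2 * ∑ m, D.Dpk S i j l m * D.omk S m r - D.omk S i j * D.omk S l r := by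
    simp only [Dk, sub_mul, Finset.sum_sub_distrib, Finset.mul_sum]
    congr 1
    · exact Finset.sum_congr rfl fun m _ => by ring
    · rw [Finset.sum_eq_single l]
      · simp
      · intro b _ hb; simp [Ne.symm hb]
      · simp
  have h3 : ∑ m, D.omk S l m * D.Dk S i j r m =
      -2 * ∑ m, D.omk S l m * D.Dpk S i j r m - D.omk S i j * D.omk S l r := by
    simp only [Dk, mul_sub, Finset.sum_sub_distrib, Finset.mul_sum]
    congr 1
    · exact Finset.sum_congr rfl fun m _ => by ring
    · rw [Finset.sum_eq_single r]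
      · simp [mul_comm]
      · intro b _ hb; simp [Ne.symm hb]
      · simp
  have h4 : kz (ResidueField R) (D.X.deg l) (D.X.deg i + D.X.deg j) * D.omk S i j =
      D.omk S i j := by
    by_cases h : D.X.deg i + D.X.deg j = 0
    · rw [h, kz, mul_zero, sg_zero, Int.cast_one, one_mul]
    · rw [D.omk_deg S i j h, mul_zero]
  rw [h2, h3]
  linear_combination (-2) * h1 - D.omk S l r * h4

end CoreData

end LicciCore
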