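import Pool.Agent.Work.MP_a98e4e_ag.Core.MapsAl
import Pool.Agent.Work.MP_a98e4e_ag.Core.SftsDefs

/-!
# The structure over the residue field
-/

set_option autoImplicit false
set_option linter.unusedSectionVars false

open Matrix Kronecker RingTheory.Sequence IsLocalRing

namespace LicciCore

open LicciCx Cx Pool.Agent.Licci

universe u

namespace CoreData

variable {R : Type u} [CommRing R] [IsDomain R] [IsLocalRing R] {p : Fin 248 → R}
  {a : Fin 6 → R} {J : Type} [Fintype J] [DecidableEq J] (D : CoreData R p a J)

/-- `omk i j = ω(e_i, e_j)` over the residue field -/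
noncomputable def omk (S : Setup R p a) : Matrix J J (ResidueField R) :=
  fun i j => residue R (D.Om S j i)

/-- `D'(e_i, e_j) e_l = ∑ m, Dpk i j l m e_m` over the residue field -/
noncomputable def Dpk (S : Setup R p a) (i j l m : J) : ResidueField R :=
  residue R (D.Dp S m ((i, j), l))

/-- `D = -2 D' - ω` over the residue field -/
noncomputable def Dk (S : Setup R p a) (i j l m : J) : ResidueField R :=
  -(2 * D.Dpk S i j l m) - D.omk S i j * (if l = m then 1 else 0)

theorem d_map (i j : J) : residue R (D.X.d i j) = 0 :=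
  (residue_eq_zero_iff _).2 (D.min i j)

theorem X_d_map : D.X.d.map (residue R) = 0 := by
  ext i j
  exact D.d_map i j

theorem omk_deg (S : Setup R p a) (i j : J) (h : D.X.deg i + D.X.deg j ≠ 0) :
    D.omk S i j = 0 := by
  have h1 := (D.exists_Om S).choose_spec.1.hmg j i (by
    rw [dual_deg]; intro h2; apply h; omega)
  show residue R ((D.exists_Om S).choose j i) = 0
  rw [h1, map_zero]

theorem Dpk_deg (S : Setup R p a) (i j l m : J)
    (h : D.X.deg m ≠ D.X.deg i + D.X.deg j + D.X.deg l) : D.Dpk S i j l m = 0 := by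
  have h1 := (D.cl_Dp S).hmg m ((i, j), l) (by
    rw [tensor_deg, tensor_deg, add_zero]; exact h)
  rw [Dpk, h1, map_zero]

theorem Dk_deg (S : Setup R p a) (i j l m : J)
    (h : D.X.deg m ≠ D.X.deg i + D.X.deg j + D.X.deg l) : D.Dk S i j l m = 0 := by
  rw [Dk, D.Dpk_deg S i j l m h]
  by_cases hlm : l = m
  · subst hlm
    rw [D.omk_deg S i j (by intro h2; apply h; rw [h2, zero_add])]
    simp
  · simp [hlm]

end CoreData

end LicciCore
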