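import Pool.Agent.Work.MP_a98e4e_ag.Core.Braid
import Pool.Agent.Work.MP_a98e4e_ag.Core.SftsDefs
import Mathlib.RingTheory.LocalRing.ResidueField.Basic

/-!
# The identities of the super Freudenthal triple system as closed maps

`om : X ⊗ X → R` and `D : (X ⊗ X) ⊗ X → X` are closed of degree `0`.  The three maps `sf1`, `sf2`,
`sf3` express the symmetry, the cross relation and the invariance of the form; if they are
null-homotopic and `X` is minimal, the identities hold over the residue field.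
-/

set_option autoImplicit false
set_option linter.unusedSectionVars false

open Matrix Kronecker

namespace LicciCore

open LicciCx LicciCx.Cx

section units

variable {R : Type*} [CommRing R] {J J' A : Type*} [Fintype J] [Fintype J'] [Fintype A]
  [DecidableEq J] [DecidableEq J'] [DecidableEq A]

/-- the unit `R ⊗ K → K` -/
def lun (R : Type*) [CommRing R] (J : Type*) [DecidableEq J] : Matrix J (Unit × J) R :=
  fun m y => if m = y.2 then 1 else 0

/-- the unit `K ⊗ R → K` -/
def rn (R : Type*) [CommRing R] (J : Type*) [DecidableEq J] : Matrix J (J × Unit) R :=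
  fun m y => if m = y.1 then 1 else 0

theorem lun_mul (M : Matrix (Unit × J) A R) (j : J) (a : A) : (lun R J * M) j a = M ((), j) a := by
  rw [Matrix.mul_apply, Finset.sum_eq_single ((), j)]
  · simp [lun]
  · rintro ⟨⟨⟩, b⟩ _ hb
    have : j ≠ b := by rintro rfl; exact hb rfl
    simp [lun, this]
  · simp

theorem mul_lun (M : Matrix A J R) (a : A) (j : J) : (M * lun R J) a ((), j) = M a j := by
  rw [Matrix.mul_apply, Finset.sum_eq_single j]
  · simp [lun]
  · intro b _ hb
    simp [lun, hb]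
  · simp

theorem rn_mul (M : Matrix (J × Unit) A R) (j : J) (a : A) : (rn R J * M) j a = M (j, ()) a := by
  rw [Matrix.mul_apply, Finset.sum_eq_single (j, ())]
  · simp [rn]
  · rintro ⟨b, ⟨⟩⟩ _ hb
    have : j ≠ b := by rintro rfl; exact hb rfl
    simp [rn, this]
  · simp

theorem mul_rn (M : Matrix A J R) (a : A) (j : J) : (M * rn R J) a (j, ()) = M a j := by
  rw [Matrix.mul_apply, Finset.sum_eq_single j]
  · simp [rn]
  · intro b _ hb
    simp [rn, hb]
  · simp

theorem cl_lun (K : Cx R J) : Cl ((free R Unit 0).tensor K) K 0 (lun R J) := by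
  refine Cl.mk0 ?_ ?_
  · rintro m ⟨⟨⟩, j⟩ h
    have : m ≠ j := by
      rintro rfl
      apply h
      show K.deg m = 0 + K.deg m + 0
      ring
    simp [lun, this]
  · ext m ⟨⟨⟩, j⟩
    rw [mul_lun, lun_mul, tensor_d_apply]
    simp [sg_zero]

theorem cl_rn (K : Cx R J) : Cl (K.tensor (free R Unit 0)) K 0 (rn R J) := by
  refine Cl.mk0 ?_ ?_
  · rintro m ⟨j, ⟨⟩⟩ h
    have : m ≠ j := by
      rintro rfl
      apply h
      show K.deg m = K.deg m + 0 + 0
      ring
    simp [rn, this]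
  · ext m ⟨j, ⟨⟩⟩
    rw [mul_rn, rn_mul, tensor_d_apply]
    simp

theorem lun_vk (u : Unit → R) (x : J → R) : lun R J *ᵥ vk u x = u () • x := by
  ext j
  rw [Matrix.mulVec, dotProduct, Finset.sum_eq_single ((), j)]
  · simp [lun, vk, tv]
  · rintro ⟨⟨⟩, b⟩ _ hb
    have : j ≠ b := by rintro rfl; exact hb rfl
    simp [lun, this]
  · simp

theorem rn_vk (u : Unit → R) (x : J → R) : rn R J *ᵥ vk x u = u () • x := by
  ext j
  rw [Matrix.mulVec, dotProduct, Finset.sum_eq_single (j, ())]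
  · simp [rn, vk, tv, mul_comm]
  · rintro ⟨b, ⟨⟩⟩ _ hb
    have : j ≠ b := by rintro rfl; exact hb rfl
    simp [rn, this]
  · simp

end units

section maps

variable {R : Type*} [CommRing R] {J : Type*} [Fintype J] [DecidableEq J] (X : Cx R J)
  (om : Matrix Unit (J × J) R) (D : Matrix J ((J × J) × J) R)

/-- `D(x, y) z - D(y, x) z + ω(x, y) z` -/
def sf1 : Matrix J ((J × J) × J) R :=
  D - D * (sw X X ⊗ₖ (1 : Matrix J J R)) + lun R J * (om ⊗ₖ (1 : Matrix J J R))

/-- `D(x, y) z - D(x, z) y + ω(y, z) x` -/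
def sf2 : Matrix J ((J × J) × J) R :=
  D - D * asi R J J J * ((1 : Matrix J J R) ⊗ₖ sw X X) * asc R J J J +
    rn R J * ((1 : Matrix J J R) ⊗ₖ om) * asc R J J J

/-- `ω(D(x, y) z, w) + ω(z, D(x, y) w) + ω(x, y) ω(z, w)` -/
def sf3 : Matrix Unit (((J × J) × J) × J) R :=
  om * (D ⊗ₖ (1 : Matrix J J R)) +
    om * ((1 : Matrix J J R) ⊗ₖ D) * asc R J (J × J) J * (sw (X.tensor X) X ⊗ₖ (1 : Matrix J J R)) +
    om * ((lun R J * (om ⊗ₖ (1 : Matrix J J R))) ⊗ₖ (1 : Matrix J J R))

variable {X om D}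

theorem cl_sf1 (hom : Cl (X.tensor X) (free R Unit 0) 0 om)
    (hD : Cl ((X.tensor X).tensor X) X 0 D) : Cl ((X.tensor X).tensor X) X 0 (sf1 X om D) := by
  refine (hD.sub ?_).add ?_
  · exact (hD.mul ((cl_sw X X).kron Cl.one)).cast (by ring)
  · exact ((cl_lun X).mul (hom.kron Cl.one)).cast (by ring)

theorem cl_sf2 (hom : Cl (X.tensor X) (free R Unit 0) 0 om)
    (hD : Cl ((X.tensor X).tensor X) X 0 D) : Cl ((X.tensor X).tensor X) X 0 (sf2 X om D) := by
  refine (hD.sub ?_).add ?_
  · exact (((hD.mul (cl_asi X X X)).mul (Cl.one.kron (cl_sw X X))).mul (cl_asc X X X)).cast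
      (by ring)
  · exact (((cl_rn X).mul (Cl.one.kron hom)).mul (cl_asc X X X)).cast (by ring)

theorem cl_sf3 (hom : Cl (X.tensor X) (free R Unit 0) 0 om)
    (hD : Cl ((X.tensor X).tensor X) X 0 D) :
    Cl (((X.tensor X).tensor X).tensor X) (free R Unit 0) 0 (sf3 X om D) := by
  refine Cl.add (Cl.add ?_ ?_) ?_
  · exact (hom.mul (hD.kron Cl.one)).cast (by ring)
  · exact (((hom.mul (Cl.one.kron hD)).mul (cl_asc X (X.tensor X) X)).mul
      ((cl_sw (X.tensor X) X).kron Cl.one)).cast (by ring)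
  · exact (hom.mul ((((cl_lun X).mul (hom.kron Cl.one)).kron Cl.one))).cast (by ring)

/-! ### entries -/

theorem sf1_apply (m i j l : J) : sf1 X om D m ((i, j), l) = D m ((i, j), l) -
    ((sg (X.deg i * X.deg j) : ℤ) : R) * D m ((j, i), l) + om () (i, j) * (if l = m then 1 else 0) := by
  have h1 : (D * (sw X X ⊗ₖ (1 : Matrix J J R))) m ((i, j), l) =
      ((sg (X.deg i * X.deg j) : ℤ) : R) * D m ((j, i), l) := by
    rw [mul_kron_one]
    exact mul_sw X X (Matrix.of fun m x => D m (x, l)) m i j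
  have h2 : (lun R J * (om ⊗ₖ (1 : Matrix J J R))) m ((i, j), l) =
      om () (i, j) * (if l = m then 1 else 0) := by
    rw [lun_mul, Matrix.kroneckerMap_apply, Matrix.one_apply]
    simp only [eq_comm]
  rw [sf1, Matrix.add_apply, Matrix.sub_apply, h1, h2]

theorem sf2_apply (m i j l : J) : sf2 X om D m ((i, j), l) = D m ((i, j), l) -
    ((sg (X.deg j * X.deg l) : ℤ) : R) * D m ((i, l), j) + om () (j, l) * (if i = m then 1 else 0) := by
  have h1 : (D * asi R J J J * ((1 : Matrix J J R) ⊗ₖ sw X X) * asc R J J J) m ((i, j), l) =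
      ((sg (X.deg j * X.deg l) : ℤ) : R) * D m ((i, l), j) := by
    rw [mul_asc, mul_one_kron]
    rw [← mul_asi (M := D) (a := m) (i := i) (j := l) (l := j)]
    exact mul_sw X X (Matrix.of fun m x => (D * asi R J J J) m (i, x)) m j l
  have h2 : (rn R J * ((1 : Matrix J J R) ⊗ₖ om) * asc R J J J) m ((i, j), l) =
      om () (j, l) * (if i = m then 1 else 0) := by
    rw [mul_asc, rn_mul, Matrix.kroneckerMap_apply, Matrix.one_apply, mul_comm]
    simp only [eq_comm]
  rw [sf2, Matrix.add_apply, Matrix.sub_apply, h1, h2]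

theorem sf3_apply (i j l r : J) : sf3 X om D () (((i, j), l), r) =
    ∑ m, om () (m, r) * D m ((i, j), l) +
      ((sg ((X.deg i + X.deg j) * X.deg l) : ℤ) : R) * ∑ m, om () (l, m) * D m ((i, j), r) +
      om () (i, j) * om () (l, r) := by
  have h1 : (om * (D ⊗ₖ (1 : Matrix J J R))) () (((i, j), l), r) =
      ∑ m, om () (m, r) * D m ((i, j), l) := mul_kron_one _ _ _ _ _
  have h2 : (om * ((1 : Matrix J J R) ⊗ₖ D) * asc R J (J × J) J *
      (sw (X.tensor X) X ⊗ₖ (1 : Matrix J J R))) () (((i, j), l), r) =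
      ((sg ((X.deg i + X.deg j) * X.deg l) : ℤ) : R) * ∑ m, om () (l, m) * D m ((i, j), r) := by
    have h4 : (om * ((1 : Matrix J J R) ⊗ₖ D) * asc R J (J × J) J) () ((l, (i, j)), r) =
        ∑ m, om () (l, m) * D m ((i, j), r) := by
      rw [mul_asc, mul_one_kron]
    rw [mul_kron_one, ← h4]
    exact mul_sw (X.tensor X) X (Matrix.of fun m x => (om * ((1 : Matrix J J R) ⊗ₖ D) *
      asc R J (J × J) J) m (x, r)) () (i, j) l
  have h3 : (om * ((lun R J * (om ⊗ₖ (1 : Matrix J J R))) ⊗ₖ (1 : Matrix J J R))) ()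
      (((i, j), l), r) = om () (i, j) * om () (l, r) := by
    rw [mul_kron_one, Finset.sum_eq_single l]
    · rw [lun_mul, Matrix.kroneckerMap_apply, Matrix.one_apply_eq]; ring
    · intro b _ hb
      rw [lun_mul, Matrix.kroneckerMap_apply, Matrix.one_apply_ne hb, mul_zero, mul_zero]
    · simp
  rw [sf3, Matrix.add_apply, Matrix.add_apply, h1, h2, h3]

end maps

end LicciCore
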