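import Pool.Agent.Work.MP_a98e4e_ag.Core.DeliverOf
import Pool.Agent.Work.MP_a98e4e_ag.Core.U0
import Pool.Agent.Work.MP_a98e4e_ag.Core.U1
import Pool.Agent.Work.MP_a98e4e_ag.Core.UF
import Pool.Agent.Work.MP_a98e4e_ag.Core.Dim
import Pool.Agent.Work.MP_a98e4e_ag.Core.ReadX
import Pool.Agent.Work.MP_a98e4e_ag.Core.KeyApp
import Pool.Agent.Work.MP_a98e4e_ag.Core.Sfts

/-!
# The core theorem
-/

set_option autoImplicit false
set_option linter.unusedSectionVars false

open Matrix Kronecker RingTheory.Sequence IsLocalRing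

namespace LicciCore

open LicciCx Cx Pool.Agent.Licci

universe u

namespace CoreData

variable {R : Type u} [CommRing R] [IsDomain R] [IsLocalRing R] {p : Fin 248 → R}
  {a : Fin 6 → R} {J : Type} [Fintype J] [DecidableEq J] (D : CoreData R p a J)

/-- the closed fibre is super Freudenthal data -/
theorem sfts (S : Setup R p a) : Sfts D.X.deg (D.omk S) (D.Dk S) where
  deg_le := D.deg_le
  le_deg := D.le_deg
  om_deg := D.omk_deg S
  om_symm := D.omk_symm S
  om_unit := D.omk_unit S
  dim := D.dim_of_unit S (D.omk_unit S)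
  D_deg := D.Dk_deg S
  D_symm := D.Dk_symm S
  cross := D.Dk_cross S
  sp := D.Dk_sp S
  sq := D.Dk_sq S

/-- the key homotopy in the form used for the closed fibre -/
theorem key_bd' (S : Setup R p a) : Bd D.X2 (D.G S) 1
    (D.Dh S * ins J (fun j => (1 : R) * D.ph () j) * prX R J +
      inG R J * ((-1 : R) • ((prX R J)ᵀ * D.Om S * prX R J))) := by
  have h := D.key_bd S
  have e1 : (fun j => (1 : R) * D.ph () j) = D.phv := by
    ext j
    rw [one_mul]
    rfl
  have e2 : (-1 : R) • ((prX R J)ᵀ * D.Om S * prX R J) = D.tau S := by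
    rw [neg_smul, one_smul]
    rfl
  rw [e1, e2]
  exact h

theorem exists_seps (S : Setup R p a) (h : ∃ j, D.X.deg j = 1) :
    ∃ ε, SEps D.X.deg (D.Dk S) ε :=
  ⟨D.epsK S, D.sEps S isUnit_one isUnit_one.neg (D.key_bd' S) h⟩

theorem unit_of_deg (S : Setup R p a) (h : ∀ j, D.X.deg j = 0) : ∃ j, IsUnit (p j) :=
  D.exists_isUnit S isUnit_one isUnit_one.neg (D.key_bd' S) h

end CoreData

/-- **The core theorem.** -/
theorem core {R : Type u} [CommRing R] [IsDomain R] [IsRegularLocalRing R]
    {p : Fin 248 → R} {a : Fin 6 → R} {J : Type} [Fintype J] [DecidableEq J]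
    (S : Setup R p a) (D : CoreData R p a J) (ha : Ideal.span (Set.range a) = maximalIdeal R) :
    ∃ j, IsUnit (p j) := by
  have : CharZero (ResidueField R) := charZero_residue S.rat
  exact core_of S D ha (D.sfts S) (D.exists_seps S) (D.unit_of_deg S)
    (fun ε de he hd _ _ => sfts_false (D.sfts S) he hd)

end LicciCore
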