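import Pool.Agent.Work.MP_a98e4e_ag.Core.Sder

/-!
# Assembly of the core theorem
-/

set_option autoImplicit false
set_option linter.unusedSectionVars false

open Matrix Kronecker RingTheory.Sequence IsLocalRing

namespace LicciCore

open LicciCx Cx Pool.Agent.Licci

universe u

/-- if nothing has degree one, everything has degree zero -/
theorem deg_eq_zero {k : Type*} [Field k] {J : Type*} [Fintype J] [DecidableEq J] {deg : J → ℤ}
    {om : Matrix J J k} (h1 : ∀ j, deg j ≤ 1) (h2 : ∀ j, -1 ≤ deg j)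
    (h3 : ∀ i j, deg i + deg j ≠ 0 → om i j = 0) (h4 : IsUnit om.det)
    (h5 : ¬ ∃ j, deg j = 1) (j : J) : deg j = 0 := by
  by_contra hj
  have hj1 : deg j = -1 := by
    have e1 := h1 j
    have e2 := h2 j
    have e3 : deg j ≠ 1 := fun h => h5 ⟨j, h⟩
    omega
  have h0 : om.det = 0 := by
    refine Matrix.det_eq_zero_of_row_eq_zero j fun i => h3 j i ?_
    intro h
    exact h5 ⟨i, by omega⟩
  rw [h0] at h4
  exact not_isUnit_zero h4

theorem charZero_residue {R : Type*} [CommRing R] [IsLocalRing R] (h : Nonempty (Algebra ℚ R)) :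
    CharZero (ResidueField R) := by
  obtain ⟨alg⟩ := h
  letI : Algebra ℚ (ResidueField R) := ((residue R).comp (algebraMap ℚ R)).toAlgebra
  exact algebraRat.charZero _

/-- the core theorem from its parts -/
theorem core_of {R : Type u} [CommRing R] [IsDomain R] [IsRegularLocalRing R]
    {p : Fin 248 → R} {a : Fin 6 → R} {J : Type} [Fintype J] [DecidableEq J]
    (S : Setup R p a) (D : CoreData R p a J) (ha : Ideal.span (Set.range a) = maximalIdeal R)
    (hS : Sfts D.X.deg (D.omk S) (D.Dk S))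
    (he : (∃ j, D.X.deg j = 1) → ∃ ε, SEps D.X.deg (D.Dk S) ε)
    (hu : (∀ j, D.X.deg j = 0) → ∃ j, IsUnit (p j))
    (hf : ∀ (ε : J → ResidueField R) (de : Matrix J J (ResidueField R)),
      SEps D.X.deg (D.Dk S) ε → SDer D.X.deg (D.omk S) (D.Dk S) de →
      ∀ j, D.X.deg j = 1 → False) : ∃ j, IsUnit (p j) := by
  by_cases h : ∃ j, D.X.deg j = 1
  · obtain ⟨ε, he⟩ := he h
    obtain ⟨de, hd⟩ := D.exists_sder S ha h
    obtain ⟨j, hj⟩ := h
    exact (hf ε de he hd j hj).elim
  · exact hu (deg_eq_zero D.deg_le D.le_deg hS.om_deg hS.om_unit h)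

end LicciCore
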