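import Pool.Agent.Work.MP_a98e4e_ag.E.KForm
import Pool.Agent.Work.MP_a98e4e_ag.Core.KFacts

/-!
# The facts on `e_8` used in the core: the filtration of an extremal element

`R` a domain of characteristic zero, `p` an extremal element of `e_8 (R)`. The proofs pass to the
fraction field, where `Core/KFacts` applies.
-/

set_option autoImplicit false
set_option linter.unusedSectionVars false
set_option linter.unusedVariables false

namespace LicciCore

open Pool.Agent.Licci Matrix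

section ring

variable {R : Type*} [CommRing R]

/-- the line of `p` is saturated -/
def Sat (p : E8 R) : Prop := ∀ c : R, c ≠ 0 → ∀ (y : E8 R) (r : R), c • y = r • p →
  ∃ r' : R, y = r' • p

/-- the matrix of the invariant form -/
def kM (R : Type*) [CommRing R] : Matrix (Fin 248) (Fin 248) R := Matrix.of fun i j => (kc i j : R)

theorem kf_eq (x y : E8 R) : kf x y = x ⬝ᵥ (kM R *ᵥ y) := by
  rw [kf_def, dotProduct]
  refine Finset.sum_congr rfl fun i _ => ?_
  rw [mulVec, dotProduct, Finset.mul_sum]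
  refine Finset.sum_congr rfl fun j _ => ?_
  rw [kM, Matrix.of_apply]
  ring

theorem kf_comm (x y : E8 R) : kf x y = kf y x := kf_symm x y

theorem kM_symm : (kM R)ᵀ = kM R := by
  ext i j
  have h := kf_symm (eb i : E8 R) (eb j)
  rw [kf_eb_eb, kf_eb_eb] at h
  rw [transpose_apply, kM, Matrix.of_apply, Matrix.of_apply, h]

/-- the form is unimodular -/
theorem exists_kM_inv : ∃ kI : Matrix (Fin 248) (Fin 248) R, kM R * kI = 1 ∧ kI * kM R = 1 := by
  have h1 : (Matrix.of fun i j => (db i : E8 R) j) * kM R = 1 := by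
    ext i j
    have h := kf_db (A := R) i j
    rw [kf_eq] at h
    rw [Matrix.mul_apply, Matrix.one_apply, ← h, dotProduct]
    refine Finset.sum_congr rfl fun m _ => ?_
    rw [Matrix.of_apply, mulVec, dotProduct]
    simp [eb_apply]
  exact ⟨_, mul_eq_one_comm.1 h1, h1⟩

theorem kf_inv (x y z : E8 R) : kf (br x y) z = kf x (br y z) := Pool.Agent.Licci.kf_inv x y z

theorem F0_add {p x y : E8 R} (hx : x ∈ F0 p) (hy : y ∈ F0 p) : x + y ∈ F0 p := by
  intro i j
  rw [br_add_left, Pi.add_apply, Pi.add_apply, add_mul, add_mul, hx i j, hy i j]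

theorem F0_smul {p x : E8 R} (c : R) (hx : x ∈ F0 p) : c • x ∈ F0 p := by
  intro i j
  rw [br_smul_left, Pi.smul_apply, Pi.smul_apply, smul_eq_mul, smul_eq_mul, mul_assoc, mul_assoc,
    hx i j]

theorem F0_of_smul [IsDomain R] {p x : E8 R} {c : R} (hc : c ≠ 0) (hx : c • x ∈ F0 p) :
    x ∈ F0 p := by
  intro i j
  have h := hx i j
  rw [br_smul_left, Pi.smul_apply, Pi.smul_apply, smul_eq_mul, smul_eq_mul, mul_assoc,
    mul_assoc] at h
  exact mul_left_cancel₀ hc h

theorem F1_add {p x y : E8 R} (hx : x ∈ F1 p) (hy : y ∈ F1 p) : x + y ∈ F1 p := by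
  intro w hw
  rw [kf_add_left, hx w hw, hy w hw, add_zero]

theorem F1_smul {p x : E8 R} (c : R) (hx : x ∈ F1 p) : c • x ∈ F1 p := by
  intro w hw
  rw [kf_smul_left, hx w hw, mul_zero]

theorem F1_of_smul [IsDomain R] {p x : E8 R} {c : R} (hc : c ≠ 0) (hx : c • x ∈ F1 p) :
    x ∈ F1 p := by
  intro w hw
  have h := hx w hw
  rw [kf_smul_left] at h
  exact (mul_eq_zero.1 h).resolve_left hc

theorem F1_zero {p : E8 R} : (0 : E8 R) ∈ F1 p := fun w _ => kf_zero_left w

theorem mem_F0_of_eigen {p w : E8 R} {χ : R} (h : br w p = χ • p) : w ∈ F0 p := by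
  intro i j
  rw [h, Pi.smul_apply, Pi.smul_apply, smul_eq_mul, smul_eq_mul]
  ring

theorem F0_eigen {p : E8 R} (hs : Sat p) (hp0 : p ≠ 0) {w : E8 R} (hw : w ∈ F0 p) :
    ∃ χ : R, br w p = χ • p := by
  obtain ⟨j, hj⟩ : ∃ j, p j ≠ 0 := by
    by_contra h
    push Not at h
    exact hp0 (funext h)
  refine hs (p j) hj _ (br w p j) ?_
  funext i
  rw [Pi.smul_apply, Pi.smul_apply, smul_eq_mul, smul_eq_mul, mul_comm, hw i j]

end ring

section field

variable (K : Type*) [Field K] [CharZero K]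

/-- `e_8` over a field of characteristic zero as a bracket with form -/
def LK : KF.LieForm K (E8 K) where
  b := brL
  k := kfL
  skew x y := br_skew x y
  jac x y z := jacobi x y z
  symm x y := kf_symm x y
  inv x y z := Pool.Agent.Licci.kf_inv x y z
  nd x h := kf_ext' fun z => by
    have h1 : kf x z = 0 := h z
    rw [h1, kf_zero_left]
  two x h := (smul_eq_zero.1 h).resolve_left two_ne_zero

variable {K}

theorem LK_b (x y : E8 K) : (LK K).b x y = br x y := rfl

theorem LK_k (x y : E8 K) : (LK K).k x y = kf x y := rfl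

theorem exists_kf_ne {p : E8 K} (hp0 : p ≠ 0) : ∃ w : E8 K, kf p w ≠ 0 := by
  by_contra h
  push Not at h
  exact hp0 (kf_ext' fun z => by rw [h, kf_zero_left])

/-- pointed data over a field -/
theorem pt_field {p w : E8 K} (hc : Cone p) (hw : kf p w ≠ 0) : KF.Pt (LK K) p w where
  cone := hc
  reg y h := (smul_eq_zero.1 h).resolve_left hw
  regA c h := (mul_eq_zero.1 h).resolve_left hw
  sat y r h := by
    refine ⟨(kf p w)⁻¹ * r, ?_⟩
    have h1 : (kf p w) • y = r • p := h
    rw [mul_smul, ← h1, smul_smul, inv_mul_cancel₀ hw, one_smul]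

theorem mem_F0_field {p z : E8 K} (hp0 : p ≠ 0) : z ∈ (LK K).F0 p ↔ z ∈ F0 p := by
  constructor
  · rintro ⟨c, hc⟩
    exact mem_F0_of_eigen hc
  · intro h
    refine F0_eigen (fun c hc y r hy => ⟨c⁻¹ * r, ?_⟩) hp0 h
    rw [mul_smul, ← hy, smul_smul, inv_mul_cancel₀ hc, one_smul]

theorem mem_F1_field {p x : E8 K} (hp0 : p ≠ 0) : x ∈ (LK K).F1 p ↔ x ∈ F1 p := by
  constructor
  · intro h z hz
    exact h z ((mem_F0_field hp0).2 hz)
  · intro h z hz
    exact h z ((mem_F0_field hp0).1 hz)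

end field

section domain

variable {R : Type*} [CommRing R] [IsDomain R]

/-- base change to the fraction field -/
noncomputable abbrev fk (x : E8 R) : E8 (FractionRing R) := algebraMap R (FractionRing R) ∘ x

theorem fk_inj {x y : E8 R} (h : fk x = fk y) : x = y := by
  funext i
  exact IsFractionRing.injective R (FractionRing R) (congrFun h i)

theorem fk_br (x y : E8 R) : fk (br x y) = br (fk x) (fk y) := br_map _ x y

theorem fk_kf (x y : E8 R) : algebraMap R (FractionRing R) (kf x y) = kf (fk x) (fk y) :=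
  kf_map _ x y

theorem fk_smul (c : R) (x : E8 R) : fk (c • x) = algebraMap R (FractionRing R) c • fk x := by
  funext i
  simp

theorem fk_add (x y : E8 R) : fk (x + y) = fk x + fk y := by
  funext i
  simp

theorem fk_zero : fk (0 : E8 R) = 0 := by
  funext i
  simp

theorem fk_ne {p : E8 R} (hp0 : p ≠ 0) : fk p ≠ 0 := by
  intro h
  exact hp0 (fk_inj (h.trans fk_zero.symm))

theorem fk_cone {p : E8 R} (hc : Cone p) : Cone (fk p) := by
  intro y
  -- both sides are linear in `y`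
  have h : (brL (fk p)).comp (brL (fk p)) = (-(2 : FractionRing R)) •
      (LinearMap.smulRight (kfL (fk p)) (fk p)) := by
    refine E8.hom_ext fun i => ?_
    have h1 : (eb i : E8 (FractionRing R)) = fk (eb i : E8 R) := by
      funext j
      simp only [Function.comp_apply, eb_apply]
      split_ifs <;> simp
    have h2 := congrArg fk (hc (eb i))
    rw [fk_br, fk_br, fk_smul, map_neg, map_mul, fk_kf, map_ofNat] at h2
    rw [LinearMap.comp_apply, brL_apply, brL_apply, h1, h2]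
    rw [LinearMap.smul_apply, LinearMap.smulRight_apply, kfL_apply, smul_smul, neg_mul]
  have h1 := LinearMap.congr_fun h y
  rw [LinearMap.comp_apply, brL_apply, brL_apply, LinearMap.smul_apply,
    LinearMap.smulRight_apply, kfL_apply, smul_smul, neg_mul] at h1
  exact h1

theorem mem_F0_fk {p z : E8 R} : fk z ∈ F0 (fk p) ↔ z ∈ F0 p := by
  constructor
  · intro h i j
    have h1 := h i j
    rw [← fk_br] at h1
    simp only [Function.comp_apply, ← map_mul] at h1
    exact IsFractionRing.injective R (FractionRing R) h1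
  · intro h i j
    rw [← fk_br]
    simp only [Function.comp_apply, ← map_mul]
    rw [h i j]

/-- common denominators -/
theorem exists_den (z : E8 (FractionRing R)) : ∃ (c : R) (z' : E8 R), c ≠ 0 ∧
    algebraMap R (FractionRing R) c • z = fk z' := by
  obtain ⟨c, hc⟩ := IsLocalization.exist_integer_multiples_of_finite (nonZeroDivisors R) z
  choose z' hz' using hc
  refine ⟨c, z', nonZeroDivisors.ne_zero c.2, ?_⟩
  funext i
  change algebraMap R (FractionRing R) c * z i = algebraMap R (FractionRing R) (z' i)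
  rw [hz' i, Algebra.smul_def]

theorem mem_F1_fk {p x : E8 R} : fk x ∈ F1 (fk p) ↔ x ∈ F1 p := by
  constructor
  · intro h z hz
    have h1 := h _ (mem_F0_fk.2 hz)
    rw [← fk_kf] at h1
    exact IsFractionRing.injective R (FractionRing R) (h1.trans (map_zero _).symm)
  · intro h z hz
    obtain ⟨c, z', hc, hz'⟩ := exists_den z
    have h1 : fk z' ∈ F0 (fk p) := by
      rw [← hz']
      exact F0_smul _ hz
    have h2 := h _ (mem_F0_fk.1 h1)
    have h3 := congrArg (algebraMap R (FractionRing R)) h2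
    rw [fk_kf, ← hz', kf_smul_right, map_zero] at h3
    refine (mul_eq_zero.1 h3).resolve_left ?_
    intro h4
    exact hc (IsFractionRing.injective R (FractionRing R) (h4.trans (map_zero _).symm))

variable [CharZero R]

instance : CharZero (FractionRing R) :=
  charZero_of_injective_algebraMap (IsFractionRing.injective R (FractionRing R))

variable {p : E8 R}

theorem exists_pt (hc : Cone p) (hp0 : p ≠ 0) : ∃ w, KF.Pt (LK (FractionRing R)) (fk p) w := by
  obtain ⟨w, hw⟩ := exists_kf_ne (fk_ne hp0)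
  exact ⟨w, pt_field (fk_cone hc) hw⟩

theorem F0K (hp0 : p ≠ 0) {z : E8 R} :
    fk z ∈ (LK (FractionRing R)).F0 (fk p) ↔ z ∈ F0 p :=
  (mem_F0_field (fk_ne hp0)).trans mem_F0_fk

theorem F1K (hp0 : p ≠ 0) {z : E8 R} :
    fk z ∈ (LK (FractionRing R)).F1 (fk p) ↔ z ∈ F1 p :=
  (mem_F1_field (fk_ne hp0)).trans mem_F1_fk

theorem kfK {x y : E8 R} (h : kf (fk x) (fk y) = 0) : kf x y = 0 := by
  rw [← fk_kf] at h
  exact IsFractionRing.injective R (FractionRing R) (h.trans (map_zero _).symm)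

theorem kfK' {x y : E8 R} (h : kf x y = 0) : kf (fk x) (fk y) = 0 := by
  rw [← fk_kf, h, map_zero]

/-- a multiple of `p` over the fraction field is a multiple of `p` -/
theorem sat_fk (hs : Sat p) {y : E8 R} {c : FractionRing R} (h : fk y = c • fk p) :
    ∃ r : R, y = r • p := by
  obtain ⟨a, b, hb, rfl⟩ := IsFractionRing.div_surjective (A := R) c
  have hb0 : (b : R) ≠ 0 := nonZeroDivisors.ne_zero hb
  have hb1 : algebraMap R (FractionRing R) b ≠ 0 := by
    intro h4
    exact hb0 (IsFractionRing.injective R (FractionRing R) (h4.trans (map_zero _).symm))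
  refine hs b hb0 y a (fk_inj ?_)
  rw [fk_smul, fk_smul, h, smul_smul, mul_div_cancel₀ _ hb1]

theorem F0_perp (hc : Cone p) (hp0 : p ≠ 0) {w : E8 R} (hw : w ∈ F0 p) : kf p w = 0 := by
  obtain ⟨e, P⟩ := exists_pt hc hp0
  exact kfK (P.F0_le_Fm ((F0K hp0).2 hw))

theorem p_mem (hc : Cone p) : p ∈ F1 p := by
  by_cases hp0 : p = 0
  · rw [hp0]
    exact F1_zero
  obtain ⟨e, P⟩ := exists_pt hc hp0
  exact (F1K hp0).1 P.p_mem_F1

theorem F1_bot {x : E8 R} (hx : x ∈ F1 (0 : E8 R)) : x = 0 := by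
  refine kf_ext' fun z => ?_
  rw [kf_zero_left]
  refine hx z fun i j => ?_
  simp

theorem br_p_F1 (hc : Cone p) {x : E8 R} (hx : x ∈ F1 p) : br p x = 0 := by
  by_cases hp0 : p = 0
  · rw [hp0, br_zero_left]
  obtain ⟨e, P⟩ := exists_pt hc hp0
  refine fk_inj ?_
  rw [fk_br, fk_zero]
  exact P.p_F1 ((F1K hp0).2 hx)

theorem kf_p_F1 (hc : Cone p) {x : E8 R} (hx : x ∈ F1 p) : kf p x = 0 := by
  by_cases hp0 : p = 0
  · rw [hp0, kf_zero_left]
  obtain ⟨e, P⟩ := exists_pt hc hp0
  exact kfK (P.F0_le_Fm (P.F1_le_F0 ((F1K hp0).2 hx)))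

theorem F1_le_F0 (hc : Cone p) {x : E8 R} (hx : x ∈ F1 p) : x ∈ F0 p := by
  refine mem_F0_of_eigen (χ := 0) ?_
  rw [br_skew, br_p_F1 hc hx, neg_zero, zero_smul]

theorem kf_F1_F1 (hc : Cone p) {x y : E8 R} (hx : x ∈ F1 p) (hy : y ∈ F1 p) : kf x y = 0 :=
  hx _ (F1_le_F0 hc hy)

/-- over the fraction field, a linear condition on all elements of `F1` may be checked on the
elements with coefficients in `R` -/
theorem F1_clear {q : E8 (FractionRing R) → FractionRing R}
    (hq : ∀ (c : FractionRing R) z, q (c • z) = c * q z)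
    (h : ∀ x ∈ F1 p, q (fk x) = 0) : ∀ x ∈ F1 (fk p), q x = 0 := by
  intro x hx
  obtain ⟨c, x', hc, hx'⟩ := exists_den x
  have h1 : fk x' ∈ F1 (fk p) := by
    rw [← hx']
    exact F1_smul _ hx
  have h2 := h _ (mem_F1_fk.1 h1)
  rw [← hx', hq] at h2
  refine (mul_eq_zero.1 h2).resolve_left ?_
  intro h4
  exact hc (IsFractionRing.injective R (FractionRing R) (h4.trans (map_zero _).symm))

theorem F0_iff (hc : Cone p) (hp0 : p ≠ 0) {w : E8 R} : w ∈ F0 p ↔ ∀ x ∈ F1 p, kf w x = 0 := by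
  constructor
  · intro hw x hx
    rw [kf_symm]
    exact hx w hw
  · intro h
    obtain ⟨e, P⟩ := exists_pt hc hp0
    refine (F0K hp0).1 (P.mem_F0_of_orth fun x hx => ?_)
    exact F1_clear (p := p) (q := fun z => kf (fk w) z) (fun c z => kf_smul_right c _ z)
      (fun x hx => kfK' (h x hx)) x ((mem_F1_field (fk_ne hp0)).1 hx)

theorem br_F1_F1 (hc : Cone p) (hs : Sat p) (hp0 : p ≠ 0) {x y : E8 R} (hx : x ∈ F1 p)
    (hy : y ∈ F1 p) : ∃ c : R, br x y = c • p := by
  obtain ⟨e, P⟩ := exists_pt hc hp0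
  obtain ⟨c, h⟩ := P.F1_F1 ((F1K hp0).2 hx) ((F1K hp0).2 hy)
  exact sat_fk hs (c := c) (by rw [fk_br]; exact h)

theorem br_F0_F0 (hc : Cone p) (hp0 : p ≠ 0) {w x : E8 R} (hw : w ∈ F0 p) (hx : x ∈ F0 p) :
    br w x ∈ F0 p := by
  rw [← F0K hp0, fk_br]
  exact KF.LieForm.F0_mul ((F0K hp0).2 hw) ((F0K hp0).2 hx)

theorem br_F0_F1 (hc : Cone p) (hp0 : p ≠ 0) {w x : E8 R} (hw : w ∈ F0 p) (hx : x ∈ F1 p) :
    br w x ∈ F1 p := by
  rw [← F1K hp0, fk_br]
  exact KF.LieForm.F0_F1 ((F0K hp0).2 hw) ((F1K hp0).2 hx)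

theorem br_perp_F1 (hc : Cone p) (hp0 : p ≠ 0) {w x : E8 R} (hw : kf p w = 0) (hx : x ∈ F1 p) :
    br w x ∈ F0 p := by
  obtain ⟨e, P⟩ := exists_pt hc hp0
  rw [← F0K hp0, fk_br]
  exact P.Fm_F1 (kfK' hw) ((F1K hp0).2 hx)

/-- relation (1) -/
theorem br_perp_F1_p (hc : Cone p) (hp0 : p ≠ 0) {w x : E8 R} (hw : kf p w = 0)
    (hx : x ∈ F1 p) : br (br w x) p = (-(kf w x)) • p := by
  obtain ⟨e, P⟩ := exists_pt hc hp0
  refine fk_inj ?_
  rw [fk_br, fk_br, fk_smul, map_neg, fk_kf]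
  exact P.Fm_F1_p (kfK' hw) ((F1K hp0).2 hx)

theorem br_p_perp (hc : Cone p) (hp0 : p ≠ 0) {w : E8 R} (hw : kf p w = 0) : br p w ∈ F1 p := by
  obtain ⟨e, P⟩ := exists_pt hc hp0
  rw [← F1K hp0, fk_br]
  exact P.br_mem_F1 (kfK' hw)

theorem br_br_p (hc : Cone p) (hp0 : p ≠ 0) {w x : E8 R} (hw : kf p w = 0) (hx : x ∈ F1 p) :
    br (br p w) x = kf w x • p := by
  obtain ⟨e, P⟩ := exists_pt hc hp0
  refine fk_inj ?_
  rw [fk_br, fk_br, fk_smul, fk_kf]
  exact P.mix' ((F1K hp0).2 hx) (kfK' hw)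

theorem kf_p_br (hc : Cone p) {x : E8 R} (hx : x ∈ F1 p) (e : E8 R) : kf p (br e x) = 0 := by
  rw [kf_symm, kf_inv, br_skew x p, br_p_F1 hc hx, neg_zero, kf_zero_right]

/-- sharp form of `br_p_br` -/
theorem br_p_br_sharp (hc : Cone p) {x : E8 R} (hx : x ∈ F1 p) (e : E8 R) :
    br p (br e x) = kf p e • x + kf x e • p := by
  by_cases hp0 : p = 0
  · have hx0 : x = 0 := by
      rw [hp0] at hx
      exact F1_bot hx
    rw [hx0, hp0]
    simp
  obtain ⟨w, P⟩ := exists_pt hc hp0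
  refine fk_inj ?_
  rw [fk_br, fk_br, fk_add, fk_smul, fk_smul, fk_kf, fk_kf]
  exact P.lift_eq_sharp ((F1K hp0).2 hx) (fk e)

theorem br_p_br (hc : Cone p) (hs : Sat p) (hp0 : p ≠ 0) {x : E8 R} (hx : x ∈ F1 p) (e : E8 R) :
    ∃ c : R, br p (br e x) = kf p e • x + c • p := ⟨_, br_p_br_sharp hc hx e⟩

theorem br_e_br_p (hc : Cone p) (hp0 : p ≠ 0) {w : E8 R} (hw : kf p w = 0) (e : E8 R) :
    br e (br p w) - kf p e • w ∈ F0 p := by
  obtain ⟨e', P⟩ := exists_pt hc hp0
  obtain ⟨v, hv, h⟩ := P.lift_br' (fk e) (kfK' hw)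
  rw [← F0K hp0]
  have h1 : fk (br e (br p w) - kf p e • w) = v := by
    have h2 : fk (br e (br p w) - kf p e • w) = fk (br e (br p w)) - fk (kf p e • w) := by
      funext i
      simp
    rw [h2, fk_br, fk_br, fk_smul, fk_kf]
    have h3 : br (fk e) (br (fk p) (fk w)) = kf (fk p) (fk e) • fk w + v := h
    rw [h3, add_sub_cancel_left]
  rw [h1]
  exact hv

end domain

end LicciCore
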