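import Pool.Agent.Work.MP_a98e4e_ag.Core.EFacts
import Pool.Agent.Work.MP_a98e4e_ag.E.FactsA

/-!
# The facts on `e_8` used in the core

The filtration facts are in `Core/EFacts`.
-/

set_option autoImplicit false
set_option linter.unusedSectionVars false
set_option linter.unusedVariables false

namespace LicciCore

open Pool.Agent.Licci Matrix

variable {R : Type*} [CommRing R] [IsDomain R] [CharZero R] {p : E8 R}

/-- dual families -/
structure DualFam (p : E8 R) (x w : Fin 56 → E8 R) (c : R) : Prop where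
  ne : c ≠ 0
  x_mem : ∀ i, x i ∈ F1 p
  w_perp : ∀ i, kf p (w i) = 0
  pair : ∀ i j, kf (w i) (x j) = if i = j then c else 0
  span : ∀ y ∈ F1 p, ∃ r : R, c • y = ∑ i, kf (w i) y • x i + r • p

theorem exists_dualFam (hc : Cone p) (ht : ∃ q : Fin 8, p (ix q) ≠ 0) :
    ∃ (x w : Fin 56 → E8 R) (c : R), DualFam p x w c := by
  obtain ⟨q, hq⟩ := ht
  have hp0 : p ≠ 0 := fun h => hq (by rw [h]; rfl)
  obtain ⟨c, x, w, w0, h1, h2, h3, h4, h5⟩ := DimE.exists_dual_families hc hp0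
  exact ⟨x, w, c, h1, h2, h3, h4, fun y hy => ⟨_, h5 y hy⟩⟩

/-- the trace identity -/
theorem trace_id (hc : Cone p) (ht : ∃ q : Fin 8, p (ix q) ≠ 0) {x w : Fin 56 → E8 R} {c : R}
    (h : DualFam p x w c) {u v : E8 R} {χ χ' : R} (hu : br u p = χ • p) (hv : br v p = χ' • p) :
    ∑ i, kf (w i) (br v (br u (x i))) = c * (12 * kf u v + 8 * χ * χ') :=
  trace_identity hc ht h.x_mem h.w_perp h.span hu hv

/-- local projectors -/
theorem exists_proj (hc : Cone p) (hp0 : p ≠ 0) (w : E8 R) : ∃ Pi : Matrix (Fin 248) (Fin 248) R,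
    (∀ y, Pi *ᵥ y ∈ F1 p) ∧ ∀ x ∈ F1 p, Pi *ᵥ x = kf p w ^ 2 • x := by
  refine ⟨LinearMap.toMatrix' (DimE.pj p w), fun y => ?_, fun x hx => ?_⟩
  · rw [← Matrix.toLin'_apply, Matrix.toLin'_toMatrix']
    exact DimE.pj_mem_F1 hc hp0 w y
  · rw [← Matrix.toLin'_apply, Matrix.toLin'_toMatrix']
    exact DimE.pj_F1 hc w hx

end LicciCore
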