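import Pool.Agent.Work.MP_a98e4e_ag.Cx.UE
import Pool.Agent.Work.MP_a98e4e_ag.CF.Dvr

/-!
# The leading form of the differential of a complex over a regular local ring

`X` is a complex of finite free modules in degrees `≤ 1` over a regular local ring `R` of positive
dimension, contractible outside degree `0` up to a power of every element of the maximal ideal,
with a basis element of degree `1`.  Then there is a nonzero matrix `de` over the residue field,
homogeneous of degree `1` and of square zero, which satisfies every linear relation (with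
coefficients in `R`) that is satisfied by the differential of `X`.
-/

set_option autoImplicit false

open Matrix IsLocalRing LicciCodimFour

namespace LicciCx

universe u

/-- The leading form of a nonzero matrix over a regular local ring, along a DVR quotient. -/
theorem exists_lead_matrix {R : Type u} [CommRing R] [IsRegularLocalRing R] {V : Type u}
    [CommRing V] [IsDomain V] [IsDiscreteValuationRing V] (φ : R →+* V)
    (hφ : Function.Surjective φ) {J J' : Type*} [Fintype J] [Fintype J'] [DecidableEq J]
    [DecidableEq J'] (d : Matrix J' J R) (hne : ∃ i j, φ (d i j) ≠ 0) :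
    ∃ (t : V) (d' : Matrix J' J V) (ψ : V →+* ResidueField R), t ≠ 0 ∧
      ψ.comp φ = residue R ∧ (∀ i j, φ (d i j) = t * d' i j) ∧ d'.map ψ ≠ 0 := by
  classical
  obtain ⟨ψ, hψ⟩ := LicciCF.exists_factor φ hφ
  have hfin : ∀ s : Finset (J' × J), s.Nonempty →
      ∃ a ∈ s, ∀ b ∈ s, φ (d a.1 a.2) ∣ φ (d b.1 b.2) := by
    intro s hs
    induction hs using Finset.Nonempty.cons_induction with
    | singleton a =>
      exact ⟨a, Finset.mem_singleton_self a, fun b hb => by rw [Finset.mem_singleton.1 hb]⟩
    | cons a s ha hs ih =>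
      obtain ⟨c, hc, hcs⟩ := ih
      rcases ValuationRing.dvd_total (φ (d a.1 a.2)) (φ (d c.1 c.2)) with h1 | h1
      · refine ⟨a, Finset.mem_cons_self a s, fun b hb => ?_⟩
        rcases Finset.mem_cons.1 hb with rfl | hb
        · exact dvd_rfl
        · exact h1.trans (hcs b hb)
      · refine ⟨c, Finset.mem_cons_of_mem hc, fun b hb => ?_⟩
        rcases Finset.mem_cons.1 hb with rfl | hb
        · exact h1
        · exact hcs b hb
  obtain ⟨i₀, p₀, h₀⟩ := hne
  obtain ⟨⟨i, p⟩, -, hdvd⟩ := hfin Finset.univ ⟨(i₀, p₀), Finset.mem_univ _⟩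
  have hne : φ (d i p) ≠ 0 := fun h0 => h₀ (by
    have := hdvd (i₀, p₀) (Finset.mem_univ _)
    simp only [h0, zero_dvd_iff] at this
    exact this)
  have hall : ∀ j q, φ (d i p) ∣ φ (d j q) := fun j q => hdvd (j, q) (Finset.mem_univ _)
  choose d' hd' using hall
  refine ⟨φ (d i p), Matrix.of d', ψ, hne, hψ, fun i j => hd' i j, fun h0 => ?_⟩
  have h3 : d' i p = 1 := (mul_left_cancel₀ hne (by rw [mul_one]; exact hd' i p)).symm
  have h4 := congrFun (congrFun h0 i) p
  rw [Matrix.map_apply, Matrix.of_apply, h3, map_one, Matrix.zero_apply] at h4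
  exact one_ne_zero h4

namespace Cx

theorem exists_lead {R : Type u} [CommRing R] [IsRegularLocalRing R]
    (hdim : 0 < (maximalIdeal R).spanFinrank) {J : Type*} [Fintype J] [DecidableEq J]
    (X : Cx R J) (htop : ∀ j, X.deg j ≤ 1) (hone : ∃ j, X.deg j = 1)
    (hUE : ∀ y ∈ maximalIdeal R, UE X y) :
    ∃ de : Matrix J J (ResidueField R), Hmg X.deg X.deg 1 de ∧ de ≠ 0 ∧ de * de = 0 ∧
      ∀ c : Matrix J J R, ∑ i, ∑ j, c i j * X.d i j = 0 →
        ∑ i, ∑ j, residue R (c i j) * de i j = 0 := by
  classical
  obtain ⟨n, hn⟩ : ∃ n, (maximalIdeal R).spanFinrank = n + 1 :=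
    ⟨_, (Nat.succ_pred_eq_of_pos hdim).symm⟩
  obtain ⟨V, _, _, _, φ, hφ⟩ := LicciCF.exists_dvr_quotient n R hn
  -- the differential is nonzero over `V`
  have hne : ∃ i j, φ (X.d i j) ≠ 0 := by
    obtain ⟨t, ht⟩ := IsDiscreteValuationRing.exists_irreducible V
    obtain ⟨y, hy⟩ := hφ t
    have hym : y ∈ maximalIdeal R := by
      rw [mem_maximalIdeal]
      intro hu
      exact ht.not_isUnit (hy ▸ hu.map φ)
    obtain ⟨N, h, _, hsup⟩ := hUE y hym
    obtain ⟨j, hj⟩ := hone
    have h1 := hsup j j (by rintro ⟨h2, _⟩; omega)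
    have h2 : (h * X.d) j j = 0 := by
      rw [Matrix.mul_apply]
      refine Finset.sum_eq_zero fun l _ => ?_
      rw [X.hmg l j (by have := htop l; omega), mul_zero]
    rw [Matrix.sub_apply, Matrix.add_apply, h2, add_zero, Matrix.smul_apply, Matrix.one_apply_eq,
      smul_eq_mul, mul_one, Matrix.mul_apply] at h1
    by_contra hcon
    push Not at hcon
    have h3 := congrArg φ h1
    rw [map_sub, map_pow, hy, map_sum, map_zero] at h3
    rw [Finset.sum_eq_zero fun l _ => by rw [map_mul, hcon, zero_mul], sub_zero] at h3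
    exact pow_ne_zero N ht.ne_zero h3
  obtain ⟨t, d', ψ, ht, hψ, hd', hne'⟩ := exists_lead_matrix φ hφ X.d hne
  have hψ' : ∀ r, ψ (φ r) = residue R r := fun r => by rw [← hψ]; rfl
  refine ⟨d'.map ψ, ?_, hne', ?_, ?_⟩
  · intro i j hij
    have h1 := hd' i j
    rw [X.hmg i j hij, map_zero] at h1
    rw [Matrix.map_apply, (mul_eq_zero.1 h1.symm).resolve_left ht, map_zero]
  · have h1 : d' * d' = 0 := by
      ext i j
      have h2 := congrArg φ (congrFun (congrFun X.sq i) j)
      rw [Matrix.mul_apply, map_sum, Matrix.zero_apply, map_zero] at h2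
      have h3 : t * t * (d' * d') i j = 0 := by
        rw [← h2, Matrix.mul_apply, Finset.mul_sum]
        refine Finset.sum_congr rfl fun l _ => ?_
        rw [map_mul, hd', hd']; ring
      simpa [ht] using h3
    rw [← Matrix.map_mul, h1]
    exact Matrix.map_zero _ (map_zero ψ)
  · intro c hc
    have h1 := congrArg φ hc
    rw [map_sum, map_zero] at h1
    have h2 : t * ∑ i, ∑ j, φ (c i j) * d' i j = 0 := by
      rw [← h1, Finset.mul_sum]
      refine Finset.sum_congr rfl fun i _ => ?_
      rw [map_sum, Finset.mul_sum]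
      refine Finset.sum_congr rfl fun j _ => ?_
      rw [map_mul, hd']; ring
    have h3 := congrArg ψ ((mul_eq_zero.1 h2).resolve_left ht)
    rw [map_sum, map_zero] at h3
    rw [← h3]
    refine Finset.sum_congr rfl fun i _ => ?_
    rw [map_sum]
    refine Finset.sum_congr rfl fun j _ => ?_
    rw [map_mul, hψ', Matrix.map_apply]

end Cx

end LicciCx
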