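import Pool.Agent.Work.MP_a98e4e_ag.Core.Defs
import Pool.Agent.Work.MP_a98e4e_ag.Cx.Map

/-!
# Lifting and uniqueness of chain maps out of tensor products

`Z0 K`, `B0 K`: cycles and boundaries of degree zero.  A pair `(S, N)` of sets of vectors is a good
test pair for `K` at `a` (`Good K S N a`) if some contraction of `K` up to a power of `a` has its
projector with columns in the span of `S` and acts on `S` as this power of `a` modulo the span of
`N`.  `(Z0 K, B0 K)` is a good test pair (`Good.of_UE`), and good test pairs are stable under tensor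
products (`Good.tensor`).

`lf_uniq`: a closed map of degree zero which sends `S` to boundaries over the fraction field is a
boundary.  `lf_lift`: a linear map over the fraction field which sends `S` to cycles and `N` to
boundaries, and which is locally defined over `R`, is induced by a closed map over `R`.
-/

set_option autoImplicit false
set_option linter.unusedSectionVars false

open Matrix Kronecker RingTheory.Sequence

namespace LicciCx

namespace Cx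

section basics

variable {R : Type*} [CommRing R] {J J' J'' : Type*} [Fintype J] [Fintype J'] [Fintype J'']
  [DecidableEq J] [DecidableEq J'] [DecidableEq J'']

theorem lf_vh_iff {K : Cx R J} {n : ℤ} {v : J → R} :
    Vh K n v ↔ Pool.Agent.Licci.Supp K.deg n v := by
  constructor
  · intro h j hj
    by_contra h0
    exact hj (h j h0)
  · intro h j hj
    by_contra h0
    exact hj (h j h0)

theorem Vh.lf_zero {K : Cx R J} {n : ℤ} : Vh K n (0 : J → R) := fun _ _ => rfl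

theorem Vh.lf_add {K : Cx R J} {n : ℤ} {v w : J → R} (hv : Vh K n v) (hw : Vh K n w) :
    Vh K n (v + w) := by
  intro j hj; rw [Pi.add_apply, hv j hj, hw j hj, add_zero]

theorem Vh.lf_smul {K : Cx R J} {n : ℤ} {v : J → R} (c : R) (hv : Vh K n v) : Vh K n (c • v) := by
  intro j hj; rw [Pi.smul_apply, hv j hj, smul_zero]

theorem lf_mem_Z0 {K : Cx R J} {z : J → R} : z ∈ Z0 K ↔ Vh K 0 z ∧ K.d *ᵥ z = 0 := Iff.rfl

theorem lf_mem_B0 {K : Cx R J} {z : J → R} : z ∈ B0 K ↔ ∃ w, Vh K (-1) w ∧ K.d *ᵥ w = z := Iff.rfl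

theorem lf_mem_B0_of {K : Cx R J} {z w : J → R} (hz : Vh K 0 z) (h : K.d *ᵥ w = z) : z ∈ B0 K := by
  obtain ⟨w', h1, h2⟩ := Pool.Agent.Licci.exists_supp (deg := K.deg) (d := K.d) (n := 0)
    (fun i j hij => by
      by_contra h0
      exact hij (K.hmg i j h0)) (lf_vh_iff.1 hz) h.symm
  exact ⟨w', lf_vh_iff.2 (by rw [zero_sub] at h1; exact h1), h2.symm⟩

theorem lf_B0_le_Z0 (K : Cx R J) : B0 K ≤ Z0 K := by
  rintro x ⟨w, h1, rfl⟩
  refine ⟨?_, ?_⟩
  · have := Vh.mulVec (K := K) (L := K) (m := -1) K.hmg h1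
    rwa [show (-1 : ℤ) + 1 = 0 by norm_num] at this
  · rw [Matrix.mulVec_mulVec, K.sq, Matrix.zero_mulVec]

theorem Cl.lf_mulVec_Z0 {K : Cx R J} {L : Cx R J'} {f : Matrix J' J R} (hf : Cl K L 0 f)
    {z : J → R} (hz : z ∈ Z0 K) : f *ᵥ z ∈ Z0 L := by
  refine ⟨?_, ?_⟩
  · have := Vh.mulVec (m := 0) hf.hmg hz.1
    rwa [zero_add] at this
  · rw [Matrix.mulVec_mulVec, hf.comm0, ← Matrix.mulVec_mulVec, hz.2, Matrix.mulVec_zero]

theorem Cl.lf_mulVec_B0 {K : Cx R J} {L : Cx R J'} {f : Matrix J' J R} (hf : Cl K L 0 f)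
    {z : J → R} (hz : z ∈ B0 K) : f *ᵥ z ∈ B0 L := by
  obtain ⟨w, h1, rfl⟩ := hz
  refine ⟨f *ᵥ w, ?_, ?_⟩
  · have := Vh.mulVec (m := -1) hf.hmg h1
    rwa [add_zero] at this
  · rw [Matrix.mulVec_mulVec, hf.comm0, ← Matrix.mulVec_mulVec]

theorem Bd.lf_mulVec_B0 {K : Cx R J} {L : Cx R J'} {f : Matrix J' J R} (hf : Bd K L 0 f)
    {z : J → R} (hz : z ∈ Z0 K) : f *ᵥ z ∈ B0 L := by
  obtain ⟨s, hs, rfl⟩ := hf
  refine ⟨s *ᵥ z, ?_, ?_⟩
  · have := Vh.mulVec (m := 0) hs hz.1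
    rwa [zero_add, zero_sub] at this
  · rw [Matrix.add_mulVec, Matrix.smul_mulVec, ← Matrix.mulVec_mulVec, ← Matrix.mulVec_mulVec,
      hz.2, Matrix.mulVec_zero, smul_zero, add_zero]

section map

variable {S : Type*} [CommRing S] (φ : R →+* S)

theorem lf_comp_mulVec (f : Matrix J' J R) (v : J → R) :
    φ ∘ (f *ᵥ v) = f.map φ *ᵥ (φ ∘ v) := by
  funext j
  exact RingHom.map_mulVec φ f v j

theorem lf_comp_tv (x : J → R) (y : J' → R) : φ ∘ tv x y = tv (φ ∘ x) (φ ∘ y) := by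
  funext j
  simp [tv]

theorem lf_comp_add (x y : J → R) : φ ∘ (x + y) = φ ∘ x + φ ∘ y := by
  funext j; simp

theorem lf_comp_sub (x y : J → R) : φ ∘ (x - y) = φ ∘ x - φ ∘ y := by
  funext j; simp

theorem lf_comp_smul (c : R) (x : J → R) : φ ∘ (c • x) = φ c • (φ ∘ x) := by
  funext j; simp

theorem lf_comp_zero : φ ∘ (0 : J → R) = 0 := by
  funext j; simp

theorem lf_map_mem_Z0 {K : Cx R J} {z : J → R} (hz : z ∈ Z0 K) : φ ∘ z ∈ Z0 (K.map φ) := by
  refine ⟨fun j hj => ?_, ?_⟩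
  · show φ (z j) = 0
    rw [hz.1 j hj, map_zero]
  · rw [map_d, ← lf_comp_mulVec, hz.2]
    exact lf_comp_zero φ

theorem lf_map_mem_B0 {K : Cx R J} {z : J → R} (hz : z ∈ B0 K) : φ ∘ z ∈ B0 (K.map φ) := by
  obtain ⟨w, h1, rfl⟩ := hz
  refine ⟨φ ∘ w, fun j hj => ?_, ?_⟩
  · show φ (w j) = 0
    rw [h1 j hj, map_zero]
  · rw [map_d, ← lf_comp_mulVec]

end map

/-! ## contractions -/

theorem IsCon.lf_col_mem {K : Cx R J} {c : R} {h : Matrix J J R} (hh : IsCon K c h) (j : J) :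
    (fun i => K.pr c h i j) ∈ Z0 K := by
  refine ⟨fun i hi => hh.sup i j (fun h0 => hi h0.1), ?_⟩
  funext i
  have := congrFun (congrFun hh.d_pr i) j
  rw [Matrix.mul_apply] at this
  exact this

theorem IsCon.lf_sub_mem {K : Cx R J} {c : R} {h : Matrix J J R} (hh : IsCon K c h) {z : J → R}
    (hz : z ∈ Z0 K) : c • z - K.pr c h *ᵥ z ∈ B0 K := by
  refine ⟨h *ᵥ z, ?_, ?_⟩
  · have := Vh.mulVec (m := 0) hh.hmg hz.1
    rwa [zero_add] at this
  · rw [pr, Matrix.sub_mulVec, Matrix.smul_mulVec, Matrix.one_mulVec, Matrix.add_mulVec,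
      ← Matrix.mulVec_mulVec, ← Matrix.mulVec_mulVec, hz.2, Matrix.mulVec_zero, add_zero,
      sub_sub_cancel]

theorem IsCon.lf_pr_B0 {K : Cx R J} {c : R} {h : Matrix J J R} (hh : IsCon K c h) {z : J → R}
    (hz : z ∈ B0 K) : K.pr c h *ᵥ z = 0 := by
  obtain ⟨w, -, rfl⟩ := hz
  rw [Matrix.mulVec_mulVec, hh.pr_d, Matrix.zero_mulVec]

theorem IsCon.lf_map {S : Type*} [CommRing S] (φ : R →+* S) {K : Cx R J} {c : R}
    {h : Matrix J J R} (hh : IsCon K c h) : IsCon (K.map φ) (φ c) (h.map φ) := by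
  refine ⟨Hmg.map φ hh.hmg, ?_⟩
  intro i j hij
  have h1 := hh.sup i j hij
  have h2 : (φ c • (1 : Matrix J J S) - ((K.map φ).d * h.map φ + h.map φ * (K.map φ).d)) =
      (c • (1 : Matrix J J R) - (K.d * h + h * K.d)).map φ := by
    rw [map_sub', map_add', map_smul', one_map, map_d, Matrix.map_mul, Matrix.map_mul]
  rw [h2, Matrix.map_apply, h1, map_zero]

theorem lf_pr_map {S : Type*} [CommRing S] (φ : R →+* S) (K : Cx R J) (c : R)
    (h : Matrix J J R) : (K.pr c h).map φ = (K.map φ).pr (φ c) (h.map φ) := by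
  rw [pr, pr, map_sub', map_add', map_smul', one_map, map_d, Matrix.map_mul, Matrix.map_mul]

/-- the projector of the contraction of a tensor product -/
theorem lf_pr_tensor {K : Cx R J} {L : Cx R J'} {c c' : R} {h : Matrix J J R}
    {h' : Matrix J' J' R} (hh : IsCon K c h) :
    (K.tensor L).pr (c * c') (c' • (h ⊗ₖ (1 : Matrix J' J' R)) + K.pr c h ⊗ₖ h') =
      K.pr c h ⊗ₖ L.pr c' h' := by
  have hp : K.e * K.pr c h = K.pr c h := by
    ext i j
    simp only [ep, Matrix.diagonal_mul]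
    by_cases h0 : K.deg i = 0 ∧ K.deg j = 0
    · rw [h0.1, sg_zero]; simp
    · rw [show K.pr c h i j = 0 from hh.sup i j h0, mul_zero]
  have hp' : K.pr c h * K.e = K.pr c h := by
    ext i j
    simp only [ep, Matrix.mul_diagonal]
    by_cases h0 : K.deg i = 0 ∧ K.deg j = 0
    · rw [h0.2, sg_zero]; simp
    · rw [show K.pr c h i j = 0 from hh.sup i j h0, zero_mul]
  have heh : K.e * h = -(h * K.e) := ep_mul_odd' hh.hmg
  have h1 : K.d * h + h * K.d = c • (1 : Matrix J J R) - K.pr c h := by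
    rw [pr]; abel
  have h2 : L.d * h' + h' * L.d = c' • (1 : Matrix J' J' R) - L.pr c' h' := by
    rw [pr]; abel
  have e1 : (K.tensor L).d * (h ⊗ₖ (1 : Matrix J' J' R)) + (h ⊗ₖ (1 : Matrix J' J' R)) * (K.tensor L).d
      = (c • (1 : Matrix J J R) - K.pr c h) ⊗ₖ (1 : Matrix J' J' R) := by
    rw [tensor_d, Matrix.add_mul, Matrix.mul_add, ← Matrix.mul_kronecker_mul,
      ← Matrix.mul_kronecker_mul, ← Matrix.mul_kronecker_mul, ← Matrix.mul_kronecker_mul,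
      heh, ← h1, add_kron, neg_kron]
    simp only [Matrix.mul_one, Matrix.one_mul]
    abel
  have e2 : (K.tensor L).d * (K.pr c h ⊗ₖ h') + (K.pr c h ⊗ₖ h') * (K.tensor L).d
      = K.pr c h ⊗ₖ (c' • (1 : Matrix J' J' R) - L.pr c' h') := by
    rw [tensor_d, Matrix.add_mul, Matrix.mul_add, ← Matrix.mul_kronecker_mul,
      ← Matrix.mul_kronecker_mul, ← Matrix.mul_kronecker_mul, ← Matrix.mul_kronecker_mul,
      hh.d_pr, hh.pr_d, hp, hp', zero_kron, zero_kron, zero_add, zero_add, ← h2, kron_add]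
  have e3 : (K.tensor L).d * (c' • (h ⊗ₖ (1 : Matrix J' J' R)) + K.pr c h ⊗ₖ h') +
      (c' • (h ⊗ₖ (1 : Matrix J' J' R)) + K.pr c h ⊗ₖ h') * (K.tensor L).d =
      c' • ((K.tensor L).d * (h ⊗ₖ (1 : Matrix J' J' R)) + (h ⊗ₖ (1 : Matrix J' J' R)) * (K.tensor L).d)
      + ((K.tensor L).d * (K.pr c h ⊗ₖ h') + (K.pr c h ⊗ₖ h') * (K.tensor L).d) := by
    rw [Matrix.mul_add, Matrix.add_mul, Matrix.mul_smul, Matrix.smul_mul, smul_add]
    abel
  rw [pr, e3, e1, e2, sub_kron, kron_sub, smul_kron, kron_smul, Matrix.one_kronecker_one,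
    smul_sub, smul_smul, mul_comm c' c]
  abel

/-! ## good test pairs -/

/-- `(S, N)` is a good test pair for `K` at `a` -/
def Good (K : Cx R J) (S N : Set (J → R)) (a : R) : Prop :=
  ∃ (n : ℕ) (h : Matrix J J R), IsCon K (a ^ n) h ∧
    (∀ j, (fun i => K.pr (a ^ n) h i j) ∈ Submodule.span R S) ∧
    ∀ s ∈ S, a ^ n • s - K.pr (a ^ n) h *ᵥ s ∈ Submodule.span R N

theorem Good.of_UE {K : Cx R J} {a : R} (hK : UE K a) : Good K (Z0 K) (B0 K) a := by
  obtain ⟨n, h, hh⟩ := hK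
  exact ⟨n, h, hh, fun j => Submodule.subset_span (hh.lf_col_mem j),
    fun s hs => Submodule.subset_span (hh.lf_sub_mem hs)⟩

theorem lf_mulVec_mem_span {M : Matrix J' J R} {S : Set (J' → R)}
    (h : ∀ j, (fun i => M i j) ∈ Submodule.span R S) (v : J → R) :
    M *ᵥ v ∈ Submodule.span R S := by
  have h1 : M *ᵥ v = ∑ j, v j • (fun i => M i j) := by
    funext i
    rw [Finset.sum_apply]
    simp [Matrix.mulVec, dotProduct, mul_comm]
  rw [h1]
  exact Submodule.sum_mem _ fun j _ => Submodule.smul_mem _ _ (h j)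

theorem lf_tv_mem_span {S : Set (J → R)} {S' : Set (J' → R)} {x : J → R} {y : J' → R}
    (hx : x ∈ Submodule.span R S) (hy : y ∈ Submodule.span R S') :
    tv x y ∈ Submodule.span R (Set.image2 tv S S') := by
  induction hx using Submodule.span_induction with
  | mem x hx =>
    induction hy using Submodule.span_induction with
    | mem y hy => exact Submodule.subset_span ⟨x, hx, y, hy, rfl⟩
    | zero => rw [tv_zero]; exact Submodule.zero_mem _
    | add y z _ _ h1 h2 => rw [tv_add]; exact Submodule.add_mem _ h1 h2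
    | smul c y _ h1 => rw [tv_smul]; exact Submodule.smul_mem _ _ h1
  | zero => rw [zero_tv]; exact Submodule.zero_mem _
  | add y z _ _ h1 h2 => rw [add_tv]; exact Submodule.add_mem _ h1 h2
  | smul c y _ h1 => rw [smul_tv]; exact Submodule.smul_mem _ _ h1

theorem lf_tv_sub (x : J → R) (y z : J' → R) : tv x (y - z) = tv x y - tv x z := by
  ext i; simp [tv, mul_sub]

theorem lf_sub_tv (x y : J → R) (z : J' → R) : tv (x - y) z = tv x z - tv y z := by
  ext i; simp [tv, sub_mul]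

/-- good test pairs for tensor products -/
theorem Good.tensor {K : Cx R J} {L : Cx R J'} {S N : Set (J → R)} {S' N' : Set (J' → R)} {a : R}
    (hK : Good K S N a) (hL : Good L S' N' a) :
    Good (K.tensor L) (Set.image2 tv S S') (Set.image2 tv N S' ∪ Set.image2 tv S N') a := by
  obtain ⟨n, h, hh, h1, h2⟩ := hK
  obtain ⟨n', h', hh', h1', h2'⟩ := hL
  have h3 := hh.tensor hh'
  have hpr := lf_pr_tensor (K := K) (L := L) (c' := a ^ n') (h' := h') hh
  rw [← pow_add] at h3 hpr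
  refine ⟨n + n', _, h3, ?_, ?_⟩
  · rintro ⟨j, j'⟩
    rw [hpr]
    exact lf_tv_mem_span (h1 j) (h1' j')
  · rintro _ ⟨s, hs, s', hs', rfl⟩
    rw [hpr, kron_mulVec_tv]
    have e : a ^ (n + n') • tv s s' - tv (K.pr (a ^ n) h *ᵥ s) (L.pr (a ^ n') h' *ᵥ s') =
        tv (a ^ n • s - K.pr (a ^ n) h *ᵥ s) (a ^ n' • s') +
          tv (K.pr (a ^ n) h *ᵥ s) (a ^ n' • s' - L.pr (a ^ n') h' *ᵥ s') := by
      rw [lf_sub_tv, lf_tv_sub, pow_add, smul_tv, tv_smul, smul_smul]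
      abel
    rw [e]
    refine Submodule.add_mem _ ?_ ?_
    · refine Submodule.span_mono Set.subset_union_left (lf_tv_mem_span (h2 s hs) ?_)
      exact Submodule.smul_mem _ _ (Submodule.subset_span hs')
    · exact Submodule.span_mono Set.subset_union_right
        (lf_tv_mem_span (lf_mulVec_mem_span h1 s) (h2' s' hs'))

/-- a good test pair may be replaced by a pair with the same spans -/
theorem Good.mono {K : Cx R J} {S N S' N' : Set (J → R)} {a : R} (hK : Good K S N a)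
    (hS : S ⊆ S') (hS' : S' ⊆ Submodule.span R S) (hN : N ⊆ Submodule.span R N') :
    Good K S' N' a := by
  obtain ⟨n, h, hh, h1, h2⟩ := hK
  refine ⟨n, h, hh, fun j => Submodule.span_mono hS (h1 j), fun s hs => ?_⟩
  have hN' : Submodule.span R N ≤ Submodule.span R N' := Submodule.span_le.2 hN
  let ψ : (J → R) →ₗ[R] (J → R) := a ^ n • LinearMap.id - (K.pr (a ^ n) h).mulVecLin
  have h3 : Submodule.span R S ≤ (Submodule.span R N').comap ψ :=
    Submodule.span_le.2 fun x hx => hN' (h2 x hx)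
  exact h3 (hS' hs)

/-! ## uniqueness and lifting -/

/-- a homogeneous map which kills boundaries and whose columns are boundaries is a boundary -/
theorem Bd.lf_of_cols {K : Cx R J} {L : Cx R J'} {c : R} {h : Matrix J' J' R} (hh : IsCon L c h)
    {E : Matrix J' J R} (hE : IsHmg K L 0 E) (hEd : E * K.d = 0)
    (hc : ∀ j, L.d *ᵥ (fun i => E i j) = 0 ∧ L.pr c h *ᵥ (fun i => E i j) = 0) :
    Bd K L 0 (c • E) := by
  have h1 : L.d * E = 0 := by
    ext i j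
    have := congrFun (hc j).1 i
    exact this
  have h2 : L.pr c h * E = 0 := by
    ext i j
    have := congrFun (hc j).2 i
    exact this
  refine ⟨h * E, hh.hmg.mul' hE (by norm_num), ?_⟩
  rw [Matrix.mul_assoc h, hEd, Matrix.mul_zero, smul_zero, add_zero]
  rw [pr, Matrix.sub_mul, Matrix.smul_mul, Matrix.one_mul, Matrix.add_mul, Matrix.mul_assoc h,
    h1, Matrix.mul_zero, add_zero, sub_eq_zero] at h2
  rw [h2, Matrix.mul_assoc]

theorem IsCon.lf_mul_pr {K : Cx R J} {L : Cx R J'} {c : R} {h : Matrix J J R} (hh : IsCon K c h)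
    {f : Matrix J' J R} (hf : Cl K L 0 f) : Bd K L 0 (c • f - f * K.pr c h) := by
  refine ⟨f * h, hf.hmg.mul' hh.hmg (by norm_num), ?_⟩
  rw [pr, Matrix.mul_sub, Matrix.mul_smul, Matrix.mul_one, sub_sub_cancel, Matrix.mul_add,
    ← Matrix.mul_assoc, ← Matrix.mul_assoc, ← Matrix.mul_assoc, ← hf.comm0, sg_zero]
  simp

theorem IsCon.lf_mul_pr_cl {K : Cx R J} {L : Cx R J'} {c : R} {h : Matrix J J R}
    (hh : IsCon K c h) {M : Matrix J' J R} (hM : ∀ j, (fun i => (M * K.pr c h) i j) ∈ Z0 L) :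
    Cl K L 0 (M * K.pr c h) := by
  refine Cl.mk0 ?_ ?_
  · intro i j hij
    by_cases h0 : K.deg j = 0
    · exact (hM j).1 i (by rw [h0] at hij; simpa using hij)
    · rw [Matrix.mul_apply]
      refine Finset.sum_eq_zero fun k _ => ?_
      rw [show K.pr c h k j = 0 from hh.sup k j (fun h1 => h0 h1.2), mul_zero]
  · rw [Matrix.mul_assoc, hh.pr_d, Matrix.mul_zero]
    ext i j
    have := congrFun (hM j).2 i
    exact this

end basics

section main

universe u v w w'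

variable {R : Type u} [CommRing R] [IsDomain R] {F : Type v} [Field F] [Algebra R F]
  [IsFractionRing R F] {J : Type w} {J' : Type w'} [Fintype J] [Fintype J']
  [DecidableEq J] [DecidableEq J']


theorem lf_comp_inj {ι : Type*} {x y : ι → R} (h : (algebraMap R F) ∘ x = (algebraMap R F) ∘ y) : x = y := by
  funext i
  exact IsFractionRing.injective R F (congrFun h i)

/-- uniqueness -/
theorem lf_uniq {K : Cx R J} {L : Cx R J'} {S N : Set (J → R)} {l : ℕ} (a : Fin l → R)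
    (ha : IsWeaklyRegular R (List.ofFn a)) (b : ℕ)
    (hb : ∀ i j, -(b : ℤ) ≤ L.deg i - K.deg j) (hbl : b < l) (hK : ∀ i, Good K S N (a i))
    (hL : ∀ i, UE L (a i)) {f : Matrix J' J R} (hf : Cl K L 0 f)
    (hS : ∀ s ∈ S, (algebraMap R F) ∘ (f *ᵥ s) ∈ B0 (L.map (algebraMap R F))) : Bd K L 0 f := by
  have hKU : ∀ i, UE K (a i) := fun i => by
    obtain ⟨n, h, hh, -⟩ := hK i
    exact ⟨n, h, hh⟩
  obtain ⟨hv, -⟩ := cl_iff.1 hf
  obtain ⟨w, hw1, hw2⟩ := Pool.Agent.Licci.depth_zero (deg := (Hom K L).deg) (d := (Hom K L).d) a ha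
    (fun i j hij => by
      by_contra h0
      exact hij ((Hom K L).hmg i j h0)) (Hom K L).sq
    (fun i => (UE.iff_licci _ _).1 (UE.hom (hKU i) (hL i))) b
    (fun x => by rw [Hom_deg]; exact hb _ _) hbl (vec f) (lf_vh_iff.1 hv) (fun i => by
      obtain ⟨n, h, hh, h1, h2⟩ := hK i
      obtain ⟨n', h', hh'⟩ := hL i
      have hbd : Bd K L 0 (a i ^ n' • (f * K.pr (a i ^ n) h)) := by
        refine Bd.lf_of_cols hh' (hf.hmg.mul' hh.sup.hmg (by norm_num)) ?_ ?_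
        · rw [Matrix.mul_assoc, hh.pr_d, Matrix.mul_zero]
        · intro j
          have e : (fun i' => (f * K.pr (a i ^ n) h) i' j) =
              f *ᵥ (fun k => K.pr (a i ^ n) h k j) := rfl
          rw [e]
          have h3 : Submodule.span R S ≤ (((B0 (L.map (algebraMap R F))).restrictScalars R).comap
              ((LinearMap.compLeft (Algebra.linearMap R F) J') ∘ₗ f.mulVecLin)) :=
            Submodule.span_le.2 fun x hx => hS x hx
          have h4 : (algebraMap R F) ∘ (f *ᵥ (fun k => K.pr (a i ^ n) h k j)) ∈ B0 (L.map (algebraMap R F)) := h3 (h1 j)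
          refine ⟨?_, ?_⟩
          · apply lf_comp_inj (F := F)
            rw [lf_comp_mulVec, lf_comp_zero]
            exact (lf_B0_le_Z0 _ h4).2
          · apply lf_comp_inj (F := F)
            rw [lf_comp_mulVec, lf_comp_zero, lf_pr_map]
            exact (hh'.lf_map (algebraMap R F)).lf_pr_B0 h4
      have hbd2 : Bd K L 0 (a i ^ (n' + n) • f) := by
        have h3 := (hbd.add ((hh.lf_mul_pr hf).smul (a i ^ n')))
        rw [← smul_add, add_sub_cancel, smul_smul, ← pow_add] at h3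
        exact h3
      obtain ⟨v, -, hv⟩ := bd_iff.1 hbd2
      exact ⟨n' + n, v, hv.symm⟩)
  refine bd_iff.2 ⟨w, lf_vh_iff.2 ?_, hw2.symm⟩
  rw [zero_sub]
  exact hw1

/-- lifting -/
theorem lf_lift {K : Cx R J} {L : Cx R J'} {S N : Set (J → R)} {l : ℕ} (a : Fin l → R)
    (ha : IsWeaklyRegular R (List.ofFn a)) (b : ℕ)
    (hb : ∀ i j, -(b : ℤ) ≤ L.deg i - K.deg j) (hbl : b + 1 < l) (hK : ∀ i, Good K S N (a i))
    (hL : ∀ i, UE L (a i)) (hSZ : ∀ s ∈ S, s ∈ Z0 K) (M : Matrix J' J F)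
    (h1 : ∀ s ∈ S, M *ᵥ ((algebraMap R F) ∘ s) ∈ Z0 (L.map (algebraMap R F)))
    (h2 : ∀ i, ∃ n : ℕ, ∀ s ∈ S, ∃ t ∈ Z0 L, (algebraMap R F) (a i) ^ n • (M *ᵥ ((algebraMap R F) ∘ s)) - (algebraMap R F) ∘ t ∈ B0 (L.map (algebraMap R F)))
    (h3 : ∀ s ∈ N, M *ᵥ ((algebraMap R F) ∘ s) ∈ B0 (L.map (algebraMap R F))) :
    ∃ f : Matrix J' J R, Cl K L 0 f ∧ ∀ s ∈ S, (algebraMap R F) ∘ (f *ᵥ s) - M *ᵥ ((algebraMap R F) ∘ s) ∈ B0 (L.map (algebraMap R F)) := by
  have hl : 0 < l := by omega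
  have hφ : Function.Injective (algebraMap R F) := IsFractionRing.injective R F
  have ha0 : (algebraMap R F) (a ⟨0, hl⟩) ≠ 0 := by
    intro h
    have h1 : a ⟨0, hl⟩ = 0 := hφ (by rw [h, map_zero])
    obtain ⟨L', rfl⟩ : ∃ L', l = L' + 1 := ⟨l - 1, by omega⟩
    rw [List.ofFn_succ, isWeaklyRegular_cons_iff] at ha
    have h2 : IsSMulRegular R (a 0) := ha.1
    have h3 : a (0 : Fin (L' + 1)) = 0 := h1
    rw [h3] at h2
    have := h2 (show (0 : R) • (1 : R) = (0 : R) • (0 : R) by simp)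
    exact one_ne_zero this
  have hKU : ∀ i, UE K (a i) := fun i => by
    obtain ⟨n, h, hh, -⟩ := hK i
    exact ⟨n, h, hh⟩
  choose n h hh hcol hact using hK
  choose m hm using h2
  obtain ⟨n', h', hh'⟩ := hL ⟨0, hl⟩
  have hc' : (algebraMap R F) (a ⟨0, hl⟩ ^ n') ≠ 0 := by rw [map_pow]; exact pow_ne_zero _ ha0
  -- linear extensions of the hypotheses
  let ψ : (J → R) →ₗ[R] (J' → F) :=
    (M.mulVecLin.restrictScalars R) ∘ₗ (LinearMap.compLeft (Algebra.linearMap R F) J)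
  have hψ : ∀ x, ψ x = M *ᵥ ((algebraMap R F) ∘ x) := fun x => rfl
  have H1 : ∀ x ∈ Submodule.span R S, M *ᵥ ((algebraMap R F) ∘ x) ∈ Z0 (L.map (algebraMap R F)) := by
    have : Submodule.span R S ≤ ((Z0 (L.map (algebraMap R F))).restrictScalars R).comap ψ :=
      Submodule.span_le.2 fun x hx => h1 x hx
    exact fun x hx => this hx
  have H3 : ∀ x ∈ Submodule.span R N, M *ᵥ ((algebraMap R F) ∘ x) ∈ B0 (L.map (algebraMap R F)) := by
    have : Submodule.span R N ≤ ((B0 (L.map (algebraMap R F))).restrictScalars R).comap ψ :=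
      Submodule.span_le.2 fun x hx => h3 x hx
    exact fun x hx => this hx
  have H2 : ∀ i, ∀ x ∈ Submodule.span R S, ∃ t ∈ Z0 L,
      (algebraMap R F) (a i) ^ m i • (M *ᵥ ((algebraMap R F) ∘ x)) - (algebraMap R F) ∘ t ∈ B0 (L.map (algebraMap R F)) := by
    intro i x hx
    induction hx using Submodule.span_induction with
    | mem x hx => exact hm i x hx
    | zero =>
      refine ⟨0, Submodule.zero_mem _, ?_⟩
      rw [lf_comp_zero, lf_comp_zero, Matrix.mulVec_zero, smul_zero, sub_zero]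
      exact Submodule.zero_mem _
    | add x y _ _ hx hy =>
      obtain ⟨t, ht, ht'⟩ := hx
      obtain ⟨t', ht2, ht2'⟩ := hy
      refine ⟨t + t', Submodule.add_mem _ ht ht2, ?_⟩
      have := Submodule.add_mem _ ht' ht2'
      rw [lf_comp_add, lf_comp_add, Matrix.mulVec_add, smul_add]
      convert this using 1
      abel
    | smul c x _ hx =>
      obtain ⟨t, ht, ht'⟩ := hx
      refine ⟨c • t, Submodule.smul_mem _ _ ht, ?_⟩
      have := Submodule.smul_mem _ ((algebraMap R F) c) ht'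
      rw [lf_comp_smul, lf_comp_smul, Matrix.mulVec_smul, smul_comm, ← smul_sub]
      exact this
  -- the local lifts over the fraction field
  let π : Fin l → Matrix J J R := fun i => K.pr (a i ^ n i) (h i)
  let G : Fin l → Matrix J' J F := fun i => M * (π i).map (algebraMap R F)
  have hGcol : ∀ i j, (fun i' => G i i' j) = M *ᵥ ((algebraMap R F) ∘ fun k => π i k j) := fun i j => rfl
  have hG : ∀ i, Cl (K.map (algebraMap R F)) (L.map (algebraMap R F)) 0 (G i) := by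
    intro i
    have e : G i = M * (K.map (algebraMap R F)).pr ((algebraMap R F) (a i ^ n i)) ((h i).map (algebraMap R F)) := by
      rw [← lf_pr_map]
    rw [e]
    refine ((hh i).lf_map (algebraMap R F)).lf_mul_pr_cl fun j => ?_
    rw [← lf_pr_map]
    exact H1 _ (hcol i j)
  have hGd : ∀ i, G i * (K.map (algebraMap R F)).d = 0 := by
    intro i
    show M * (π i).map (algebraMap R F) * K.d.map (algebraMap R F) = 0
    rw [Matrix.mul_assoc, ← Matrix.map_mul, (hh i).pr_d]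
    simp
  -- boundaries over the fraction field
  have hC : ∀ E : Matrix J' J F, IsHmg (K.map (algebraMap R F)) (L.map (algebraMap R F)) 0 E → E * (K.map (algebraMap R F)).d = 0 →
      (∀ j, (fun i => E i j) ∈ B0 (L.map (algebraMap R F))) → Bd (K.map (algebraMap R F)) (L.map (algebraMap R F)) 0 E := by
    intro E hE hEd hEc
    have h4 := Bd.lf_of_cols (hh'.lf_map (algebraMap R F)) hE hEd (fun j =>
      ⟨(lf_B0_le_Z0 _ (hEc j)).2, (hh'.lf_map (algebraMap R F)).lf_pr_B0 (hEc j)⟩)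
    have h5 := h4.smul (((algebraMap R F) (a ⟨0, hl⟩ ^ n'))⁻¹)
    rwa [smul_smul, inv_mul_cancel₀ hc', one_smul] at h5
  have hpp : ∀ i, (π i).map (algebraMap R F) * (K.map (algebraMap R F)).d = 0 := by
    intro i
    show (π i).map (algebraMap R F) * K.d.map (algebraMap R F) = 0
    rw [← Matrix.map_mul, (hh i).pr_d]
    simp
  have hππ : ∀ i k, (π k).map (algebraMap R F) * (π i).map (algebraMap R F) = (algebraMap R F) (a i ^ n i) • (π k).map (algebraMap R F) -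
      (π k).map (algebraMap R F) * (h i).map (algebraMap R F) * (K.map (algebraMap R F)).d := by
    intro i k
    have e : (π i).map (algebraMap R F) = (algebraMap R F) (a i ^ n i) • 1 - ((K.map (algebraMap R F)).d * (h i).map (algebraMap R F) +
        (h i).map (algebraMap R F) * (K.map (algebraMap R F)).d) := lf_pr_map (algebraMap R F) _ _ _
    rw [e, Matrix.mul_sub, Matrix.mul_smul, Matrix.mul_one, Matrix.mul_add, ← Matrix.mul_assoc,
      hpp, Matrix.zero_mul, zero_add, Matrix.mul_assoc ((π k).map (algebraMap R F))]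
  -- `G k h d` is a boundary
  have hGh : ∀ i k, Bd (K.map (algebraMap R F)) (L.map (algebraMap R F)) 0 (G k * (h i).map (algebraMap R F) * (K.map (algebraMap R F)).d) := by
    intro i k
    refine ⟨G k * (h i).map (algebraMap R F), (hG k).hmg.mul' ((hh i).lf_map (algebraMap R F)).hmg (by norm_num), ?_⟩
    rw [← Matrix.mul_assoc, (hG k).comm0, hGd, Matrix.zero_mul, zero_add, sg_zero]
    simp
  have hA : ∀ i, Bd (K.map (algebraMap R F)) (L.map (algebraMap R F)) 0 ((algebraMap R F) (a ⟨0, hl⟩ ^ n ⟨0, hl⟩) • G i -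
      (algebraMap R F) (a i ^ n i) • G ⟨0, hl⟩) := by
    intro i
    have e : (algebraMap R F) (a ⟨0, hl⟩ ^ n ⟨0, hl⟩) • G i - (algebraMap R F) (a i ^ n i) • G ⟨0, hl⟩ =
        M * ((algebraMap R F) (a ⟨0, hl⟩ ^ n ⟨0, hl⟩) • (π i).map (algebraMap R F) - (π ⟨0, hl⟩).map (algebraMap R F) * (π i).map (algebraMap R F)) -
          G ⟨0, hl⟩ * (h i).map (algebraMap R F) * (K.map (algebraMap R F)).d := by
      have e2 : G ⟨0, hl⟩ * (h i).map (algebraMap R F) * (K.map (algebraMap R F)).d =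
          M * ((π ⟨0, hl⟩).map (algebraMap R F) * (h i).map (algebraMap R F) * (K.map (algebraMap R F)).d) := by
        show M * (π ⟨0, hl⟩).map (algebraMap R F) * (h i).map (algebraMap R F) * (K.map (algebraMap R F)).d = _
        simp only [Matrix.mul_assoc]
      rw [e2, hππ, ← Matrix.mul_sub]
      show (algebraMap R F) (a ⟨0, hl⟩ ^ n ⟨0, hl⟩) • (M * (π i).map (algebraMap R F)) - (algebraMap R F) (a i ^ n i) • (M * (π ⟨0, hl⟩).map (algebraMap R F)) = _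
      rw [← Matrix.mul_smul, ← Matrix.mul_smul, ← Matrix.mul_sub]
      congr 1
      abel
    rw [e]
    refine Bd.sub (hC _ ?_ ?_ ?_) (hGh i _)
    · have e3 : M * ((algebraMap R F) (a ⟨0, hl⟩ ^ n ⟨0, hl⟩) • (π i).map (algebraMap R F) - (π ⟨0, hl⟩).map (algebraMap R F) * (π i).map (algebraMap R F)) =
          (algebraMap R F) (a ⟨0, hl⟩ ^ n ⟨0, hl⟩) • G i - G ⟨0, hl⟩ * (π i).map (algebraMap R F) := by
        rw [Matrix.mul_sub, Matrix.mul_smul, Matrix.mul_assoc]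
      rw [e3]
      refine Hmg.sub (Hmg.smul _ (hG i).hmg) ?_
      exact (hG _).hmg.mul' (Hmg.map (algebraMap R F) (hh i).sup.hmg) (by norm_num)
    · rw [Matrix.mul_assoc, Matrix.sub_mul, Matrix.smul_mul, hpp, smul_zero, Matrix.mul_assoc, hpp,
        Matrix.mul_zero, sub_zero, Matrix.mul_zero]
    · intro j
      have h4 : Submodule.span R S ≤ (Submodule.span R N).comap
          (a ⟨0, hl⟩ ^ n ⟨0, hl⟩ • LinearMap.id - (π ⟨0, hl⟩).mulVecLin) :=
        Submodule.span_le.2 fun x hx => hact ⟨0, hl⟩ x hx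
      have h5 := H3 _ (h4 (hcol i j))
      convert h5 using 1
      have e4 : ((algebraMap R F) ∘ ((a ⟨0, hl⟩ ^ n ⟨0, hl⟩ • LinearMap.id - (π ⟨0, hl⟩).mulVecLin :
          (J → R) →ₗ[R] (J → R)) fun k => π i k j)) =
          fun k => ((algebraMap R F) (a ⟨0, hl⟩ ^ n ⟨0, hl⟩) • (π i).map (algebraMap R F) -
            (π ⟨0, hl⟩).map (algebraMap R F) * (π i).map (algebraMap R F)) k j := by
        show (algebraMap R F) ∘ (a ⟨0, hl⟩ ^ n ⟨0, hl⟩ • (fun k => π i k j) - (π ⟨0, hl⟩) *ᵥ (fun k => π i k j)) = _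
        rw [lf_comp_sub, lf_comp_smul, lf_comp_mulVec]
        rfl
      rw [e4]
      rfl
  have hB : ∀ i, ∃ T : Matrix J' J R, Bd (K.map (algebraMap R F)) (L.map (algebraMap R F)) 0
      ((algebraMap R F) (a i) ^ (m i + n i) • G i - T.map (algebraMap R F)) := by
    intro i
    choose t ht ht' using fun j => H2 i _ (hcol i j)
    let T0 : Matrix J' J R := Matrix.of fun i' j => t j i'
    have hT0 : ∀ j, (fun i' => T0 i' j) = t j := fun j => rfl
    refine ⟨T0 * π i, ?_⟩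
    have e : (algebraMap R F) (a i) ^ (m i + n i) • G i - (T0 * π i).map (algebraMap R F) =
        ((algebraMap R F) (a i) ^ m i • G i - T0.map (algebraMap R F)) * (π i).map (algebraMap R F) +
          (algebraMap R F) (a i) ^ m i • (G i * (h i).map (algebraMap R F) * (K.map (algebraMap R F)).d) := by
      have e2 : G i * (π i).map (algebraMap R F) = (algebraMap R F) (a i ^ n i) • G i - G i * (h i).map (algebraMap R F) * (K.map (algebraMap R F)).d := by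
        show M * (π i).map (algebraMap R F) * (π i).map (algebraMap R F) = (algebraMap R F) (a i ^ n i) • (M * (π i).map (algebraMap R F)) -
          M * (π i).map (algebraMap R F) * (h i).map (algebraMap R F) * (K.map (algebraMap R F)).d
        rw [Matrix.mul_assoc, hππ, Matrix.mul_sub, Matrix.mul_smul]
        simp only [Matrix.mul_assoc]
      rw [Matrix.sub_mul, Matrix.smul_mul, e2, smul_sub, smul_smul, Matrix.map_mul, map_pow,
        ← pow_add]
      abel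
    rw [e]
    refine Bd.add (hC _ ?_ ?_ ?_) ((hGh i i).smul _)
    · rw [Matrix.sub_mul]
      refine Hmg.sub ?_ ?_
      · rw [Matrix.smul_mul]
        exact Hmg.smul _ ((hG i).hmg.mul' (Hmg.map (algebraMap R F) (hh i).sup.hmg) (by norm_num))
      · rw [← Matrix.map_mul]
        refine Hmg.map (algebraMap R F) ?_
        intro i' j hij
        rw [Matrix.mul_apply]
        refine Finset.sum_eq_zero fun k _ => ?_
        by_cases h4 : K.deg k = 0 ∧ K.deg j = 0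
        · have h5 : L.deg i' ≠ 0 := by
            intro h6; apply hij; rw [map_deg, map_deg, h6, h4.2]; rfl
          rw [show T0 i' k = 0 from (ht k).1 i' h5, zero_mul]
        · rw [show π i k j = 0 from (hh i).sup k j h4, mul_zero]
    · rw [Matrix.mul_assoc, hpp, Matrix.mul_zero]
    · intro j
      refine Submodule.span_induction (p := fun x _ => x ∈ B0 (L.map (algebraMap R F)))
        (s := Set.range fun k => fun i' => ((algebraMap R F) (a i) ^ m i • G i - T0.map (algebraMap R F)) i' k) ?_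
        (Submodule.zero_mem _) (fun x y _ _ hx hy => Submodule.add_mem _ hx hy)
        (fun c x _ hx => Submodule.smul_mem _ c hx)
        (lf_mulVec_mem_span (R := F) (M := (algebraMap R F) (a i) ^ m i • G i - T0.map (algebraMap R F))
          (S := Set.range fun k => fun i' => ((algebraMap R F) (a i) ^ m i • G i - T0.map (algebraMap R F)) i' k)
          (fun k => Submodule.subset_span (Set.mem_range_self k)) (fun k => (π i).map (algebraMap R F) k j))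
      rintro _ ⟨k, rfl⟩
      exact ht' k
  choose T hT using hB
  -- the section over the fraction field
  have hA0 : (algebraMap R F) (a ⟨0, hl⟩ ^ n ⟨0, hl⟩) ≠ 0 := by rw [map_pow]; exact pow_ne_zero _ ha0
  let x : Matrix J' J F := ((algebraMap R F) (a ⟨0, hl⟩ ^ n ⟨0, hl⟩))⁻¹ • G ⟨0, hl⟩
  have hx : Cl (K.map (algebraMap R F)) (L.map (algebraMap R F)) 0 x := (hG _).smul _
  have hxT : ∀ i, Bd (K.map (algebraMap R F)) (L.map (algebraMap R F)) 0 ((algebraMap R F) (a i) ^ (m i + n i + n i) • x - (T i).map (algebraMap R F)) := by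
    intro i
    have h4 := (hT i).sub ((hA i).smul ((algebraMap R F) (a i) ^ (m i + n i) * ((algebraMap R F) (a ⟨0, hl⟩ ^ n ⟨0, hl⟩))⁻¹))
    convert h4 using 1
    show (algebraMap R F) (a i) ^ (m i + n i + n i) • (((algebraMap R F) (a ⟨0, hl⟩ ^ n ⟨0, hl⟩))⁻¹ • G ⟨0, hl⟩) - _ = _
    rw [smul_sub, smul_smul, smul_smul, smul_smul, mul_assoc, inv_mul_cancel₀ hA0, mul_one,
      pow_add _ (m i + n i), map_pow (algebraMap R F) (a i) (n i)]
    have e5 : (algebraMap R F) (a i) ^ (m i + n i) * (algebraMap R F) (a i) ^ n i * ((algebraMap R F) (a ⟨0, hl⟩ ^ n ⟨0, hl⟩))⁻¹ =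
      (algebraMap R F) (a i) ^ (m i + n i) * ((algebraMap R F) (a ⟨0, hl⟩ ^ n ⟨0, hl⟩))⁻¹ * (algebraMap R F) (a i) ^ n i := by ring
    rw [e5]
    abel
  obtain ⟨t, u, ht, hu, htu⟩ := Pool.Agent.Licci.depth_extend_frac (deg := (Hom K L).deg)
    (d := (Hom K L).d) a ha
    (fun i j hij => by
      by_contra h0
      exact hij ((Hom K L).hmg i j h0)) (Hom K L).sq
    (fun i => (UE.iff_licci _ _).1 (UE.hom (hKU i) (hL i))) b
    (fun x => by rw [Hom_deg]; exact hb _ _) hbl (K := F) (vec x) (lf_vh_iff (K := (Hom K L).map (algebraMap R F)).1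
      (by
        have := (cl_iff.1 hx).1
        rw [← map_Hom] at this
        exact this)) (fun i => by
      obtain ⟨v, hv, hv'⟩ := bd_iff.1 (hxT i)
      rw [← map_Hom] at hv'
      refine ⟨m i + n i + n i, vec (T i), v, ?_⟩
      rw [map_d] at hv'
      rw [hv']
      funext y
      simp [vec])
  have htx : Bd (K.map (algebraMap R F)) (L.map (algebraMap R F)) 0 (x - (Matrix.of fun i j => t (i, j)).map (algebraMap R F)) := by
    refine bd_iff.2 ⟨u, ?_, ?_⟩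
    · rw [← map_Hom]
      refine lf_vh_iff.2 ?_
      rw [zero_sub]
      exact hu
    · rw [← map_Hom, map_d]
      have : (Hom K L).d.map (algebraMap R F) *ᵥ u = vec x - (fun j => (algebraMap R F) (t j)) := by
        rw [htu]; abel
      rw [this]
      rfl
  refine ⟨Matrix.of fun i j => t (i, j), ?_, ?_⟩
  · refine Cl.of_map (algebraMap R F) hφ ?_
    have h4 := hx.sub htx.cl
    rw [sub_sub_cancel] at h4
    exact h4
  · intro s hs
    have h4 : (x - (Matrix.of fun i j => t (i, j)).map (algebraMap R F)) *ᵥ ((algebraMap R F) ∘ s) ∈ B0 (L.map (algebraMap R F)) :=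
      htx.lf_mulVec_B0 (lf_map_mem_Z0 (algebraMap R F) (hSZ s hs))
    have h5 := H3 _ (hact ⟨0, hl⟩ s hs)
    have h6 := Submodule.smul_mem _ (((algebraMap R F) (a ⟨0, hl⟩ ^ n ⟨0, hl⟩))⁻¹) h5
    have e6 : ((algebraMap R F) (a ⟨0, hl⟩ ^ n ⟨0, hl⟩))⁻¹ • (M *ᵥ ((algebraMap R F) ∘ (a ⟨0, hl⟩ ^ n ⟨0, hl⟩ • s -
        K.pr (a ⟨0, hl⟩ ^ n ⟨0, hl⟩) (h ⟨0, hl⟩) *ᵥ s))) = M *ᵥ ((algebraMap R F) ∘ s) - x *ᵥ ((algebraMap R F) ∘ s) := by
      rw [lf_comp_sub, lf_comp_smul, lf_comp_mulVec, Matrix.mulVec_sub, Matrix.mulVec_smul, smul_sub, smul_smul,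
        inv_mul_cancel₀ hA0, one_smul, Matrix.mulVec_mulVec]
      show _ = M *ᵥ ((algebraMap R F) ∘ s) - (((algebraMap R F) (a ⟨0, hl⟩ ^ n ⟨0, hl⟩))⁻¹ • (M * (π ⟨0, hl⟩).map (algebraMap R F))) *ᵥ ((algebraMap R F) ∘ s)
      rw [Matrix.smul_mulVec]
    rw [e6] at h6
    have h7 := Submodule.neg_mem _ (Submodule.add_mem _ h4 h6)
    convert h7 using 1
    rw [Matrix.sub_mulVec, ← lf_comp_mulVec (algebraMap R F) (Matrix.of fun i j => t (i, j))]
    abel

end main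

/-! ## user forms -/

section user

/-- the matrix of a bilinear map -/
def lf_mat2 {F : Type*} [Field F] {J₁ J₂ J' : Type*} [DecidableEq J₁] [DecidableEq J₂]
    (Φ : (J₁ → F) →ₗ[F] (J₂ → F) →ₗ[F] (J' → F)) : Matrix J' (J₁ × J₂) F :=
  Matrix.of fun i x => Φ (Pi.single x.1 1) (Pi.single x.2 1) i

/-- the matrix of a trilinear map -/
def lf_mat3 {F : Type*} [Field F] {J₁ J₂ J₃ J' : Type*} [DecidableEq J₁] [DecidableEq J₂]
    [DecidableEq J₃] (Φ : (J₁ → F) →ₗ[F] (J₂ → F) →ₗ[F] (J₃ → F) →ₗ[F] (J' → F)) :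
    Matrix J' ((J₁ × J₂) × J₃) F :=
  Matrix.of fun i x => Φ (Pi.single x.1.1 1) (Pi.single x.1.2 1) (Pi.single x.2 1) i

theorem lf_lin_eq_sum {F : Type*} [Field F] {J M : Type*} [Fintype J] [DecidableEq J]
    [AddCommMonoid M] [Module F M] (Φ : (J → F) →ₗ[F] M) (x : J → F) :
    Φ x = ∑ j, x j • Φ (Pi.single j 1) := by
  conv_lhs => rw [← Finset.univ_sum_single x]
  rw [map_sum]
  refine Finset.sum_congr rfl fun j _ => ?_
  rw [← map_smul, ← Pi.single_smul, smul_eq_mul, mul_one]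

theorem lf_mat2_tv {F : Type*} [Field F] {J₁ J₂ J' : Type*} [Fintype J₁] [Fintype J₂]
    [DecidableEq J₁] [DecidableEq J₂] (Φ : (J₁ → F) →ₗ[F] (J₂ → F) →ₗ[F] (J' → F))
    (x : J₁ → F) (y : J₂ → F) : lf_mat2 Φ *ᵥ tv x y = Φ x y := by
  funext i
  rw [lf_lin_eq_sum Φ x]
  simp only [LinearMap.sum_apply, LinearMap.smul_apply, Finset.sum_apply, Pi.smul_apply,
    smul_eq_mul]
  simp only [Matrix.mulVec, dotProduct, Fintype.sum_prod_type, lf_mat2, Matrix.of_apply, tv]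
  refine Finset.sum_congr rfl fun j _ => ?_
  rw [lf_lin_eq_sum (Φ (Pi.single j 1)) y]
  simp only [Finset.sum_apply, Pi.smul_apply, smul_eq_mul, Finset.mul_sum]
  exact Finset.sum_congr rfl fun k _ => by ring

theorem lf_mat3_tv {F : Type*} [Field F] {J₁ J₂ J₃ J' : Type*} [Fintype J₁] [Fintype J₂]
    [Fintype J₃] [DecidableEq J₁] [DecidableEq J₂] [DecidableEq J₃]
    (Φ : (J₁ → F) →ₗ[F] (J₂ → F) →ₗ[F] (J₃ → F) →ₗ[F] (J' → F))
    (x : J₁ → F) (y : J₂ → F) (z : J₃ → F) : lf_mat3 Φ *ᵥ tv (tv x y) z = Φ x y z := by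
  funext i
  have h1 : Φ x = ∑ j, x j • Φ (Pi.single j 1) := lf_lin_eq_sum Φ x
  rw [h1]
  simp only [LinearMap.sum_apply, LinearMap.smul_apply, Finset.sum_apply, Pi.smul_apply,
    smul_eq_mul]
  simp only [Matrix.mulVec, dotProduct, Fintype.sum_prod_type, lf_mat3, Matrix.of_apply, tv]
  refine Finset.sum_congr rfl fun j _ => ?_
  have h2 : Φ (Pi.single j 1) y = ∑ k, y k • Φ (Pi.single j 1) (Pi.single k 1) :=
    lf_lin_eq_sum (Φ (Pi.single j 1)) y
  rw [h2]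
  simp only [LinearMap.sum_apply, LinearMap.smul_apply, Finset.sum_apply, Pi.smul_apply,
    smul_eq_mul, Finset.mul_sum]
  refine Finset.sum_congr rfl fun k _ => ?_
  rw [lf_lin_eq_sum (Φ (Pi.single j 1) (Pi.single k 1)) z]
  simp only [Finset.sum_apply, Pi.smul_apply, smul_eq_mul, Finset.mul_sum]
  exact Finset.sum_congr rfl fun k _ => by ring

variable {R : Type*} [CommRing R] {F : Type*} [Field F] [Algebra R F]
  {J₁ J₂ J₃ J₄ J' : Type*} [Fintype J₁] [Fintype J₂] [Fintype J₃] [Fintype J₄] [Fintype J']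
  [DecidableEq J₁] [DecidableEq J₂] [DecidableEq J₃] [DecidableEq J₄] [DecidableEq J']
  {K₁ : Cx R J₁} {K₂ : Cx R J₂} {K₃ : Cx R J₃} {K₄ : Cx R J₄} {L : Cx R J'}

theorem lf_tv_mem_Z0 {x : J₁ → R} {y : J₂ → R} (hx : x ∈ Z0 K₁) (hy : y ∈ Z0 K₂) :
    tv x y ∈ Z0 (K₁.tensor K₂) := by
  refine ⟨?_, ?_⟩
  · have := Vh.tv hx.1 hy.1
    rwa [zero_add] at this
  · rw [tensor_d, Matrix.add_mulVec, kron_mulVec_tv, kron_mulVec_tv, hx.2, hy.2, zero_tv, tv_zero,
      add_zero]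

theorem lf_tv_mem_B0_left {x : J₁ → R} {y : J₂ → R} (hx : x ∈ B0 K₁) (hy : y ∈ Z0 K₂) :
    tv x y ∈ B0 (K₁.tensor K₂) := by
  obtain ⟨w, hw, rfl⟩ := hx
  refine ⟨tv w y, ?_, ?_⟩
  · have := Vh.tv hw hy.1
    rwa [add_zero] at this
  · rw [tensor_d, Matrix.add_mulVec, kron_mulVec_tv, kron_mulVec_tv, hy.2, tv_zero, add_zero,
      Matrix.one_mulVec]

theorem lf_e_mulVec_zero {K : Cx R J₁} {x : J₁ → R} (hx : Vh K 0 x) : K.e *ᵥ x = x := by
  funext j
  simp only [ep, Matrix.mulVec_diagonal]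
  by_cases h : K.deg j = 0
  · rw [h, sg_zero]; simp
  · rw [hx j h, mul_zero]

theorem lf_tv_mem_B0_right {x : J₁ → R} {y : J₂ → R} (hx : x ∈ Z0 K₁) (hy : y ∈ B0 K₂) :
    tv x y ∈ B0 (K₁.tensor K₂) := by
  obtain ⟨w, hw, rfl⟩ := hy
  refine ⟨tv x w, ?_, ?_⟩
  · have := Vh.tv hx.1 hw
    rwa [zero_add] at this
  · rw [tensor_d, Matrix.add_mulVec, kron_mulVec_tv, kron_mulVec_tv, hx.2, zero_tv, zero_add,
      lf_e_mulVec_zero hx.1]

theorem Good.tensor₂ {a : R} (h₁ : UE K₁ a) (h₂ : UE K₂ a) :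
    Good (K₁.tensor K₂) (Set.image2 tv (Z0 K₁) (Z0 K₂))
      (Set.image2 tv (B0 K₁) (Z0 K₂) ∪ Set.image2 tv (Z0 K₁) (B0 K₂)) a :=
  (Good.of_UE h₁).tensor (Good.of_UE h₂)

variable [IsDomain R] [IsFractionRing R F] {l : ℕ}


theorem lf_uniq₁ (a : Fin l → R) (ha : IsWeaklyRegular R (List.ofFn a)) (b : ℕ)
    (hb : ∀ i x, -(b : ℤ) ≤ L.deg i - K₁.deg x) (hbl : b < l) (h₁ : ∀ i, UE K₁ (a i))
    (hL : ∀ i, UE L (a i)) {f : Matrix J' J₁ R} (hf : Cl K₁ L 0 f)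
    (hS : ∀ x ∈ Z0 K₁, (algebraMap R F) ∘ (f *ᵥ x) ∈ B0 (L.map (algebraMap R F))) : Bd K₁ L 0 f :=
  lf_uniq a ha b hb hbl (fun i => Good.of_UE (h₁ i)) hL hf hS

theorem lf_uniq₂ (a : Fin l → R) (ha : IsWeaklyRegular R (List.ofFn a)) (b : ℕ)
    (hb : ∀ i x y, -(b : ℤ) ≤ L.deg i - (K₁.deg x + K₂.deg y)) (hbl : b < l)
    (h₁ : ∀ i, UE K₁ (a i)) (h₂ : ∀ i, UE K₂ (a i)) (hL : ∀ i, UE L (a i))
    {f : Matrix J' (J₁ × J₂) R} (hf : Cl (K₁.tensor K₂) L 0 f)
    (hS : ∀ x ∈ Z0 K₁, ∀ y ∈ Z0 K₂, (algebraMap R F) ∘ (f *ᵥ tv x y) ∈ B0 (L.map (algebraMap R F))) :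
    Bd (K₁.tensor K₂) L 0 f := by
  refine lf_uniq (F := F) a ha b (fun i j => hb i j.1 j.2) hbl
    (fun i => Good.tensor₂ (h₁ i) (h₂ i)) hL hf ?_
  rintro _ ⟨x, hx, y, hy, rfl⟩
  exact hS x hx y hy

theorem lf_uniq₃ (a : Fin l → R) (ha : IsWeaklyRegular R (List.ofFn a)) (b : ℕ)
    (hb : ∀ i x y z, -(b : ℤ) ≤ L.deg i - (K₁.deg x + K₂.deg y + K₃.deg z)) (hbl : b < l)
    (h₁ : ∀ i, UE K₁ (a i)) (h₂ : ∀ i, UE K₂ (a i)) (h₃ : ∀ i, UE K₃ (a i))
    (hL : ∀ i, UE L (a i)) {f : Matrix J' ((J₁ × J₂) × J₃) R}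
    (hf : Cl ((K₁.tensor K₂).tensor K₃) L 0 f)
    (hS : ∀ x ∈ Z0 K₁, ∀ y ∈ Z0 K₂, ∀ z ∈ Z0 K₃, (algebraMap R F) ∘ (f *ᵥ tv (tv x y) z) ∈ B0 (L.map (algebraMap R F))) :
    Bd ((K₁.tensor K₂).tensor K₃) L 0 f := by
  refine lf_uniq (F := F) a ha b (fun i j => hb i j.1.1 j.1.2 j.2) hbl
    (fun i => (Good.tensor₂ (h₁ i) (h₂ i)).tensor (Good.of_UE (h₃ i))) hL hf ?_
  rintro _ ⟨_, ⟨x, hx, y, hy, rfl⟩, z, hz, rfl⟩
  exact hS x hx y hy z hz

theorem lf_uniq₄ (a : Fin l → R) (ha : IsWeaklyRegular R (List.ofFn a)) (b : ℕ)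
    (hb : ∀ i x y z w, -(b : ℤ) ≤ L.deg i - (K₁.deg x + K₂.deg y + K₃.deg z + K₄.deg w))
    (hbl : b < l) (h₁ : ∀ i, UE K₁ (a i)) (h₂ : ∀ i, UE K₂ (a i)) (h₃ : ∀ i, UE K₃ (a i))
    (h₄ : ∀ i, UE K₄ (a i)) (hL : ∀ i, UE L (a i)) {f : Matrix J' (((J₁ × J₂) × J₃) × J₄) R}
    (hf : Cl (((K₁.tensor K₂).tensor K₃).tensor K₄) L 0 f)
    (hS : ∀ x ∈ Z0 K₁, ∀ y ∈ Z0 K₂, ∀ z ∈ Z0 K₃, ∀ w ∈ Z0 K₄,
      (algebraMap R F) ∘ (f *ᵥ tv (tv (tv x y) z) w) ∈ B0 (L.map (algebraMap R F))) :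
    Bd (((K₁.tensor K₂).tensor K₃).tensor K₄) L 0 f := by
  refine lf_uniq (F := F) a ha b (fun i j => hb i j.1.1.1 j.1.1.2 j.1.2 j.2) hbl
    (fun i => ((Good.tensor₂ (h₁ i) (h₂ i)).tensor (Good.of_UE (h₃ i))).tensor
      (Good.of_UE (h₄ i))) hL hf ?_
  rintro _ ⟨_, ⟨_, ⟨x, hx, y, hy, rfl⟩, z, hz, rfl⟩, w, hw, rfl⟩
  exact hS x hx y hy z hz w hw

theorem lf_lift₁ (a : Fin l → R) (ha : IsWeaklyRegular R (List.ofFn a)) (b : ℕ)
    (hb : ∀ i x, -(b : ℤ) ≤ L.deg i - K₁.deg x) (hbl : b + 1 < l) (h₁ : ∀ i, UE K₁ (a i))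
    (hL : ∀ i, UE L (a i)) (Φ : (J₁ → F) →ₗ[F] (J' → F))
    (hZ : ∀ x ∈ Z0 K₁, Φ ((algebraMap R F) ∘ x) ∈ Z0 (L.map (algebraMap R F)))
    (hN : ∀ i, ∃ n : ℕ, ∀ x ∈ Z0 K₁, ∃ t ∈ Z0 L,
      (algebraMap R F) (a i) ^ n • Φ ((algebraMap R F) ∘ x) - (algebraMap R F) ∘ t ∈ B0 (L.map (algebraMap R F)))
    (hB : ∀ x ∈ B0 K₁, Φ ((algebraMap R F) ∘ x) ∈ B0 (L.map (algebraMap R F))) :
    ∃ f : Matrix J' J₁ R, Cl K₁ L 0 f ∧
      ∀ x ∈ Z0 K₁, (algebraMap R F) ∘ (f *ᵥ x) - Φ ((algebraMap R F) ∘ x) ∈ B0 (L.map (algebraMap R F)) := by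
  have e : ∀ x, LinearMap.toMatrix' Φ *ᵥ x = Φ x := fun x => LinearMap.toMatrix'_mulVec Φ x
  obtain ⟨f, hf, h⟩ := lf_lift a ha b hb hbl (fun i => Good.of_UE (h₁ i)) hL (fun s hs => hs)
    (LinearMap.toMatrix' Φ) (fun s hs => by rw [e]; exact hZ s hs)
    (fun i => by
      obtain ⟨n, hn⟩ := hN i
      exact ⟨n, fun s hs => by rw [e]; exact hn s hs⟩)
    (fun s hs => by rw [e]; exact hB s hs)
  exact ⟨f, hf, fun x hx => by have := h x hx; rwa [e] at this⟩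

theorem lf_lift₂ (a : Fin l → R) (ha : IsWeaklyRegular R (List.ofFn a)) (b : ℕ)
    (hb : ∀ i x y, -(b : ℤ) ≤ L.deg i - (K₁.deg x + K₂.deg y)) (hbl : b + 1 < l)
    (h₁ : ∀ i, UE K₁ (a i)) (h₂ : ∀ i, UE K₂ (a i)) (hL : ∀ i, UE L (a i))
    (Φ : (J₁ → F) →ₗ[F] (J₂ → F) →ₗ[F] (J' → F))
    (hZ : ∀ x ∈ Z0 K₁, ∀ y ∈ Z0 K₂, Φ ((algebraMap R F) ∘ x) ((algebraMap R F) ∘ y) ∈ Z0 (L.map (algebraMap R F)))
    (hN : ∀ i, ∃ n : ℕ, ∀ x ∈ Z0 K₁, ∀ y ∈ Z0 K₂, ∃ t ∈ Z0 L,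
      (algebraMap R F) (a i) ^ n • Φ ((algebraMap R F) ∘ x) ((algebraMap R F) ∘ y) - (algebraMap R F) ∘ t ∈ B0 (L.map (algebraMap R F)))
    (hB₁ : ∀ x ∈ B0 K₁, ∀ y ∈ Z0 K₂, Φ ((algebraMap R F) ∘ x) ((algebraMap R F) ∘ y) ∈ B0 (L.map (algebraMap R F)))
    (hB₂ : ∀ x ∈ Z0 K₁, ∀ y ∈ B0 K₂, Φ ((algebraMap R F) ∘ x) ((algebraMap R F) ∘ y) ∈ B0 (L.map (algebraMap R F))) :
    ∃ f : Matrix J' (J₁ × J₂) R, Cl (K₁.tensor K₂) L 0 f ∧
      ∀ x ∈ Z0 K₁, ∀ y ∈ Z0 K₂,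
        (algebraMap R F) ∘ (f *ᵥ tv x y) - Φ ((algebraMap R F) ∘ x) ((algebraMap R F) ∘ y) ∈ B0 (L.map (algebraMap R F)) := by
  have e : ∀ x y, lf_mat2 Φ *ᵥ ((algebraMap R F) ∘ tv x y) = Φ ((algebraMap R F) ∘ x) ((algebraMap R F) ∘ y) := fun x y => by
    rw [lf_comp_tv, lf_mat2_tv]
  obtain ⟨f, hf, h⟩ := lf_lift a ha b (fun i j => hb i j.1 j.2) hbl
    (fun i => Good.tensor₂ (h₁ i) (h₂ i)) hL
    (by
      rintro _ ⟨x, hx, y, hy, rfl⟩
      exact lf_tv_mem_Z0 hx hy)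
    (lf_mat2 Φ)
    (by
      rintro _ ⟨x, hx, y, hy, rfl⟩
      rw [e]; exact hZ x hx y hy)
    (fun i => by
      obtain ⟨n, hn⟩ := hN i
      refine ⟨n, ?_⟩
      rintro _ ⟨x, hx, y, hy, rfl⟩
      rw [e]; exact hn x hx y hy)
    (by
      rintro _ (⟨x, hx, y, hy, rfl⟩ | ⟨x, hx, y, hy, rfl⟩)
      · rw [e]; exact hB₁ x hx y hy
      · rw [e]; exact hB₂ x hx y hy)
  exact ⟨f, hf, fun x hx y hy => by
    have := h _ ⟨x, hx, y, hy, rfl⟩
    rwa [e] at this⟩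

theorem lf_lift₃ (a : Fin l → R) (ha : IsWeaklyRegular R (List.ofFn a)) (b : ℕ)
    (hb : ∀ i x y z, -(b : ℤ) ≤ L.deg i - (K₁.deg x + K₂.deg y + K₃.deg z)) (hbl : b + 1 < l)
    (h₁ : ∀ i, UE K₁ (a i)) (h₂ : ∀ i, UE K₂ (a i)) (h₃ : ∀ i, UE K₃ (a i))
    (hL : ∀ i, UE L (a i)) (Φ : (J₁ → F) →ₗ[F] (J₂ → F) →ₗ[F] (J₃ → F) →ₗ[F] (J' → F))
    (hZ : ∀ x ∈ Z0 K₁, ∀ y ∈ Z0 K₂, ∀ z ∈ Z0 K₃, Φ ((algebraMap R F) ∘ x) ((algebraMap R F) ∘ y) ((algebraMap R F) ∘ z) ∈ Z0 (L.map (algebraMap R F)))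
    (hN : ∀ i, ∃ n : ℕ, ∀ x ∈ Z0 K₁, ∀ y ∈ Z0 K₂, ∀ z ∈ Z0 K₃, ∃ t ∈ Z0 L,
      (algebraMap R F) (a i) ^ n • Φ ((algebraMap R F) ∘ x) ((algebraMap R F) ∘ y) ((algebraMap R F) ∘ z) - (algebraMap R F) ∘ t ∈ B0 (L.map (algebraMap R F)))
    (hB₁ : ∀ x ∈ B0 K₁, ∀ y ∈ Z0 K₂, ∀ z ∈ Z0 K₃,
      Φ ((algebraMap R F) ∘ x) ((algebraMap R F) ∘ y) ((algebraMap R F) ∘ z) ∈ B0 (L.map (algebraMap R F)))
    (hB₂ : ∀ x ∈ Z0 K₁, ∀ y ∈ B0 K₂, ∀ z ∈ Z0 K₃,
      Φ ((algebraMap R F) ∘ x) ((algebraMap R F) ∘ y) ((algebraMap R F) ∘ z) ∈ B0 (L.map (algebraMap R F)))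
    (hB₃ : ∀ x ∈ Z0 K₁, ∀ y ∈ Z0 K₂, ∀ z ∈ B0 K₃,
      Φ ((algebraMap R F) ∘ x) ((algebraMap R F) ∘ y) ((algebraMap R F) ∘ z) ∈ B0 (L.map (algebraMap R F))) :
    ∃ f : Matrix J' ((J₁ × J₂) × J₃) R, Cl ((K₁.tensor K₂).tensor K₃) L 0 f ∧
      ∀ x ∈ Z0 K₁, ∀ y ∈ Z0 K₂, ∀ z ∈ Z0 K₃,
        (algebraMap R F) ∘ (f *ᵥ tv (tv x y) z) - Φ ((algebraMap R F) ∘ x) ((algebraMap R F) ∘ y) ((algebraMap R F) ∘ z) ∈ B0 (L.map (algebraMap R F)) := by
  have e : ∀ x y z, lf_mat3 Φ *ᵥ ((algebraMap R F) ∘ tv (tv x y) z) = Φ ((algebraMap R F) ∘ x) ((algebraMap R F) ∘ y) ((algebraMap R F) ∘ z) :=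
    fun x y z => by rw [lf_comp_tv, lf_comp_tv, lf_mat3_tv]
  obtain ⟨f, hf, h⟩ := lf_lift a ha b (fun i j => hb i j.1.1 j.1.2 j.2) hbl
    (fun i => (Good.tensor₂ (h₁ i) (h₂ i)).tensor (Good.of_UE (h₃ i))) hL
    (by
      rintro _ ⟨_, ⟨x, hx, y, hy, rfl⟩, z, hz, rfl⟩
      exact lf_tv_mem_Z0 (lf_tv_mem_Z0 hx hy) hz)
    (lf_mat3 Φ)
    (by
      rintro _ ⟨_, ⟨x, hx, y, hy, rfl⟩, z, hz, rfl⟩
      rw [e]; exact hZ x hx y hy z hz)
    (fun i => by
      obtain ⟨n, hn⟩ := hN i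
      refine ⟨n, ?_⟩
      rintro _ ⟨_, ⟨x, hx, y, hy, rfl⟩, z, hz, rfl⟩
      rw [e]; exact hn x hx y hy z hz)
    (by
      rintro _ (⟨_, (⟨x, hx, y, hy, rfl⟩ | ⟨x, hx, y, hy, rfl⟩), z, hz, rfl⟩ |
        ⟨_, ⟨x, hx, y, hy, rfl⟩, z, hz, rfl⟩)
      · rw [e]; exact hB₁ x hx y hy z hz
      · rw [e]; exact hB₂ x hx y hy z hz
      · rw [e]; exact hB₃ x hx y hy z hz)
  exact ⟨f, hf, fun x hx y hy z hz => by
    have := h _ ⟨_, ⟨x, hx, y, hy, rfl⟩, z, hz, rfl⟩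
    rwa [e] at this⟩

end user

end Cx

end LicciCx
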