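import Pool.Agent.Work.MP_a98e4e_ag.Core.MapsDh

/-!
# The action
-/

set_option autoImplicit false
set_option linter.unusedSectionVars false

open Matrix Kronecker RingTheory.Sequence IsLocalRing

namespace LicciCore

open LicciCx Cx Pool.Agent.Licci

universe u

/-! ### generalities -/

/-- the matrix of the bracket -/
def brK (R : Type*) [CommRing R] : Matrix (Fin 248) (Fin 248 × Fin 248) R :=
  Matrix.of fun k x => (sc x.1 x.2 k : R)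

theorem brK_tv {R : Type*} [CommRing R] (x y : Fin 248 → R) : brK R *ᵥ tv x y = br x y := by
  funext k
  rw [Matrix.mulVec, dotProduct, Fintype.sum_prod_type]
  rfl

theorem cl_mulVec_Z0 {R : Type*} [CommRing R] {I I' : Type*} [Fintype I] [Fintype I']
    [DecidableEq I] [DecidableEq I'] {K : Cx R I} {L : Cx R I'} {f : Matrix I' I R} (hf : Cl K L 0 f) {z : I → R}
    (hz : z ∈ K.Z0) : f *ᵥ z ∈ L.Z0 := by
  refine ⟨fun j hj => ?_, ?_⟩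
  · rw [Matrix.mulVec, dotProduct]
    refine Finset.sum_eq_zero fun k _ => ?_
    by_cases hk : K.deg k = 0
    · rw [hf.hmg j k (by rw [hk]; simpa using hj), zero_mul]
    · rw [hz.1 k hk, mul_zero]
  · rw [Matrix.mulVec_mulVec, hf.comm0, ← Matrix.mulVec_mulVec, hz.2, Matrix.mulVec_zero]

theorem evm_inc {R : Type*} [CommRing R] {A B : Type*} [Fintype A] [Fintype B] [DecidableEq A]
    [DecidableEq B] (c b : R) (M : Matrix (Fin 248) A R) (N : Matrix B (Fin 248) R)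
    (w : Fin 248 → R) :
    (Matrix.fromCols (Matrix.fromCols (c • (1 : Matrix (Fin 248) (Fin 248) R)) M)
      (0 : Matrix (Fin 248) B R)) *ᵥ
        (Matrix.fromRows (Matrix.fromRows (b • (1 : Matrix (Fin 248) (Fin 248) R)) 0) N *ᵥ w) =
      (c * b) • w := by
  rw [Matrix.mulVec_mulVec, Matrix.fromCols_mul_fromRows, Matrix.fromCols_mul_fromRows,
    Matrix.mul_zero, add_zero, Matrix.zero_mul, add_zero, Matrix.smul_mul, Matrix.mul_smul,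
    Matrix.mul_one, smul_smul, Matrix.smul_mulVec, Matrix.one_mulVec]

namespace CoreData

variable {R : Type u} [CommRing R] [IsDomain R] [IsLocalRing R] {p : Fin 248 → R}
  {a : Fin 6 → R} {J : Type} [Fintype J] [DecidableEq J] (D : CoreData R p a J)

theorem mem_BT_of_aa {z : J → R} (hz : z ∈ D.X.Z0) {s : R} (h : D.aa *ᵥ z = s • p) :
    z ∈ D.X.BT := B0_le_BT _ (D.mem_B0_of_aa hz h)

/-- the elements of `BT` have their image in `R p` -/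
theorem aa_BT (S : Setup R p a) {z : J → R} (hz : z ∈ D.X.BT) : ∃ s : R, D.aa *ᵥ z = s • p := by
  obtain ⟨c, hc, w, hw, h⟩ := hz
  have h1 : c • (D.aa *ᵥ z) = (-(D.ph *ᵥ w) ()) • p := by
    rw [← Matrix.mulVec_smul, ← h, Matrix.mulVec_mulVec, D.aa_d, Matrix.neg_mulVec,
      ← Matrix.mulVec_mulVec, neg_smul]
    congr 1
    funext k
    simp [pcol, Matrix.mulVec, dotProduct, mul_comm]
  obtain ⟨r', hr'⟩ := S.sat c hc _ _ h1
  exact ⟨r', hr'⟩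

theorem ev_spec (S : Setup R p a) : D.c0 S ≠ 0 ∧ (∀ g ∈ (D.G S).Z0, D.ev S *ᵥ g ∈ F0 p) ∧
    (∀ g ∈ (D.G S).Z0, D.ev S *ᵥ g ∈ F1 p → g ∈ (D.G S).BT) ∧
    (∀ g ∈ (D.G S).BT, D.ev S *ᵥ g ∈ F1 p) :=
  ⟨(D.exists_ev S).choose_spec.1, (D.exists_ev S).choose_spec.2.choose_spec⟩

/-- two evaluations agree up to their scalars -/
theorem ev_compat (S : Setup R p a) {c c' : R} {M M' : Matrix (Fin 248) (Unit ⊕ J) R}
    (h1 : ∀ g ∈ (D.G S).Z0, Matrix.fromCols (Matrix.fromCols (c' • 1) M') 0 *ᵥ g ∈ F0 p)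
    (h2 : ∀ g ∈ (D.G S).Z0, Matrix.fromCols (Matrix.fromCols (c' • 1) M') 0 *ᵥ g ∈ F1 p →
      g ∈ (D.G S).BT)
    (h3 : ∀ g ∈ (D.G S).BT, Matrix.fromCols (Matrix.fromCols (c • 1) M) 0 *ᵥ g ∈ F1 p)
    {g : (Fin 248 ⊕ (Unit ⊕ J)) ⊕ (Unit ⊕ J) → R} (hg : g ∈ (D.G S).Z0) :
    c' • (Matrix.fromCols (Matrix.fromCols (c • 1) M) 0 *ᵥ g) -
      c • (Matrix.fromCols (Matrix.fromCols (c' • 1) M') 0 *ᵥ g) ∈ F1 p := by
  have := S.char0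
  obtain ⟨m, N, hN⟩ := D.exists_inc S 0
  set E : Matrix (Fin 248) ((Fin 248 ⊕ (Unit ⊕ J)) ⊕ (Unit ⊕ J)) R :=
    Matrix.fromCols (Matrix.fromCols (c • 1) M) 0 with hE
  set E' : Matrix (Fin 248) ((Fin 248 ⊕ (Unit ⊕ J)) ⊕ (Unit ⊕ J)) R :=
    Matrix.fromCols (Matrix.fromCols (c' • 1) M') 0 with hE'
  set g' := (c' * a 0 ^ m) • g - Matrix.fromRows (Matrix.fromRows (a 0 ^ m • 1) 0) N *ᵥ (E' *ᵥ g)
    with hg'
  have hg'Z : g' ∈ (D.G S).Z0 := Submodule.sub_mem _ (Submodule.smul_mem _ _ hg) (hN _ (h1 g hg))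
  have e1 : E' *ᵥ g' = 0 := by
    rw [hg', Matrix.mulVec_sub, Matrix.mulVec_smul, hE', evm_inc, sub_self]
  have e2 : g' ∈ (D.G S).BT := h2 g' hg'Z (by rw [e1]; exact F1_zero)
  have e3 := h3 g' e2
  have e4 : E *ᵥ g' = a 0 ^ m • (c' • (E *ᵥ g) - c • (E' *ᵥ g)) := by
    rw [hg', Matrix.mulVec_sub, Matrix.mulVec_smul, hE, evm_inc]
    module
  rw [e4] at e3
  exact F1_of_smul (pow_ne_zero m (S.ne 0)) e3

theorem G_deg_le (S : Setup R p a) (x : (Fin 248 ⊕ (Unit ⊕ J)) ⊕ (Unit ⊕ J)) :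
    (D.G S).deg x ≤ 2 := by
  rw [G, fib_deg]
  rcases x with (x | x | x) | x | x
  · simp [JJ, cone_deg]
  · simp [JJ, cone_deg, X2, ext_deg]
  · have := D.deg_le x
    simp [JJ, cone_deg, X2, ext_deg]
    omega
  · simp [X2, ext_deg, dual_deg]
  · have := D.le_deg x
    simp [X2, ext_deg, dual_deg]
    omega

theorem exists_al (S : Setup R p a) :
    ∃ al : Matrix J (((Fin 248 ⊕ (Unit ⊕ J)) ⊕ (Unit ⊕ J)) × J) R,
      Cl ((D.G S).tensor D.X) D.X 0 al ∧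
      ∀ g ∈ (D.G S).Z0, ∀ z ∈ D.X.Z0, ∃ r : R,
        D.c0 S • D.aa *ᵥ (al *ᵥ tv g z) = br (D.ev S *ᵥ g) (D.aa *ᵥ z) + r • p := by
  have := S.char0
  have hp0 := S.p_ne
  choose n M hF0 hBT hF1 using D.exists_ev_loc S
  choose m sg hsZ hsF hs using D.exists_sig S
  obtain ⟨hc0, hev0, hevB, hev1⟩ := D.ev_spec S
  obtain ⟨E, hE0, hE1, hcomp, hcomp0⟩ :
      ∃ E : Fin 6 → Matrix (Fin 248) ((Fin 248 ⊕ (Unit ⊕ J)) ⊕ (Unit ⊕ J)) R,
        (∀ i, ∀ g ∈ (D.G S).Z0, E i *ᵥ g ∈ F0 p) ∧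
        (∀ i, ∀ g ∈ (D.G S).BT, E i *ᵥ g ∈ F1 p) ∧
        (∀ i j, ∀ g ∈ (D.G S).Z0, a j ^ n j • (E i *ᵥ g) - a i ^ n i • (E j *ᵥ g) ∈ F1 p) ∧
        (∀ i, ∀ g ∈ (D.G S).Z0, D.c0 S • (E i *ᵥ g) - a i ^ n i • (D.ev S *ᵥ g) ∈ F1 p) :=
    ⟨fun i => Matrix.fromCols (Matrix.fromCols (a i ^ n i • 1) (M i)) 0, hF0, hF1,
      fun i j g hg => D.ev_compat S (hF0 j) (hBT j) (hF1 i) hg,
      fun i g hg => D.ev_compat S hev0 hevB (hF1 i) hg⟩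
  -- the local representatives
  set Φ : Fin 6 → Matrix J (((Fin 248 ⊕ (Unit ⊕ J)) ⊕ (Unit ⊕ J)) × J) R :=
    fun i => prX R J * (sg i * (brK R * (E i ⊗ₖ D.aa))) with hΦ
  have hΦtv : ∀ i g z, Φ i *ᵥ tv g z =
      fun j => (sg i *ᵥ br (E i *ᵥ g) (D.aa *ᵥ z)) (Sum.inr j) := by
    intro i g z
    rw [hΦ]
    simp only
    rw [← Matrix.mulVec_mulVec, ← Matrix.mulVec_mulVec, ← Matrix.mulVec_mulVec, kron_mulVec_tv,
      brK_tv, prX_mulVec]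
  have hΦZ : ∀ i g z, Φ i *ᵥ tv g z ∈ D.X.Z0 := by
    intro i g z
    rw [hΦtv]
    exact D.mem_Z0_X2.1 (hsZ i _)
  -- the value of the local representatives
  have hval : ∀ i, ∀ g ∈ (D.G S).Z0, ∀ z ∈ D.X.Z0, ∃ r : R,
      D.aa *ᵥ (Φ i *ᵥ tv g z) = a i ^ m i • br (E i *ᵥ g) (D.aa *ᵥ z) + r • p := by
    intro i g hg z hz
    have h1 := hs i _ (br_F0_F1 S.cone hp0 (hE0 i g hg) (D.mem z hz))
    rw [u_mulVec] at h1
    refine ⟨-(sg i *ᵥ br (E i *ᵥ g) (D.aa *ᵥ z)) (Sum.inl ()), ?_⟩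
    rw [hΦtv, ← h1]
    module
  obtain ⟨f, hf, hf2⟩ := lift2 a S.reg S.ne (K₁ := D.G S) (K₂ := D.X) (L := D.X) (D.ue_G S) D.ue D.ue
    (fun i j k => by
      have h1 := D.le_deg i
      have h2 := D.G_deg_le S j
      have h3 := D.deg_le k
      omega) (fun i => n i + m i) Φ (fun i g _ z _ => hΦZ i g z)
    (by
      intro i g hg z hz
      obtain ⟨r, hr⟩ := hval i g (B0_le_Z0 _ hg) z hz
      obtain ⟨c, hc⟩ := br_F1_F1 S.cone S.sat hp0 (hE1 i g (B0_le_BT _ hg)) (D.mem z hz)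
      refine D.mem_BT_of_aa (hΦZ i g z) (s := a i ^ m i * c + r) ?_
      rw [hr, hc]
      module)
    (by
      intro i g hg z hz
      obtain ⟨r, hr⟩ := hval i g hg z (B0_le_Z0 _ hz)
      obtain ⟨s, hs⟩ := D.aa_BT S (B0_le_BT _ hz)
      obtain ⟨χ, hχ⟩ := F0_eigen S.sat hp0 (hE0 i g hg)
      refine D.mem_BT_of_aa (hΦZ i g z) (s := a i ^ m i * (s * χ) + r) ?_
      rw [hr, hs, br_smul_right, hχ]
      module)
    (by
      intro i j g hg z hz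
      obtain ⟨r, hr⟩ := hval i g hg z hz
      obtain ⟨r', hr'⟩ := hval j g hg z hz
      obtain ⟨c, hc⟩ := br_F1_F1 S.cone S.sat hp0 (hcomp i j g hg) (D.mem z hz)
      refine D.mem_BT_of_aa (Submodule.sub_mem _ (Submodule.smul_mem _ _ (hΦZ i g z))
        (Submodule.smul_mem _ _ (hΦZ j g z)))
        (s := a i ^ m i * a j ^ m j * c + (a j ^ (n j + m j) * r - a i ^ (n i + m i) * r')) ?_
      rw [br_sub_left, br_smul_left, br_smul_left] at hc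
      rw [Matrix.mulVec_sub, Matrix.mulVec_smul, Matrix.mulVec_smul, hr, hr', add_smul,
        mul_smul _ c, ← hc, sub_smul, pow_add, pow_add]
      module)
  refine ⟨f, hf, fun g hg z hz => ?_⟩
  obtain ⟨s, hs'⟩ := D.aa_BT S (hf2 0 g hg z hz)
  obtain ⟨r, hr⟩ := hval 0 g hg z hz
  obtain ⟨c, hc⟩ := br_F1_F1 S.cone S.sat hp0 (hcomp0 0 g hg) (D.mem z hz)
  rw [br_sub_left, br_smul_left, br_smul_left] at hc
  have h1 : a 0 ^ (n 0 + m 0) • (D.c0 S • D.aa *ᵥ (f *ᵥ tv g z) - br (D.ev S *ᵥ g) (D.aa *ᵥ z)) =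
      (D.c0 S * (s + r) + a 0 ^ m 0 * c) • p := by
    rw [Matrix.mulVec_sub, Matrix.mulVec_smul, hr] at hs'
    have h2 : a 0 ^ (n 0 + m 0) • D.aa *ᵥ (f *ᵥ tv g z) =
        a 0 ^ m 0 • br (E 0 *ᵥ g) (D.aa *ᵥ z) + (s + r) • p := by
      rw [add_smul, ← hs']; abel
    have h3 : (D.c0 S * (s + r) + a 0 ^ m 0 * c) • p =
        D.c0 S • ((s + r) • p) + a 0 ^ m 0 • (c • p) := by module
    rw [h3, ← hc, smul_sub, smul_comm, h2, pow_add]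
    module
  obtain ⟨r', hr'⟩ := S.sat _ (pow_ne_zero _ (S.ne 0)) _ _ h1
  exact ⟨r', by rw [← hr']; abel⟩

noncomputable def al (S : Setup R p a) :
    Matrix J (((Fin 248 ⊕ (Unit ⊕ J)) ⊕ (Unit ⊕ J)) × J) R := (D.exists_al S).choose

/-- `D'(x, y) z = al (Dh (Om x, y), z)` -/
noncomputable def Dp (S : Setup R p a) : Matrix J ((J × J) × J) R :=
  D.al S * ((D.Dh S * (D.Om S ⊗ₖ (1 : Matrix J J R))) ⊗ₖ (1 : Matrix J J R))

theorem cl_Dp (S : Setup R p a) : Cl ((D.X.tensor D.X).tensor D.X) D.X 0 (D.Dp S) := by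
  have h1 : Cl (D.X.tensor D.X) (D.X.dual.tensor D.X) 0 (D.Om S ⊗ₖ (1 : Matrix J J R)) :=
    Cl.kron (D.exists_Om S).choose_spec.1 Cl.one
  have h2 : Cl (D.X.tensor D.X) (D.G S) 0 (D.Dh S * (D.Om S ⊗ₖ (1 : Matrix J J R))) :=
    ((D.exists_Dh S).choose_spec.1.mul h1).cast (by ring)
  exact ((D.exists_al S).choose_spec.1.mul (Cl.kron h2 Cl.one)).cast (by ring)

/-- the value of `D'` on cocycles -/
theorem Dp_spec (S : Setup R p a) {x y z : J → R} (hx : x ∈ D.X.Z0) (hy : y ∈ D.X.Z0)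
    (hz : z ∈ D.X.Z0) (e : Fin 248 → R) : D.Dp S *ᵥ tv (tv x y) z ∈ D.X.Z0 ∧
      ∃ r : R, ∃ c : R, c ≠ 0 ∧ (c * kf p e) • D.aa *ᵥ (D.Dp S *ᵥ tv (tv x y) z) =
        c • br (br (br e (D.aa *ᵥ x)) (D.aa *ᵥ y)) (D.aa *ᵥ z) + r • p := by
  have := S.char0
  have hp0 := S.p_ne
  refine ⟨cl_mulVec_Z0 (D.cl_Dp S) (vk_mem_Z0 (vk_mem_Z0 hx hy) hz), ?_⟩
  obtain ⟨hOm, hOm2⟩ := (D.exists_Om S).choose_spec
  obtain ⟨hDh, hDh2⟩ := (D.exists_Dh S).choose_spec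
  obtain ⟨hal, hal2⟩ := (D.exists_al S).choose_spec
  have hl : D.Om S *ᵥ x ∈ D.X.dual.Z0 := cl_mulVec_Z0 hOm hx
  set g := D.Dh S *ᵥ tv (D.Om S *ᵥ x) y with hg
  have hgZ : g ∈ (D.G S).Z0 := cl_mulVec_Z0 hDh (vk_mem_Z0 hl hy)
  have hDp : D.Dp S *ᵥ tv (tv x y) z = D.al S *ᵥ tv g z := by
    rw [Dp, ← Matrix.mulVec_mulVec, kron_mulVec_tv, ← Matrix.mulVec_mulVec, kron_mulVec_tv,
      Matrix.one_mulVec, Matrix.one_mulVec]
  have h1 : kf p e • (D.ev S *ᵥ g) - D.c0 S • br (br e (D.aa *ᵥ x)) (D.aa *ᵥ y) ∈ F1 p :=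
    hDh2 _ hl y hy (br e (D.aa *ᵥ x)) (kf p e) (kf_p_br S.cone (D.mem x hx) e) (by
    intro z' hz'
    have h2 := hOm2 x hx z' hz'
    have h3 : kf e (br (D.aa *ᵥ x) (D.aa *ᵥ z')) = kf e ((z' ⬝ᵥ (D.Om S *ᵥ x)) • p) :=
      congrArg (kf e) h2
    rw [kf_inv, h3, kf_eq, Matrix.mulVec_smul, dotProduct_smul, ← kf_eq, kf_comm e p, smul_eq_mul,
      dotProduct_comm, mul_comm])
  obtain ⟨r, hr⟩ := hal2 g hgZ z hz
  obtain ⟨c, hc⟩ := br_F1_F1 S.cone S.sat hp0 h1 (D.mem z hz)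
  rw [br_sub_left, br_smul_left, br_smul_left] at hc
  refine ⟨c + kf p e * r, D.c0 S, (D.ev_spec S).1, ?_⟩
  have hr2 : D.c0 S • D.aa *ᵥ (D.al S *ᵥ tv g z) = br (D.ev S *ᵥ g) (D.aa *ᵥ z) + r • p := hr
  rw [hDp, mul_comm (D.c0 S), mul_smul, hr2, add_smul, ← hc]
  module

end CoreData

end LicciCore
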