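import Pool.Agent.Work.MP_a98e4e_ag.Core.Obj
import Pool.Agent.Work.MP_a98e4e_ag.Core.Lift

/-!
# The class of a cocycle of `G`
-/

set_option autoImplicit false
set_option linter.unusedSectionVars false

open Matrix Kronecker RingTheory.Sequence IsLocalRing

namespace LicciCore

open LicciCx Cx Pool.Agent.Licci

universe u

namespace CoreData

variable {R : Type u} [CommRing R] [IsDomain R] [IsLocalRing R] {p : Fin 248 → R}
  {a : Fin 6 → R} {J : Type} [Fintype J] [DecidableEq J] (D : CoreData R p a J)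

/-- the homotopy of a dual -/
theorem dual_homotopy {J : Type*} [Fintype J] [DecidableEq J] {K : Cx R J} {h : Matrix J J R}
    (hh : IsHmg K K (-1) h) :
    K.dual.d * (K.e * h)ᵀ + (K.e * h)ᵀ * K.dual.d = (K.d * h + h * K.d)ᵀ := by
  have heh : K.e * h = -(h * K.e) := ep_mul_odd' hh
  rw [dual_d, Matrix.neg_mul, Matrix.mul_neg, ← Matrix.transpose_mul, ← Matrix.transpose_mul,
    ← Matrix.transpose_neg, ← Matrix.transpose_neg, ← Matrix.transpose_add]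
  congr 1
  have a1 : K.e * h * (K.e * K.d) = -(h * K.d) := by
    rw [heh, Matrix.neg_mul, Matrix.mul_assoc, ← Matrix.mul_assoc K.e K.e, K.e_mul_self,
      Matrix.one_mul]
  have a2 : K.e * K.d * (K.e * h) = -(K.d * h) := by
    rw [K.e_mul_d, Matrix.neg_mul, Matrix.mul_assoc, ← Matrix.mul_assoc K.e K.e, K.e_mul_self,
      Matrix.one_mul]
  rw [a1, a2, neg_neg, neg_neg, add_comm]

/-! ### cocycles and boundaries of `G` -/

theorem G_d_mulVec (S : Setup R p a) (w : Fin 248 → R) (x e : Unit ⊕ J → R) :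
    (D.G S).d *ᵥ Sum.elim (Sum.elim w x) e =
      Sum.elim (Sum.elim (D.u *ᵥ x) (-(D.X2.d *ᵥ x)))
        ((D.uᵀ * kM R) *ᵥ w + D.kap S *ᵥ x - D.X2.dual.d *ᵥ e) := by
  rw [G, fib_d, JJ, cone_d, jj, Matrix.fromBlocks_mulVec]
  rw [Sum.elim_comp_inl, Sum.elim_comp_inr, Matrix.fromBlocks_mulVec, Matrix.fromCols_mulVec]
  rw [Sum.elim_comp_inl, Sum.elim_comp_inr]
  simp [Matrix.neg_mulVec, sub_eq_add_neg]

theorem u_mulVec_of_vh {x : Unit ⊕ J → R} (hx : Vh D.X2 1 x) : D.u *ᵥ x = 0 := by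
  ext i
  exact (Vh.mulVec (n := 0) (m := 1) D.cl_u.hmg hx) i (by simp)

theorem d_mulVec_of_vh {x : Unit ⊕ J → R} (hx : Vh D.X2 1 x) : D.X2.d *ᵥ x = 0 := by
  ext i
  exact (Vh.mulVec (n := 1) (m := 1) D.X2.hmg hx) i (by have := D.X2_deg_le i; omega)

theorem mem_Z0_G (S : Setup R p a) {w : Fin 248 → R} {x e : Unit ⊕ J → R} :
    Sum.elim (Sum.elim w x) e ∈ (D.G S).Z0 ↔ Vh D.X2 1 x ∧ Vh D.X2 1 e ∧
      (D.uᵀ * kM R) *ᵥ w + D.kap S *ᵥ x = D.X2.dual.d *ᵥ e := by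
  constructor
  · rintro ⟨h1, h2⟩
    refine ⟨?_, ?_, ?_⟩
    · intro j hj
      exact h1 (Sum.inl (Sum.inr j)) (by
        show D.X2.deg j + (-1) ≠ 0
        omega)
    · intro j hj
      exact h1 (Sum.inr j) (by
        show -D.X2.deg j + 1 ≠ 0
        omega)
    · rw [G_d_mulVec] at h2
      have h3 := congrArg (fun f => f ∘ Sum.inr) h2
      simp only [Sum.elim_comp_inr] at h3
      exact sub_eq_zero.1 (h3.trans rfl)
  · rintro ⟨h1, h2, h3⟩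
    refine ⟨?_, ?_⟩
    · rintro ((j | j) | j) hj
      · exact (hj rfl).elim
      · exact h1 j (by
          intro h4; apply hj
          show D.X2.deg j + (-1) = 0
          omega)
      · exact h2 j (by
          intro h4; apply hj
          show -D.X2.deg j + 1 = 0
          omega)
    · rw [G_d_mulVec, D.u_mulVec_of_vh h1, D.d_mulVec_of_vh h1, h3, sub_self, neg_zero]
      ext ((j | j) | j) <;> rfl

theorem mem_B0_G (S : Setup R p a) {w : Fin 248 → R} {x e : Unit ⊕ J → R} :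
    Sum.elim (Sum.elim w x) e ∈ (D.G S).B0 ↔ ∃ v, Vh D.X2 0 v ∧ w = D.u *ᵥ v ∧
      x = -(D.X2.d *ᵥ v) ∧ e = D.kap S *ᵥ v := by
  constructor
  · rintro ⟨y, hy, h⟩
    obtain ⟨w', x', e', rfl⟩ : ∃ (w' : Fin 248 → R) (x' e' : Unit ⊕ J → R),
        y = Sum.elim (Sum.elim w' x') e' :=
      ⟨(y ∘ Sum.inl) ∘ Sum.inl, (y ∘ Sum.inl) ∘ Sum.inr, y ∘ Sum.inr, by
        ext ((j | j) | j) <;> rfl⟩
    have hw' : w' = 0 := by
      ext j
      exact hy (Sum.inl (Sum.inl j)) (by show (0 : ℤ) ≠ -1; norm_num)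
    have he' : e' = 0 := by
      ext j
      exact hy (Sum.inr j) (by
        show -D.X2.deg j + 1 ≠ -1
        have := D.X2_deg_le j; omega)
    have hx' : Vh D.X2 0 x' := by
      intro j hj
      exact hy (Sum.inl (Sum.inr j)) (by show D.X2.deg j + (-1) ≠ -1; omega)
    rw [G_d_mulVec, hw', he', Matrix.mulVec_zero, Matrix.mulVec_zero, zero_add, sub_zero] at h
    refine ⟨x', hx', ?_, ?_, ?_⟩
    · exact (congrArg (fun f => (f ∘ Sum.inl) ∘ Sum.inl) h).symm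
    · exact (congrArg (fun f => (f ∘ Sum.inl) ∘ Sum.inr) h).symm
    · exact (congrArg (fun f => f ∘ Sum.inr) h).symm
  · rintro ⟨v, hv, rfl, rfl, rfl⟩
    refine ⟨Sum.elim (Sum.elim 0 v) 0, ?_, ?_⟩
    · rintro ((j | j) | j) hj
      · rfl
      · exact hv j (by
          intro h4; apply hj
          show D.X2.deg j + (-1) = -1
          omega)
      · rfl
    · rw [G_d_mulVec, Matrix.mulVec_zero, Matrix.mulVec_zero, zero_add, sub_zero]

theorem exists_elim (g : (Fin 248 ⊕ (Unit ⊕ J)) ⊕ (Unit ⊕ J) → R) :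
    ∃ (w : Fin 248 → R) (x e : Unit ⊕ J → R), g = Sum.elim (Sum.elim w x) e :=
  ⟨(g ∘ Sum.inl) ∘ Sum.inl, (g ∘ Sum.inl) ∘ Sum.inr, g ∘ Sum.inr, by
    ext ((j | j) | j) <;> rfl⟩

/-! ### pairings -/

/-- cocycles are orthogonal to boundaries of the dual -/
theorem dot_dual_d {y : Unit ⊕ J → R} (hy : y ∈ D.X2.Z0) (e : Unit ⊕ J → R) :
    y ⬝ᵥ (D.X2.dual.d *ᵥ e) = 0 := by
  rw [dual_d, Matrix.neg_mulVec, dotProduct_neg, Matrix.mulVec_transpose, dotProduct_comm,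
    ← Matrix.dotProduct_mulVec, ← Matrix.mulVec_mulVec, hy.2, Matrix.mulVec_zero,
    dotProduct_zero, neg_zero]

theorem kf_u (y : Unit ⊕ J → R) (w : Fin 248 → R) :
    kf (D.u *ᵥ y) w = y ⬝ᵥ ((D.uᵀ * kM R) *ᵥ w) := by
  rw [kf_eq, ← Matrix.mulVec_mulVec, Matrix.mulVec_transpose, dotProduct_comm y,
    ← Matrix.dotProduct_mulVec, dotProduct_comm]

/-- `c w + u v` for a cocycle `((w, x), e)` of `G` and `c x = d v` -/
theorem F0_of_cocycle (S : Setup R p a) {w : Fin 248 → R} {x e : Unit ⊕ J → R}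
    (h : (D.uᵀ * kM R) *ᵥ w + D.kap S *ᵥ x = D.X2.dual.d *ᵥ e) {c : R} {v : Unit ⊕ J → R}
    (hv : c • x = D.X2.d *ᵥ v) : c • w + D.u *ᵥ v ∈ F0 p := by
  have := S.char0
  have hp0 : p ≠ 0 := by
    obtain ⟨q, hq⟩ := S.top
    intro h0; exact hq (by rw [h0]; rfl)
  rw [F0_iff S.cone hp0]
  intro x' hx'
  obtain ⟨y, hy, rfl⟩ := D.u_surj hx'
  rw [kf_comm, kf_u, Matrix.mulVec_add, dotProduct_add, Matrix.mulVec_smul, dotProduct_smul,
    Matrix.mulVec_mulVec, (D.exists_kap S).choose_spec.2]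
  have h1 : y ⬝ᵥ ((D.uᵀ * kM R) *ᵥ w) = -(y ⬝ᵥ (D.kap S *ᵥ x)) := by
    have h2 := congrArg (fun f => y ⬝ᵥ f) h
    simp only [dotProduct_add, D.dot_dual_d hy] at h2
    exact eq_neg_of_add_eq_zero_left h2
  rw [h1, Matrix.add_mulVec, dotProduct_add, ← Matrix.mulVec_mulVec, D.dot_dual_d hy, zero_add,
    ← Matrix.mulVec_mulVec, ← hv, Matrix.mulVec_smul, dotProduct_smul]
  show c • -(y ⬝ᵥ (D.kap S *ᵥ x)) + c • (y ⬝ᵥ (D.kap S *ᵥ x)) = 0
  rw [smul_neg, neg_add_cancel]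

/-! ### the class of a cocycle of `G` in `F⁰ / F¹` -/

/-- `ev ((w, x), e) = c0 w + M x` represents `c0` times the class -/
theorem exists_ev_loc (S : Setup R p a) (i : Fin 6) : ∃ n : ℕ,
    ∃ M : Matrix (Fin 248) (Unit ⊕ J) R,
    (∀ g ∈ (D.G S).Z0, Matrix.fromCols (Matrix.fromCols (a i ^ n • 1) M) 0 *ᵥ g ∈ F0 p) ∧
    (∀ g ∈ (D.G S).Z0, Matrix.fromCols (Matrix.fromCols (a i ^ n • 1) M) 0 *ᵥ g ∈ F1 p →
      g ∈ (D.G S).BT) ∧
    (∀ g ∈ (D.G S).BT, Matrix.fromCols (Matrix.fromCols (a i ^ n • 1) M) 0 *ᵥ g ∈ F1 p) := by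
  have := S.char0
  obtain ⟨N, h, hh⟩ := D.ue_X2 i
  have hc : a i ^ N ≠ 0 := pow_ne_zero _ (S.ne i)
  refine ⟨N, D.u * h, ?_⟩
  generalize a i ^ N = c at hc hh
  have hev : ∀ (w : Fin 248 → R) (x e : Unit ⊕ J → R),
      Matrix.fromCols (Matrix.fromCols (c • 1) (D.u * h)) 0 *ᵥ Sum.elim (Sum.elim w x) e =
        c • w + D.u *ᵥ (h *ᵥ x) := by
    intro w x e
    rw [Matrix.fromCols_mulVec, Sum.elim_comp_inl, Matrix.fromCols_mulVec, Sum.elim_comp_inl,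
      Sum.elim_comp_inr, Matrix.zero_mulVec, add_zero, Matrix.smul_mulVec, Matrix.one_mulVec,
      Matrix.mulVec_mulVec]
  have hx1 : ∀ x, Vh D.X2 1 x → c • x = D.X2.d *ᵥ (h *ᵥ x) := fun x hx =>
    hh.vec_bd (by norm_num) hx (D.d_mulVec_of_vh hx)
  refine ⟨?_, ?_, ?_⟩
  · intro g hg
    obtain ⟨w, x, e, rfl⟩ := exists_elim g
    rw [mem_Z0_G] at hg
    rw [hev]
    exact D.F0_of_cocycle S hg.2.2 (hx1 x hg.1)
  · intro g hg hF
    obtain ⟨w, x, e, rfl⟩ := exists_elim g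
    rw [mem_Z0_G] at hg
    rw [hev] at hF
    obtain ⟨y, hy, hu⟩ := D.u_surj hF
    have hv0 : Vh D.X2 0 (y - h *ᵥ x) := by
      intro j hj
      have h1 : Vh D.X2 (1 + -1) (h *ᵥ x) := Vh.hmg_mulVec hh.hmg hg.1
      rw [Pi.sub_apply, hy.1 j hj, h1 j (by simpa using hj), sub_zero]
    have hu' : D.u *ᵥ (y - h *ᵥ x) = c • w := by
      rw [Matrix.mulVec_sub, hu]; abel
    have hd' : D.X2.d *ᵥ (y - h *ᵥ x) = -(c • x) := by
      rw [Matrix.mulVec_sub, hy.2, zero_sub, ← hx1 x hg.1]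
    have hδ : c • e = D.kap S *ᵥ (y - h *ᵥ x) := by
      have hδ1 : Vh D.X2.dual (-1) (c • e - D.kap S *ᵥ (y - h *ᵥ x)) := by
        intro j hj
        have h1 : Vh D.X2.dual (0 + -1) (D.kap S *ᵥ (y - h *ᵥ x)) :=
          Vh.hmg_mulVec (D.exists_kap S).choose_spec.1 hv0
        rw [Pi.sub_apply, h1 j (by simpa using hj), Pi.smul_apply, hg.2.1 j (by
          rw [dual_deg] at hj; omega), smul_zero, sub_zero]
      have hδ2 : D.X2.dual.d *ᵥ (c • e - D.kap S *ᵥ (y - h *ᵥ x)) = 0 := by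
        have h1 : D.X2.dual.d *ᵥ (D.kap S *ᵥ (y - h *ᵥ x)) =
            (D.uᵀ * kM R) *ᵥ (D.u *ᵥ (y - h *ᵥ x)) - D.kap S *ᵥ (D.X2.d *ᵥ (y - h *ᵥ x)) := by
          rw [Matrix.mulVec_mulVec, Matrix.mulVec_mulVec, Matrix.mulVec_mulVec,
            (D.exists_kap S).choose_spec.2, Matrix.add_mulVec]
          exact (add_sub_cancel_right _ _).symm
        rw [Matrix.mulVec_sub, h1, hu', hd', Matrix.mulVec_smul, ← hg.2.2, Matrix.mulVec_smul,
          Matrix.mulVec_neg, Matrix.mulVec_smul, smul_add]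
        abel
      have h3 := hh.dual.vec_bd (by norm_num) hδ1 hδ2
      have h4 : Vh D.X2.dual (-1 + -1) ((D.X2.e * h)ᵀ *ᵥ (c • e - D.kap S *ᵥ (y - h *ᵥ x))) :=
        Vh.hmg_mulVec hh.dual.hmg hδ1
      have h5 : (D.X2.e * h)ᵀ *ᵥ (c • e - D.kap S *ᵥ (y - h *ᵥ x)) = 0 := by
        ext j
        exact h4 j (by rw [dual_deg]; have := D.X2_deg_le j; omega)
      rw [h5, Matrix.mulVec_zero, smul_eq_zero] at h3
      exact sub_eq_zero.1 (h3.resolve_left hc)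
    refine ⟨c, hc, ?_⟩
    have h1 : c • (Sum.elim (Sum.elim w x) e : (Fin 248 ⊕ (Unit ⊕ J)) ⊕ (Unit ⊕ J) → R) =
        Sum.elim (Sum.elim (c • w) (c • x)) (c • e) := by
      ext ((j | j) | j) <;> rfl
    rw [h1, mem_B0_G]
    exact ⟨_, hv0, hu'.symm, by rw [hd', neg_neg], hδ⟩
  · rintro g ⟨s, hs, hb⟩
    obtain ⟨w, x, e, rfl⟩ := exists_elim g
    have h1 : s • (Sum.elim (Sum.elim w x) e : (Fin 248 ⊕ (Unit ⊕ J)) ⊕ (Unit ⊕ J) → R) =
        Sum.elim (Sum.elim (s • w) (s • x)) (s • e) := by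
      ext ((j | j) | j) <;> rfl
    rw [h1, mem_B0_G] at hb
    obtain ⟨v, hv, hw, hx, he⟩ := hb
    rw [hev]
    refine F1_of_smul hs ?_
    have h2 : s • (c • w + D.u *ᵥ (h *ᵥ x)) = D.u *ᵥ (c • v - h *ᵥ (D.X2.d *ᵥ v)) := by
      rw [smul_add, smul_comm s c, hw, ← Matrix.mulVec_smul D.u c, ← Matrix.mulVec_smul D.u s,
        ← Matrix.mulVec_smul h s, hx, Matrix.mulVec_sub, Matrix.mulVec_neg, Matrix.mulVec_neg]
      abel
    rw [h2]
    refine D.u_mem S ⟨?_, ?_⟩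
    · intro j hj
      have h3 : Vh D.X2 (0 + 1 + -1) (h *ᵥ (D.X2.d *ᵥ v)) :=
        Vh.hmg_mulVec hh.hmg (Vh.hmg_mulVec D.X2.hmg hv)
      rw [Pi.sub_apply, Pi.smul_apply, hv j hj, smul_zero, h3 j (by simpa using hj), sub_zero]
    · have h3 : D.X2.d * (c • (1 : Matrix (Unit ⊕ J) (Unit ⊕ J) R) - h * D.X2.d) = 0 := by
        have h4 := hh.d_pr
        rw [pr] at h4
        have h5 : c • (1 : Matrix (Unit ⊕ J) (Unit ⊕ J) R) - h * D.X2.d =
            (c • 1 - (D.X2.d * h + h * D.X2.d)) + D.X2.d * h := by abel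
        rw [h5, Matrix.mul_add, h4, ← Matrix.mul_assoc, D.X2.sq, Matrix.zero_mul, zero_add]
      have h4 : c • v - h *ᵥ (D.X2.d *ᵥ v) =
          (c • (1 : Matrix (Unit ⊕ J) (Unit ⊕ J) R) - h * D.X2.d) *ᵥ v := by
        rw [Matrix.sub_mulVec, Matrix.smul_mulVec, Matrix.one_mulVec, Matrix.mulVec_mulVec]
      rw [h4, Matrix.mulVec_mulVec, h3, Matrix.zero_mulVec]

/-- `ev ((w, x), e) = c0 w + M x` represents `c0` times the class -/
theorem exists_ev (S : Setup R p a) : ∃ c0 : R, c0 ≠ 0 ∧ ∃ M : Matrix (Fin 248) (Unit ⊕ J) R,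
    (∀ g ∈ (D.G S).Z0, Matrix.fromCols (Matrix.fromCols (c0 • 1) M) 0 *ᵥ g ∈ F0 p) ∧
    (∀ g ∈ (D.G S).Z0, Matrix.fromCols (Matrix.fromCols (c0 • 1) M) 0 *ᵥ g ∈ F1 p →
      g ∈ (D.G S).BT) ∧
    (∀ g ∈ (D.G S).BT, Matrix.fromCols (Matrix.fromCols (c0 • 1) M) 0 *ᵥ g ∈ F1 p) := by
  obtain ⟨n, M, h⟩ := D.exists_ev_loc S 0
  exact ⟨a 0 ^ n, pow_ne_zero _ (S.ne 0), M, h⟩

noncomputable def c0 (S : Setup R p a) : R := (D.exists_ev S).choose

noncomputable def ev (S : Setup R p a) :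
    Matrix (Fin 248) ((Fin 248 ⊕ (Unit ⊕ J)) ⊕ (Unit ⊕ J)) R :=
  Matrix.fromCols (Matrix.fromCols (D.c0 S • 1) (D.exists_ev S).choose_spec.2.choose) 0

/-- local sections `F⁰ → Z⁰(G)`; the first component of `inc w` is `(a i ^ n • w, 0)` -/
theorem exists_inc (S : Setup R p a) (i : Fin 6) : ∃ n : ℕ,
    ∃ N : Matrix (Unit ⊕ J) (Fin 248) R, ∀ w ∈ F0 p,
      Matrix.fromRows (Matrix.fromRows (a i ^ n • 1) 0) N *ᵥ w ∈ (D.G S).Z0 := by
  have := S.char0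
  have hp0 : p ≠ 0 := by
    obtain ⟨q, hq⟩ := S.top
    intro h0; exact hq (by rw [h0]; rfl)
  obtain ⟨n, h, hh⟩ := D.ue_X2 i
  refine ⟨n, (D.X2.e * h)ᵀ * (D.uᵀ * kM R), fun w hw => ?_⟩
  rw [Matrix.fromRows_mulVec, Matrix.fromRows_mulVec, Matrix.smul_mulVec, Matrix.one_mulVec,
    Matrix.zero_mulVec, mem_Z0_G, ← Matrix.mulVec_mulVec]
  have hl0 : Vh D.X2.dual (0 + 0) ((D.uᵀ * kM R) *ᵥ w) :=
    Vh.hmg_mulVec (K := free R (Fin 248) 0) D.cl_ut.hmg (fun j hj => (hj rfl).elim)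
  have hl1 : D.X2.dual.d *ᵥ ((D.uᵀ * kM R) *ᵥ w) = 0 := by
    rw [Matrix.mulVec_mulVec, D.cl_ut.comm0, free_d, Matrix.mul_zero, Matrix.zero_mulVec]
  refine ⟨fun _ _ => rfl, ?_, ?_⟩
  · intro j hj
    exact Vh.hmg_mulVec hh.dual.hmg hl0 j (by rw [dual_deg]; omega)
  · have h1 := dual_homotopy hh.hmg
    have h2 := congrArg (fun f => f *ᵥ ((D.uᵀ * kM R) *ᵥ w)) h1
    simp only [Matrix.add_mulVec] at h2
    rw [← Matrix.mulVec_mulVec _ D.X2.dual.d, ← Matrix.mulVec_mulVec _ (D.X2.e * h)ᵀ D.X2.dual.d,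
      hl1, Matrix.mulVec_zero, add_zero] at h2
    rw [h2, Matrix.mulVec_zero, add_zero, Matrix.mulVec_smul]
    ext j
    have h3 : (fun k => D.X2.pr (a i ^ n) h k j) ∈ D.X2.Z0 := by
      refine ⟨fun k hk => hh.sup k j (by rintro ⟨h4, -⟩; exact hk h4), ?_⟩
      ext k
      exact congrFun (congrFun hh.d_pr k) j
    have h4 : kf w (D.u *ᵥ (fun k => D.X2.pr (a i ^ n) h k j)) = 0 :=
      (F0_iff S.cone hp0).1 hw _ (D.u_mem S h3)
    rw [kf_comm, kf_u] at h4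
    have h5 : ((a i ^ n • (1 : Matrix (Unit ⊕ J) (Unit ⊕ J) R) - (D.X2.d * h + h * D.X2.d))ᵀ *ᵥ
        ((D.uᵀ * kM R) *ᵥ w)) j = 0 := h4
    rw [Matrix.transpose_sub, Matrix.sub_mulVec, Matrix.transpose_smul, Matrix.transpose_one,
      Matrix.smul_mulVec, Matrix.one_mulVec, Pi.sub_apply, sub_eq_zero] at h5
    exact h5

end CoreData

end LicciCore
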