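import Pool.Agent.Work.MP_a98e4e_ag.Core.MapsOm
import Pool.Agent.Work.MP_a98e4e_ag.Core.MapsEv
import Pool.Agent.Work.MP_a98e4e_ag.Core.GSp

/-!
# The bracket
-/

set_option autoImplicit false
set_option linter.unusedSectionVars false

open Matrix Kronecker RingTheory.Sequence IsLocalRing

namespace LicciCore

open LicciCx Cx Pool.Agent.Licci

universe u

namespace CoreData

variable {R : Type u} [CommRing R] [IsDomain R] [IsLocalRing R] {p : Fin 248 → R}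
  {a : Fin 6 → R} {J : Type} [Fintype J] [DecidableEq J] (D : CoreData R p a J)

theorem c0_ne (S : Setup R p a) : D.c0 S ≠ 0 := (D.exists_ev S).choose_spec.1

theorem ev_mem_F0 (S : Setup R p a) {g} (hg : g ∈ (D.G S).Z0) : D.ev S *ᵥ g ∈ F0 p :=
  (D.exists_ev S).choose_spec.2.choose_spec.1 g hg

theorem bt_of_ev (S : Setup R p a) {g} (hg : g ∈ (D.G S).Z0) (h : D.ev S *ᵥ g ∈ F1 p) :
    g ∈ (D.G S).BT :=
  (D.exists_ev S).choose_spec.2.choose_spec.2.1 g hg h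

theorem ev_mem_F1 (S : Setup R p a) {g} (hg : g ∈ (D.G S).BT) : D.ev S *ᵥ g ∈ F1 p :=
  (D.exists_ev S).choose_spec.2.choose_spec.2.2 g hg

/-- `ev` of a local section -/
theorem ev_inc (S : Setup R p a) (c : R) (N : Matrix (Unit ⊕ J) (Fin 248) R) (w : Fin 248 → R) :
    D.ev S *ᵥ (Matrix.fromRows (Matrix.fromRows (c • (1 : Matrix (Fin 248) (Fin 248) R)) 0) N *ᵥ w)
      = (D.c0 S * c) • w := by
  rw [Matrix.mulVec_mulVec, CoreData.ev, Matrix.fromCols_mul_fromRows,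
    Matrix.fromCols_mul_fromRows]
  simp [Matrix.smul_mulVec, smul_smul, mul_comm]

theorem pcol_mulVec (p : Fin 248 → R) (y : Unit → R) : pcol p *ᵥ y = y () • p := by
  funext i
  simp [pcol, Matrix.mulVec, dotProduct, mul_comm]

theorem prX_mulVec (y : Unit ⊕ J → R) : prX R J *ᵥ y = fun j => y (Sum.inr j) := by
  rw [prX, Matrix.fromCols_mulVec, Matrix.zero_mulVec, Matrix.one_mulVec, zero_add]
  rfl

/-- a vector of `p^⊥` orthogonal to `aa z` for all cocycles `z` lies in `F⁰` -/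
theorem mem_F0_of_orth (S : Setup R p a) {w : Fin 248 → R} (hp : kf p w = 0)
    (h : ∀ z ∈ D.X.Z0, kf w (D.aa *ᵥ z) = 0) : w ∈ F0 p := by
  have := S.char0
  rw [F0_iff S.cone S.p_ne]
  intro x hx
  obtain ⟨z, hz, r, rfl⟩ := D.surj x hx
  have h1 : kf w (D.aa *ᵥ z + r • p) = kf w (D.aa *ᵥ z) + r * kf w p := by
    rw [kf_eq, Matrix.mulVec_add, Matrix.mulVec_smul, dotProduct_add, dotProduct_smul, ← kf_eq,
      ← kf_eq, smul_eq_mul]
  rw [h1, h z hz, kf_comm w p, hp, mul_zero, add_zero]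

/-- local representatives in `W` of the functionals on `X⁰` -/
theorem exists_wl (S : Setup R p a) (i : Fin 6) : ∃ n : ℕ, ∃ wl : Matrix (Fin 248) J R,
    (∀ l ∈ D.X.dual.Z0, kf p (wl *ᵥ l) = 0 ∧
      ∀ z ∈ D.X.Z0, kf (wl *ᵥ l) (D.aa *ᵥ z) = a i ^ n * (l ⬝ᵥ z)) ∧
    (∀ l ∈ D.X.dual.B0, wl *ᵥ l ∈ F0 p) := by
  have := S.char0
  obtain ⟨n, sg, h1, h2, h3⟩ := D.exists_sig S i
  obtain ⟨kI, hk1, hk2⟩ := exists_kM_inv (R := R)
  have hdot : ∀ (l : J → R) (x : Fin 248 → R), kf ((prX R J * sg * kI)ᵀ *ᵥ l) x =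
      l ⬝ᵥ (prX R J *ᵥ (sg *ᵥ x)) := by
    intro l x
    rw [kf_eq, Matrix.mulVec_transpose, ← Matrix.dotProduct_mulVec, Matrix.mulVec_mulVec,
      Matrix.mul_assoc, hk2, Matrix.mul_one, ← Matrix.mulVec_mulVec]
  have hu : ∀ l ∈ D.X.dual.Z0, ∀ y ∈ D.X2.Z0,
      kf ((prX R J * sg * kI)ᵀ *ᵥ l) (D.u *ᵥ y) = a i ^ n * (l ⬝ᵥ (prX R J *ᵥ y)) := by
    intro l hl y hy
    rw [hdot]
    have e1 : sg *ᵥ (D.u *ᵥ y) - a i ^ n • y ∈ D.X2.B0 := by
      refine D.u_ker (sub_mem (h1 _) (D.X2.Z0.smul_mem _ hy)) ?_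
      rw [Matrix.mulVec_sub, Matrix.mulVec_smul, h3 _ (D.u_mem S hy), sub_self]
    have e2 := dual_dot_B0 hl (Cl.mem_B0 D.cl_prX e1)
    rw [Matrix.mulVec_sub, Matrix.mulVec_smul, dotProduct_sub, dotProduct_smul, sub_eq_zero,
      smul_eq_mul] at e2
    exact e2
  refine ⟨n, (prX R J * sg * kI)ᵀ, ?_, ?_⟩
  · intro l hl
    refine ⟨?_, ?_⟩
    · have hy : (Sum.elim (fun _ => 1) 0 : Unit ⊕ J → R) ∈ D.X2.Z0 := by
        rw [D.mem_Z0_X2]
        exact zero_mem _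
      have := hu l hl _ hy
      rw [D.u_mulVec, prX_mulVec] at this
      have e0 : (fun j : J => (Sum.elim (fun _ => 1) 0 : Unit ⊕ J → R) (Sum.inr j)) = 0 := rfl
      have e1 : (Sum.elim (fun _ => 1) 0 : Unit ⊕ J → R) (Sum.inl ()) = 1 := rfl
      rw [e0, e1, Matrix.mulVec_zero, zero_add, dotProduct_zero, mul_zero, one_smul] at this
      rw [kf_comm, this]
    · intro z hz
      have hy : (Sum.elim (fun _ => 0) z : Unit ⊕ J → R) ∈ D.X2.Z0 := by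
        rw [D.mem_Z0_X2]
        exact hz
      have := hu l hl _ hy
      rw [D.u_mulVec, prX_mulVec] at this
      have e0 : (fun j : J => (Sum.elim (fun _ => 0) z : Unit ⊕ J → R) (Sum.inr j)) = z := rfl
      have e1 : (Sum.elim (fun _ => 0) z : Unit ⊕ J → R) (Sum.inl ()) = 0 := rfl
      rw [e0, e1, zero_smul, add_zero] at this
      exact this
  · intro l hl
    rw [F0_iff S.cone S.p_ne]
    intro x _
    rw [hdot]
    exact dual_B0_dot hl (Cl.mem_Z0 D.cl_prX (h1 x))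

/-! ### the bracket `F⁻¹ ⊗ F¹ → F⁰` and the action -/

theorem exists_Dh (S : Setup R p a) :
    ∃ Dh : Matrix ((Fin 248 ⊕ (Unit ⊕ J)) ⊕ (Unit ⊕ J)) (J × J) R,
      Cl (D.X.dual.tensor D.X) (D.G S) 0 Dh ∧
      ∀ l ∈ D.X.dual.Z0, ∀ z ∈ D.X.Z0, ∀ (w : Fin 248 → R) (c : R), kf p w = 0 →
        (∀ z' ∈ D.X.Z0, kf w (D.aa *ᵥ z') = c * (l ⬝ᵥ z')) →
        c • (D.ev S *ᵥ (Dh *ᵥ tv l z)) - D.c0 S • br w (D.aa *ᵥ z) ∈ F1 p := by
  have hch := S.char0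
  have hp0 := S.p_ne
  choose n wl hwl hwl' using D.exists_wl S
  choose m N hN using D.exists_inc S
  let I : Fin 6 → Matrix ((Fin 248 ⊕ (Unit ⊕ J)) ⊕ (Unit ⊕ J)) (Fin 248) R := fun i =>
    Matrix.fromRows (Matrix.fromRows (a i ^ m i • 1) 0) (N i)
  let Φ : Fin 6 → Matrix ((Fin 248 ⊕ (Unit ⊕ J)) ⊕ (Unit ⊕ J)) (J × J) R := fun i =>
    I i * brM R * (wl i ⊗ₖ D.aa)
  have hΦ : ∀ i l z, Φ i *ᵥ vk l z = I i *ᵥ br (wl i *ᵥ l) (D.aa *ᵥ z) := by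
    intro i l z
    show (I i * brM R * (wl i ⊗ₖ D.aa)) *ᵥ vk l z = _
    rw [← Matrix.mulVec_mulVec, ← Matrix.mulVec_mulVec, kron_mulVec_vk, brM_vk]
  have hevI : ∀ i x, D.ev S *ᵥ (I i *ᵥ x) = (D.c0 S * a i ^ m i) • x := fun i x =>
    D.ev_inc S _ _ _
  have hΦev : ∀ i l z, D.ev S *ᵥ (Φ i *ᵥ vk l z) =
      (D.c0 S * a i ^ m i) • br (wl i *ᵥ l) (D.aa *ᵥ z) := by
    intro i l z
    rw [hΦ, hevI]
  have hZ : ∀ i, ∀ l ∈ D.X.dual.Z0, ∀ z ∈ D.X.Z0, Φ i *ᵥ vk l z ∈ (D.G S).Z0 := by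
    intro i l hl z hz
    rw [hΦ]
    exact hN i _ (br_perp_F1 S.cone hp0 (hwl i l hl).1 (D.mem z hz))
  obtain ⟨f, hf, hfΦ⟩ := lift2 a S.reg S.ne (K₁ := D.X.dual) (K₂ := D.X) (L := D.G S)
    (fun i => (D.ue i).dual) D.ue (D.ue_G S) (by
      intro i j k
      have h1 := D.le_G S i
      have h2 := D.le_deg j
      have h3 := D.deg_le k
      rw [dual_deg]
      omega) (fun i => n i + m i) Φ hZ (by
      intro i l hl z hz
      refine D.bt_of_ev S (hZ i l (b0_le_z0 _ hl) z hz) ?_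
      rw [hΦev]
      exact F1_smul _ (br_F0_F1 S.cone hp0 (hwl' i l hl) (D.mem z hz))) (by
      intro i l hl z hz
      refine D.bt_of_ev S (hZ i l hl z (b0_le_z0 _ hz)) ?_
      rw [hΦev]
      obtain ⟨v, hv, rfl⟩ := hz
      have e1 : D.aa *ᵥ (D.X.d *ᵥ v) = (-(D.ph *ᵥ v) ()) • p := by
        rw [Matrix.mulVec_mulVec, D.aa_d, Matrix.neg_mulVec, ← Matrix.mulVec_mulVec, pcol_mulVec,
          neg_smul]
      rw [e1, br_smul_right, br_skew (wl i *ᵥ l) p]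
      refine F1_smul _ (F1_smul _ ?_)
      have e2 := br_p_perp S.cone hp0 (hwl i l hl).1
      have e3 := F1_smul (-1 : R) e2
      rwa [neg_one_smul] at e3) (by
      intro i j l hl z hz
      have hz1 : a j ^ (n j + m j) • Φ i *ᵥ vk l z - a i ^ (n i + m i) • Φ j *ᵥ vk l z ∈
          (D.G S).Z0 :=
        sub_mem ((D.G S).Z0.smul_mem _ (hZ i l hl z hz)) ((D.G S).Z0.smul_mem _ (hZ j l hl z hz))
      refine D.bt_of_ev S hz1 ?_
      have e1 : D.ev S *ᵥ (a j ^ (n j + m j) • Φ i *ᵥ vk l z - a i ^ (n i + m i) • Φ j *ᵥ vk l z) =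
          D.c0 S • br ((a j ^ (n j + m j) * a i ^ m i) • (wl i *ᵥ l) -
            (a i ^ (n i + m i) * a j ^ m j) • (wl j *ᵥ l)) (D.aa *ᵥ z) := by
        rw [Matrix.mulVec_sub, Matrix.mulVec_smul, Matrix.mulVec_smul, hΦev, hΦev, br_sub_left,
          br_smul_left, br_smul_left, smul_sub, smul_smul, smul_smul, smul_smul, smul_smul]
        congr 2 <;> ring
      rw [e1]
      refine F1_smul _ (br_F0_F1 S.cone hp0 (D.mem_F0_of_orth S ?_ ?_) (D.mem z hz))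
      · rw [kf_comm, kf_sub_left, kf_smul_left, kf_smul_left, kf_comm _ p, kf_comm _ p,
          (hwl i l hl).1, (hwl j l hl).1]
        ring
      · intro z' hz'
        rw [kf_sub_left, kf_smul_left, kf_smul_left, (hwl i l hl).2 z' hz', (hwl j l hl).2 z' hz']
        ring)
  refine ⟨f, hf, ?_⟩
  intro l hl z hz w c hpw hw
  have h1 := D.ev_mem_F1 S (hfΦ 0 l hl z hz)
  rw [Matrix.mulVec_sub, Matrix.mulVec_smul, hΦev] at h1
  have h2 : (c * a 0 ^ m 0) • (wl 0 *ᵥ l) - a 0 ^ (n 0 + m 0) • w ∈ F0 p := by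
    refine D.mem_F0_of_orth S ?_ ?_
    · rw [kf_comm, kf_sub_left, kf_smul_left, kf_smul_left, kf_comm _ p, kf_comm _ p,
        (hwl 0 l hl).1, hpw]
      ring
    · intro z' hz'
      rw [kf_sub_left, kf_smul_left, kf_smul_left, (hwl 0 l hl).2 z' hz', hw z' hz']
      ring
  have h3 := br_F0_F1 S.cone hp0 h2 (D.mem z hz)
  have h4 := F1_add (F1_smul c h1) (F1_smul (D.c0 S) h3)
  refine F1_of_smul (pow_ne_zero (n 0 + m 0) (S.ne 0)) ?_
  have e1 : a 0 ^ (n 0 + m 0) • (c • (D.ev S *ᵥ (f *ᵥ tv l z)) - D.c0 S • br w (D.aa *ᵥ z)) =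
      c • (a 0 ^ (n 0 + m 0) • D.ev S *ᵥ (f *ᵥ vk l z) -
        (D.c0 S * a 0 ^ m 0) • br (wl 0 *ᵥ l) (D.aa *ᵥ z)) +
      D.c0 S • br ((c * a 0 ^ m 0) • (wl 0 *ᵥ l) - a 0 ^ (n 0 + m 0) • w) (D.aa *ᵥ z) := by
    rw [br_sub_left, br_smul_left, br_smul_left]
    have e2 : (tv l z : J × J → R) = vk l z := rfl
    rw [e2]
    module
  rw [e1]
  exact h4

noncomputable def Dh (S : Setup R p a) :
    Matrix ((Fin 248 ⊕ (Unit ⊕ J)) ⊕ (Unit ⊕ J)) (J × J) R := (D.exists_Dh S).choose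

end CoreData

end LicciCore
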