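import Pool.Agent.Work.MP_a98e4e_ag.Core.Obj

/-!
# Local sections of the class of a cocycle of `G`
-/

set_option autoImplicit false
set_option linter.unusedSectionVars false

open Matrix Kronecker RingTheory.Sequence IsLocalRing

namespace LicciCore

open LicciCx Cx Pool.Agent.Licci

universe u

/-- the explicit form of `dual_bd_of_pair` -/
theorem dual_bd_explicit {R : Type*} [CommRing R] {J : Type*} [Fintype J] [DecidableEq J]
    {K : Cx R J} {c : R} {h : Matrix J J R} (hh : IsCon K c h) {l : J → R} (hl : l ∈ K.dual.Z0)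
    (h0 : ∀ z ∈ K.Z0, l ⬝ᵥ z = 0) : c • l = K.dual.d *ᵥ ((-(K.e * hᵀ)) *ᵥ l) := by
  have he : K.e *ᵥ l = l := by
    funext j
    show (Matrix.diagonal (fun j => ((sg (K.deg j) : ℤ) : R)) *ᵥ l) j = l j
    rw [Matrix.mulVec_diagonal]
    by_cases hj : K.deg j = 0
    · rw [hj, sg_zero]; simp
    · rw [hl.1 j (by rw [dual_deg]; omega), mul_zero]
  have hdt : K.dual.d = -(K.dᵀ * K.e) := by
    rw [dual_d, Matrix.transpose_mul, ep_transpose]
  have hd : K.dᵀ *ᵥ l = 0 := by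
    have h1 := hl.2
    rw [hdt, Matrix.neg_mulVec, ← Matrix.mulVec_mulVec, he, neg_eq_zero] at h1
    exact h1
  have hp : (K.pr c h)ᵀ *ᵥ l = 0 := by
    funext j
    have h1 : (fun i => K.pr c h i j) ∈ K.Z0 := by
      refine ⟨fun i hi => hh.sup i j (by rintro ⟨h1, -⟩; exact hi h1), ?_⟩
      funext i
      exact congrFun (congrFun hh.d_pr i) j
    have h2 := h0 _ h1
    rw [dotProduct_comm] at h2
    exact h2
  have h3 : c • (1 : Matrix J J R) = K.pr c h + (K.d * h + h * K.d) := by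
    rw [pr]; abel
  have h4 : c • l = (c • (1 : Matrix J J R))ᵀ *ᵥ l := by
    rw [Matrix.transpose_smul, Matrix.transpose_one, Matrix.smul_mulVec, Matrix.one_mulVec]
  rw [h4, h3, Matrix.transpose_add, Matrix.add_mulVec, hp, zero_add, Matrix.transpose_add,
    Matrix.add_mulVec, Matrix.transpose_mul, Matrix.transpose_mul, ← Matrix.mulVec_mulVec, hd,
    Matrix.mulVec_zero, zero_add, hdt, Matrix.mulVec_mulVec, Matrix.neg_mul, Matrix.mul_neg, neg_neg,
    Matrix.mul_assoc K.dᵀ, ← Matrix.mul_assoc K.e, K.e_mul_self, Matrix.one_mul]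

namespace CoreData

variable {R : Type u} [CommRing R] [IsDomain R] [IsLocalRing R] {p : Fin 248 → R}
  {a : Fin 6 → R} {J : Type} [Fintype J] [DecidableEq J] (D : CoreData R p a J)

/-- local sections `F⁰ → Z⁰(G)` -/
theorem exists_inc (S : Setup R p a) (i : Fin 6) : ∃ n : ℕ,
    ∃ N : Matrix (Unit ⊕ J) (Fin 248) R, ∀ w ∈ F0 p,
      Matrix.fromRows (Matrix.fromRows (a i ^ n • 1) 0) N *ᵥ w ∈ (D.G S).Z0 := by
  have := S.char0
  obtain ⟨n, h, hh⟩ := D.ue_X2 i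
  refine ⟨n, -(D.X2.e * hᵀ) * (D.uᵀ * kM R), fun w hw => ?_⟩
  set l := (D.uᵀ * kM R) *ᵥ w with hl
  have hl0 : l ∈ D.X2.dual.Z0 := by
    refine ⟨fun j hj => ?_, ?_⟩
    · exact Vh.mulVec (K := free R (Fin 248) 0) (m := 0) D.cl_ut.hmg
        (fun j hj => absurd rfl hj) j (by rw [zero_add]; exact hj)
    · rw [hl, Matrix.mulVec_mulVec, D.cl_ut.comm0, free_d, Matrix.mul_zero, Matrix.zero_mulVec]
  have hz : ∀ z ∈ D.X2.Z0, l ⬝ᵥ z = 0 := by
    intro z hz
    rw [hl, ← Matrix.mulVec_mulVec, Matrix.mulVec_transpose, ← Matrix.dotProduct_mulVec, dot_kM]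
    exact D.u_mem S hz _ hw
  have key := dual_bd_explicit hh hl0 hz
  rw [Matrix.fromRows_mulVec, Matrix.fromRows_mulVec, Matrix.smul_mulVec, Matrix.one_mulVec,
    Matrix.zero_mulVec]
  have hG : (D.G S).d = Matrix.fromBlocks D.JJ.d 0 (D.jj S) (-D.X2.dual.d) := rfl
  have hJ : D.JJ.d = Matrix.fromBlocks (free R (Fin 248) 0).d D.u 0 (-D.X2.d) := rfl
  refine ⟨?_, ?_⟩
  · rintro ((j | j) | j) hj
    · exact absurd rfl hj
    · rfl
    · show ((-(D.X2.e * hᵀ) * (D.uᵀ * kM R)) *ᵥ w) j = 0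
      have h1 : IsHmg D.X2.dual D.X2.dual (-1) (-(D.X2.e * hᵀ)) :=
        (Hmg.mul' (p' := D.X2.dual.deg) (by
          have := D.X2.dual.e_hmg
          rw [dual_e] at this
          exact this) (IsHmg.transpose (K := D.X2) (L := D.X2) hh.hmg) (by ring)).neg
      rw [← Matrix.mulVec_mulVec]
      refine Vh.mulVec (K := D.X2.dual) (L := D.X2.dual) (m := 0) h1 hl0.1 j ?_
      intro h2
      apply hj
      show D.X2.dual.deg j + 1 = 0
      rw [h2]; rfl
  · rw [hG, Matrix.fromBlocks_mulVec, hJ]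
    have e1 : (Sum.elim (Sum.elim (a i ^ n • w) (0 : Unit ⊕ J → R))
        ((-(D.X2.e * hᵀ) * (D.uᵀ * kM R)) *ᵥ w) ∘ Sum.inl) =
        Sum.elim (a i ^ n • w) (0 : Unit ⊕ J → R) := rfl
    have e2 : (Sum.elim (Sum.elim (a i ^ n • w) (0 : Unit ⊕ J → R))
        ((-(D.X2.e * hᵀ) * (D.uᵀ * kM R)) *ᵥ w) ∘ Sum.inr) =
        (-(D.X2.e * hᵀ)) *ᵥ l := by
      rw [hl, Matrix.mulVec_mulVec]; rfl
    rw [e1, e2, Matrix.fromBlocks_mulVec]
    have e3 : D.jj S *ᵥ Sum.elim (a i ^ n • w) (0 : Unit ⊕ J → R) = a i ^ n • l := by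
      rw [jj, Matrix.fromCols_mulVec_sumElim, Matrix.mulVec_zero, add_zero, Matrix.mulVec_smul]
    have e4 : ∀ v : Unit ⊕ J → R, D.X2.dual.d *ᵥ v + -D.X2.dual.d *ᵥ v = 0 := by
      intro v
      rw [Matrix.neg_mulVec, add_neg_cancel]
    rw [e3, key, e4]
    funext j
    rcases j with (j | j) | j <;> simp [free_d]

end CoreData

end LicciCore
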