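import Pool.Agent.Work.MP_a98e4e_ag.Core.Defs
import Pool.Agent.Work.MP_a98e4e_ag.Cx.HomDepth
import Pool.Agent.Work.MP_a98e4e_ag.Cx.Maps
import Pool.Agent.Work.MP_a98e4e_ag.Core.Facts

/-!
# The complexes `X`, `X''`, `JJ`, `G`
-/

set_option autoImplicit false
set_option linter.unusedSectionVars false

open Matrix Kronecker RingTheory.Sequence IsLocalRing

namespace LicciCore

open LicciCx Cx Pool.Agent.Licci

universe u

/-- `p` as a column -/
def pcol {R : Type*} (p : Fin 248 → R) : Matrix (Fin 248) Unit R := Matrix.of fun i _ => p i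

/-- `X`, with the map `aa` to `W = e_8(R)` and `ph : X_{-1} → R`; `Z⁰(X'')` is mapped onto `F1 p` by
`(r, z) ↦ aa z + r p` with kernel `B⁰(X'')`. -/
structure CoreData (R : Type u) [CommRing R] [IsDomain R] [IsLocalRing R] (p : Fin 248 → R)
    (a : Fin 6 → R) (J : Type) [Fintype J] [DecidableEq J] where
  X : Cx R J
  deg_le : ∀ j, X.deg j ≤ 1
  le_deg : ∀ j, -1 ≤ X.deg j
  min : ∀ i j, X.d i j ∈ maximalIdeal R
  ue : ∀ i, UE X (a i)
  aa : Matrix (Fin 248) J R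
  aa_deg : ∀ i j, X.deg j ≠ 0 → aa i j = 0
  ph : Matrix Unit J R
  ph_deg : ∀ i j, X.deg j ≠ -1 → ph i j = 0
  aa_d : aa * X.d = -(pcol p * ph)
  mem : ∀ z ∈ X.Z0, aa *ᵥ z ∈ F1 p
  surj : ∀ x ∈ F1 p, ∃ z ∈ X.Z0, ∃ r : R, x = aa *ᵥ z + r • p
  ker : ∀ z ∈ X.Z0, ∀ r : R, aa *ᵥ z + r • p = 0 → ∃ w, Vh X (-1) w ∧ z = X.d *ᵥ w ∧
    r = (ph *ᵥ w) ()

/-- properties of the ring and of `p` -/
structure Setup (R : Type u) [CommRing R] [IsDomain R] [IsLocalRing R] (p : Fin 248 → R)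
    (a : Fin 6 → R) : Prop where
  rat : Nonempty (Algebra ℚ R)
  char0 : CharZero R
  reg : IsWeaklyRegular R (List.ofFn a)
  ne : ∀ i, a i ≠ 0
  mem : ∀ i, a i ∈ maximalIdeal R
  cone : Cone p
  pmem : ∀ i, ∃ n : ℕ, ∃ e : Fin 248 → R, kf p e = a i ^ n
  top : ∃ q : Fin 8, p (ix q) ≠ 0
  sat : Sat p
  proj : ∀ i, ∃ n : ℕ, ∃ Pi : Matrix (Fin 248) (Fin 248) R, (∀ y, Pi *ᵥ y ∈ F1 p) ∧
    ∀ x ∈ F1 p, Pi *ᵥ x = a i ^ n • x

section aux

variable {R : Type*} [CommRing R]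

/-- the inverse of the matrix of the form -/
noncomputable def kMi (R : Type*) [CommRing R] : Matrix (Fin 248) (Fin 248) R :=
  (exists_kM_inv (R := R)).choose

theorem kM_kMi (R : Type*) [CommRing R] : kM R * kMi R = 1 :=
  (exists_kM_inv (R := R)).choose_spec.1

theorem kMi_kM (R : Type*) [CommRing R] : kMi R * kM R = 1 :=
  (exists_kM_inv (R := R)).choose_spec.2

theorem dot_kM (x y : Fin 248 → R) : (kM R *ᵥ y) ⬝ᵥ x = kf x y := by
  rw [kf_eq, dotProduct_comm]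

/-- a cocycle of the dual which vanishes on the cocycles is a boundary up to a scalar -/
theorem dual_bd_of_pair {J : Type*} [Fintype J] [DecidableEq J] {K : Cx R J} {c : R}
    {h : Matrix J J R} (hh : IsCon K c h) {l : J → R} (hl : l ∈ K.dual.Z0)
    (h0 : ∀ z ∈ K.Z0, l ⬝ᵥ z = 0) : ∃ w, c • l = K.dual.d *ᵥ w := by
  have he : K.e *ᵥ l = l := by
    funext j
    show (Matrix.diagonal (fun j => ((sg (K.deg j) : ℤ) : R)) *ᵥ l) j = l j
    rw [Matrix.mulVec_diagonal]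
    by_cases hj : K.deg j = 0
    · rw [hj, sg_zero]; simp
    · rw [hl.1 j (by rw [dual_deg]; omega), mul_zero]
  have hdt : K.dual.d = -(K.dᵀ * K.e) := by
    rw [dual_d, Matrix.transpose_mul, ep_transpose]
  have hd : K.dᵀ *ᵥ l = 0 := by
    have h1 := hl.2
    rw [hdt, Matrix.neg_mulVec, ← Matrix.mulVec_mulVec, he, neg_eq_zero] at h1
    exact h1
  have hp : (K.pr c h)ᵀ *ᵥ l = 0 := by
    funext j
    have h1 : (fun i => K.pr c h i j) ∈ K.Z0 := by
      refine ⟨fun i hi => hh.sup i j (by rintro ⟨h1, -⟩; exact hi h1), ?_⟩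
      funext i
      exact congrFun (congrFun hh.d_pr i) j
    have h2 := h0 _ h1
    rw [dotProduct_comm] at h2
    exact h2
  refine ⟨-(K.e *ᵥ (hᵀ *ᵥ l)), ?_⟩
  have h3 : c • (1 : Matrix J J R) = K.pr c h + (K.d * h + h * K.d) := by
    rw [pr]; abel
  have h4 : c • l = (c • (1 : Matrix J J R))ᵀ *ᵥ l := by
    rw [Matrix.transpose_smul, Matrix.transpose_one, Matrix.smul_mulVec, Matrix.one_mulVec]
  rw [h4, h3, Matrix.transpose_add, Matrix.add_mulVec, hp, zero_add, Matrix.transpose_add,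
    Matrix.add_mulVec, Matrix.transpose_mul, Matrix.transpose_mul, ← Matrix.mulVec_mulVec, hd,
    Matrix.mulVec_zero, zero_add, hdt, Matrix.mulVec_neg, Matrix.neg_mulVec, neg_neg,
    Matrix.mulVec_mulVec, Matrix.mul_assoc, K.e_mul_self, Matrix.mul_one, Matrix.mulVec_mulVec]

/-- a matrix whose columns are cocycles of degree `0` -/
theorem cl_of_cols {J A : Type*} [Fintype J] [Fintype A] [DecidableEq J] [DecidableEq A]
    {K : Cx R J} {f : Matrix J A R} (h : ∀ y, f *ᵥ y ∈ K.Z0) : Cl (free R A 0) K 0 f := by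
  have hcol : ∀ k, (fun j => f j k) ∈ K.Z0 := by
    intro k
    have := h (Pi.single k 1)
    rwa [Matrix.mulVec_single_one] at this
  refine Cl.mk0 ?_ ?_
  · intro i j hij
    exact (hcol j).1 i (by rw [free_deg] at hij; simpa using hij)
  · rw [free_d, Matrix.mul_zero]
    ext i j
    exact congrFun (hcol j).2 i

end aux

theorem Setup.p_ne {R : Type u} [CommRing R] [IsDomain R] [IsLocalRing R] {p : Fin 248 → R}
    {a : Fin 6 → R} (S : Setup R p a) : p ≠ 0 := by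
  obtain ⟨q, hq⟩ := S.top
  intro h
  exact hq (congrFun h _)

namespace CoreData

variable {R : Type u} [CommRing R] [IsDomain R] [IsLocalRing R] {p : Fin 248 → R}
  {a : Fin 6 → R} {J : Type} [Fintype J] [DecidableEq J] (D : CoreData R p a J)

theorem cl_ph : Cl D.X (free R Unit 0) 1 D.ph := by
  refine Cl.mk1 (fun i j h => D.ph_deg i j (by intro h1; apply h; rw [free_deg, h1]; rfl)) ?_
  rw [free_d, Matrix.zero_mul]
  ext i j
  rw [Matrix.zero_apply, Matrix.neg_apply, eq_comm, neg_eq_zero, Matrix.mul_apply]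
  refine Finset.sum_eq_zero fun k _ => ?_
  by_cases hk : D.X.deg k = -1
  · rw [D.X.hmg k j (by intro h; have := D.le_deg j; omega), mul_zero]
  · rw [D.ph_deg i k hk, zero_mul]

/-- `X''`, on `Unit ⊕ J` -/
def X2 : Cx R (Unit ⊕ J) := ext D.cl_ph

/-- the map `X'' → W` -/
def u : Matrix (Fin 248) (Unit ⊕ J) R := Matrix.fromCols (pcol p) D.aa

theorem cl_aa : IsHmg D.X (free R (Fin 248) 0) 0 D.aa :=
  fun i j h => D.aa_deg i j (by intro h1; apply h; rw [free_deg, h1]; rfl)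

theorem cl_pcol : Cl (free R Unit 0) (free R (Fin 248) 0) 0 (pcol p) :=
  Cl.mk0 (fun i j h => (h (by simp)).elim) (by simp)

theorem cl_u : Cl D.X2 (free R (Fin 248) 0) 0 D.u := by
  refine Cl.ofExt D.cl_ph cl_pcol D.cl_aa ?_
  rw [free_d, Matrix.zero_mul, D.aa_d]
  simp

/-- the projection `X'' → X` -/
def prX (R : Type*) [CommRing R] (J : Type*) [DecidableEq J] : Matrix J (Unit ⊕ J) R :=
  Matrix.fromCols 0 1

theorem cl_prX : Cl D.X2 D.X 0 (prX R J) := ext_pr D.cl_ph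

theorem ue_X2 (i : Fin 6) : UE D.X2 (a i) := UE.ext (UE.free _) (D.ue i) D.cl_ph

/-- `J = cone (X'' → W) ≃ W / F¹` -/
def JJ : Cx R (Fin 248 ⊕ (Unit ⊕ J)) := cone D.cl_u

/-- cocycles of `X''` -/
theorem mem_Z0_X2 {y : Unit ⊕ J → R} :
    y ∈ D.X2.Z0 ↔ (fun j => y (Sum.inr j)) ∈ D.X.Z0 := by
  have hd : D.X2.d *ᵥ y = Sum.elim (D.ph *ᵥ fun j => y (Sum.inr j))
      (D.X.d *ᵥ fun j => y (Sum.inr j)) := by
    rw [show D.X2.d = Matrix.fromBlocks (free R Unit 0).d D.ph 0 D.X.d from rfl,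
      Matrix.fromBlocks_mulVec, free_d, Matrix.zero_mulVec, Matrix.zero_mulVec, zero_add, zero_add]
    rfl
  constructor
  · rintro ⟨h1, h2⟩
    refine ⟨fun j hj => h1 (Sum.inr j) hj, ?_⟩
    rw [hd] at h2
    funext j
    exact congrFun h2 (Sum.inr j)
  · rintro ⟨h1, h2⟩
    refine ⟨?_, ?_⟩
    · rintro (j | j) hj
      · exact absurd rfl hj
      · exact h1 j hj
    · rw [hd]
      funext j
      rcases j with j | j
      · show (D.ph *ᵥ fun j => y (Sum.inr j)) j = 0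
        rw [Matrix.mulVec, dotProduct]
        refine Finset.sum_eq_zero fun k _ => ?_
        by_cases hk : D.X.deg k = 0
        · rw [D.ph_deg j k (by omega), zero_mul]
        · have h3 : y (Sum.inr k) = 0 := h1 k hk
          show D.ph j k * y (Sum.inr k) = 0
          rw [h3, mul_zero]
      · exact congrFun h2 j

theorem u_mulVec (y : Unit ⊕ J → R) :
    D.u *ᵥ y = D.aa *ᵥ (fun j => y (Sum.inr j)) + y (Sum.inl ()) • p := by
  have h1 : y = Sum.elim (fun _ => y (Sum.inl ())) (fun j => y (Sum.inr j)) := by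
    funext j; rcases j with j | j <;> rfl
  conv_lhs => rw [h1]
  rw [u, Matrix.fromCols_mulVec_sumElim, add_comm]
  congr 1
  funext i
  simp [Matrix.mulVec, dotProduct, pcol, mul_comm]

theorem u_mem (S : Setup R p a) {y : Unit ⊕ J → R} (hy : y ∈ D.X2.Z0) : D.u *ᵥ y ∈ F1 p := by
  have := S.char0
  rw [u_mulVec]
  exact F1_add (D.mem _ (D.mem_Z0_X2.1 hy)) (F1_smul _ (p_mem S.cone))

theorem u_surj {x : Fin 248 → R} (hx : x ∈ F1 p) : ∃ y ∈ D.X2.Z0, D.u *ᵥ y = x := by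
  obtain ⟨z, hz, r, h⟩ := D.surj x hx
  refine ⟨Sum.elim (fun _ => r) z, D.mem_Z0_X2.2 hz, ?_⟩
  rw [u_mulVec, h]
  rfl

theorem u_ker {y : Unit ⊕ J → R} (hy : y ∈ D.X2.Z0) (h : D.u *ᵥ y = 0) : y ∈ D.X2.B0 := by
  rw [u_mulVec] at h
  obtain ⟨w, hw, h1, h2⟩ := D.ker _ (D.mem_Z0_X2.1 hy) _ h
  refine ⟨Sum.elim 0 w, ?_, ?_⟩
  · rintro (j | j) hj
    · rfl
    · exact hw j hj
  · rw [show D.X2.d = Matrix.fromBlocks (free R Unit 0).d D.ph 0 D.X.d from rfl,
      Matrix.fromBlocks_mulVec]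
    funext j
    rcases j with j | j
    · rw [h2]; simp [Function.comp_def]
    · rw [show y (Sum.inr j) = _ from congrFun h1 j]; simp [Function.comp_def]

/-- local retraction `W → Z⁰(X'')` -/
theorem exists_sig (S : Setup R p a) (i : Fin 6) : ∃ n : ℕ, ∃ sg : Matrix (Unit ⊕ J) (Fin 248) R,
    (∀ y, sg *ᵥ y ∈ D.X2.Z0) ∧ (∀ y, D.u *ᵥ (sg *ᵥ y) ∈ F1 p) ∧
      ∀ x ∈ F1 p, D.u *ᵥ (sg *ᵥ x) = a i ^ n • x := by
  obtain ⟨n, Q, h1, h2⟩ := S.proj i
  choose f hf using fun k => D.u_surj (h1 (Pi.single k 1))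
  have hsum : ∀ y, (Matrix.of fun j k => f k j) *ᵥ y = ∑ k, y k • f k := by
    intro y
    funext j
    simp [Matrix.mulVec, dotProduct, Finset.sum_apply, mul_comm]
  have hu : ∀ y, D.u *ᵥ ((Matrix.of fun j k => f k j) *ᵥ y) = Q *ᵥ y := by
    intro y
    rw [hsum, Matrix.mulVec_sum]
    have h3 : y = ∑ k, y k • Pi.single k (1 : R) := by
      funext j
      simp [Finset.sum_apply, Pi.single_apply]
    conv_rhs => rw [h3, Matrix.mulVec_sum]
    refine Finset.sum_congr rfl fun k _ => ?_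
    rw [Matrix.mulVec_smul, Matrix.mulVec_smul, (hf k).2]
  refine ⟨n, Matrix.of fun j k => f k j, ?_, ?_, ?_⟩
  · intro y
    rw [hsum]
    exact Submodule.sum_mem _ fun k _ => Submodule.smul_mem _ _ (hf k).1
  · intro y
    rw [hu]
    exact h1 y
  · intro x hx
    rw [hu]
    exact h2 x hx

theorem X2_deg_le (j : Unit ⊕ J) : D.X2.deg j ≤ 1 := by
  rcases j with j | j
  · exact zero_le_one
  · exact D.deg_le j

theorem le_X2_deg (j : Unit ⊕ J) : -1 ≤ D.X2.deg j := by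
  rcases j with j | j
  · show (-1 : ℤ) ≤ 0
    norm_num
  · exact D.le_deg j

/-- `X'' → W → X''` is homotopic to a scalar -/
theorem bd_sig (S : Setup R p a) {n : ℕ} {i : Fin 6} {sg : Matrix (Unit ⊕ J) (Fin 248) R}
    (h1 : ∀ y, sg *ᵥ y ∈ D.X2.Z0) (h2 : ∀ x ∈ F1 p, D.u *ᵥ (sg *ᵥ x) = a i ^ n • x) :
    Bd D.X2 D.X2 0 (sg * D.u - a i ^ n • (1 : Matrix (Unit ⊕ J) (Unit ⊕ J) R)) := by
  have hsg := cl_of_cols h1
  have hcl : Cl D.X2 D.X2 0 (sg * D.u - a i ^ n • (1 : Matrix (Unit ⊕ J) (Unit ⊕ J) R)) :=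
    ((hsg.mul D.cl_u).cast (add_zero 0)).sub (Cl.one.smul _)
  refine Bd.of_cycles a S.reg (fun i => D.ue_X2 i) (fun i => D.ue_X2 i) 2 ?_ (by norm_num) hcl ?_
  · intro i j
    have := D.X2_deg_le j
    have := D.le_X2_deg i
    push_cast
    omega
  · intro v hv hdv
    have hv' : v ∈ D.X2.Z0 := ⟨hv, hdv⟩
    have h3 : (sg * D.u - a i ^ n • (1 : Matrix (Unit ⊕ J) (Unit ⊕ J) R)) *ᵥ v ∈ D.X2.Z0 := by
      rw [Matrix.sub_mulVec, Matrix.smul_mulVec, Matrix.one_mulVec, ← Matrix.mulVec_mulVec]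
      exact Submodule.sub_mem _ (h1 _) (Submodule.smul_mem _ _ hv')
    obtain ⟨w, -, hw⟩ := D.u_ker h3 (by
      rw [Matrix.sub_mulVec, Matrix.smul_mulVec, Matrix.one_mulVec, ← Matrix.mulVec_mulVec,
        Matrix.mulVec_sub, h2 _ (D.u_mem S hv'), Matrix.mulVec_smul, sub_self])
    exact ⟨1, one_ne_zero, w, by rw [one_smul]; exact hw.symm⟩

theorem ue_JJ (S : Setup R p a) (i : Fin 6) : UE D.JJ (a i) := by
  obtain ⟨n, sg, h1, -, h2⟩ := D.exists_sig S i
  exact UE.cone (UE.free _) D.cl_u ⟨n, sg, cl_of_cols h1, D.bd_sig S h1 h2⟩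

theorem u_e : D.u * D.X2.e = D.u := by
  ext i j
  show (D.u * Matrix.diagonal fun j => ((sg (D.X2.deg j) : ℤ) : R)) i j = D.u i j
  rw [Matrix.mul_diagonal]
  by_cases h : D.X2.deg j = 0
  · rw [h, sg_zero]; simp
  · rw [D.cl_u.hmg i j (by rw [free_deg, add_zero]; exact fun h1 => h h1.symm), zero_mul]

theorem cl_ut : Cl (free R (Fin 248) 0) D.X2.dual 0 (D.uᵀ * kM R) := by
  refine Cl.mk0 ?_ ?_
  · have h : IsHmg (free R (Fin 248) 0) D.X2.dual 0 D.uᵀ := by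
      intro i j hij
      exact D.cl_u.hmg j i (by
        rw [free_deg, add_zero]
        intro h1
        apply hij
        rw [free_deg, dual_deg, ← h1]; rfl)
    exact h.mul' (fun i j hij => absurd (by simp [free_deg]) hij) (add_zero 0)
  · rw [free_d, Matrix.mul_zero, dual_d, Matrix.neg_mul, ← Matrix.mul_assoc,
      ← Matrix.transpose_mul, ← Matrix.mul_assoc, u_e]
    have := D.cl_u.comm0
    rw [← this, free_d, Matrix.zero_mul, Matrix.transpose_zero, Matrix.zero_mul, neg_zero]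

/-- the null-homotopy of the form on `X''` -/
theorem exists_kap (S : Setup R p a) : ∃ κ : Matrix (Unit ⊕ J) (Unit ⊕ J) R,
    IsHmg D.X2 D.X2.dual (-1) κ ∧ D.uᵀ * kM R * D.u = D.X2.dual.d * κ + κ * D.X2.d := by
  have := S.char0
  have h0 : Cl D.X2 D.X2.dual 0 (D.uᵀ * kM R * D.u) := (D.cl_ut.mul D.cl_u).cast (add_zero 0)
  have hb : Bd D.X2 D.X2.dual 0 (D.uᵀ * kM R * D.u) := by
    refine Bd.of_cycles a S.reg (fun i => D.ue_X2 i) (fun i => (D.ue_X2 i).dual) 2 ?_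
      (by norm_num) h0 ?_
    · intro i j
      have := D.X2_deg_le j
      have := D.X2_deg_le i
      rw [dual_deg]
      push_cast
      omega
    · intro v hv hdv
      have hv' : v ∈ D.X2.Z0 := ⟨hv, hdv⟩
      obtain ⟨N, hN⟩ := D.ue_X2 0
      obtain ⟨h, hh⟩ := hN
      refine ⟨a 0 ^ N, pow_ne_zero _ (S.ne 0), ?_⟩
      refine dual_bd_of_pair hh ⟨?_, ?_⟩ ?_
      · intro j hj
        exact Vh.mulVec h0.hmg hv j (by rw [zero_add]; exact hj)
      · rw [Matrix.mulVec_mulVec, h0.comm0, ← Matrix.mulVec_mulVec, hdv, Matrix.mulVec_zero]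
      · intro z hz
        rw [← Matrix.mulVec_mulVec, ← Matrix.mulVec_mulVec, Matrix.mulVec_transpose,
          ← Matrix.dotProduct_mulVec, dot_kM]
        exact D.u_mem S hz _ (F1_le_F0 S.cone (D.u_mem S hv'))
  obtain ⟨κ, hκ, h1⟩ := hb
  exact ⟨κ, hκ.cast (by norm_num), by rw [h1, sg_zero]; simp⟩

/-- the null-homotopy of the form on `X''` -/
noncomputable def kap (S : Setup R p a) : Matrix (Unit ⊕ J) (Unit ⊕ J) R :=
  (D.exists_kap S).choose

/-- the map `J → X''^*` -/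
noncomputable def jj (S : Setup R p a) : Matrix (Unit ⊕ J) (Fin 248 ⊕ (Unit ⊕ J)) R :=
  Matrix.fromCols (D.uᵀ * kM R) (D.kap S)

theorem cl_jj (S : Setup R p a) : Cl D.JJ D.X2.dual 0 (D.jj S) :=
  Cl.ofCone D.cl_u D.cl_ut (D.exists_kap S).choose_spec.1 (D.exists_kap S).choose_spec.2

/-- `G = fib (J → X''^*) ≃ F⁰ / F¹` -/
noncomputable def G (S : Setup R p a) : Cx R ((Fin 248 ⊕ (Unit ⊕ J)) ⊕ (Unit ⊕ J)) :=
  fib (D.cl_jj S)

theorem ue_G (S : Setup R p a) (i : Fin 6) : UE (D.G S) (a i) := by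
  obtain ⟨n, sg, h1, -, h2⟩ := D.exists_sig S i
  refine UE.fib (D.ue_JJ S i) (D.cl_jj S) ⟨n, Matrix.fromRows (kMi R * sgᵀ) 0, ?_, ?_⟩
  · have hs := (cl_of_cols h1).transpose
    have hs0 : sgᵀ * D.X2.dual.d = 0 := by
      rw [← hs.comm0, dual_d, free_d, Matrix.mul_zero, Matrix.transpose_zero, neg_zero,
        Matrix.zero_mul]
    refine Cl.mk0 (Hmg.fromRows ?_ Hmg.zero) ?_
    · have h3 : Hmg (fun _ : Fin 248 => (0 : ℤ)) D.X2.dual.deg 0 sgᵀ := by
        intro i j hij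
        exact hs.hmg i j (by rw [dual_deg, free_deg, neg_zero]; exact hij)
      exact Hmg.mul' (p' := fun _ : Fin 248 => (0 : ℤ))
        (fun i j hij => absurd (by simp [free_deg]) hij) h3 (add_zero 0)
    · rw [show D.JJ.d = Matrix.fromBlocks (free R (Fin 248) 0).d D.u 0 (-D.X2.d) from rfl,
        Matrix.fromBlocks_mul_fromRows, Matrix.fromRows_mul, Matrix.mul_assoc, hs0]
      simp
  · have h3 := (D.bd_sig S h1 h2).transpose
    rw [Matrix.transpose_sub, Matrix.transpose_smul, Matrix.transpose_one,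
      Matrix.transpose_mul] at h3
    rw [jj, Matrix.fromCols_mul_fromRows, Matrix.mul_zero, add_zero, Matrix.mul_assoc,
      ← Matrix.mul_assoc (kM R), kM_kMi, Matrix.one_mul]
    exact h3

end CoreData

end LicciCore
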