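import Pool.Agent.Work.MP_a98e4e_ag.Core.U1
import Pool.Agent.Work.MP_a98e4e_ag.Core.Lead

/-!
# The leading form of the differential
-/

set_option autoImplicit false
set_option linter.unusedSectionVars false

open Matrix Kronecker RingTheory.Sequence IsLocalRing

namespace LicciCx

namespace Cx

variable {R : Type*} [CommRing R] {J : Type*} [Fintype J] [DecidableEq J]

/-- the scalars up to which `K` is contractible outside degree `0` -/
def conIdeal (K : Cx R J) : Ideal R where
  carrier := {c | Con K c}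
  add_mem' := by
    rintro c c' ⟨h, h1, h2⟩ ⟨h', h1', h2'⟩
    refine ⟨h + h', Hmg.add h1 h1', ?_⟩
    have := Sup0.add h2 h2'
    convert this using 1
    rw [Matrix.mul_add, Matrix.add_mul, add_smul]
    abel
  zero_mem' := ⟨0, Hmg.zero, by
    rw [Matrix.mul_zero, Matrix.zero_mul, zero_smul, add_zero, sub_zero]
    exact Sup0.zero⟩
  smul_mem' := fun c c' h => h.smul c

theorem ue_iff (K : Cx R J) (c : R) : UE K c ↔ c ∈ K.conIdeal.radical := Iff.rfl

theorem ue_of_span {ι : Type*} (K : Cx R J) (a : ι → R) (ha : ∀ i, UE K (a i)) {y : R}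
    (hy : y ∈ Ideal.span (Set.range a)) : UE K y := by
  rw [ue_iff]
  refine (Ideal.span_le.2 ?_) hy
  rintro _ ⟨i, rfl⟩
  exact (ue_iff K (a i)).1 (ha i)

end Cx

end LicciCx

namespace LicciCore

open LicciCx Cx Pool.Agent.Licci

universe u

namespace CoreData

section

variable {R : Type u} [CommRing R] [IsDomain R] [IsLocalRing R] {p : Fin 248 → R}
  {a : Fin 6 → R} {J : Type} [Fintype J] [DecidableEq J] (D : CoreData R p a J)

/-- `-2 D' - ω` over `R` -/
noncomputable def DR (S : Setup R p a) : Matrix J ((J × J) × J) R :=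
  -((2 : R) • D.Dp S) - lun R J * (D.om S ⊗ₖ (1 : Matrix J J R))

theorem cl_DR (S : Setup R p a) : Cl ((D.X.tensor D.X).tensor D.X) D.X 0 (D.DR S) := by
  refine (((D.cl_Dp S).smul 2).neg).sub ?_
  exact ((cl_lun D.X).mul ((D.cl_om S).kron Cl.one)).cast (by ring)

theorem DR_apply (S : Setup R p a) (m i j l : J) : D.DR S m ((i, j), l) =
    -(2 * D.Dp S m ((i, j), l)) - D.om S () (i, j) * (if l = m then 1 else 0) := by
  have h2 : (lun R J * (D.om S ⊗ₖ (1 : Matrix J J R))) m ((i, j), l) =
      D.om S () (i, j) * (if l = m then 1 else 0) := by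
    rw [lun_mul, Matrix.kroneckerMap_apply, Matrix.one_apply]
    simp only [eq_comm]
  rw [DR, Matrix.sub_apply, h2, Matrix.neg_apply, Matrix.smul_apply, smul_eq_mul]

theorem residue_DR (S : Setup R p a) (m i j l : J) :
    residue R (D.DR S m ((i, j), l)) = D.Dk S i j l m := by
  rw [DR_apply, map_sub, map_neg, map_mul, map_mul, omk_eq, residue_ite, Dk, Dpk, map_ofNat]

theorem mul_tensor_d {A J' : Type*} [Fintype J'] [DecidableEq J'] [Fintype A] [DecidableEq A] {K : Cx R J} {L : Cx R J'}
    (M : Matrix A (J × J') R) (x : A) (i : J) (j : J') :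
    (M * (K.tensor L).d) x (i, j) = ∑ s, M x (s, j) * K.d s i +
      ((sg (K.deg i) : ℤ) : R) * ∑ s, M x (i, s) * L.d s j := by
  rw [tensor_d, Matrix.mul_add, Matrix.add_apply, mul_kron_one]
  congr 1
  have h1 : K.e ⊗ₖ L.d = (K.e ⊗ₖ (1 : Matrix J' J' R)) * ((1 : Matrix J J R) ⊗ₖ L.d) := by
    rw [← Matrix.mul_kronecker_mul, Matrix.mul_one, Matrix.one_mul]
  rw [h1, ← Matrix.mul_assoc, mul_one_kron, Finset.mul_sum]
  refine Finset.sum_congr rfl fun s _ => ?_
  rw [mul_kron_one, Finset.sum_eq_single i]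
  · rw [Cx.e, ep, Matrix.diagonal_apply_eq]; ring
  · intro b _ hb
    rw [Cx.e, ep, Matrix.diagonal_apply_ne _ hb, mul_zero]
  · simp

/-- the relations satisfied by the differential -/
theorem om_rel (S : Setup R p a) (i j : J) :
    ∑ s, D.om S () (s, j) * D.X.d s i +
      ((sg (D.X.deg i) : ℤ) : R) * ∑ s, D.om S () (i, s) * D.X.d s j = 0 := by
  rw [← mul_tensor_d, ← (D.cl_om S).comm0, free_d, Matrix.zero_mul, Matrix.zero_apply]

theorem DR_rel (S : Setup R p a) (i j l m : J) :
    ∑ s, D.X.d m s * D.DR S s ((i, j), l) =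
      ∑ s, D.DR S m ((s, j), l) * D.X.d s i +
      ((sg (D.X.deg i) : ℤ) : R) * ∑ s, D.DR S m ((i, s), l) * D.X.d s j +
      ((sg (D.X.deg i + D.X.deg j) : ℤ) : R) * ∑ s, D.DR S m ((i, j), s) * D.X.d s l := by
  have h1 := congrFun (congrFun (D.cl_DR S).comm0 m) ((i, j), l)
  rw [mul_tensor_d, Matrix.mul_apply] at h1
  rw [h1, tensor_deg]
  congr 1
  exact mul_tensor_d (Matrix.of fun m x => D.DR S m (x, l)) m i j

end

theorem sum_col {A : Type*} [CommRing A] {J : Type*} [Fintype J] [DecidableEq J] (f : J → A)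
    (d : Matrix J J A) (i : J) :
    ∑ s, ∑ t, f s * (if t = i then 1 else 0) * d s t = ∑ s, f s * d s i := by
  refine Finset.sum_congr rfl fun s _ => ?_
  simp

theorem sum_row {A : Type*} [CommRing A] {J : Type*} [Fintype J] [DecidableEq J] (f : J → A)
    (d : Matrix J J A) (m : J) :
    ∑ s, ∑ t, (if s = m then 1 else 0) * f t * d s t = ∑ t, f t * d m t := by
  rw [Finset.sum_comm]
  refine Finset.sum_congr rfl fun s _ => ?_
  simp

theorem exists_sder {R : Type u} [CommRing R] [IsDomain R] [IsRegularLocalRing R]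
    {p : Fin 248 → R} {a : Fin 6 → R} {J : Type} [Fintype J] [DecidableEq J]
    (D : CoreData R p a J) (S : Setup R p a) (ha : Ideal.span (Set.range a) = maximalIdeal R)
    (h : ∃ j, D.X.deg j = 1) :
    ∃ de, SDer D.X.deg (D.omk S) (D.Dk S) de := by
  have hdim : 0 < (maximalIdeal R).spanFinrank := by
    rw [Nat.pos_iff_ne_zero]
    intro h0
    have h1 : maximalIdeal R = ⊥ :=
      (Submodule.spanFinrank_eq_zero_iff_eq_bot (IsNoetherian.noetherian _)).1 h0
    have h2 := S.mem 0
    rw [h1, Ideal.mem_bot] at h2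
    exact S.ne 0 h2
  obtain ⟨de, h1, h2, h3, h4⟩ := exists_lead hdim D.X D.deg_le h
    (fun y hy => ue_of_span D.X a D.ue (by rw [ha]; exact hy))
  refine ⟨de, ?_, h2, h3, ?_, ?_⟩
  · intro i j hij
    exact h1 i j hij
  · intro i j
    have h5 := h4 (fun s t => D.om S () (s, j) * (if t = i then 1 else 0) +
      ((sg (D.X.deg i) : ℤ) : R) * D.om S () (i, s) * (if t = j then 1 else 0)) (by
        have h6 := D.om_rel S i j
        simp only [add_mul, Finset.sum_add_distrib]
        rw [sum_col, sum_col, ← h6, Finset.mul_sum]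
        congr 1
        exact Finset.sum_congr rfl fun s _ => by ring)
    simp only [map_add, map_mul, residue_sg, residue_ite, omk_eq, add_mul,
      Finset.sum_add_distrib] at h5
    rw [sum_col, sum_col] at h5
    rw [← h5, Finset.mul_sum, kz, mul_one]
    congr 1
    exact Finset.sum_congr rfl fun s _ => by ring
  · intro i j l m
    have h5 := h4 (fun s t => (if s = m then 1 else 0) * D.DR S t ((i, j), l) -
      D.DR S m ((s, j), l) * (if t = i then 1 else 0) -
      ((sg (D.X.deg i) : ℤ) : R) * D.DR S m ((i, s), l) * (if t = j then 1 else 0) -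
      ((sg (D.X.deg i + D.X.deg j) : ℤ) : R) * D.DR S m ((i, j), s) * (if t = l then 1 else 0)) (by
        have h6 := sub_eq_zero.2 (D.DR_rel S i j l m)
        simp only [sub_mul, Finset.sum_sub_distrib]
        rw [sum_col, sum_col, sum_col, sum_row, ← h6, Finset.mul_sum, Finset.mul_sum,
          ← sub_sub, ← sub_sub]
        congr 1
        · congr 1
          · congr 1
            exact Finset.sum_congr rfl fun s _ => by ring
          · exact Finset.sum_congr rfl fun s _ => by ring
        · exact Finset.sum_congr rfl fun s _ => by ring)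
    simp only [map_sub, map_mul, residue_sg, residue_ite, residue_DR, sub_mul,
      Finset.sum_sub_distrib] at h5
    rw [sum_col, sum_col, sum_col, sum_row] at h5
    have h7 : ∀ x : ℤ, kz (ResidueField R) x 1 = ((sg x : ℤ) : ResidueField R) := fun x => by
      rw [kz, mul_one]
    rw [← sub_eq_zero, ← h5, Finset.mul_sum, Finset.mul_sum, ← sub_sub, ← sub_sub, h7, h7]
    congr 1
    · congr 1
      · congr 1
        exact Finset.sum_congr rfl fun s _ => by ring
      · exact Finset.sum_congr rfl fun s _ => by ring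
    · exact Finset.sum_congr rfl fun s _ => by ring

end CoreData

end LicciCore
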