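import Pool.Agent.Work.MP_a98e4e_ag.Core.Obj
import Pool.Agent.Work.MP_a98e4e_ag.Regular

/-!
# The setup of the core from a point of the cone over a regular local ring of dimension six
-/

set_option autoImplicit false
set_option linter.unusedSectionVars false

open Matrix RingTheory.Sequence IsLocalRing

namespace LicciCore

open LicciCx Cx Pool.Agent.Licci LicciCodimFour

universe u

section algebra

variable {R : Type u} [CommRing R]

theorem natCast_isUnit' [IsLocalRing R] [CharZero (ResidueField R)] {n : ℕ} (hn : n ≠ 0) :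
    IsUnit (n : R) := by
  by_contra h
  have h1 : residue R (n : R) = 0 := (residue_eq_zero_iff _).2 ((mem_maximalIdeal _).2 h)
  rw [map_natCast] at h1
  exact hn (Nat.cast_eq_zero.1 h1)

/-- A local ring with residue field of characteristic zero is a `ℚ`-algebra. -/
theorem exists_algebra_rat' (R : Type u) [CommRing R] [IsLocalRing R]
    [CharZero (ResidueField R)] : Nonempty (Algebra ℚ R) := by
  have hu : ∀ x : nonZeroDivisors ℤ, IsUnit (algebraMap ℤ R (x : ℤ)) := by
    intro x
    have hx : (x : ℤ) ≠ 0 := nonZeroDivisors.coe_ne_zero x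
    rw [algebraMap_int_eq, eq_intCast]
    rcases Int.natAbs_eq (x : ℤ) with h | h
    · rw [h, Int.cast_natCast]
      exact natCast_isUnit' (Int.natAbs_ne_zero.2 hx)
    · rw [h, Int.cast_neg, Int.cast_natCast]
      exact (natCast_isUnit' (Int.natAbs_ne_zero.2 hx)).neg
  exact ⟨(IsLocalization.lift (M := nonZeroDivisors ℤ) (g := algebraMap ℤ R) hu :
    ℚ →+* R).toAlgebra⟩

/-- powers of the first two elements of a regular sequence -/
theorem two_pow [IsDomain R] {x y : R} (hx : x ≠ 0)
    (h : ∀ s, y * s ∈ Ideal.span {x} → s ∈ Ideal.span {x}) (n m : ℕ) :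
    ∀ s, y ^ m * s ∈ Ideal.span {x ^ n} → s ∈ Ideal.span {x ^ n} := by
  have h1 : ∀ s, y ^ m * s ∈ Ideal.span {x} → s ∈ Ideal.span {x} := by
    induction m with
    | zero => intro s hs; rwa [pow_zero, one_mul] at hs
    | succ m ih =>
      intro s hs
      apply ih
      apply h
      rwa [← mul_assoc, ← pow_succ']
  induction n with
  | zero => intro s _; rw [pow_zero, Ideal.span_singleton_one]; trivial
  | succ n ih =>
    intro s hs
    obtain ⟨t, ht⟩ := Ideal.mem_span_singleton'.1 hs
    obtain ⟨s', rfl⟩ := Ideal.mem_span_singleton'.1 (h1 s (Ideal.mem_span_singleton'.2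
      ⟨t * x ^ n, by rw [← ht, pow_succ, mul_assoc]⟩))
    have h2 : y ^ m * s' = t * x ^ n := by
      apply mul_right_cancel₀ hx
      rw [mul_assoc, ← ht, pow_succ, mul_assoc]
    obtain ⟨t', rfl⟩ := Ideal.mem_span_singleton'.1 (ih s' (Ideal.mem_span_singleton'.2
      ⟨t, h2.symm⟩))
    exact Ideal.mem_span_singleton'.2 ⟨t', by rw [pow_succ, mul_assoc]⟩

theorem kf_smul_left' (c : R) (x y : E8 R) : kf (c • x) y = c * kf x y := by
  simp only [kf, Pi.smul_apply, smul_eq_mul, Finset.mul_sum]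
  refine Finset.sum_congr rfl fun i _ => Finset.sum_congr rfl fun j _ => ?_
  ring

/-- The line of `p` is saturated if the pairings with `p` contain a regular sequence of length
two. -/
theorem sat_of [IsDomain R] {p : E8 R} {u v : R} (hu : u ≠ 0)
    (huv : ∀ s, v * s ∈ Ideal.span {u} → s ∈ Ideal.span {u}) (eu : ∃ e, kf p e = u)
    (ev : ∃ e, kf p e = v) : Sat p := by
  intro c hc y r h
  obtain ⟨e, he⟩ := eu
  obtain ⟨e', he'⟩ := ev
  have h1 : c * kf y e = r * u := by rw [← kf_smul_left', h, kf_smul_left', he]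
  have h2 : c * kf y e' = r * v := by rw [← kf_smul_left', h, kf_smul_left', he']
  have h3 : c * (v * kf y e) = c * (kf y e' * u) := by linear_combination v * h1 - u * h2
  have h4 := mul_left_cancel₀ hc h3
  obtain ⟨s, hs⟩ := Ideal.mem_span_singleton'.1 (huv (kf y e)
    (Ideal.mem_span_singleton'.2 ⟨kf y e', h4.symm⟩))
  have h5 : r = c * s := mul_right_cancel₀ hu (by rw [mul_assoc, hs, h1])
  refine ⟨s, ?_⟩
  funext i
  apply mul_left_cancel₀ hc
  have h6 := congrFun h i
  rw [Pi.smul_apply, Pi.smul_apply, smul_eq_mul, smul_eq_mul, h5] at h6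
  rw [Pi.smul_apply, smul_eq_mul, h6]
  ring

end algebra

section setup

variable {R : Type u} [CommRing R]

theorem colon_of_weaklyRegular {a : Fin 6 → R} (h : IsWeaklyRegular R (List.ofFn a)) (s : R)
    (hs : a 1 * s ∈ Ideal.span {a 0}) : s ∈ Ideal.span {a 0} := by
  have h1 := h.regular_mod_prev 1 (by simp)
  have h2 : (Ideal.ofList (List.take 1 (List.ofFn a)) • ⊤ : Submodule R R) =
      Ideal.span {a 0} := by
    have h3 : List.take 1 (List.ofFn a) = [a 0] := by
      rw [List.ofFn_succ]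
      rfl
    rw [h3, Ideal.ofList_singleton, smul_eq_mul, Ideal.mul_top]
  rw [h2] at h1
  have h4 : (List.ofFn a)[1]'(by simp) = a 1 := by simp
  rw [h4] at h1
  rw [← Submodule.Quotient.mk_eq_zero]
  apply h1
  show a 1 • (Submodule.Quotient.mk s : R ⧸ Ideal.span {a 0}) = a 1 • 0
  rw [smul_zero, ← Submodule.Quotient.mk_smul, Submodule.Quotient.mk_eq_zero]
  exact hs

theorem ne_zero_of_regular [IsLocalRing R] {a : Fin 6 → R} (h : IsWeaklyRegular R (List.ofFn a))
    (hm : ∀ i, a i ∈ maximalIdeal R) (i : Fin 6) : a i ≠ 0 := by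
  intro hi
  have h1 := h.regular_mod_prev i (by simp)
  have h4 : (List.ofFn a)[(i : ℕ)]'(by simp) = a i := by
    rw [List.getElem_ofFn]
  rw [h4, hi, IsSMulRegular.zero_iff_subsingleton, Submodule.Quotient.subsingleton_iff,
    smul_eq_mul, Ideal.mul_top, Ideal.eq_top_iff_one] at h1
  have h2 : Ideal.ofList (List.take i (List.ofFn a)) ≤ maximalIdeal R := by
    rw [Ideal.ofList, Ideal.span_le]
    intro x hx
    obtain ⟨j, rfl⟩ := (List.mem_ofFn' _ _).1 (List.mem_of_mem_take hx)
    exact hm j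
  exact (Ideal.ne_top_iff_one _).1 (maximalIdeal.isMaximal R).ne_top (h2 h1)

/-- **The setup of the core.** -/
theorem exists_setup [IsDomain R] [IsRegularLocalRing R] [CharZero (ResidueField R)]
    (hdim : (maximalIdeal R).spanFinrank = 6) {p : E8 R} (hc : Cone p)
    (hm : ∃ k : ℕ, ∀ r ∈ maximalIdeal R ^ k, ∃ e, kf p e = r) (ht : ∃ q : Fin 8, p (ix q) ≠ 0) :
    ∃ a : Fin 6 → R, Setup R p a ∧ Ideal.span (Set.range a) = maximalIdeal R := by
  obtain ⟨rs, hlen, hgen, hrs⟩ := exists_regular_generators R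
  have hlen' : rs.length = 6 := by
    rw [← IsRegularLocalRing.spanFinrank_maximalIdeal (R := R), hdim] at hlen
    exact_mod_cast hlen
  let a : Fin 6 → R := fun i => rs.get (i.cast hlen'.symm)
  have ha : List.ofFn a = rs := by
    apply List.ext_getElem
    · simp [hlen']
    · intro i h1 h2
      rw [List.getElem_ofFn]
      rfl
  have hreg : IsWeaklyRegular R (List.ofFn a) := by
    rw [ha]
    exact hrs.toIsWeaklyRegular
  have hspan : Ideal.span (Set.range a) = maximalIdeal R := by
    rw [← hgen, ← ha, Ideal.ofList]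
    congr 1
    ext x
    exact (List.mem_ofFn' _ _).symm
  have hmem : ∀ i, a i ∈ maximalIdeal R := fun i => by
    rw [← hspan]
    exact Ideal.subset_span ⟨i, rfl⟩
  have hne : ∀ i, a i ≠ 0 := ne_zero_of_regular hreg hmem
  obtain ⟨k, hk⟩ := hm
  have hpow : ∀ i, ∃ e, kf p e = a i ^ k := fun i => hk _ (Ideal.pow_mem_pow (hmem i) k)
  obtain ⟨alg⟩ := exists_algebra_rat' R
  have hchar : CharZero R := algebraRat.charZero R
  have hp0 : p ≠ 0 := by
    rintro rfl
    obtain ⟨q, hq⟩ := ht
    exact hq rfl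
  refine ⟨a, ⟨⟨alg⟩, hchar, hreg, hne, hmem, hc, fun i => ⟨k, hpow i⟩, ht, ?_, fun i => ?_⟩, hspan⟩
  · exact sat_of (pow_ne_zero k (hne 0)) (two_pow (hne 0) (colon_of_weaklyRegular hreg) k k)
      (hpow 0) (hpow 1)
  · obtain ⟨e, he⟩ := hpow i
    obtain ⟨Pi, h1, h2⟩ := exists_proj hc hp0 e
    exact ⟨k * 2, Pi, h1, fun x hx => by rw [h2 x hx, he, ← pow_mul]⟩

end setup

end LicciCore
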