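import Pool.Agent.Work.MP_a98e4e_ag.Core.SftsPkg

/-!
# The closed fibre in index form: identities of the differential
-/

set_option autoImplicit false
set_option linter.unusedSectionVars false

open Finset Matrix LicciCx Module

namespace LicciCore

namespace Sfts

variable {k : Type*} [Field k] {J : Type*} [Fintype J] [DecidableEq J] {deg : J → ℤ}
  {om : Matrix J J k} {D : J → J → J → J → k} {de : Matrix J J k}

/-- coefficients of `d e^i` -/
noncomputable def dl (_ : Sfts deg om D) (_ : SDer deg om D de) (i p : J) : k :=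
  ∑ a, om⁻¹ i a * de p a

variable (h : Sfts deg om D) (hd : SDer deg om D de)
include h hd

lemma de_om {a : J} (ha : deg a = -1) (p : J) :
    ∑ s, om s p * de s a = ∑ s, om a s * de s p := by
  have h1 := hd.om_d a p
  rw [ha, kz_mp] at h1
  linear_combination h1

lemma rho_om_de (i w : J) : ∑ c, om⁻¹ i c * ∑ t, om c t * de t w = de i w := by
  calc ∑ c, om⁻¹ i c * ∑ t, om c t * de t w = ∑ c, ∑ t, om⁻¹ i c * om c t * de t w := by
        simp only [mul_sum, mul_assoc]
    _ = ∑ t, ∑ c, om⁻¹ i c * om c t * de t w := sum_comm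
    _ = ∑ t, (if i = t then 1 else 0) * de t w := by simp only [← sum_mul, h.rho_om]
    _ = _ := by simp

lemma dl_om {i : J} (hi : deg i = 1) (p : J) : ∑ q, h.dl hd i q * om q p = de i p := by
  calc ∑ q, h.dl hd i q * om q p = ∑ q, ∑ a, om⁻¹ i a * (om q p * de q a) := by
        refine sum_congr rfl fun q _ => ?_
        rw [dl, sum_mul]
        exact sum_congr rfl fun a _ => by ring
    _ = ∑ a, ∑ q, om⁻¹ i a * (om q p * de q a) := sum_comm
    _ = ∑ a, om⁻¹ i a * ∑ q, om q p * de q a := by simp only [mul_sum]
    _ = ∑ a, om⁻¹ i a * ∑ s, om a s * de s p := h.sum_rho hi fun a ha => h.de_om hd ha p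
    _ = _ := h.rho_om_de hd i p

lemma dl_deg {i : J} (hi : deg i = 1) {p : J} (hp : deg p ≠ 0) : h.dl hd i p = 0 := by
  refine sum_eq_zero fun a _ => ?_
  by_cases ha : deg a = -1
  · rw [hd.deg_one p a (by omega), mul_zero]
  · rw [h.rho_deg i a (by omega), zero_mul]

lemma dl_sq (i j : J) : ∑ p, h.dl hd i p * de j p = 0 := by
  calc ∑ p, h.dl hd i p * de j p = ∑ p, ∑ a, om⁻¹ i a * (de j p * de p a) := by
        refine sum_congr rfl fun q _ => ?_
        rw [dl, sum_mul]
        exact sum_congr rfl fun a _ => by ring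
    _ = ∑ a, ∑ p, om⁻¹ i a * (de j p * de p a) := sum_comm
    _ = ∑ a, om⁻¹ i a * (de * de) j a := by simp only [← mul_sum, Matrix.mul_apply]
    _ = 0 := by simp [hd.sq]

/-- `D(e_i, e_p) e_s` for `s` of degree `0` -/
lemma D_up0 {i p s l : J} (hs : deg s = 0) (hl : deg l = 1) :
    D i p s l = ∑ t, (∑ c, om⁻¹ l c * D i p c t) * om t s := by
  rw [← h.Dl_up i p s hl]
  have h1 : ∀ c, om⁻¹ l c * h.Dl i p s c = ∑ t, om⁻¹ l c * D i p c t * om t s := by
    intro c
    rw [h.Dl34 i p s c, hs, kz_zero_left, one_mul, Dl, mul_sum]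
    exact sum_congr rfl fun t _ => by ring
  rw [sum_congr rfl fun c _ => h1 c, sum_comm]
  exact sum_congr rfl fun t _ => by rw [sum_mul]

lemma om_anti0 {p s : J} (hp : deg p = 0) : om p s = -om s p := by
  have := h.om_symm p s
  rwa [hp, kz_zero_left, one_mul] at this

/-- the form `A(l;i,j;p)` -/
lemma dq (i j l p : J) (hi : deg i = 1) (hj : deg j = 1) (hl : deg l = 1) (hp : deg p = 0) :
    ∑ m, de m p * ∑ a, om⁻¹ j a * D i m a l =
      ∑ q, ∑ r, h.dl hd l q * h.E i j q r * om r p - ∑ q, ∑ r, h.dl hd j q * h.E i l q r * om r p +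
        (if i = l then de j p else 0) - (if i = j then de l p else 0) := by
  -- the derivation identity, contracted
  have h1 : ∀ c, ∑ s, de l s * D i p c s = -∑ s, D i s c l * de s p - ∑ s, D i p s l * de s c := by
    intro c
    have h2 := hd.D_d i p c l
    have h3 : ∑ s, D s p c l * de s i = 0 := sum_eq_zero fun s _ => by
      rw [hd.deg_one s i (by have := h.deg_le s; omega), mul_zero]
    rw [h3, hi, hp, add_zero, kz_pp] at h2
    linear_combination h2
  have h2 : ∑ s, de l s * ∑ c, om⁻¹ j c * D i p c s =
      -(∑ m, de m p * ∑ a, om⁻¹ j a * D i m a l) - ∑ s, D i p s l * h.dl hd j s := by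
    calc ∑ s, de l s * ∑ c, om⁻¹ j c * D i p c s = ∑ s, ∑ c, om⁻¹ j c * (de l s * D i p c s) := by
          refine sum_congr rfl fun s _ => ?_
          rw [mul_sum]
          exact sum_congr rfl fun c _ => by ring
      _ = ∑ c, ∑ s, om⁻¹ j c * (de l s * D i p c s) := sum_comm
      _ = ∑ c, om⁻¹ j c * (-∑ s, D i s c l * de s p - ∑ s, D i p s l * de s c) := by
          simp only [← mul_sum, h1]
      _ = -(∑ c, ∑ s, om⁻¹ j c * (D i s c l * de s p)) -
            ∑ c, ∑ s, om⁻¹ j c * (D i p s l * de s c) := by
          simp only [mul_sub, mul_neg, sum_sub_distrib, sum_neg_distrib, mul_sum]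
      _ = _ := by
          congr 1
          · congr 1
            rw [sum_comm]
            refine sum_congr rfl fun s _ => ?_
            rw [mul_sum]
            exact sum_congr rfl fun c _ => by ring
          · rw [sum_comm]
            refine sum_congr rfl fun s _ => ?_
            rw [dl, mul_sum]
            exact sum_congr rfl fun c _ => by ring
  -- left side
  have h3 : ∑ s, de l s * ∑ c, om⁻¹ j c * D i p c s = (if i = j then de l p else 0) -
      ∑ q, ∑ r, h.dl hd l q * h.E i j q r * om r p := by
    have h4 : ∀ s, de l s * ∑ c, om⁻¹ j c * D i p c s =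
        (if p = s then (if i = j then de l s else 0) else 0) + de l s * h.E i j p s := by
      intro s
      rw [h.R_eq s hi hj hp, E_apply]
      split_ifs <;> ring
    have h5 : ∑ s, de l s * h.E i j p s = -∑ q, ∑ r, h.dl hd l q * h.E i j q r * om r p := by
      calc ∑ s, de l s * h.E i j p s = ∑ s, ∑ q, h.dl hd l q * (om q s * h.E i j p s) := by
            refine sum_congr rfl fun s _ => ?_
            rw [← h.dl_om hd hl s, sum_mul]
            exact sum_congr rfl fun c _ => by ring
        _ = ∑ q, h.dl hd l q * ∑ s, om q s * h.E i j p s := by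
            rw [sum_comm]
            exact sum_congr rfl fun q _ => by rw [mul_sum]
        _ = ∑ q, h.dl hd l q * -∑ m, h.E i j q m * om m p := by
            refine sum_congr rfl fun q _ => ?_
            congr 1
            linear_combination h.E_skew hi hj q p
        _ = _ := by
            rw [← sum_neg_distrib]
            refine sum_congr rfl fun q _ => ?_
            rw [mul_neg, mul_sum]
            congr 1
            exact sum_congr rfl fun m _ => by ring
    rw [sum_congr rfl fun s _ => h4 s, sum_add_distrib, h5]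
    simp [sub_eq_add_neg]
  -- right side
  have h6 : ∑ s, D i p s l * h.dl hd j s = -(if i = l then de j p else 0) +
      ∑ q, ∑ r, h.dl hd j q * h.E i l q r * om r p := by
    have h7 : ∀ s, D i p s l * h.dl hd j s = (if i = l then -(h.dl hd j s * om s p) else 0) +
        ∑ r, h.dl hd j s * h.E i l s r * om r p := by
      intro s
      by_cases hs : deg s = 0
      · rw [h.D_up0 hd hs hl]
        have h8 : ∀ t, (∑ c, om⁻¹ l c * D i p c t) * om t s =
            (if p = t then (if i = l then om t s else 0) else 0) + h.E i l p t * om t s := by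
          intro t
          rw [h.R_eq t hi hl hp, E_apply]
          split_ifs <;> ring
        have h9 : ∑ m, om p m * h.E i l s m = -∑ m, h.E i l s m * om m p := by
          rw [← sum_neg_distrib]
          refine sum_congr rfl fun m _ => ?_
          rw [h.om_anti0 hd (p := p) (s := m) hp]; ring
        have h10 : ∑ t, h.E i l p t * om t s = ∑ m, h.E i l s m * om m p := by
          linear_combination h.E_skew hi hl p s - h9
        rw [sum_congr rfl fun t _ => h8 t, sum_add_distrib, h10, add_mul]
        congr 1
        · rw [sum_ite_eq]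
          rw [if_pos (mem_univ _), h.om_anti0 hd (p := p) (s := s) hp]
          split_ifs <;> ring
        · rw [sum_mul]
          exact sum_congr rfl fun m _ => by ring
      · rw [h.dl_deg hd hj hs]; simp
    rw [sum_congr rfl fun s _ => h7 s, sum_add_distrib]
    congr 1
    by_cases hil : i = l
    · simp only [hil, if_true, sum_neg_distrib, h.dl_om hd hj]
    · simp [hil]
  rw [h3, h6] at h2
  linear_combination h2

/-- `∑ c, ρ j c ω(D(e_t,e_c)e_v, e_u)` -/
noncomputable def Y (_ : SDer deg om D de) (j t v u : J) : k := ∑ c, om⁻¹ j c * h.Dl t c v u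

omit hd in
lemma Y_eq (hd : SDer deg om D de) (j t v u : J) : h.Y hd j t v u = ∑ r, h.E t j v r * om r u := by
  calc h.Y hd j t v u = ∑ c, ∑ r, om⁻¹ j c * D t c v r * om r u := by
        refine sum_congr rfl fun c _ => ?_
        rw [Dl, mul_sum]
        exact sum_congr rfl fun r _ => by ring
    _ = ∑ r, ∑ c, om⁻¹ j c * D t c v r * om r u := sum_comm
    _ = _ := by
        refine sum_congr rfl fun r _ => ?_
        rw [E_apply, sum_mul]

lemma Y_symm (j t : J) {v u : J} (hv : deg v = 0) : h.Y hd j t v u = h.Y hd j t u v := by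
  refine sum_congr rfl fun c _ => ?_
  rw [h.Dl34 t c v u, hv, kz_zero_left, one_mul]

lemma dq2 {j u v w : J} (hj : deg j = 1) (hu : deg u = 0) (hv : deg v = 0) (hw : deg w = 0) :
    ∑ q, h.dl hd j q * (h.Dl q u v w - om u v * om q w - om u w * om q v) +
      (∑ m, de m u * h.Y hd j m v w + ∑ m, de m v * h.Y hd j m w u +
        ∑ m, de m w * h.Y hd j m u v) = 0 := by
  have hb : ∀ c, deg c = -1 → ∑ t, h.Dl c u v t * de t w = ∑ s, h.Dl s u v w * de s c -
      ∑ s, h.Dl c s v w * de s u - ∑ s, h.Dl c u s w * de s v := by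
    intro c hc
    have h1 : ∀ s', ∑ s, de s' s * D c u v s = ∑ s, D s u v s' * de s c -
        ∑ s, D c s v s' * de s u - ∑ s, D c u s s' * de s v := by
      intro s'
      have h2 := hd.D_d c u v s'
      rw [hc, hu, add_zero, kz_mp] at h2
      linear_combination h2
    have h3 : ∑ t, h.Dl c u v t * de t w = ∑ s', om s' w * ∑ s, de s' s * D c u v s := by
      calc ∑ t, h.Dl c u v t * de t w = ∑ t, ∑ s, D c u v s * (om s t * de t w) := by
            refine sum_congr rfl fun t _ => ?_
            rw [Dl, sum_mul]
            exact sum_congr rfl fun s _ => by ring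
        _ = ∑ s, ∑ t, D c u v s * (om s t * de t w) := sum_comm
        _ = ∑ s, ∑ s', D c u v s * (om s' w * de s' s) := by
            refine sum_congr rfl fun s _ => ?_
            rw [← mul_sum, ← mul_sum]
            by_cases hs : deg s = -1
            · rw [h.de_om hd hs w]
            · rw [h.D_deg c u v s (by omega)]; simp
        _ = ∑ s', ∑ s, D c u v s * (om s' w * de s' s) := sum_comm
        _ = _ := by
            refine sum_congr rfl fun s' _ => ?_
            rw [mul_sum]
            exact sum_congr rfl fun s _ => by ring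
    have h4 : ∀ (F : J → J → k) (x : J), ∑ s', om s' w * ∑ s, F s s' * de s x =
        ∑ s, (∑ s', F s s' * om s' w) * de s x := by
      intro F x
      simp only [mul_sum, sum_mul]
      rw [sum_comm]
      exact sum_congr rfl fun _ _ => sum_congr rfl fun _ _ => by ring
    rw [h3]
    simp only [h1, mul_sub, sum_sub_distrib]
    rw [h4 (fun s s' => D s u v s'), h4 (fun s s' => D c s v s'), h4 (fun s s' => D c u s s')]
    rfl
  have hc' : ∀ c, deg c = -1 → ∑ t, (-(h.Dl t c v u * de t w) + om u v * (om c t * de t w)) =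
      ∑ s, h.Dl s u v w * de s c + ∑ s, h.Dl s c v w * de s u +
        ∑ s, (h.Dl s c u w * de s v - om u w * (om c s * de s v)) := by
    intro c hc
    have e1 : ∀ t, -(h.Dl t c v u * de t w) + om u v * (om c t * de t w) = h.Dl c u v t * de t w := by
      intro t
      by_cases ht : deg t = 1
      · have f1 := h.Dl12 c u v t
        have f2 := h.Dl23 u c v t
        have f3 := h.Dl34 u v c t
        have f4 := h.Dl_pair (m := u) (b := v) (l := t) (a := c) (by omega) ht hc
        have f5 := h.Dl34 t c u v
        have o1 : om c v = 0 := h.om_deg _ _ (by omega)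
        have o2 : om u c = 0 := h.om_deg _ _ (by omega)
        rw [hc, hu, kz_zero_right, one_mul] at f1
        rw [hc, hv, kz_zero_right, one_mul, o1, o2] at f2
        rw [hc, ht, kz_mp] at f3
        rw [hu, kz_zero_left, one_mul] at f5
        rw [f1, f2, f3, f4, f5]
        ring
      · rw [hd.deg_one t w (by omega)]; ring
    have e2 : ∀ s, -(h.Dl c s v w * de s u) = h.Dl s c v w * de s u := by
      intro s
      by_cases hs : deg s = 1
      · rw [h.Dl12 c s v w, hc, hs, kz_mp]; ring
      · rw [hd.deg_one s u (by omega)]; ring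
    have e3 : ∀ s, -(h.Dl c u s w * de s v) = h.Dl s c u w * de s v - om u w * (om c s * de s v) := by
      intro s
      by_cases hs : deg s = 1
      · have f1 := h.Dl23 c u s w
        have f2 := h.Dl12 c s u w
        have o1 : om u s = 0 := h.om_deg _ _ (by omega)
        have o2 : om c u = 0 := h.om_deg _ _ (by omega)
        rw [hu, kz_zero_left, one_mul, one_mul, o1, o2] at f1
        rw [hc, hs, kz_mp] at f2
        rw [f1, f2]
        ring
      · rw [hd.deg_one s v (by omega)]; ring
    have := hb c hc
    rw [← sum_congr rfl fun t _ => e1 t] at this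
    rw [this, ← sum_congr rfl fun s _ => e2 s, ← sum_congr rfl fun s _ => e3 s, sum_neg_distrib,
      sum_neg_distrib]
    ring
  have hs := h.sum_rho hj hc'
  have g1 : ∀ (F : J → J → k) (x : J), ∑ c, om⁻¹ j c * ∑ s, F s c * de s x =
      ∑ s, de s x * ∑ c, om⁻¹ j c * F s c := by
    intro F x
    simp only [mul_sum]
    rw [sum_comm]
    exact sum_congr rfl fun _ _ => sum_congr rfl fun _ _ => by ring
  have g2 : ∑ c, om⁻¹ j c * ∑ s, h.Dl s u v w * de s c = ∑ s, h.dl hd j s * h.Dl s u v w := by
    simp only [mul_sum, dl, sum_mul]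
    rw [sum_comm]
    exact sum_congr rfl fun _ _ => sum_congr rfl fun _ _ => by ring
  have g3 : ∀ (a x : J) (y : J), ∑ c, om⁻¹ j c * ∑ s, om a x * (om c s * de s y) = om a x * de j y := by
    intro a x y
    rw [← h.rho_om_de hd j y]
    simp only [mul_sum]
    exact sum_congr rfl fun _ _ => sum_congr rfl fun _ _ => by ring
  simp only [sum_add_distrib, sum_sub_distrib, sum_neg_distrib, mul_add, mul_sub, mul_neg] at hs
  rw [g1 (fun s c => h.Dl s c v u), g3 u v w, g2, g1 (fun s c => h.Dl s c v w),
    g1 (fun s c => h.Dl s c u w), g3 u w v] at hs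
  have g4 : ∑ q, h.dl hd j q * (h.Dl q u v w - om u v * om q w - om u w * om q v) =
      ∑ q, h.dl hd j q * h.Dl q u v w - om u v * de j w - om u w * de j v := by
    rw [← h.dl_om hd hj w, ← h.dl_om hd hj v, mul_sum, mul_sum, ← sum_sub_distrib,
      ← sum_sub_distrib]
    exact sum_congr rfl fun q _ => by ring
  rw [g4]
  have g5 : ∀ m, h.Y hd j m w u = h.Y hd j m u w := fun m => h.Y_symm hd j m hw
  have g6 : ∀ m, h.Y hd j m u v = h.Y hd j m v u := fun m => h.Y_symm hd j m hu
  simp only [g5, g6]
  simp only [Y]
  linear_combination -hs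

end Sfts

end LicciCore
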