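import Pool.Agent.Work.MP_a98e4e_ag.CF.ArrPkg
import Pool.Agent.Work.MP_a98e4e_ag.Core.SftsDefs

/-!
# The closed fibre in index form gives a closed fibre package, I: identities
-/

set_option autoImplicit false
set_option linter.unusedSectionVars false

open Finset Matrix LicciCx

namespace LicciCore

section signs

variable {k : Type*} [CommRing k]

@[simp] lemma kz_zero_left (n : ℤ) : kz k 0 n = 1 := by simp [kz, sg_zero]
@[simp] lemma kz_zero_right (n : ℤ) : kz k n 0 = 1 := by simp [kz, sg_zero]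
@[simp] lemma kz_pp : kz k 1 1 = -1 := by simp [kz, sg_one]
@[simp] lemma kz_pm : kz k 1 (-1) = -1 := by simp [kz, sg_one, sg_neg]
@[simp] lemma kz_mp : kz k (-1) 1 = -1 := by simp [kz, sg_one, sg_neg]
@[simp] lemma kz_mm : kz k (-1) (-1) = -1 := by simp [kz, sg_one]

lemma kz_comm (m n : ℤ) : kz k m n = kz k n m := by rw [kz, kz, mul_comm]

lemma kz_add_right (m n n' : ℤ) : kz k m (n + n') = kz k m n * kz k m n' := by
  rw [kz, kz, kz, mul_add, sg_add, Int.cast_mul]

lemma kz_add_left (m m' n : ℤ) : kz k (m + m') n = kz k m n * kz k m' n := by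
  rw [kz_comm, kz_add_right, kz_comm n, kz_comm n]

lemma kz_neg_left (m n : ℤ) : kz k (-m) n = kz k m n := by
  rw [kz, kz, neg_mul, sg_neg]

lemma kz_neg_right (m n : ℤ) : kz k m (-n) = kz k m n := by
  rw [kz_comm, kz_neg_left, kz_comm]

lemma kz_mul_self (m n : ℤ) : kz k m n * kz k m n = 1 := by
  rw [kz, ← Int.cast_mul, sg_mul_self, Int.cast_one]

end signs

namespace Sfts

variable {k : Type*} [Field k] {J : Type*} [Fintype J] [DecidableEq J] {deg : J → ℤ}
  {om : Matrix J J k} {D : J → J → J → J → k}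

section basic

variable (h : Sfts deg om D)
include h

lemma cases3 (j : J) : deg j = -1 ∨ deg j = 0 ∨ deg j = 1 := by
  have h1 := h.deg_le j
  have h2 := h.le_deg j
  omega

lemma om_rho (i j : J) : ∑ a, om i a * om⁻¹ a j = if i = j then 1 else 0 := by
  rw [← Matrix.mul_apply, Matrix.mul_nonsing_inv om h.om_unit, Matrix.one_apply]

lemma rho_om (i j : J) : ∑ a, om⁻¹ i a * om a j = if i = j then 1 else 0 := by
  rw [← Matrix.mul_apply, Matrix.nonsing_inv_mul om h.om_unit, Matrix.one_apply]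

lemma rho_deg (a b : J) (hab : deg a + deg b ≠ 0) : om⁻¹ a b = 0 := by
  let ρ' : Matrix J J k := Matrix.of fun a b => if deg a + deg b = 0 then om⁻¹ a b else 0
  have h1 : om * ρ' = 1 := by
    ext a c
    rw [Matrix.mul_apply]
    by_cases hac : deg a = deg c
    · rw [← Matrix.mul_nonsing_inv om h.om_unit, Matrix.mul_apply]
      refine sum_congr rfl fun b _ => ?_
      by_cases hb : deg b + deg c = 0
      · simp [ρ', hb]
      · rw [h.om_deg a b (by omega)]; simp
    · rw [Matrix.one_apply_ne (by rintro rfl; exact hac rfl)]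
      refine sum_eq_zero fun b _ => ?_
      by_cases hb : deg b + deg c = 0
      · rw [h.om_deg a b (by omega)]; simp
      · simp [ρ', hb]
  have h2 : om⁻¹ = ρ' := Matrix.inv_eq_right_inv h1
  have h3 := congrFun (congrFun h2 a) b
  simpa [ρ', hab] using h3

lemma rho_symm (a b : J) : om⁻¹ a b = -(kz k (deg a) (deg b) * om⁻¹ b a) := by
  have h1 : om * (Matrix.of fun a b => -(kz k (deg a) (deg b) * om⁻¹ b a)) = 1 := by
    ext a c
    rw [Matrix.mul_apply, Matrix.one_apply, ← if_congr (eq_comm (a := c) (b := a)) rfl rfl,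
      ← h.rho_om c a]
    refine sum_congr rfl fun b _ => ?_
    rw [Matrix.of_apply]
    by_cases hb : deg b + deg c = 0
    · by_cases hb' : deg b + deg a = 0
      · rw [h.om_symm a b, show deg c = deg a by omega, kz_comm (deg a) (deg b)]
        linear_combination om b a * om⁻¹ c b * kz_mul_self (k := k) (deg b) (deg a)
      · rw [h.om_deg a b (by omega), h.om_deg b a hb']; simp
    · rw [h.rho_deg c b (by omega)]; simp
  have h3 := congrFun (congrFun (Matrix.inv_eq_right_inv h1) a) b
  exact h3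

/-- `∑ b, ρ a b ω s b` -/
lemma rho_om_tr (a s : J) : ∑ b, om⁻¹ a b * om s b = -(kz k (deg s) (deg s)) *
    if a = s then 1 else 0 := by
  rw [← h.rho_om a s, mul_sum]
  refine sum_congr rfl fun b _ => ?_
  by_cases hb : deg s + deg b = 0
  · rw [h.om_symm s b, show deg b = -deg s by omega, kz_neg_right]
    ring
  · rw [h.om_deg s b hb, h.om_deg b s (by omega)]; simp

/-- `∑ b, ω m b ρ l b` -/
lemma om_rho_tr (m l : J) : ∑ b, om m b * om⁻¹ l b = -(kz k (deg l) (deg l)) *
    if m = l then 1 else 0 := by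
  have h1 := h.rho_om_tr l m
  have h2 : ∑ b, om m b * om⁻¹ l b = ∑ b, om⁻¹ l b * om m b := sum_congr rfl fun b _ => mul_comm _ _
  rw [h2, h1]
  by_cases hm : m = l
  · subst hm; rfl
  · rw [if_neg hm, if_neg (Ne.symm hm)]; ring

lemma sum_rho {j : J} (hj : deg j = 1) {f g : J → k} (hfg : ∀ a, deg a = -1 → f a = g a) :
    ∑ a, om⁻¹ j a * f a = ∑ a, om⁻¹ j a * g a := by
  refine sum_congr rfl fun a _ => ?_
  by_cases ha : deg a = -1
  · rw [hfg a ha]
  · rw [h.rho_deg j a (by omega)]; simp

lemma crossR {i p a : J} (q : J) (hi : deg i = 1) (hp : deg p = 0) (ha : deg a = -1) :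
    D i p a q = D i a p q + om a i * (if p = q then 1 else 0) := by
  have h1 := h.cross i p a q
  rw [h.om_deg p a (by omega), h.om_deg i p (by omega), h.om_symm i a, hi, hp, ha, kz_zero_left,
    kz_pm] at h1
  linear_combination h1

lemma crossT {i l a : J} (m : J) (hi : deg i = 1) (hl : deg l = 1) (ha : deg a = -1) :
    D i a l m = -D i l a m + 2 * (om a l * (if i = m then 1 else 0)) -
      om a i * (if l = m then 1 else 0) := by
  have h1 := h.cross i a l m
  rw [h.om_deg i l (by omega), h.om_symm i a, hi, hl, ha, kz_mp, kz_pm] at h1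
  linear_combination h1

lemma R_eq {i j p : J} (q : J) (hi : deg i = 1) (hj : deg j = 1) (hp : deg p = 0) :
    ∑ a, om⁻¹ j a * D i p a q = (if i = j then if p = q then 1 else 0 else 0) +
      ∑ a, om⁻¹ j a * D i a p q := by
  rw [h.sum_rho hj (fun a ha => h.crossR q hi hp ha)]
  simp only [mul_add, sum_add_distrib, ← mul_assoc, ← sum_mul, h.rho_om]
  rw [add_comm]
  congr 1
  by_cases hij : i = j
  · subst hij; simp
  · simp [hij, Ne.symm hij]

lemma T_eq {i j l : J} (m : J) (hi : deg i = 1) (hj : deg j = 1) (hl : deg l = 1) :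
    ∑ a, om⁻¹ j a * D i a l m = 2 * (if j = l then if i = m then 1 else 0 else 0) -
      (if i = j then if l = m then 1 else 0 else 0) - ∑ a, om⁻¹ j a * D i l a m := by
  rw [h.sum_rho hj (fun a ha => h.crossT m hi hl ha)]
  have h1 : ∀ a, om⁻¹ j a * (-D i l a m + 2 * (om a l * (if i = m then 1 else 0)) -
      om a i * (if l = m then 1 else 0)) = -(om⁻¹ j a * D i l a m) +
        2 * ((om⁻¹ j a * om a l) * (if i = m then 1 else 0)) -
        (om⁻¹ j a * om a i) * (if l = m then 1 else 0) := fun a => by ring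
  simp only [h1, sum_sub_distrib, sum_add_distrib, sum_neg_distrib, ← mul_sum, ← sum_mul, h.rho_om]
  by_cases hij : i = j
  · subst hij
    by_cases hjl : i = l
    · subst hjl; simp; ring
    · simp [hjl]; ring
  · by_cases hjl : j = l
    · subst hjl; simp [hij, Ne.symm hij]; ring
    · simp [hij, Ne.symm hij, hjl]

/-- the identity `(f)` with a free upper index -/
lemma sq' (i j l m : J) : ∑ b, ∑ s, (∑ a, om⁻¹ a b * D i j a s) * (∑ c, om⁻¹ l c * D s b c m) =
    24 * ∑ c, om⁻¹ l c * D i j c m := by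
  have h1 : ∀ c, ∑ b, ∑ s, (∑ a, om⁻¹ a b * D i j a s) * D s b c m = 24 * D i j c m := by
    intro c
    rw [← h.sq i j c m]
    simp only [sum_mul]
    calc ∑ b, ∑ s, ∑ a, om⁻¹ a b * D i j a s * D s b c m
        = ∑ b, ∑ a, ∑ s, om⁻¹ a b * D i j a s * D s b c m :=
          sum_congr rfl fun b _ => sum_comm
      _ = _ := sum_comm
  calc ∑ b, ∑ s, (∑ a, om⁻¹ a b * D i j a s) * (∑ c, om⁻¹ l c * D s b c m)
      = ∑ b, ∑ s, ∑ c, om⁻¹ l c * ((∑ a, om⁻¹ a b * D i j a s) * D s b c m) := by
        refine sum_congr rfl fun b _ => sum_congr rfl fun s _ => ?_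
        rw [mul_sum]
        exact sum_congr rfl fun c _ => by ring
    _ = ∑ b, ∑ c, ∑ s, om⁻¹ l c * ((∑ a, om⁻¹ a b * D i j a s) * D s b c m) :=
        sum_congr rfl fun b _ => sum_comm
    _ = ∑ c, ∑ b, ∑ s, om⁻¹ l c * ((∑ a, om⁻¹ a b * D i j a s) * D s b c m) := sum_comm
    _ = ∑ c, om⁻¹ l c * (24 * D i j c m) := by
        refine sum_congr rfl fun c _ => ?_
        rw [← h1 c]
        simp only [mul_sum]
    _ = _ := by
        rw [mul_sum]
        exact sum_congr rfl fun c _ => by ring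

lemma U_deg (i j b s : J) (hd : deg b + deg s ≠ deg i + deg j) :
    ∑ a, om⁻¹ a b * D i j a s = 0 := by
  refine sum_eq_zero fun a _ => ?_
  by_cases ha : deg a + deg b = 0
  · rw [h.D_deg i j a s (by omega), mul_zero]
  · rw [h.rho_deg a b ha, zero_mul]

lemma E_deg (i j x y : J) (hd : deg y ≠ deg i - deg j + deg x) :
    ∑ a, om⁻¹ j a * D i a x y = 0 := by
  refine sum_eq_zero fun a _ => ?_
  by_cases ha : deg j + deg a = 0
  · rw [h.D_deg i a x y (by omega), mul_zero]
  · rw [h.rho_deg j a ha, zero_mul]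

/-- the tensor of `D(e_i,e_j)` is super symmetric -/
lemma U_symm (i j b s : J) : ∑ a, om⁻¹ a b * D i j a s =
    kz k (deg b) (deg s) * ∑ a, om⁻¹ a s * D i j a b := by
  have key : ∑ a, om⁻¹ a b * D i j a s =
      kz k (deg b) (deg i + deg j) * kz k (deg b) (deg b) * ∑ a, om⁻¹ a s * D i j a b := by
    have h1 : ∀ a, D i j a s = -∑ r, om⁻¹ r s * (kz k (deg a) (deg i + deg j) *
        ∑ m, om a m * D i j r m) := by
      intro a
      have h2 : ∀ r, kz k (deg a) (deg i + deg j) * ∑ m, om a m * D i j r m =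
          -∑ m, D i j a m * om m r := fun r => by linear_combination h.sp i j a r
      simp only [h2, mul_neg, sum_neg_distrib, neg_neg]
      calc D i j a s = ∑ m, D i j a m * (if m = s then 1 else 0) := by simp
        _ = ∑ m, D i j a m * ∑ r, om m r * om⁻¹ r s := by simp only [h.om_rho]
        _ = ∑ m, ∑ r, om⁻¹ r s * (D i j a m * om m r) := by
          refine sum_congr rfl fun m _ => ?_
          rw [mul_sum]
          exact sum_congr rfl fun r _ => by ring
        _ = ∑ r, ∑ m, om⁻¹ r s * (D i j a m * om m r) := sum_comm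
        _ = _ := by simp only [mul_sum]
    calc ∑ a, om⁻¹ a b * D i j a s
        = ∑ a, ∑ r, ∑ m, -(kz k (deg a) (deg i + deg j) * om⁻¹ a b * om a m *
            (om⁻¹ r s * D i j r m)) := by
          refine sum_congr rfl fun a _ => ?_
          rw [h1 a, mul_neg, mul_sum, ← sum_neg_distrib]
          refine sum_congr rfl fun r _ => ?_
          rw [mul_sum, mul_sum, mul_sum, ← sum_neg_distrib]
          exact sum_congr rfl fun m _ => by ring
      _ = ∑ a, ∑ m, ∑ r, -(kz k (deg a) (deg i + deg j) * om⁻¹ a b * om a m *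
            (om⁻¹ r s * D i j r m)) := sum_congr rfl fun a _ => sum_comm
      _ = ∑ m, ∑ a, ∑ r, -(kz k (deg a) (deg i + deg j) * om⁻¹ a b * om a m *
            (om⁻¹ r s * D i j r m)) := sum_comm
      _ = ∑ m, (kz k (deg b) (deg i + deg j) * kz k (deg b) (deg b) * if m = b then 1 else 0) *
            ∑ r, om⁻¹ r s * D i j r m := by
          refine sum_congr rfl fun m _ => ?_
          have h3 : kz k (deg b) (deg i + deg j) * kz k (deg b) (deg b) *
              (if m = b then 1 else 0) =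
              ∑ a, -(kz k (deg a) (deg i + deg j) * om⁻¹ a b * om a m) := by
            rw [← h.om_rho m b, mul_sum]
            refine sum_congr rfl fun a _ => ?_
            by_cases ha : deg a + deg b = 0
            · by_cases hm : deg m + deg a = 0
              · rw [h.om_symm a m, show deg a = -deg b by omega, show deg m = deg b by omega,
                  kz_neg_left, kz_neg_left]
                ring
              · rw [h.om_deg a m (by omega), h.om_deg m a (by omega)]; simp
            · rw [h.rho_deg a b ha]; simp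
          rw [h3, sum_mul]
          refine sum_congr rfl fun a _ => ?_
          rw [mul_sum]
          exact sum_congr rfl fun r _ => by ring
      _ = _ := by simp
  rw [key]
  by_cases hd : deg s + deg b = deg i + deg j
  · rw [← hd, kz_add_right, mul_assoc (kz k (deg b) (deg s)), kz_mul_self, mul_one]
  · rw [h.U_deg i j s b hd]; simp


/-! ### sums over the homogeneous parts -/

omit h in
lemma sum_deg {M : Type*} [AddCommMonoid M] (n : ℤ) (f : J → M) (hf : ∀ j, deg j ≠ n → f j = 0) :
    ∑ j, f j = ∑ i : {j // deg j = n}, f i := by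
  rw [← Finset.sum_filter_of_ne (p := fun j => deg j = n) (fun j _ hj => by
    by_contra hn; exact hj (hf j hn))]
  exact Finset.sum_subtype _ (by simp) f

lemma sum_deg3 (f : J → k) : ∑ j, f j = ∑ j, (if deg j = -1 then f j else 0) +
    ∑ j, (if deg j = 0 then f j else 0) + ∑ j, (if deg j = 1 then f j else 0) := by
  rw [← sum_add_distrib, ← sum_add_distrib]
  refine sum_congr rfl fun j _ => ?_
  rcases h.cases3 j with hj | hj | hj <;> simp [hj]

omit h in
lemma sum_ite_deg (n : ℤ) (f : J → k) : ∑ j, (if deg j = n then f j else 0) =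
    ∑ i : {j // deg j = n}, f i := by
  rw [sum_deg n _ (fun j hj => if_neg hj)]
  exact sum_congr rfl fun i _ => if_pos i.2

/-- a symmetric double sum in total degree one -/
lemma sum_sym (F : J → J → k) (hs : ∀ b s, F b s = F s b)
    (hd : ∀ b s, deg b + deg s ≠ 1 → F b s = 0) :
    ∑ b, ∑ s, F b s = 2 * ∑ b : {j // deg j = 1}, ∑ s : {j // deg j = 0}, F b s := by
  have h1 : ∀ b s, F b s = (if deg b = 1 then F b s else 0) + (if deg s = 1 then F s b else 0) := by
    intro b s
    by_cases hbs : deg b + deg s = 1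
    · rcases h.cases3 b with hb | hb | hb
      · have := h.deg_le s; omega
      · rw [if_neg (by omega), if_pos (by omega), zero_add, hs]
      · rw [if_pos hb, if_neg (by omega), add_zero]
    · rw [hd b s hbs, hd s b (by omega)]; simp
  have h2 : ∑ b, ∑ s, (if deg b = 1 then F b s else 0) =
      ∑ b : {j // deg j = 1}, ∑ s : {j // deg j = 0}, F b s := by
    rw [sum_deg 1 _ (fun b hb => sum_eq_zero fun s _ => if_neg hb)]
    refine sum_congr rfl fun b _ => ?_
    rw [sum_congr rfl fun s _ => if_pos b.2]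
    exact sum_deg 0 _ (fun s hs' => hd b s (by rw [b.2]; omega))
  calc ∑ b, ∑ s, F b s = ∑ b, ∑ s, (if deg b = 1 then F b s else 0) +
        ∑ b, ∑ s, (if deg s = 1 then F s b else 0) := by
        rw [← sum_add_distrib]
        refine sum_congr rfl fun b _ => ?_
        rw [← sum_add_distrib]
        exact sum_congr rfl fun s _ => h1 b s
    _ = _ := by
        rw [sum_comm (f := fun b s => if deg s = 1 then F s b else 0), h2]
        ring

/-- `(d1)` -/
lemma d1 {i j p : J} (q : J) (hi : deg i = 1) (hp : deg p = 0) :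
    2 * ∑ b : {j // deg j = 1}, ∑ s : {j // deg j = 0}, (∑ a, om⁻¹ b a * D i p a s) *
      (∑ c, om⁻¹ j c * D b s c q) = 24 * ∑ c, om⁻¹ j c * D i p c q := by
  rw [← h.sq' i p j q]
  have h1 : ∀ b s, (∑ a, om⁻¹ a b * D i p a s) * (∑ c, om⁻¹ j c * D s b c q) =
      (∑ a, om⁻¹ a s * D i p a b) * (∑ c, om⁻¹ j c * D b s c q) := by
    intro b s
    have h2 : ∑ c, om⁻¹ j c * D s b c q = kz k (deg b) (deg s) * ∑ c, om⁻¹ j c * D b s c q := by
      rw [mul_sum]
      refine sum_congr rfl fun c _ => ?_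
      rw [h.D_symm s b c q, kz_comm]; ring
    rw [h.U_symm i p b s, h2]
    linear_combination (∑ a, om⁻¹ a s * D i p a b) * (∑ c, om⁻¹ j c * D b s c q) *
      kz_mul_self (k := k) (deg b) (deg s)
  rw [h.sum_sym (fun b s => (∑ a, om⁻¹ a b * D i p a s) * (∑ c, om⁻¹ j c * D s b c q)) h1
    (fun b s hbs => by rw [h.U_deg i p b s (by omega), zero_mul])]
  congr 1
  refine sum_congr rfl fun b _ => sum_congr rfl fun s _ => ?_
  congr 1
  · refine sum_congr rfl fun a _ => ?_
    by_cases ha : deg a = -1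
    · rw [h.rho_symm a b, ha, b.2, kz_mp]; ring
    · rw [h.rho_deg b a (by rw [b.2]; omega), h.rho_deg a b (by rw [b.2]; omega)]
  · refine sum_congr rfl fun c _ => ?_
    rw [h.D_symm b s, s.2, kz_zero_right, one_mul]

/-- `(d2)` -/
lemma d2 {i j : J} (l m : J) (hi : deg i = 1) (hj : deg j = 1) :
    ∑ b : {j // deg j = 1}, ∑ s : {j // deg j = 1}, (∑ a, om⁻¹ b a * D i j a s) *
      (∑ c, om⁻¹ l c * D s b c m) = 24 * ∑ c, om⁻¹ l c * D i j c m := by
  have h1 := sum_deg (deg := deg) 1 (fun b => ∑ s, (∑ a, om⁻¹ a b * D i j a s) *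
      (∑ c, om⁻¹ l c * D s b c m)) (fun b hb => sum_eq_zero fun s _ => by
    rw [h.U_deg i j b s (by have := h.deg_le s; have := h.deg_le b; omega), zero_mul])
  rw [← h.sq' i j l m, h1]
  refine sum_congr rfl fun b _ => ?_
  have h2 := sum_deg (deg := deg) 1 (fun s => (∑ a, om⁻¹ a b * D i j a s) *
      (∑ c, om⁻¹ l c * D s b c m)) (fun s hs => by
    rw [h.U_deg i j b s (by have := h.deg_le s; have := h.deg_le b; omega), zero_mul])
  rw [h2]
  refine sum_congr rfl fun s _ => ?_
  congr 1
  refine sum_congr rfl fun a _ => ?_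
  by_cases ha : deg a = -1
  · rw [h.rho_symm a b, ha, b.2, kz_mp]; ring
  · rw [h.rho_deg b a (by rw [b.2]; omega), h.rho_deg a b (by rw [b.2]; omega)]

/-! ### the lowered tensor -/

omit h in
/-- `ω(D(e_i,e_j)e_l, e_r)` -/
def Dl (_ : Sfts deg om D) (i j l r : J) : k := ∑ m, D i j l m * om m r

lemma Dl12 (i j l r : J) : h.Dl i j l r = kz k (deg i) (deg j) * h.Dl j i l r := by
  rw [Dl, Dl, mul_sum]
  exact sum_congr rfl fun m _ => by rw [h.D_symm i j l m]; ring

lemma Dl34 (i j l r : J) : h.Dl i j l r = kz k (deg l) (deg r) * h.Dl i j r l := by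
  have h1 := h.sp i j l r
  have h2 : kz k (deg l) (deg i + deg j) * ∑ m, om l m * D i j r m =
      -(kz k (deg l) (deg r) * h.Dl i j r l) := by
    rw [Dl, mul_sum, mul_sum, ← sum_neg_distrib]
    refine sum_congr rfl fun m _ => ?_
    by_cases hm : deg m = deg i + deg j + deg r
    · rw [h.om_symm l m, hm, kz_add_right (deg l) (deg i + deg j)]
      linear_combination -(kz k (deg l) (deg r) * om m l * D i j r m) *
        kz_mul_self (k := k) (deg l) (deg i + deg j)
    · rw [h.D_deg i j r m hm]; simp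
  rw [h2] at h1
  rw [Dl]
  linear_combination h1

lemma Dl23 (i j l r : J) : h.Dl i j l r = kz k (deg j) (deg l) * h.Dl i l j r +
    (2 * om j l * om i r - om i j * om l r + kz k (deg j) (deg l) * om i l * om j r) := by
  have h1 : ∀ m, D i j l m * om m r = kz k (deg j) (deg l) * (D i l j m * om m r) +
      (2 * om j l * ((if i = m then 1 else 0) * om m r) - om i j *
        ((if l = m then 1 else 0) * om m r) +
      kz k (deg j) (deg l) * om i l * ((if j = m then 1 else 0) * om m r)) := fun m => by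
    linear_combination om m r * h.cross i j l m
  rw [Dl, sum_congr rfl fun m _ => h1 m]
  simp only [sum_add_distrib, sum_sub_distrib, ← mul_sum, Dl, ite_mul, one_mul, zero_mul,
    sum_ite_eq, mem_univ, if_true]

lemma Dl_pair_pm {m b l a : J} (hm : deg m = 1) (hb : deg b = -1) (hl : deg l = 1)
    (ha : deg a = -1) : h.Dl m b l a = h.Dl l a m b := by
  have h1 := h.Dl23 m b l a
  have h2 := h.Dl12 m l b a
  have h3 := h.Dl34 l m b a
  have h4 := h.Dl23 l m a b
  have o1 : om b a = 0 := h.om_deg _ _ (by omega)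
  have o2 : om a b = 0 := h.om_deg _ _ (by omega)
  have o3 := h.om_symm b l
  have o4 := h.om_symm l m
  rw [hb, hl, kz_mp] at h1
  rw [hm, hl, kz_pp] at h2
  rw [hb, ha, kz_mm] at h3
  rw [hm, ha, kz_pm] at h4
  rw [hb, hl, kz_mp] at o3
  rw [o1] at h1
  rw [o2] at h4
  linear_combination h1 - h2 + h3 - h4 + 2 * om m a * o3

lemma Dl_pair_zz {m b l a : J} (hm : deg m = 0) (hb : deg b = 0) (hl : deg l = 1)
    (ha : deg a = -1) : h.Dl m b l a = h.Dl l a m b := by
  have h1 := h.Dl23 m b l a
  have h2 := h.Dl12 m l b a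
  have h3 := h.Dl34 l m b a
  have h4 := h.Dl23 l m a b
  have o1 : om b a = 0 := h.om_deg _ _ (by omega)
  have o2 : om a b = 0 := h.om_deg _ _ (by omega)
  have o3 : om b l = 0 := h.om_deg _ _ (by omega)
  have o4 : om l b = 0 := h.om_deg _ _ (by omega)
  have o5 : om m l = 0 := h.om_deg _ _ (by omega)
  have o6 : om m a = 0 := h.om_deg _ _ (by omega)
  simp only [hb, hm, kz_zero_left, one_mul] at h1 h2 h3 h4
  rw [o1, o3, o5] at h1
  rw [o2, o4, o6] at h4
  linear_combination h1 + h2 + h3 + h4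

/-- pair symmetry -/
lemma Dl_pair {m b l a : J} (hmb : deg m + deg b = 0) (hl : deg l = 1)
    (ha : deg a = -1) : h.Dl m b l a = h.Dl l a m b := by
  rcases h.cases3 m with hm | hm | hm
  · have hb : deg b = 1 := by omega
    have h1 := h.Dl12 m b l a
    have h2 := h.Dl34 l a m b
    rw [hm, hb, kz_mp] at h1 h2
    rw [h1, h2, h.Dl_pair_pm hb hm hl ha]
  · exact h.Dl_pair_zz hm (by omega) hl ha
  · exact h.Dl_pair_pm hm (by omega) hl ha

lemma Dl_up (m b l : J) {r : J} (hr : deg r = 1) :
    ∑ a, om⁻¹ r a * h.Dl m b l a = D m b l r := by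
  calc ∑ a, om⁻¹ r a * h.Dl m b l a = ∑ a, ∑ s, D m b l s * (om⁻¹ r a * om s a) := by
        refine sum_congr rfl fun a _ => ?_
        rw [Dl, mul_sum]
        exact sum_congr rfl fun s _ => by ring
    _ = ∑ s, ∑ a, D m b l s * (om⁻¹ r a * om s a) := sum_comm
    _ = ∑ s, D m b l s * if r = s then 1 else 0 := by
        refine sum_congr rfl fun s _ => ?_
        rw [← mul_sum, h.rho_om_tr r s]
        by_cases hs : r = s
        · subst hs; rw [hr, kz_pp]; simp
        · simp [hs]
    _ = _ := by simp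

/-- pair symmetry with upper indices -/
lemma D_pair {m b l r : J} (hmb : deg m + deg b = 0) (hl : deg l = 1) (hr : deg r = 1) :
    D m b l r = ∑ s, (∑ a, om⁻¹ r a * D l a m s) * om s b := by
  have h1 : ∑ a, om⁻¹ r a * h.Dl m b l a = ∑ a, om⁻¹ r a * h.Dl l a m b :=
    h.sum_rho hr (fun a ha => h.Dl_pair hmb hl ha)
  rw [← h.Dl_up m b l hr, h1]
  calc ∑ a, om⁻¹ r a * h.Dl l a m b = ∑ a, ∑ s, om⁻¹ r a * D l a m s * om s b := by
        refine sum_congr rfl fun a _ => ?_
        rw [Dl, mul_sum]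
        exact sum_congr rfl fun s _ => by ring
    _ = ∑ s, ∑ a, om⁻¹ r a * D l a m s * om s b := sum_comm
    _ = _ := by
        refine sum_congr rfl fun s _ => ?_
        rw [sum_mul]

/-- the matrix of `D(e_i, e^j)` -/
noncomputable def E (_ : Sfts deg om D) (i j : J) : Matrix J J k := Matrix.of fun x y => ∑ a, om⁻¹ j a * D i a x y

lemma E_apply (i j x y : J) : h.E i j x y = ∑ a, om⁻¹ j a * D i a x y := rfl

lemma E_skew {i j : J} (hi : deg i = 1) (hj : deg j = 1) (x y : J) :
    ∑ m, h.E i j x m * om m y + ∑ m, om x m * h.E i j y m = 0 := by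
  have h1 : ∀ a, deg a = -1 → ∑ m, D i a x m * om m y = -∑ m, om x m * D i a y m := by
    intro a ha
    have h2 := h.sp i a x y
    rw [hi, ha, add_neg_cancel, kz_zero_right, one_mul] at h2
    linear_combination h2
  have h3 := h.sum_rho hj h1
  have h4 : ∑ m, h.E i j x m * om m y = ∑ a, om⁻¹ j a * ∑ m, D i a x m * om m y := by
    simp only [E_apply, sum_mul, mul_sum]
    rw [sum_comm]
    exact sum_congr rfl fun _ _ => sum_congr rfl fun _ _ => by ring
  have h5 : ∑ m, om x m * h.E i j y m = ∑ a, om⁻¹ j a * ∑ m, om x m * D i a y m := by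
    simp only [E_apply, mul_sum]
    rw [sum_comm]
    exact sum_congr rfl fun _ _ => sum_congr rfl fun _ _ => by ring
  rw [h4, h5, h3]
  simp only [mul_neg, sum_neg_distrib, neg_add_cancel]

/-- the identity `(f)` for `D(e_i, e^j)` -/
lemma sqE (i j l r : J) : ∑ a, ∑ b, ∑ m, om⁻¹ a b * h.E i j a m * D m b l r =
    24 * h.E i j l r := by
  calc ∑ a, ∑ b, ∑ m, om⁻¹ a b * h.E i j a m * D m b l r
      = ∑ a, ∑ b, ∑ m, ∑ c, om⁻¹ j c * (om⁻¹ a b * D i c a m * D m b l r) := by
        refine sum_congr rfl fun a _ => sum_congr rfl fun b _ => sum_congr rfl fun m _ => ?_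
        rw [E_apply, mul_sum, sum_mul]
        exact sum_congr rfl fun c _ => by ring
    _ = ∑ a, ∑ b, ∑ c, ∑ m, om⁻¹ j c * (om⁻¹ a b * D i c a m * D m b l r) :=
        sum_congr rfl fun a _ => sum_congr rfl fun b _ => sum_comm
    _ = ∑ a, ∑ c, ∑ b, ∑ m, om⁻¹ j c * (om⁻¹ a b * D i c a m * D m b l r) :=
        sum_congr rfl fun a _ => sum_comm
    _ = ∑ c, ∑ a, ∑ b, ∑ m, om⁻¹ j c * (om⁻¹ a b * D i c a m * D m b l r) := sum_comm
    _ = ∑ c, om⁻¹ j c * (24 * D i c l r) := by simp only [← mul_sum, h.sq]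
    _ = _ := by
        rw [E_apply, mul_sum]
        exact sum_congr rfl fun c _ => by ring

omit h in
/-- projection on degree `n` -/
def pr (k : Type*) [Field k] (deg : J → ℤ) (n : ℤ) : Matrix J J k :=
  Matrix.diagonal fun j => if deg j = n then 1 else 0

lemma pr_om (n : ℤ) : pr k deg n * om = om * pr k deg (-n) := by
  ext a b
  rw [pr, pr, Matrix.diagonal_mul, Matrix.mul_diagonal]
  by_cases hab : deg a + deg b = 0
  · by_cases ha : deg a = n
    · simp [ha, show deg b = -n by omega]
    · simp [ha, show deg b ≠ -n by omega]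
  · rw [h.om_deg a b hab]; simp

lemma pr_E {i j : J} (hij : deg i = deg j) (n : ℤ) : pr k deg n * h.E i j = h.E i j * pr k deg n := by
  ext a b
  rw [pr, Matrix.diagonal_mul, Matrix.mul_diagonal]
  by_cases hab : deg b = deg a
  · rw [hab, mul_comm]
  · rw [h.E_apply, h.E_deg i j a b (by rw [hij]; simpa using hab)]; simp

lemma E_om {i j : J} (hi : deg i = 1) (hj : deg j = 1) : h.E i j * om = -(om * (h.E i j)ᵀ) := by
  ext x y
  rw [Matrix.mul_apply, Matrix.neg_apply, Matrix.mul_apply]
  exact eq_neg_of_add_eq_zero_left (h.E_skew hi hj x y)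

lemma tr_E {i j l r : J} (hi : deg i = 1) (hj : deg j = 1) (hl : deg l = 1) (hr : deg r = 1) :
    (pr k deg (-1) * h.E i j * h.E l r).trace = (pr k deg 1 * h.E i j * h.E l r).trace := by
  have e1 : ∀ {i j : J}, deg i = 1 → deg j = 1 → h.E i j = -(om * (h.E i j)ᵀ * om⁻¹) := by
    intro i j hi hj
    rw [← neg_mul, ← h.E_om hi hj, Matrix.mul_assoc, Matrix.mul_nonsing_inv om h.om_unit,
      Matrix.mul_one]
  have e2 : pr k deg (-1) * h.E i j * h.E l r = om * (pr k deg 1 * (h.E i j)ᵀ * (h.E l r)ᵀ) * om⁻¹ := by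
    conv_lhs => rw [e1 hi hj, e1 hl hr]
    have e3 : om⁻¹ * om = 1 := Matrix.nonsing_inv_mul om h.om_unit
    have e4 := h.pr_om (-1)
    rw [neg_neg] at e4
    calc pr k deg (-1) * -(om * (h.E i j)ᵀ * om⁻¹) * -(om * (h.E l r)ᵀ * om⁻¹)
        = (pr k deg (-1) * om) * (h.E i j)ᵀ * (om⁻¹ * om) * (h.E l r)ᵀ * om⁻¹ := by
          simp only [mul_neg, neg_mul, neg_neg, Matrix.mul_assoc]
      _ = _ := by rw [e3, e4, Matrix.mul_one]; simp only [Matrix.mul_assoc]
  rw [e2, Matrix.trace_mul_comm, ← Matrix.mul_assoc, Matrix.nonsing_inv_mul om h.om_unit,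
    Matrix.one_mul, ← Matrix.trace_transpose]
  have e5 : (pr k deg 1 * (h.E i j)ᵀ * (h.E l r)ᵀ)ᵀ = h.E l r * (h.E i j * pr k deg 1) := by
    simp only [Matrix.transpose_mul, Matrix.transpose_transpose, pr, Matrix.diagonal_transpose]
  rw [e5, ← h.pr_E (hi.trans hj.symm), Matrix.trace_mul_comm]

lemma tr_pr (n : ℤ) (A B : Matrix J J k) : (pr k deg n * A * B).trace =
    ∑ a : {j // deg j = n}, ∑ m, A a m * B m a := by
  have h1 : (pr k deg n * A * B).trace = ∑ a, if deg a = n then ∑ m, A a m * B m a else 0 := by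
    rw [Matrix.trace]
    refine sum_congr rfl fun a _ => ?_
    rw [Matrix.diag_apply, Matrix.mul_assoc, pr, Matrix.diagonal_mul, Matrix.mul_apply]
    split_ifs <;> simp
  rw [h1, sum_ite_deg]

/-- `(d0)` -/
lemma d0 {i j l r : J} (hi : deg i = 1) (hj : deg j = 1) (hl : deg l = 1) (hr : deg r = 1) :
    2 * (∑ a : {j // deg j = 1}, ∑ m : {j // deg j = 1}, h.E i j a m * h.E l r m a) -
      (∑ a : {j // deg j = 0}, ∑ m : {j // deg j = 0}, h.E i j a m * h.E l r m a) =
      24 * h.E i j l r := by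
  have h0 : ∀ (i j l r : J), deg i = 1 → deg j = 1 → ∀ (n : ℤ) (a : J), deg a = n →
      ∑ m, h.E i j a m * h.E l r m a = ∑ m : {j // deg j = n}, h.E i j a m * h.E l r m a := by
    intro i j l r hi hj n a ha
    refine sum_deg n _ (fun m hm => ?_)
    rw [h.E_apply, h.E_deg i j a m (by rw [hi, hj, ha]; omega), zero_mul]
  have h1 := h.sqE i j l r
  have h2 : ∀ a, ∑ b, ∑ m, om⁻¹ a b * h.E i j a m * D m b l r =
      -(kz k (deg a) (deg a)) * ∑ m, h.E i j a m * h.E l r m a := by
    intro a
    calc ∑ b, ∑ m, om⁻¹ a b * h.E i j a m * D m b l r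
        = ∑ b, ∑ m, ∑ s, h.E i j a m * h.E l r m s * (om⁻¹ a b * om s b) := by
          refine sum_congr rfl fun b _ => sum_congr rfl fun m _ => ?_
          by_cases hm : deg m = deg a
          · by_cases hb : deg a + deg b = 0
            · rw [h.D_pair (by omega) hl hr, mul_sum]
              exact sum_congr rfl fun s _ => by rw [E_apply (j := r)]; ring
            · rw [h.rho_deg a b hb]; simp
          · rw [h.E_apply, h.E_deg i j a m (by rw [hi, hj]; omega)]; simp
      _ = ∑ m, ∑ b, ∑ s, h.E i j a m * h.E l r m s * (om⁻¹ a b * om s b) := sum_comm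
      _ = ∑ m, ∑ s, ∑ b, h.E i j a m * h.E l r m s * (om⁻¹ a b * om s b) :=
          sum_congr rfl fun m _ => sum_comm
      _ = ∑ m, ∑ s, h.E i j a m * h.E l r m s * (-(kz k (deg s) (deg s)) *
            if a = s then 1 else 0) := by
          simp only [← mul_sum, h.rho_om_tr]
      _ = ∑ m, h.E i j a m * h.E l r m a * -(kz k (deg a) (deg a)) := by
          refine sum_congr rfl fun m _ => ?_
          simp
      _ = _ := by rw [← sum_mul]; ring
  rw [sum_congr rfl fun a _ => h2 a, h.sum_deg3] at h1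
  have h3 : ∀ n : ℤ, ∑ a, (if deg a = n then -(kz k (deg a) (deg a)) *
      ∑ m, h.E i j a m * h.E l r m a else 0) = -(kz k n n) * ∑ a : {j // deg j = n},
        ∑ m, h.E i j a m * h.E l r m a := by
    intro n
    rw [sum_ite_deg n (fun a => -(kz k (deg a) (deg a)) * ∑ m, h.E i j a m * h.E l r m a), mul_sum]
    exact sum_congr rfl fun a _ => by rw [a.2]
  rw [h3, h3, h3, ← h.tr_pr (-1), ← h.tr_pr 1, h.tr_E hi hj hl hr, h.tr_pr 1] at h1
  simp only [kz_mm, kz_pp, kz_zero_left, neg_neg, one_mul, neg_mul] at h1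
  rw [sum_congr rfl fun (a : {j // deg j = 1}) _ => h0 i j l r hi hj 1 a a.2,
    sum_congr rfl fun (a : {j // deg j = 0}) _ => h0 i j l r hi hj 0 a a.2] at h1
  linear_combination h1

end basic

end Sfts

end LicciCore
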