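import Pool.Agent.Work.MP_a98e4e_ag.Core.Facts
import Pool.Agent.Work.MP_a98e4e_ag.E.KForm

/-!
# The Casimir identity on `F1 / p`
-/

set_option autoImplicit false
set_option linter.unusedSectionVars false

namespace LicciCore.UF

open Pool.Agent.Licci LicciCore Matrix

section line

variable {R : Type*} [CommRing R]

/-- the line of `p` -/
def Lp (p : E8 R) : Submodule R (E8 R) := Submodule.span R {p}

variable {p : E8 R}

theorem mem_Lp {y : E8 R} : y ∈ Lp p ↔ ∃ r : R, y = r • p := by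
  rw [Lp, Submodule.mem_span_singleton]
  exact ⟨fun ⟨r, h⟩ => ⟨r, h.symm⟩, fun ⟨r, h⟩ => ⟨r, h.symm⟩⟩

theorem smul_mem_Lp (r : R) : r • p ∈ Lp p := mem_Lp.2 ⟨r, rfl⟩

theorem Lp_sat (hs : Sat p) {c : R} (hc : c ≠ 0) {y : E8 R} (h : c • y ∈ Lp p) : y ∈ Lp p := by
  obtain ⟨r, hr⟩ := mem_Lp.1 h
  exact mem_Lp.2 (hs c hc y r hr)

end line

variable {R : Type*} [CommRing R] [IsDomain R] [CharZero R] {p : E8 R}

theorem br_Lp (hs : Sat p) (hp0 : p ≠ 0) {w y : E8 R} (hw : w ∈ F0 p) (hy : y ∈ Lp p) :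
    br w y ∈ Lp p := by
  obtain ⟨r, rfl⟩ := mem_Lp.1 hy
  obtain ⟨χ, h⟩ := F0_eigen hs hp0 hw
  rw [br_smul_right, h]
  exact (Lp p).smul_mem _ (smul_mem_Lp _)

theorem br_Lp_F1 (hc : Cone p) {y z : E8 R} (hy : y ∈ Lp p) (hz : z ∈ F1 p) : br y z = 0 := by
  obtain ⟨r, rfl⟩ := mem_Lp.1 hy
  rw [br_smul_left, br_p_F1 hc hz, smul_zero]

/-- `[p, e]` acts on `F1 / p` as the scalar `(p, e)` -/
theorem br_h_F1 (hc : Cone p) (hs : Sat p) (hp0 : p ≠ 0) {x : E8 R} (hx : x ∈ F1 p) (e : E8 R) :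
    br (br p e) x - kf p e • x ∈ Lp p := by
  obtain ⟨r, hr⟩ := br_p_br hc hs hp0 hx e
  have h1 := Pool.Agent.Licci.jacobi p e x
  rw [br_p_F1 hc hx, br_zero_right, add_zero, hr] at h1
  rw [← h1, add_sub_cancel_left]
  exact smul_mem_Lp r

theorem br_h_p (hc : Cone p) (e : E8 R) : br (br p e) p = (2 * kf p e) • p := by
  rw [br_skew, hc e, neg_smul, neg_neg]

theorem kf_h {v : E8 R} {χ : R} (hv : br v p = χ • p) (e : E8 R) :
    kf v (br p e) = χ * kf p e := by
  rw [← LicciCore.kf_inv, hv, kf_smul_left]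

/-- the first trace -/
theorem trace_one (hc : Cone p) (hs : Sat p) (hp0 : p ≠ 0) (ht : ∃ q : Fin 8, p (ix q) ≠ 0)
    {x w : Fin 56 → E8 R} {c : R} (h : DualFam p x w c) {e : E8 R} (he : kf p e ≠ 0)
    {v : E8 R} {χ : R} (hv : br v p = χ • p) :
    ∑ i, kf (w i) (br v (x i)) = 28 * c * χ := by
  have h1 := trace_id hc ht h (br_h_p hc e) hv
  have h2 : ∀ i, kf (w i) (br v (br (br p e) (x i))) = kf p e * kf (w i) (br v (x i)) := by
    intro i
    obtain ⟨r, hr⟩ := mem_Lp.1 (br_h_F1 hc hs hp0 (h.x_mem i) e)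
    rw [sub_eq_iff_eq_add] at hr
    rw [hr, br_add_right, br_smul_right, br_smul_right, hv, kf_add_right, kf_smul_right,
      kf_smul_right, kf_smul_right, LicciCore.kf_comm (w i) p, h.w_perp i]
    ring
  rw [Finset.sum_congr rfl fun i _ => h2 i, ← Finset.mul_sum] at h1
  have h3 : kf (br p e) v = χ * kf p e := by rw [LicciCore.kf_comm, kf_h hv]
  rw [h3] at h1
  refine mul_left_cancel₀ he ?_
  rw [h1]
  ring

/-- the dual vectors: `V = [p, w]` modulo `p` if `[V, z] = (w, z) p` on `F1` -/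
theorem eq_br_p (hc : Cone p) (hs : Sat p) (hp0 : p ≠ 0) {x w : Fin 56 → E8 R} {c : R}
    (h : DualFam p x w c) {V : E8 R} (hV : V ∈ F1 p) {y : E8 R} (hy : kf p y = 0)
    (hVy : ∀ z ∈ F1 p, br V z = kf y z • p) : V - br p y ∈ Lp p := by
  have h0 : V - br p y ∈ F1 p := by
    have h1 := F1_add hV (F1_smul (-1) (br_p_perp hc hp0 hy))
    rwa [neg_smul, one_smul, ← sub_eq_add_neg] at h1
  have h1 : ∀ z ∈ F1 p, br (V - br p y) z = 0 := by
    intro z hz
    rw [br_sub_left, hVy z hz, br_br_p hc hp0 hy hz, sub_self]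
  obtain ⟨r, hr⟩ := h.span _ h0
  refine Lp_sat hs h.ne ?_
  rw [hr]
  refine (Lp p).add_mem ((Lp p).sum_mem fun i _ => ?_) (smul_mem_Lp r)
  have h2 := br_br_p hc hp0 (h.w_perp i) h0
  have h3 := h1 _ (br_p_perp hc hp0 (h.w_perp i))
  rw [br_skew, neg_eq_zero] at h3
  rw [h3] at h2
  have h4 : kf (w i) (V - br p y) = 0 := by
    rcases smul_eq_zero.1 h2.symm with h5 | h5
    · exact h5
    · exact absurd h5 hp0
  rw [h4, zero_smul]
  exact zero_mem _

/-- the exchange of the lift -/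
theorem exch (hc : Cone p) (hs : Sat p) (hp0 : p ≠ 0) {W V y Z : E8 R} (hW : W ∈ F1 p)
    (hy : kf p y = 0) (hV : V - br p y ∈ Lp p) (hZ : Z ∈ F1 p) (e : E8 R) :
    br (br (br e W) V) Z - (kf p e • br (br y W) Z + (kf p e * kf y W) • Z) ∈ Lp p := by
  obtain ⟨s, hs1⟩ := mem_Lp.1 hV
  rw [sub_eq_iff_eq_add'] at hs1
  obtain ⟨r, hr⟩ := br_p_br hc hs hp0 hW e
  have e1 : br (br e W) p = -(kf p e • W + r • p) := by rw [br_skew, hr]
  have e2 : br (br e W) (br p y) = -(kf p e • br W y + r • br p y) + br p (br (br e W) y) := by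
    rw [Pool.Agent.Licci.jacobi (br e W) p y, e1, br_neg_left, br_add_left, br_smul_left,
      br_smul_left]
  have e3 : kf p (br (br e W) y) = kf p e * kf y W := by
    rw [← LicciCore.kf_inv, hr, kf_add_left, kf_smul_left, kf_smul_left, hy,
      LicciCore.kf_comm W y]
    ring
  obtain ⟨s', hs'⟩ := mem_Lp.1 (br_h_F1 hc hs hp0 hZ (br (br e W) y))
  rw [sub_eq_iff_eq_add', e3] at hs'
  obtain ⟨s'', hs''⟩ := br_F1_F1 hc hs hp0 hW hZ
  have e4 : br (br (br e W) V) Z = kf p e • br (br y W) Z + (kf p e * kf y W) • Z +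
      (s' - r * kf y Z - s * kf p e * s'') • p := by
    rw [hs1, br_add_right, br_smul_right, e2, e1, br_add_left, br_add_left, br_neg_left,
      br_smul_left, br_neg_left, br_add_left, br_add_left, br_smul_left, br_smul_left,
      br_smul_left, br_smul_left, hs', br_br_p hc hp0 hy hZ, br_p_F1 hc hZ, hs'',
      br_skew W y, br_neg_left]
    module
  rw [e4, add_sub_cancel_left]
  exact smul_mem_Lp _

/-- the Casimir identity -/
theorem uf_alg (hc : Cone p) (hs : Sat p) (hp0 : p ≠ 0) (ht : ∃ q : Fin 8, p (ix q) ≠ 0)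
    {x w : Fin 56 → E8 R} {c : R} (h : DualFam p x w c) {e : E8 R} (he : kf p e ≠ 0)
    {X Y Z H : E8 R} {W V G : Fin 56 → E8 R} {s : R}
    (hX : X ∈ F1 p) (hY : Y ∈ F1 p) (hZ : Z ∈ F1 p) (hXY : br X Y = s • p)
    (hW : ∀ i, W i ∈ F1 p) (hV : ∀ i, V i - br p (w i) ∈ Lp p)
    (hWi : ∀ i, kf p e • W i + (2 : R) • br (br (br e X) Y) (x i) + (kf p e * s) • x i ∈ Lp p)
    (hH : kf p e • H + (2 : R) • br (br (br e X) Y) Z + (kf p e * s) • Z ∈ Lp p)
    (hG : ∀ i, kf p e • G i + (2 : R) • br (br (br e (W i)) (V i)) Z -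
      (kf p e * kf (w i) (W i)) • Z ∈ Lp p) :
    ∑ i, G i - (24 * c) • H ∈ Lp p := by
  set P := kf p e with hP
  set u := br (br e X) Y with hu
  have hu0 : u ∈ F0 p := br_perp_F1 hc hp0 (kf_p_br hc hX e) hY
  obtain ⟨r0, hr0⟩ := br_p_br hc hs hp0 hX e
  have hup : br u p = (-(P * s)) • p := by
    have h1 := Pool.Agent.Licci.jacobi (br e X) Y p
    have h2 : br Y p = 0 := by rw [br_skew, br_p_F1 hc hY, neg_zero]
    have h3 : br (br e X) p = -(P • X + r0 • p) := by rw [br_skew, hr0]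
    rw [h2, br_zero_right, h3, br_neg_right, br_add_right, br_smul_right, br_smul_right, h2,
      smul_zero, add_zero, br_skew Y X, hXY] at h1
    have h4 := eq_sub_of_add_eq h1.symm
    rw [hu, h4]
    module
  set χ := -(P * s) with hχ
  choose a ha using fun i => mem_Lp.1 (hWi i)
  have hPW : ∀ i, P • W i = (-2 : R) • br u (x i) + χ • x i + a i • p := by
    intro i
    have h1 := ha i
    rw [hχ, ← h1]
    module
  have hp : br u p = χ • p := hup
  have tr : ∀ {v : E8 R} {χ' : R}, br v p = χ' • p →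
      P * ∑ i, kf (w i) (br v (W i)) = -(c * (24 * kf u v - 12 * χ * χ')) := by
    intro v χ' hv
    have h1 := trace_id hc ht h hp hv
    have h2 := trace_one hc hs hp0 ht h he hv
    have h3 : ∀ i, P * kf (w i) (br v (W i)) = -2 * kf (w i) (br v (br u (x i))) +
        χ * kf (w i) (br v (x i)) := by
      intro i
      rw [← kf_smul_right, ← br_smul_right, hPW i, br_add_right, br_add_right, br_smul_right,
        br_smul_right, br_smul_right, hv, kf_add_right, kf_add_right, kf_smul_right,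
        kf_smul_right, kf_smul_right, kf_smul_right, LicciCore.kf_comm (w i) p, h.w_perp i]
      ring
    rw [Finset.mul_sum, Finset.sum_congr rfl fun i _ => h3 i, Finset.sum_add_distrib,
      ← Finset.mul_sum, ← Finset.mul_sum, h1, h2]
    ring
  have hsum0 : ∑ i, kf (w i) (W i) = 0 := by
    have h2 := trace_one hc hs hp0 ht h he hp
    have h3 : ∀ i, P * kf (w i) (W i) = -2 * kf (w i) (br u (x i)) + χ * c := by
      intro i
      rw [← kf_smul_right, hPW i, kf_add_right, kf_add_right, kf_smul_right, kf_smul_right,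
        kf_smul_right, LicciCore.kf_comm (w i) p, h.w_perp i, h.pair i i, if_pos rfl]
      ring
    have h4 : P * ∑ i, kf (w i) (W i) = 0 := by
      rw [Finset.mul_sum, Finset.sum_congr rfl fun i _ => h3 i, Finset.sum_add_distrib,
        ← Finset.mul_sum, h2, Finset.sum_const, Finset.card_univ, Fintype.card_fin]
      simp only [nsmul_eq_mul]
      push_cast
      ring
    exact (mul_eq_zero.1 h4).resolve_left he
  set T : E8 R := ∑ i, br (w i) (W i) with hT
  have ht1 : P • P • T - (12 * c) • ((2 * P) • u - χ • br p e) ∈ F1 p := by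
    intro v hv
    obtain ⟨χ', hv'⟩ := F0_eigen hs hp0 hv
    have h1 : kf T v = -∑ i, kf (w i) (br v (W i)) := by
      rw [hT, kf_sum_left, ← Finset.sum_neg_distrib]
      refine Finset.sum_congr rfl fun i _ => ?_
      rw [LicciCore.kf_inv, br_skew, kf_neg_right]
    have h2 := tr hv'
    have h3 := kf_h hv' e
    rw [kf_sub_left, kf_smul_left, kf_smul_left, kf_smul_left, kf_sub_left, kf_smul_left,
      kf_smul_left, h1, LicciCore.kf_comm (br p e) v, h3]
    linear_combination (-P) * h2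
  have htZ : br (P • P • T - (12 * c) • ((2 * P) • u - χ • br p e)) Z ∈ Lp p :=
    mem_Lp.2 (br_F1_F1 hc hs hp0 ht1 hZ)
  have hhZ := br_h_F1 hc hs hp0 hZ e
  have hex : ∀ i, br (br (br e (W i)) (V i)) Z -
      (P • br (br (w i) (W i)) Z + (P * kf (w i) (W i)) • Z) ∈ Lp p := fun i =>
    exch hc hs hp0 (hW i) (h.w_perp i) (hV i) hZ e
  have hG1 : ∀ i, P • G i + (2 * P) • br (br (w i) (W i)) Z + (P * kf (w i) (W i)) • Z ∈ Lp p := by
    intro i
    have h1 := (Lp p).sub_mem (hG i) ((Lp p).smul_mem 2 (hex i))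
    convert h1 using 1
    module
  have hG2 : P • ∑ i, G i + (2 * P) • br T Z ∈ Lp p := by
    have h1 := (Lp p).sum_mem (t := Finset.univ) fun i _ => hG1 i
    rw [Finset.sum_add_distrib, Finset.sum_add_distrib, ← Finset.smul_sum, ← Finset.smul_sum,
      ← Finset.sum_smul, ← Finset.mul_sum, hsum0, mul_zero, zero_smul, add_zero,
      ← br_sum_left] at h1
    exact h1
  refine Lp_sat hs (mul_ne_zero he he) ?_
  rw [br_sub_left, br_smul_left, br_smul_left, br_smul_left, br_sub_left, br_smul_left,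
    br_smul_left] at htZ
  have h1 := (Lp p).smul_mem P hG2
  have h2 := (Lp p).smul_mem (-2 : R) htZ
  have h3 := (Lp p).smul_mem (24 * c * χ) hhZ
  have h4 := (Lp p).smul_mem (-(24 * c * P)) hH
  have h5 := (Lp p).add_mem ((Lp p).add_mem ((Lp p).add_mem h1 h2) h3) h4
  convert h5 using 1
  rw [hχ]
  module

end LicciCore.UF
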