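import Pool.Agent.Work.MP_a98e4e_ag.Core.ResK
import Pool.Agent.Work.MP_a98e4e_ag.Core.Uniq1
import Pool.Agent.Work.MP_a98e4e_ag.Core.Facts
import Pool.Agent.Work.MP_a98e4e_ag.L.Gen
import Pool.Agent.Work.MP_a98e4e_ag.L.Jac

/-!
# The symmetry, the cross relation and the invariance of the form
-/

set_option autoImplicit false
set_option linter.unusedSectionVars false

open Matrix Kronecker RingTheory.Sequence IsLocalRing

namespace LicciCore

open LicciCx Cx Pool.Agent.Licci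

universe u

/-- A closed map `K → L^*` is a closed map `K ⊗ L → R`. -/
theorem cl_of_dual {R : Type*} [CommRing R] {J J' : Type*} [Fintype J] [Fintype J']
    [DecidableEq J] [DecidableEq J'] {K : Cx R J} {L : Cx R J'} {f : Matrix J' J R}
    (hf : Cl K L.dual 0 f) :
    Cl (K.tensor L) (free R Unit 0) 0 (Matrix.of fun _ x => f x.2 x.1) := by
  refine Cl.mk0 ?_ ?_
  · rintro ⟨⟩ ⟨i, j⟩ h
    show f j i = 0
    apply hf.hmg
    intro h1
    apply h
    rw [dual_deg] at h1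
    show (0 : ℤ) = K.deg i + L.deg j + 0
    omega
  · rw [free_d, Matrix.zero_mul, eq_comm]
    ext ⟨⟩ ⟨i, j⟩
    rw [Matrix.zero_apply, Matrix.mul_apply, Fintype.sum_prod_type]
    simp only [tensor_d_apply, Matrix.of_apply]
    have h1 : ∑ x, ∑ y, f y x * (K.d x i * (if y = j then 1 else 0) +
        (if x = i then ((sg (K.deg x) : ℤ) : R) else 0) * L.d y j) =
        (f * K.d) j i + ((sg (K.deg i) : ℤ) : R) * ∑ y, f y i * L.d y j := by
      simp only [mul_add, Finset.sum_add_distrib]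
      congr 1
      · rw [Matrix.mul_apply]
        refine Finset.sum_congr rfl fun x _ => ?_
        rw [Finset.sum_eq_single j]
        · simp
        · intro b _ hb; simp [hb]
        · simp
      · rw [Finset.sum_eq_single i]
        · rw [Finset.mul_sum]
          refine Finset.sum_congr rfl fun y _ => ?_
          rw [if_pos rfl]; ring
        · intro b _ hb; simp [hb]
        · simp
    have h2 := congrFun (congrFun hf.comm0 j) i
    have h3 : (L.dual.d * f) j i = -(((sg (K.deg i) : ℤ) : R) * ∑ y, f y i * L.d y j) := by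
      rw [Matrix.mul_apply, dual_d, Finset.mul_sum, ← Finset.sum_neg_distrib]
      refine Finset.sum_congr rfl fun y _ => ?_
      rw [Matrix.neg_apply, Matrix.transpose_apply, Cx.e, ep, Matrix.diagonal_mul]
      by_cases hy : L.deg y = -K.deg i
      · rw [hy, sg_neg]; ring
      · rw [hf.hmg y i (by rw [dual_deg]; intro h; apply hy; omega)]; ring
    rw [h1, ← h2, h3]
    ring

namespace CoreData

variable {R : Type u} [CommRing R] [IsDomain R] [IsLocalRing R] {p : Fin 248 → R}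
  {a : Fin 6 → R} {J : Type} [Fintype J] [DecidableEq J] (D : CoreData R p a J)

/-- `ω(x, y)` -/
noncomputable def w (S : Setup R p a) (x y : J → R) : R := y ⬝ᵥ (D.Om S *ᵥ x)

/-- `ω` as a map `X ⊗ X → R` -/
noncomputable def om (S : Setup R p a) : Matrix Unit (J × J) R :=
  Matrix.of fun _ x => D.Om S x.2 x.1

theorem cl_om (S : Setup R p a) : Cl (D.X.tensor D.X) (free R Unit 0) 0 (D.om S) :=
  cl_of_dual (D.exists_Om S).choose_spec.1

theorem om_vk (S : Setup R p a) (x y : J → R) : D.om S *ᵥ vk x y = fun _ => D.w S x y := by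
  ext ⟨⟩
  rw [Matrix.mulVec, dotProduct, Fintype.sum_prod_type, w, dotProduct, Finset.sum_comm]
  refine Finset.sum_congr rfl fun j _ => ?_
  rw [Matrix.mulVec, dotProduct, Finset.mul_sum]
  refine Finset.sum_congr rfl fun i _ => ?_
  show D.Om S j i * (x i * y j) = _
  ring

variable {D} in
theorem br_aa (S : Setup R p a) {x y : J → R} (hx : x ∈ D.X.Z0) (hy : y ∈ D.X.Z0) :
    br (D.aa *ᵥ x) (D.aa *ᵥ y) = D.w S x y • p :=
  (D.exists_Om S).choose_spec.2 x hx y hy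

end CoreData

theorem Setup.exists_e {R : Type u} [CommRing R] [IsDomain R] [IsLocalRing R] {p : Fin 248 → R}
    {a : Fin 6 → R} (S : Setup R p a) : ∃ e : Fin 248 → R, kf p e ≠ 0 := by
  obtain ⟨n, e, he⟩ := S.pmem 0
  exact ⟨e, by rw [he]; exact pow_ne_zero _ (S.ne 0)⟩

namespace CoreData

variable {R : Type u} [CommRing R] [IsDomain R] [IsLocalRing R] {p : Fin 248 → R}
  {a : Fin 6 → R} {J : Type} [Fintype J] [DecidableEq J] {D : CoreData R p a J}

theorem mem_BT_of {v : J → R} (hv : v ∈ D.X.Z0) {c r : R} (hc : c ≠ 0)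
    (h : c • D.aa *ᵥ v = r • p) : v ∈ D.X.BT := by
  obtain ⟨w, h1, h2, -⟩ := D.ker (c • v) (D.X.Z0.smul_mem c hv) (-r) (by
    rw [Matrix.mulVec_smul, h, neg_smul, add_neg_cancel])
  exact ⟨c, hc, w, h1, h2.symm⟩

theorem w_skew (S : Setup R p a) {x y : J → R} (hx : x ∈ D.X.Z0) (hy : y ∈ D.X.Z0) :
    D.w S x y + D.w S y x = 0 := by
  have h1 := br_aa S hx hy
  rw [br_skew, br_aa S hy hx, eq_comm, ← sub_eq_zero, sub_neg_eq_add, ← add_smul,
    smul_eq_zero] at h1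
  exact h1.resolve_right S.p_ne

/-- the value of `D'` -/
theorem Dp_spec' (S : Setup R p a) {x y z : J → R} (hx : x ∈ D.X.Z0) (hy : y ∈ D.X.Z0)
    (hz : z ∈ D.X.Z0) (e : Fin 248 → R) : D.Dp S *ᵥ vk (vk x y) z ∈ D.X.Z0 ∧
      ∃ r : R, kf p e • D.aa *ᵥ (D.Dp S *ᵥ vk (vk x y) z) =
        br (br (br e (D.aa *ᵥ x)) (D.aa *ᵥ y)) (D.aa *ᵥ z) + r • p := by
  obtain ⟨h1, r, c, hc, h2⟩ := D.Dp_spec S hx hy hz e
  refine ⟨h1, ?_⟩
  obtain ⟨r', hr'⟩ := S.sat c hc (kf p e • D.aa *ᵥ (D.Dp S *ᵥ vk (vk x y) z) -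
    br (br (br e (D.aa *ᵥ x)) (D.aa *ᵥ y)) (D.aa *ᵥ z)) r (by
      rw [smul_sub, smul_smul, h2, add_sub_cancel_left])
  exact ⟨r', by rw [← hr', add_sub_cancel]⟩

theorem br_e_p {S : Setup R p a} [CharZero R] (e : Fin 248 → R) {z : Fin 248 → R}
    (hz : z ∈ F1 p) : ∃ c : R, br (br e p) z = -(kf p e • z + c • p) := by
  obtain ⟨c, hc⟩ := br_p_br S.cone S.sat S.p_ne hz e
  refine ⟨c, ?_⟩
  have h := jacobi e p z
  rw [br_p_F1 S.cone hz, br_zero_right, hc] at h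
  exact eq_neg_of_add_eq_zero_left h.symm

theorem br_br_skew (e x y : Fin 248 → R) : br (br e x) y - br (br e y) x = br e (br x y) := by
  rw [jacobi, br_skew x (br e y), sub_eq_add_neg]

/-- (c) -/
theorem s1 (S : Setup R p a) {x y z : J → R} (hx : x ∈ D.X.Z0) (hy : y ∈ D.X.Z0)
    (hz : z ∈ D.X.Z0) : D.Dp S *ᵥ vk (vk x y) z - D.Dp S *ᵥ vk (vk y x) z +
      D.w S x y • z ∈ D.X.BT := by
  have := S.char0
  obtain ⟨e, he⟩ := S.exists_e
  obtain ⟨h1, r, h2⟩ := Dp_spec' S hx hy hz e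
  obtain ⟨h3, r', h4⟩ := Dp_spec' S hy hx hz e
  obtain ⟨c, hc⟩ := br_e_p (S := S) e (D.mem z hz)
  refine mem_BT_of (add_mem (sub_mem h1 h3) (D.X.Z0.smul_mem _ hz)) he (r := r - r' -
    D.w S x y * c) ?_
  have h5 : br (br (br e (D.aa *ᵥ x)) (D.aa *ᵥ y)) (D.aa *ᵥ z) -
      br (br (br e (D.aa *ᵥ y)) (D.aa *ᵥ x)) (D.aa *ᵥ z) =
      D.w S x y • -(kf p e • D.aa *ᵥ z + c • p) := by
    rw [← br_sub_left, br_br_skew, br_aa S hx hy, br_smul_right, br_smul_left, hc]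
  rw [Matrix.mulVec_add, Matrix.mulVec_sub, smul_add, smul_sub, h2, h4, Matrix.mulVec_smul]
  have h6 := sub_eq_iff_eq_add.1 h5
  rw [h6]
  module

/-- (d) -/
theorem s2 (S : Setup R p a) {x y z : J → R} (hx : x ∈ D.X.Z0) (hy : y ∈ D.X.Z0)
    (hz : z ∈ D.X.Z0) : D.Dp S *ᵥ vk (vk x y) z - D.Dp S *ᵥ vk (vk x z) y +
      D.w S y z • x ∈ D.X.BT := by
  have := S.char0
  obtain ⟨e, he⟩ := S.exists_e
  obtain ⟨h1, r, h2⟩ := Dp_spec' S hx hy hz e
  obtain ⟨h3, r', h4⟩ := Dp_spec' S hx hz hy e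
  obtain ⟨c, hc⟩ := br_p_br S.cone S.sat S.p_ne (D.mem x hx) e
  refine mem_BT_of (add_mem (sub_mem h1 h3) (D.X.Z0.smul_mem _ hx)) he (r := r - r' -
    D.w S y z * c) ?_
  have h5 : br (br (br e (D.aa *ᵥ x)) (D.aa *ᵥ y)) (D.aa *ᵥ z) -
      br (br (br e (D.aa *ᵥ x)) (D.aa *ᵥ z)) (D.aa *ᵥ y) =
      D.w S y z • -(kf p e • D.aa *ᵥ x + c • p) := by
    rw [br_br_skew, br_aa S hy hz, br_smul_right, br_skew, hc]
  rw [Matrix.mulVec_add, Matrix.mulVec_sub, smul_add, smul_sub, h2, h4, Matrix.mulVec_smul]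
  have h6 := sub_eq_iff_eq_add.1 h5
  rw [h6]
  module

/-- (e) -/
theorem s3 (S : Setup R p a) {x y z v : J → R} (hx : x ∈ D.X.Z0) (hy : y ∈ D.X.Z0)
    (hz : z ∈ D.X.Z0) (hv : v ∈ D.X.Z0) :
    D.w S (D.Dp S *ᵥ vk (vk x y) z) v + D.w S z (D.Dp S *ᵥ vk (vk x y) v) +
      D.w S x y * D.w S z v = 0 := by
  have := S.char0
  obtain ⟨e, he⟩ := S.exists_e
  obtain ⟨h1, r, h2⟩ := Dp_spec' S hx hy hz e
  obtain ⟨h3, r', h4⟩ := Dp_spec' S hx hy hv e
  obtain ⟨c, hc⟩ := br_p_br S.cone S.sat S.p_ne (D.mem x hx) e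
  have hpv : br p (D.aa *ᵥ v) = 0 := br_p_F1 S.cone (D.mem v hv)
  have hpy : br p (D.aa *ᵥ y) = 0 := br_p_F1 S.cone (D.mem y hy)
  have hzp : br (D.aa *ᵥ z) p = 0 := by
    rw [br_skew, br_p_F1 S.cone (D.mem z hz), neg_zero]
  have hyp : br (D.aa *ᵥ y) p = 0 := by rw [br_skew, hpy, neg_zero]
  set T := br (br e (D.aa *ᵥ x)) (D.aa *ᵥ y) with hT
  have hTp : br T p = -((kf p e * D.w S x y) • p) := by
    have h5 := jacobi (br e (D.aa *ᵥ x)) (D.aa *ᵥ y) p
    rw [hyp, br_zero_right, ← hT, br_skew (br e (D.aa *ᵥ x)) p, hc, br_neg_right, br_add_right,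
      br_smul_right, br_smul_right, hyp, smul_zero, add_zero, br_skew (D.aa *ᵥ y),
      br_aa S hx hy] at h5
    have h6 := eq_neg_of_add_eq_zero_left h5.symm
    rw [h6]
    module
  have h5 : kf p e • br (D.aa *ᵥ (D.Dp S *ᵥ vk (vk x y) z)) (D.aa *ᵥ v) =
      br (br T (D.aa *ᵥ z)) (D.aa *ᵥ v) := by
    rw [← br_smul_left, h2, br_add_left, br_smul_left, hpv, smul_zero, add_zero]
  have h6 : kf p e • br (D.aa *ᵥ z) (D.aa *ᵥ (D.Dp S *ᵥ vk (vk x y) v)) =
      br (D.aa *ᵥ z) (br T (D.aa *ᵥ v)) := by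
    rw [← br_smul_right, h4, br_add_right, br_smul_right, hzp, smul_zero, add_zero]
  have h7 := jacobi T (D.aa *ᵥ z) (D.aa *ᵥ v)
  rw [br_aa S hz hv, br_smul_right, hTp, ← h5, ← h6, br_aa S h1 hv, br_aa S hz h3] at h7
  have h8 : (kf p e * (D.w S (D.Dp S *ᵥ vk (vk x y) z) v + D.w S z (D.Dp S *ᵥ vk (vk x y) v) +
      D.w S x y * D.w S z v)) • p = 0 := by
    have h9 := sub_eq_zero.2 h7
    rw [← neg_eq_zero] at h9
    rw [← h9]
    module
  rw [smul_eq_zero] at h8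
  exact (mul_eq_zero.1 (h8.resolve_right S.p_ne)).resolve_left he

end CoreData

end LicciCore
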